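import Pool.Agent.H941R2.F44.Cons1
import Pool.Agent.H941R2.F44.Alg0

set_option autoImplicit false
open Filter Topology
open scoped ComplexOrder InnerProductSpace

namespace Pool.Agent.H98R2.RR
open Pool.H711R2 Pool.Agent.H728R2.ISP

theorem pth_lt : ∀ t < 32, ∀ c < 2, pth t c < 64 := by decide +kernel

theorem pth_inj_fin : ∀ t : Fin 32, ∀ t' : Fin 32, ∀ c : Fin 2, ∀ c' : Fin 2,
    pth t c = pth t' c' → t = t' ∧ c = c' := by decide +kernel

theorem pth_inj : ∀ t < 32, ∀ t' < 32, ∀ c < 2, ∀ c' < 2, pth t c = pth t' c' →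
    t = t' ∧ c = c' := by
  intro t ht t' ht' c hc c' hc' h
  have := pth_inj_fin ⟨t, ht⟩ ⟨t', ht'⟩ ⟨c, hc⟩ ⟨c', hc'⟩ h
  exact ⟨by simpa using this.1, by simpa using this.2⟩

section
variable {H : Type} [NormedAddCommGroup H] [InnerProductSpace ℂ H] [CompleteSpace H]
variable {M : VonNeumannAlgebra H} {τ : (H →L[ℂ] H) →ₗ[ℂ] ℂ}

theorem phi_mm (T : Tower M τ) (k : ℕ) {s s' c c' : ℕ} (hs : s < 32) (hs' : s' < 32) (hc : c < 2)
    (hc' : c' < 2) : T.phi k s s' * T.mm k c c' = T.f k (pth s c) (pth s' c') := by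
  have hf := T.fMU k
  unfold Tower.phi Tower.mm
  rw [Finset.sum_mul, Finset.sum_eq_single c]
  · rw [Finset.mul_sum, Finset.sum_eq_single s']
    · rw [hf.mul _ (pth_lt _ hs _ hc) _ (pth_lt _ hs' _ hc) _ (pth_lt _ hs' _ hc) _
        (pth_lt _ hs' _ hc'), if_pos rfl]
    · intro t ht hts
      have ht' := Finset.mem_range.1 ht
      rw [hf.mul _ (pth_lt _ hs _ hc) _ (pth_lt _ hs' _ hc) _ (pth_lt _ ht' _ hc) _
        (pth_lt _ ht' _ hc'), if_neg]
      intro hh
      exact hts (pth_inj _ hs' _ ht' _ hc _ hc hh).1.symm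
    · intro hn
      exact absurd (Finset.mem_range.2 hs') hn
  · intro d hd hdc
    have hd' := Finset.mem_range.1 hd
    rw [Finset.mul_sum]
    apply Finset.sum_eq_zero
    intro t ht
    have ht' := Finset.mem_range.1 ht
    rw [hf.mul _ (pth_lt _ hs _ hd') _ (pth_lt _ hs' _ hd') _ (pth_lt _ ht' _ hc) _
      (pth_lt _ ht' _ hc'), if_neg]
    intro hh
    exact hdc (pth_inj _ hs' _ ht' _ hd' _ hc hh).2
  · intro hn
    exact absurd (Finset.mem_range.2 hc) hn

theorem f_eq (T : Tower M τ) (k : ℕ) {p q : ℕ} (hp : p < 64) (hq : q < 64) :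
    T.f k p q = ∑ i ∈ Finset.range (64 ^ k), T.e (k + 1) (p * 64 ^ k + i) (q * 64 ^ k + i) := by
  calc T.f k p q = (∑ i ∈ Finset.range (64 ^ k), T.e k i i) * T.f k p q := by
        rw [(T.eMU k).sum, one_mul]
    _ = _ := by
        rw [Finset.sum_mul]
        apply Finset.sum_congr rfl
        intro i hi
        have hi' := Finset.mem_range.1 hi
        exact ((T.ef k i hi' i hi' p hp q hq).2).symm

theorem e_eq (T : Tower M τ) (k : ℕ) {i j : ℕ} (hi : i < 64 ^ k) (hj : j < 64 ^ k) :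
    T.e k i j = ∑ p ∈ Finset.range 64, T.e (k + 1) (p * 64 ^ k + i) (p * 64 ^ k + j) := by
  calc T.e k i j = T.e k i j * (∑ p ∈ Finset.range 64, T.f k p p) := by
        rw [(T.fMU k).sum, mul_one]
    _ = _ := by
        rw [Finset.mul_sum]
        apply Finset.sum_congr rfl
        intro p hp
        have hp' := Finset.mem_range.1 hp
        exact ((T.ef k i hi j hj p hp' p hp').2).symm

theorem idx_lt {k p i : ℕ} (hp : p < 64) (hi : i < 64 ^ k) : p * 64 ^ k + i < 64 ^ (k + 1) := by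
  have : (p + 1) * 64 ^ k ≤ 64 * 64 ^ k := Nat.mul_le_mul_right _ (by omega)
  rw [pow_succ]
  nlinarith

/-- `x` commutes with the matrix units of level `k+1` -/
def CE (T : Tower M τ) (k : ℕ) (x : H →L[ℂ] H) : Prop :=
  ∀ i < 64 ^ (k + 1), ∀ j < 64 ^ (k + 1), x * T.e (k + 1) i j = T.e (k + 1) i j * x

theorem CE.f {T : Tower M τ} {k : ℕ} {x : H →L[ℂ] H} (h : CE T k x) {p q : ℕ} (hp : p < 64)
    (hq : q < 64) : x * T.f k p q = T.f k p q * x := by
  rw [f_eq T k hp hq, Finset.mul_sum, Finset.sum_mul]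
  apply Finset.sum_congr rfl
  intro i hi
  have hi' := Finset.mem_range.1 hi
  exact h _ (idx_lt hp hi') _ (idx_lt hq hi')

theorem CE.e {T : Tower M τ} {k : ℕ} {x : H →L[ℂ] H} (h : CE T k x) {i j : ℕ} (hi : i < 64 ^ k)
    (hj : j < 64 ^ k) : x * T.e k i j = T.e k i j * x := by
  rw [e_eq T k hi hj, Finset.mul_sum, Finset.sum_mul]
  apply Finset.sum_congr rfl
  intro p hp
  have hp' := Finset.mem_range.1 hp
  exact h _ (idx_lt hp' hi) _ (idx_lt hp' hj)

theorem CE.one {T : Tower M τ} {k : ℕ} : CE T k 1 := by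
  intro i _ j _
  rw [one_mul, mul_one]

theorem CE.smul {T : Tower M τ} {k : ℕ} {x : H →L[ℂ] H} (h : CE T k x) (a : ℂ) :
    CE T k (a • x) := by
  intro i hi j hj
  rw [smul_mul_assoc, mul_smul_comm, h i hi j hj]

theorem CE.inv {T : Tower M τ} {k : ℕ} {x y : H →L[ℂ] H} (h : CE T k x) (h1 : x * y = 1)
    (h2 : y * x = 1) : CE T k y := by
  intro i hi j hj
  calc y * T.e (k + 1) i j = y * T.e (k + 1) i j * (x * y) := by rw [h1, mul_one]
    _ = y * (T.e (k + 1) i j * x) * y := by simp only [mul_assoc]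
    _ = y * (x * T.e (k + 1) i j) * y := by rw [h i hi j hj]
    _ = (y * x) * T.e (k + 1) i j * y := by simp only [mul_assoc]
    _ = T.e (k + 1) i j * y := by rw [h2, one_mul]

theorem CE.b (T : Tower M τ) (k : ℕ) : CE T k (T.b k) := fun i hi j hj => (T.b_comm k i hi j hj).1
theorem CE.b' (T : Tower M τ) (k : ℕ) : CE T k (T.b' k) := fun i hi j hj => (T.b_comm k i hi j hj).2

theorem sum_blocks {A : Type*} [AddCommMonoid A] (g : ℕ → A) (n P : ℕ) :
    ∑ i ∈ Finset.range (P * n), g i =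
      ∑ p ∈ Finset.range P, ∑ j ∈ Finset.range n, g (p * n + j) := by
  induction P with
  | zero => simp
  | succ P ih =>
    rw [Finset.sum_range_succ, ← ih, Nat.succ_mul, Finset.sum_range_add]

theorem Jn_succ (T : Tower M τ) (k : ℕ) :
    T.Jn (k + 1) = T.Jn k + T.e k 0 (64 ^ k - 1) * T.J64 k := by
  have hn : 0 < 64 ^ k := by positivity
  set n := 64 ^ k with hn'
  have hn2 : 64 ^ (k + 1) = 64 * n := by rw [hn', pow_succ, mul_comm]
  let g : ℕ → (H →L[ℂ] H) := fun i => if i + 1 < 64 * n then T.e (k + 1) (i + 1) i else 0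
  have e1 : T.Jn (k + 1) = ∑ i ∈ Finset.range (64 * n), g i := by
    unfold Tower.Jn
    rw [hn2]
    have h64 : 64 * n = (64 * n - 1) + 1 := by omega
    conv_rhs => rw [h64, Finset.sum_range_succ]
    have g1 : g (64 * n - 1) = 0 := if_neg (by omega)
    rw [g1, add_zero]
    apply Finset.sum_congr rfl
    intro i hi
    have hi' := Finset.mem_range.1 hi
    exact (if_pos (by omega)).symm
  rw [e1, sum_blocks]
  have e2 : ∀ p ∈ Finset.range 64, ∑ j ∈ Finset.range n, g (p * n + j) =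
      T.Jn k * T.f k p p + if p < 63 then T.e k 0 (n - 1) * T.f k (p + 1) p else 0 := by
    intro p hp
    have hp' := Finset.mem_range.1 hp
    have hpn : (p + 1) * n ≤ 64 * n := Nat.mul_le_mul_right _ (by omega)
    have h3 : n = (n - 1) + 1 := by omega
    rw [h3, Finset.sum_range_succ, ← h3]
    congr 1
    · unfold Tower.Jn
      rw [Finset.sum_mul]
      apply Finset.sum_congr rfl
      intro j hj
      have hj' := Finset.mem_range.1 hj
      rw [← (T.ef k (j + 1) (by omega) j (by omega) p hp' p hp').2]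
      exact if_pos (by nlinarith)
    · by_cases h63 : p < 63
      · rw [if_pos h63, ← (T.ef k 0 hn (n - 1) (by omega) (p + 1) (by omega) p hp').2]
        have h5 : (p + 1) * n + 0 = p * n + (n - 1) + 1 := by
          rw [Nat.add_mul]; omega
        rw [h5]
        have h6 : (p + 1 + 1) * n ≤ 64 * n := Nat.mul_le_mul_right _ (by omega)
        exact if_pos (by nlinarith)
      · rw [if_neg h63]
        have hp63 : p = 63 := by omega
        subst hp63
        exact if_neg (by omega)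
  rw [Finset.sum_congr rfl e2, Finset.sum_add_distrib, ← Finset.mul_sum, (T.fMU k).sum, mul_one]
  congr 1
  unfold Tower.J64
  rw [Finset.sum_range_succ, Finset.mul_sum]
  rw [if_neg (by omega), add_zero]
  apply Finset.sum_congr rfl
  intro p hp
  rw [if_pos (Finset.mem_range.1 hp)]

/-- the subdiagonal coefficients -/
noncomputable def cc (T : Tower M τ) (k : ℕ) (w : ℕ → ℂ) (q : ℕ) : H →L[ℂ] H :=
  if q = 4 then w 0 • 1 else if q = 16 then w 1 • 1 else if q = 32 then w 2 • T.b k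
  else if q = 52 then w 3 • T.b' k else 1

/-- their inverses -/
noncomputable def cci (T : Tower M τ) (k : ℕ) (w : ℕ → ℂ) (q : ℕ) : H →L[ℂ] H :=
  if q = 4 then (w 0)⁻¹ • 1 else if q = 16 then (w 1)⁻¹ • 1 else if q = 32 then (w 2)⁻¹ • star (T.b k)
  else if q = 52 then (w 3)⁻¹ • star (T.b' k) else 1

theorem zeta_eq (T : Tower M τ) (k : ℕ) (w : ℕ → ℂ) :
    T.zeta k w = (∑ q ∈ Finset.range (64 - 1), cc T k w q * T.f k (q + 1) q) +
      (T.f k 17 4 + T.f k 33 16 + T.f k 53 32) := by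
  have h0 : T.phi k 0 4 * T.mm k 0 1 = T.f k 5 4 :=
    phi_mm T k (by omega) (by omega) (by omega) (by omega)
  have h1 : T.phi k 5 11 * T.mm k 1 0 = T.f k 17 16 :=
    phi_mm T k (by omega) (by omega) (by omega) (by omega)
  have h2 : T.phi k 12 20 * (T.mm k 0 1 * T.b k) = T.b k * T.f k 33 32 := by
    rw [← mul_assoc, (CE.b T k).f (by omega) (by omega)]
    congr 1
    exact phi_mm T k (by omega) (by omega) (by omega) (by omega)
  have h3 : T.phi k 21 31 * (T.mm k 1 0 * T.b' k) = T.b' k * T.f k 53 52 := by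
    rw [← mul_assoc, (CE.b' T k).f (by omega) (by omega)]
    congr 1
    exact phi_mm T k (by omega) (by omega) (by omega) (by omega)
  have hz : ∑ j ∈ Finset.range 4, w j • (T.phi k (ss j) (ss j + aa j - 1) * T.xx k j) =
      w 0 • T.f k 5 4 + w 1 • T.f k 17 16 + w 2 • (T.b k * T.f k 33 32) +
        w 3 • (T.b' k * T.f k 53 52) := by
    rw [← h0, ← h1, ← h2, ← h3]
    simp [Finset.sum_range_succ, ss, aa, Tower.xx]
  unfold Tower.zeta
  rw [hz]
  unfold Tower.phi cc
  simp [Finset.sum_range_succ, pth]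
  abel

theorem ALG : St_ALG := by
  intro H _ _ _ M τ T k w hw
  have hf := T.fMU k
  have hMUR : MUR 64 (T.f k) := ⟨hf.mul, hf.sum⟩
  obtain ⟨hb1, hb2, hb3, hb4⟩ := T.b_uni k
  have hCc : ∀ q, CE T k (cc T k w q) := by
    intro q
    unfold cc
    split_ifs
    · exact CE.one.smul _
    · exact CE.one.smul _
    · exact (CE.b T k).smul _
    · exact (CE.b' T k).smul _
    · exact CE.one
  have hc1 : ∀ q, cc T k w q * cci T k w q = 1 := by
    intro q
    unfold cc cci
    split_ifs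
    · rw [smul_mul_smul_comm, mul_inv_cancel₀ (hw 0 (by omega)), one_smul, one_mul]
    · rw [smul_mul_smul_comm, mul_inv_cancel₀ (hw 1 (by omega)), one_smul, one_mul]
    · rw [smul_mul_smul_comm, mul_inv_cancel₀ (hw 2 (by omega)), one_smul, hb2]
    · rw [smul_mul_smul_comm, mul_inv_cancel₀ (hw 3 (by omega)), one_smul, hb4]
    · exact one_mul 1
  have hc2 : ∀ q, cci T k w q * cc T k w q = 1 := by
    intro q
    unfold cc cci
    split_ifs
    · rw [smul_mul_smul_comm, inv_mul_cancel₀ (hw 0 (by omega)), one_smul, one_mul]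
    · rw [smul_mul_smul_comm, inv_mul_cancel₀ (hw 1 (by omega)), one_smul, one_mul]
    · rw [smul_mul_smul_comm, inv_mul_cancel₀ (hw 2 (by omega)), one_smul, hb1]
    · rw [smul_mul_smul_comm, inv_mul_cancel₀ (hw 3 (by omega)), one_smul, hb3]
    · exact one_mul 1
  have hCci : ∀ q, CE T k (cci T k w q) := fun q => (hCc q).inv (hc1 q) (hc2 q)
  have hfB : ∀ i < 64, ∀ j < 64, T.f k i j ∈ T.B (k + 1) := T.f_mem k
  obtain ⟨hbm, hbm'⟩ := T.b_mem k
  set BS : Subring (H →L[ℂ] H) := (T.B (k + 1)).toStarSubalgebra.toSubalgebra.toSubring with hBS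
  have hBSm : ∀ x, x ∈ BS ↔ x ∈ T.B (k + 1) := fun x => Iff.rfl
  have hsm : ∀ (a : ℂ) (x : H →L[ℂ] H), x ∈ T.B (k + 1) → a • x ∈ T.B (k + 1) := by
    intro a x hx
    exact (T.B (k + 1)).toStarSubalgebra.toSubalgebra.smul_mem hx a
  have h1B : (1 : H →L[ℂ] H) ∈ T.B (k + 1) := (T.B (k + 1)).toStarSubalgebra.toSubalgebra.one_mem
  have hstB : ∀ x, x ∈ T.B (k + 1) → star x ∈ T.B (k + 1) := by
    intro x hx
    exact star_mem hx
  have hcB : ∀ q, cc T k w q ∈ T.B (k + 1) := by
    intro q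
    unfold cc
    split_ifs
    · exact hsm _ _ h1B
    · exact hsm _ _ h1B
    · exact hsm _ _ hbm
    · exact hsm _ _ hbm'
    · exact h1B
  have hciB : ∀ q, cci T k w q ∈ T.B (k + 1) := by
    intro q
    unfold cci
    split_ifs
    · exact hsm _ _ h1B
    · exact hsm _ _ h1B
    · exact hsm _ _ (hstB _ hbm)
    · exact hsm _ _ (hstB _ hbm')
    · exact h1B
  have hN : ∀ i < 64, PP 64 (T.f k) (i + 2) *
      ((T.f k 17 4 + T.f k 33 16 + T.f k 53 32) * T.f k i i) =
      (T.f k 17 4 + T.f k 33 16 + T.f k 53 32) * T.f k i i := by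
    intro i hi
    have key : ∀ a b : ℕ, a < 64 → b < 64 → b + 2 ≤ a →
        PP 64 (T.f k) (i + 2) * (T.f k a b * T.f k i i) = T.f k a b * T.f k i i := by
      intro a b ha hb hab
      rw [hf.mul a ha b hb i hi i hi]
      split_ifs with h
      · subst h
        rw [PP_mul_f hMUR _ ha hb, if_pos hab]
      · rw [mul_zero]
    rw [add_mul, add_mul, mul_add, mul_add, key 17 4 (by omega) (by omega) (by omega),
      key 33 16 (by omega) (by omega) (by omega), key 53 32 (by omega) (by omega) (by omega)]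
  obtain ⟨Y, Yi, hY1, hY2, hY3, hY4⟩ := alg0 hMUR (cc T k w) (cci T k w) hc1 hc2
    (fun q i hi j hj => (hCc q).f hi hj) (fun q i hi j hj => (hCci q).f hi hj)
    (T.f k 17 4 + T.f k 33 16 + T.f k 53 32) hN
  have hYB := hY4 BS (fun i hi j hj => hfB i hi j hj) hcB hciB
    (BS.add_mem (BS.add_mem (hfB _ (by omega) _ (by omega)) (hfB _ (by omega) _ (by omega)))
      (hfB _ (by omega) _ (by omega)))
  -- commutation with the lower matrix units
  have hfe : ∀ i < 64 ^ k, ∀ j < 64 ^ k, ∀ p < 64, ∀ q < 64,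
      T.e k i j * T.f k p q = T.f k p q * T.e k i j := fun i hi j hj p hp q hq =>
    (T.ef k i hi j hj p hp q hq).1
  set CS : Subring (H →L[ℂ] H) := Subring.centralizer
    {x | ∃ i < 64 ^ k, ∃ j < 64 ^ k, x = T.e k i j} with hCS
  have hCSm : ∀ x, (∀ i < 64 ^ k, ∀ j < 64 ^ k, x * T.e k i j = T.e k i j * x) → x ∈ CS := by
    intro x hx
    rw [hCS, Subring.mem_centralizer_iff]
    rintro y ⟨i, hi, j, hj, rfl⟩
    exact (hx i hi j hj).symm
  have hfC : ∀ i < 64, ∀ j < 64, T.f k i j ∈ CS := by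
    intro i hi j hj
    apply hCSm
    intro a ha b hb
    exact (hfe a ha b hb i hi j hj).symm
  have hYC := hY4 CS hfC (fun q => hCSm _ fun i hi j hj => (hCc q).e hi hj)
    (fun q => hCSm _ fun i hi j hj => (hCci q).e hi hj)
    (CS.add_mem (CS.add_mem (hfC _ (by omega) _ (by omega)) (hfC _ (by omega) _ (by omega)))
      (hfC _ (by omega) _ (by omega)))
  have hYe : ∀ i < 64 ^ k, ∀ j < 64 ^ k, Y * T.e k i j = T.e k i j * Y := by
    intro i hi j hj
    have := hYC.1
    rw [hCS, Subring.mem_centralizer_iff] at this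
    exact (this _ ⟨i, hi, j, hj, rfl⟩).symm
  have hn : 0 < 64 ^ k := by positivity
  have hYJ : Y * T.Jn k = T.Jn k * Y := by
    unfold Tower.Jn
    rw [Finset.mul_sum, Finset.sum_mul]
    apply Finset.sum_congr rfl
    intro i hi
    have hi' := Finset.mem_range.1 hi
    exact hYe _ (by omega) _ (by omega)
  refine ⟨Y, Yi, hYB.1, hYB.2, hY1, hY2, ?_⟩
  rw [Jn_succ, zeta_eq, mul_add Y, add_mul (Y * T.Jn k)]
  have e1 : Y * T.Jn k * Yi = T.Jn k := by rw [hYJ, mul_assoc, hY1, mul_one]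
  have e2 : Y * (T.e k 0 (64 ^ k - 1) * T.J64 k) * Yi =
      T.e k 0 (64 ^ k - 1) * ((∑ q ∈ Finset.range (64 - 1), cc T k w q * T.f k (q + 1) q) +
      (T.f k 17 4 + T.f k 33 16 + T.f k 53 32)) := by
    rw [← mul_assoc, hYe 0 hn (64 ^ k - 1) (by omega), mul_assoc (T.e k 0 (64 ^ k - 1))]
    have e3 : Y * T.J64 k = ((∑ q ∈ Finset.range (64 - 1), cc T k w q * T.f k (q + 1) q) +
      (T.f k 17 4 + T.f k 33 16 + T.f k 53 32)) * Y := by
      rw [hY3]
      rfl
    rw [e3, mul_assoc, mul_assoc, hY1, mul_one]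
  rw [e1, e2]

end

end Pool.Agent.H98R2.RR
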