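import Pool.Agent.H98R2.RR.Kill

set_option autoImplicit false
open Filter Topology
open scoped ComplexOrder InnerProductSpace

namespace Pool.Agent.H98R2.RR
open Pool.H711R2

theorem BAS1_pth_lt {t c : ℕ} (ht : t < 32) (hc : c < 2) : pth t c < 64 := by
  unfold pth
  split_ifs <;> omega

theorem BAS1_pth_inj {t c t' c' : ℕ} (ht : t < 32) (hc : c < 2) (ht' : t' < 32) (hc' : c' < 2) :
    pth t c = pth t' c' ↔ t = t' ∧ c = c' := by
  constructor
  · intro h
    unfold pth at h
    split_ifs at h <;> omega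
  · rintro ⟨rfl, rfl⟩
    rfl

theorem BAS1_image : (Finset.range 32 ×ˢ Finset.range 2).image (fun x => pth x.1 x.2) =
    Finset.range 64 := by
  apply Finset.eq_of_subset_of_card_le
  · intro p hp
    obtain ⟨x, hx, rfl⟩ := Finset.mem_image.1 hp
    rw [Finset.mem_product, Finset.mem_range, Finset.mem_range] at hx
    exact Finset.mem_range.2 (BAS1_pth_lt hx.1 hx.2)
  · rw [Finset.card_image_of_injOn]
    · simp
    · intro x hx y hy hxy
      simp only [Finset.coe_product, Set.mem_prod, Finset.coe_range, Set.mem_Iio] at hx hy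
      have := (BAS1_pth_inj hx.1 hx.2 hy.1 hy.2).1 hxy
      exact Prod.ext this.1 this.2

section
variable {H : Type} [NormedAddCommGroup H] [InnerProductSpace ℂ H] [CompleteSpace H]
variable {M : VonNeumannAlgebra H} {τ : (H →L[ℂ] H) →ₗ[ℂ] ℂ}

theorem BAS1_ff (T : Tower M τ) (k : ℕ) {i j l m a b c d : ℕ} (hi : i < 32) (hj : j < 32)
    (hl : l < 32) (hm : m < 32) (ha : a < 2) (hb : b < 2) (hc : c < 2) (hd : d < 2) :
    T.f k (pth i a) (pth j b) * T.f k (pth l c) (pth m d) =
      if j = l ∧ b = c then T.f k (pth i a) (pth m d) else 0 := by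
  rw [(T.fMU k).mul _ (BAS1_pth_lt hi ha) _ (BAS1_pth_lt hj hb) _ (BAS1_pth_lt hl hc) _
    (BAS1_pth_lt hm hd)]
  simp only [BAS1_pth_inj hj hb hl hc]

theorem BAS1_sum (T : Tower M τ) (k : ℕ) :
    ∑ t ∈ Finset.range 32, ∑ c ∈ Finset.range 2, T.f k (pth t c) (pth t c) = 1 := by
  rw [← Finset.sum_product', ← (T.fMU k).sum, ← BAS1_image, Finset.sum_image]
  intro x hx y hy hxy
  simp only [Finset.coe_product, Set.mem_prod, Finset.coe_range, Set.mem_Iio] at hx hy
  have := (BAS1_pth_inj hx.1 hx.2 hy.1 hy.2).1 hxy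
  exact Prod.ext this.1 this.2

theorem BAS1_MUphi (T : Tower M τ) (k : ℕ) : MU 32 (T.phi k) := by
  refine ⟨?_, ?_, ?_⟩
  · intro i hi j hj l hl m hm
    unfold Tower.phi
    rw [Finset.sum_mul_sum]
    have h1 : ∀ c ∈ Finset.range 2, ∀ d ∈ Finset.range 2,
        T.f k (pth i c) (pth j c) * T.f k (pth l d) (pth m d) =
          if c = d then (if j = l then T.f k (pth i c) (pth m d) else 0) else 0 := by
      intro c hc d hd
      rw [Finset.mem_range] at hc hd
      rw [BAS1_ff T k hi hj hl hm hc hc hd hd]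
      by_cases h : j = l <;> by_cases h' : c = d <;> simp [h, h']
    rw [Finset.sum_congr rfl fun c hc => Finset.sum_congr rfl fun d hd => h1 c hc d hd]
    by_cases h : j = l
    · simp only [h, if_true]
      refine Finset.sum_congr rfl fun c hc => ?_
      rw [Finset.sum_ite_eq, if_pos hc]
    · simp [h]
  · intro i hi j hj
    unfold Tower.phi
    rw [star_sum]
    refine Finset.sum_congr rfl fun c hc => ?_
    rw [Finset.mem_range] at hc
    exact (T.fMU k).star _ (BAS1_pth_lt hi hc) _ (BAS1_pth_lt hj hc)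
  · unfold Tower.phi
    exact BAS1_sum T k

theorem BAS1_MUmm (T : Tower M τ) (k : ℕ) : MU 2 (T.mm k) := by
  refine ⟨?_, ?_, ?_⟩
  · intro i hi j hj l hl m hm
    unfold Tower.mm
    rw [Finset.sum_mul_sum]
    have h1 : ∀ s ∈ Finset.range 32, ∀ t ∈ Finset.range 32,
        T.f k (pth s i) (pth s j) * T.f k (pth t l) (pth t m) =
          if s = t then (if j = l then T.f k (pth s i) (pth t m) else 0) else 0 := by
      intro s hs t ht
      rw [Finset.mem_range] at hs ht
      rw [BAS1_ff T k hs hs ht ht hi hj hl hm]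
      by_cases h : j = l <;> by_cases h' : s = t <;> simp [h, h']
    rw [Finset.sum_congr rfl fun c hc => Finset.sum_congr rfl fun d hd => h1 c hc d hd]
    by_cases h : j = l
    · simp only [h, if_true]
      refine Finset.sum_congr rfl fun c hc => ?_
      rw [Finset.sum_ite_eq, if_pos hc]
    · simp [h]
  · intro i hi j hj
    unfold Tower.mm
    rw [star_sum]
    refine Finset.sum_congr rfl fun t ht => ?_
    rw [Finset.mem_range] at ht
    exact (T.fMU k).star _ (BAS1_pth_lt ht hi) _ (BAS1_pth_lt ht hj)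
  · unfold Tower.mm
    rw [Finset.sum_comm]
    exact BAS1_sum T k

theorem BAS1_pm (T : Tower M τ) (k : ℕ) {t t' c c' : ℕ} (ht : t < 32) (ht' : t' < 32)
    (hc : c < 2) (hc' : c' < 2) :
    T.phi k t t' * T.mm k c c' = T.f k (pth t c) (pth t' c') := by
  unfold Tower.phi Tower.mm
  rw [Finset.sum_mul_sum]
  have h1 : ∀ d ∈ Finset.range 2, ∀ s ∈ Finset.range 32,
      T.f k (pth t d) (pth t' d) * T.f k (pth s c) (pth s c') =
        if t' = s then (if d = c then T.f k (pth t d) (pth s c') else 0) else 0 := by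
    intro d hd s hs
    rw [Finset.mem_range] at hd hs
    rw [BAS1_ff T k ht ht' hs hs hd hd hc hc']
    by_cases h : t' = s <;> by_cases h' : d = c <;> simp [h, h']
  rw [Finset.sum_congr rfl fun d hd => Finset.sum_congr rfl fun s hs => h1 d hd s hs]
  have h2 : ∀ d ∈ Finset.range 2, ∑ s ∈ Finset.range 32,
      (if t' = s then (if d = c then T.f k (pth t d) (pth s c') else 0) else 0) =
        if d = c then T.f k (pth t d) (pth t' c') else 0 := by
    intro d _
    rw [Finset.sum_ite_eq, if_pos (Finset.mem_range.2 ht')]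
  rw [Finset.sum_congr rfl h2, Finset.sum_ite_eq', if_pos (Finset.mem_range.2 hc)]

theorem BAS1_mp (T : Tower M τ) (k : ℕ) {t t' c c' : ℕ} (ht : t < 32) (ht' : t' < 32)
    (hc : c < 2) (hc' : c' < 2) :
    T.mm k c c' * T.phi k t t' = T.f k (pth t c) (pth t' c') := by
  unfold Tower.phi Tower.mm
  rw [Finset.sum_mul_sum]
  have h1 : ∀ s ∈ Finset.range 32, ∀ d ∈ Finset.range 2,
      T.f k (pth s c) (pth s c') * T.f k (pth t d) (pth t' d) =
        if c' = d then (if s = t then T.f k (pth s c) (pth t' d) else 0) else 0 := by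
    intro s hs d hd
    rw [Finset.mem_range] at hd hs
    rw [BAS1_ff T k hs hs ht ht' hc hc' hd hd]
    by_cases h : s = t <;> by_cases h' : c' = d <;> simp [h, h']
  rw [Finset.sum_congr rfl fun d hd => Finset.sum_congr rfl fun s hs => h1 d hd s hs]
  have h2 : ∀ s ∈ Finset.range 32, ∑ d ∈ Finset.range 2,
      (if c' = d then (if s = t then T.f k (pth s c) (pth t' d) else 0) else 0) =
        if s = t then T.f k (pth s c) (pth t' c') else 0 := by
    intro d _
    rw [Finset.sum_ite_eq, if_pos (Finset.mem_range.2 hc')]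
  rw [Finset.sum_congr rfl h2, Finset.sum_ite_eq', if_pos (Finset.mem_range.2 ht)]

theorem BAS1_idx {k p i : ℕ} (hp : p < 64) (hi : i < 64 ^ k) : p * 64 ^ k + i < 64 ^ (k + 1) := by
  have h1 : (p + 1) * 64 ^ k ≤ 64 * 64 ^ k := Nat.mul_le_mul_right _ hp
  rw [pow_succ]
  nlinarith

/-- the matrix units `f` in terms of the next level -/
theorem BAS1_f (T : Tower M τ) (k : ℕ) {p q : ℕ} (hp : p < 64) (hq : q < 64) :
    T.f k p q = ∑ i ∈ Finset.range (64 ^ k), T.e (k + 1) (p * 64 ^ k + i) (q * 64 ^ k + i) := by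
  have h1 : (∑ i ∈ Finset.range (64 ^ k), T.e k i i) * T.f k p q = T.f k p q := by
    rw [(T.eMU k).sum, one_mul]
  rw [Finset.sum_mul] at h1
  rw [← h1]
  refine Finset.sum_congr rfl fun i hi => ?_
  rw [Finset.mem_range] at hi
  exact ((T.ef k i hi i hi p hp q hq).2).symm

/-- the matrix units `e k` in terms of the next level -/
theorem BAS1_e (T : Tower M τ) (k : ℕ) {i j : ℕ} (hi : i < 64 ^ k) (hj : j < 64 ^ k) :
    T.e k i j = ∑ p ∈ Finset.range 64, T.e (k + 1) (p * 64 ^ k + i) (p * 64 ^ k + j) := by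
  have h1 : T.e k i j * (∑ p ∈ Finset.range 64, T.f k p p) = T.e k i j := by
    rw [(T.fMU k).sum, mul_one]
  rw [Finset.mul_sum] at h1
  rw [← h1]
  refine Finset.sum_congr rfl fun p hp => ?_
  rw [Finset.mem_range] at hp
  exact ((T.ef k i hi j hj p hp p hp).2).symm

theorem BAS1_bf (T : Tower M τ) (k : ℕ) {p q : ℕ} (hp : p < 64) (hq : q < 64) :
    T.b k * T.f k p q = T.f k p q * T.b k ∧ T.b' k * T.f k p q = T.f k p q * T.b' k := by
  rw [BAS1_f T k hp hq]
  constructor
  · rw [Finset.mul_sum, Finset.sum_mul]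
    refine Finset.sum_congr rfl fun i hi => ?_
    rw [Finset.mem_range] at hi
    exact (T.b_comm k _ (BAS1_idx hp hi) _ (BAS1_idx hq hi)).1
  · rw [Finset.mul_sum, Finset.sum_mul]
    refine Finset.sum_congr rfl fun i hi => ?_
    rw [Finset.mem_range] at hi
    exact (T.b_comm k _ (BAS1_idx hp hi) _ (BAS1_idx hq hi)).2

end

theorem BAS1 : St_BAS1 := by
  intro H _ _ _ M τ T k
  refine ⟨BAS1_MUphi T k, BAS1_MUmm T k, ?_, ?_, ?_, ?_, ?_, ?_, ?_⟩
  · intro t ht t' ht'
    refine ⟨?_, fun c hc c' hc' => ?_⟩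
    · unfold Tower.phi
      refine sum_mem fun c hc => ?_
      rw [Finset.mem_range] at hc
      exact T.f_mem k _ (BAS1_pth_lt ht hc) _ (BAS1_pth_lt ht' hc)
    · rw [BAS1_pm T k ht ht' hc hc', BAS1_mp T k ht ht' hc hc']
  · intro c hc c' hc'
    unfold Tower.mm
    refine sum_mem fun t ht => ?_
    rw [Finset.mem_range] at ht
    exact T.f_mem k _ (BAS1_pth_lt ht hc) _ (BAS1_pth_lt ht hc')
  · intro i hi j hj
    constructor
    · intro t ht t' ht'
      unfold Tower.phi
      rw [Finset.mul_sum, Finset.sum_mul]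
      refine Finset.sum_congr rfl fun c hc => ?_
      rw [Finset.mem_range] at hc
      exact (T.ef k i hi j hj _ (BAS1_pth_lt ht hc) _ (BAS1_pth_lt ht' hc)).1
    · intro c hc c' hc'
      unfold Tower.mm
      rw [Finset.mul_sum, Finset.sum_mul]
      refine Finset.sum_congr rfl fun t ht => ?_
      rw [Finset.mem_range] at ht
      exact (T.ef k i hi j hj _ (BAS1_pth_lt ht hc) _ (BAS1_pth_lt ht hc')).1
  · intro t ht t' ht'
    unfold Tower.phi
    constructor
    · rw [Finset.mul_sum, Finset.sum_mul]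
      refine Finset.sum_congr rfl fun c hc => ?_
      rw [Finset.mem_range] at hc
      exact (BAS1_bf T k (BAS1_pth_lt ht hc) (BAS1_pth_lt ht' hc)).1
    · rw [Finset.mul_sum, Finset.sum_mul]
      refine Finset.sum_congr rfl fun c hc => ?_
      rw [Finset.mem_range] at hc
      exact (BAS1_bf T k (BAS1_pth_lt ht hc) (BAS1_pth_lt ht' hc)).2
  · intro c hc c' hc'
    unfold Tower.mm
    constructor
    · rw [Finset.mul_sum, Finset.sum_mul]
      refine Finset.sum_congr rfl fun t ht => ?_
      rw [Finset.mem_range] at ht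
      exact (BAS1_bf T k (BAS1_pth_lt ht hc) (BAS1_pth_lt ht hc')).1
    · rw [Finset.mul_sum, Finset.sum_mul]
      refine Finset.sum_congr rfl fun t ht => ?_
      rw [Finset.mem_range] at ht
      exact (BAS1_bf T k (BAS1_pth_lt ht hc) (BAS1_pth_lt ht hc')).2
  · intro i hi j hj
    rw [BAS1_e T k hi hj]
    constructor
    · rw [Finset.mul_sum, Finset.sum_mul]
      refine Finset.sum_congr rfl fun p hp => ?_
      rw [Finset.mem_range] at hp
      exact (T.b_comm k _ (BAS1_idx hp hi) _ (BAS1_idx hp hj)).1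
    · rw [Finset.mul_sum, Finset.sum_mul]
      refine Finset.sum_congr rfl fun p hp => ?_
      rw [Finset.mem_range] at hp
      exact (T.b_comm k _ (BAS1_idx hp hi) _ (BAS1_idx hp hj)).2
  · intro x hx t ht
    unfold Tower.phi
    constructor
    · rw [Finset.mul_sum, Finset.sum_mul]
      refine Finset.sum_congr rfl fun c hc => ?_
      rw [Finset.mem_range] at hc
      exact T.f_comm k x hx _ (BAS1_pth_lt ht hc)
    · rw [Finset.mul_sum, map_sum]
      have h1 : ∀ c ∈ Finset.range 2, τ (x * T.f k (pth t c) (pth t c)) = τ x / 64 := by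
        intro c hc
        rw [Finset.mem_range] at hc
        exact T.f_indep k x hx _ (BAS1_pth_lt ht hc)
      rw [Finset.sum_congr rfl h1, Finset.sum_const, Finset.card_range]
      simp only [nsmul_eq_mul]
      push_cast
      ring

end Pool.Agent.H98R2.RR
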