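import Pool.Agent.H98R2.RR.Kill

set_option autoImplicit false
open Filter Topology
open scoped ComplexOrder InnerProductSpace

namespace Pool.Agent.H98R2.RR

namespace BAS2aux

section alg

variable {R : Type} [Ring R] {n : ℕ} {e phi : ℕ → ℕ → R}

theorem sum_split (F : ℕ → R) (hn : 0 < n) :
    ∑ i ∈ Finset.range (2 * n - 1), F i =
      ∑ i ∈ Finset.range (n - 1), F i + F (n - 1) + ∑ i ∈ Finset.range (n - 1), F (n + i) := by
  have h : 2 * n - 1 = (n - 1 + 1) + (n - 1) := by omega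
  rw [h, Finset.sum_range_add, Finset.sum_range_succ]
  have h2 : n - 1 + 1 = n := by omega
  rw [h2]

theorem sum_split2 (F : ℕ → R) :
    ∑ i ∈ Finset.range (2 * n), F i =
      ∑ i ∈ Finset.range n, F i + ∑ i ∈ Finset.range n, F (n + i) := by
  rw [two_mul, Finset.sum_range_add]

theorem S_mul (hp : ∀ a < 32, ∀ b < 32, ∀ c < 32, ∀ d < 32,
      phi a b * phi c d = if b = c then phi a d else 0) (a b : ℕ) (ha : a < 32) (hb : b < 32) :
    (∑ t ∈ Finset.range 31, phi (t + 1) t) * phi a b = if a < 31 then phi (a + 1) b else 0 := by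
  rw [Finset.sum_mul]
  have h : ∀ t ∈ Finset.range 31, phi (t + 1) t * phi a b =
      if t = a then phi (a + 1) b else 0 := by
    intro t ht
    have ht' := Finset.mem_range.1 ht
    rw [hp (t + 1) (by omega) t (by omega) a ha b hb]
    by_cases h : t = a
    · subst h; simp
    · simp [h]
  rw [Finset.sum_congr rfl h, Finset.sum_ite_eq']
  simp

theorem mul_S (hp : ∀ a < 32, ∀ b < 32, ∀ c < 32, ∀ d < 32,
      phi a b * phi c d = if b = c then phi a d else 0) (a b : ℕ) (ha : a < 32) (hb : b < 31) :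
    phi a (b + 1) * (∑ t ∈ Finset.range 31, phi (t + 1) t) = phi a b := by
  rw [Finset.mul_sum]
  have h : ∀ t ∈ Finset.range 31, phi a (b + 1) * phi (t + 1) t =
      if t = b then phi a b else 0 := by
    intro t ht
    have ht' := Finset.mem_range.1 ht
    rw [hp a ha (b + 1) (by omega) (t + 1) (by omega) t (by omega)]
    by_cases h : t = b
    · subst h; simp
    · have : ¬ (b + 1 = t + 1) := by omega
      rw [if_neg this, if_neg h]
  rw [Finset.sum_congr rfl h, Finset.sum_ite_eq']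
  simp [hb]

theorem zero_mul_S (hp : ∀ a < 32, ∀ b < 32, ∀ c < 32, ∀ d < 32,
      phi a b * phi c d = if b = c then phi a d else 0) (a : ℕ) (ha : a < 32) :
    phi a 0 * (∑ t ∈ Finset.range 31, phi (t + 1) t) = 0 := by
  rw [Finset.mul_sum]
  apply Finset.sum_eq_zero
  intro t ht
  have ht' := Finset.mem_range.1 ht
  rw [hp a ha 0 (by omega) (t + 1) (by omega) t (by omega)]
  simp

theorem alg (hn : 0 < n)
    (he : ∀ i < n, ∀ j < n, ∀ l < n, ∀ m < n, e i j * e l m = if j = l then e i m else 0)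
    (hes : ∑ i ∈ Finset.range n, e i i = 1)
    (hp : ∀ a < 32, ∀ b < 32, ∀ c < 32, ∀ d < 32,
      phi a b * phi c d = if b = c then phi a d else 0)
    (hc : ∀ i < n, ∀ j < n, ∀ t < 32, ∀ t' < 32, e i j * phi t t' = phi t t' * e i j)
    (Jn JR Th q : R) (E2 : ℕ → ℕ → R)
    (hJn : Jn = ∑ i ∈ Finset.range (n - 1), e (i + 1) i)
    (hJR : JR = Jn + e 0 (n - 1) * ∑ t ∈ Finset.range 31, phi (t + 1) t)
    (hTh : Th = phi 30 0 + phi 31 1) (hq : q = phi 0 0 + phi 1 1)
    (hE2 : ∀ i j, E2 i j = e (i % n) (j % n) * phi (i / n) (j / n)) :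
    q * q = q ∧
    JR * Th = Th * (q * JR * q) ∧
    q * JR * q = ∑ i ∈ Finset.range (2 * n - 1), E2 (i + 1) i ∧
    (∀ i < 2 * n, ∀ j < 2 * n, ∀ l < 2 * n, ∀ m < 2 * n,
      E2 i j * E2 l m = if j = l then E2 i m else 0) ∧
    ∑ i ∈ Finset.range (2 * n), E2 i i = q ∧
    ∑ i ∈ Finset.range n, E2 i i = phi 0 0 := by
  have hqq : q * q = q := by
    rw [hq]
    simp (disch := omega) [hp, mul_add, add_mul]
  have hcJ : ∀ t < 32, ∀ t' < 32, Jn * phi t t' = phi t t' * Jn := by
    intro t ht t' ht'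
    rw [hJn, Finset.sum_mul, Finset.mul_sum]
    apply Finset.sum_congr rfl
    intro i hi
    have hi' := Finset.mem_range.1 hi
    exact hc _ (by omega) _ (by omega) t ht t' ht'
  have hce : ∀ t < 32, ∀ t' < 32, e 0 (n - 1) * phi t t' = phi t t' * e 0 (n - 1) :=
    fun t ht t' ht' => hc 0 hn (n - 1) (by omega) t ht t' ht'
  obtain ⟨S, hS⟩ : ∃ S, S = ∑ t ∈ Finset.range 31, phi (t + 1) t := ⟨_, rfl⟩
  rw [← hS] at hJR
  have hSm : ∀ a b, a < 32 → b < 32 → S * phi a b = if a < 31 then phi (a + 1) b else 0 := by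
    intro a b ha hb
    rw [hS]
    exact S_mul hp a b ha hb
  -- S * Th
  have hSTh : S * Th = phi 31 0 := by
    rw [hTh, mul_add, hSm 30 0 (by norm_num) (by norm_num), hSm 31 1 (by norm_num) (by norm_num)]
    simp
  have hSq : S * q = phi 1 0 + phi 2 1 := by
    rw [hq, mul_add, hSm 0 0 (by norm_num) (by norm_num), hSm 1 1 (by norm_num) (by norm_num)]
    simp
  have hqSq : q * (phi 1 0 + phi 2 1) = phi 1 0 := by
    rw [hq]
    simp (disch := omega) [hp, mul_add, add_mul]
  have hJq : Jn * q = q * Jn := by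
    rw [hq, mul_add, add_mul, hcJ 0 (by norm_num) 0 (by norm_num),
      hcJ 1 (by norm_num) 1 (by norm_num)]
  have heq : e 0 (n - 1) * q = q * e 0 (n - 1) := by
    rw [hq, mul_add, add_mul, hce 0 (by norm_num) 0 (by norm_num),
      hce 1 (by norm_num) 1 (by norm_num)]
  have hJTh : Jn * Th = Th * Jn := by
    rw [hTh, mul_add, add_mul, hcJ 30 (by norm_num) 0 (by norm_num),
      hcJ 31 (by norm_num) 1 (by norm_num)]
  have heTh : e 0 (n - 1) * Th = Th * e 0 (n - 1) := by
    rw [hTh, mul_add, add_mul, hce 30 (by norm_num) 0 (by norm_num),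
      hce 31 (by norm_num) 1 (by norm_num)]
  have hThq : Th * q = Th := by
    rw [hTh, hq]
    simp (disch := omega) [hp, mul_add, add_mul]
  have hTh1 : Th * phi 1 0 = phi 31 0 := by
    rw [hTh]
    simp (disch := omega) [hp, add_mul]
  -- J2
  have hJ2 : q * JR * q = Jn * q + e 0 (n - 1) * phi 1 0 := by
    calc q * JR * q = q * Jn * q + (q * e 0 (n - 1)) * (S * q) := by
          rw [hJR]; noncomm_ring
      _ = Jn * (q * q) + e 0 (n - 1) * (q * (phi 1 0 + phi 2 1)) := by
          rw [← hJq, ← heq, hSq]; noncomm_ring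
      _ = Jn * q + e 0 (n - 1) * phi 1 0 := by rw [hqq, hqSq]
  have hmod : ∀ i, i < 2 * n → i / n < 2 := fun i hi =>
    Nat.div_lt_of_lt_mul (by rw [mul_comm]; exact hi)
  refine ⟨hqq, ?_, ?_, ?_, ?_, ?_⟩
  · -- JR Th = Th J2
    rw [hJ2]
    calc JR * Th = Jn * Th + e 0 (n - 1) * (S * Th) := by rw [hJR]; noncomm_ring
      _ = Jn * Th + e 0 (n - 1) * phi 31 0 := by rw [hSTh]
      _ = (Jn * (Th * q)) + e 0 (n - 1) * (Th * phi 1 0) := by rw [hThq, hTh1]
      _ = (Jn * Th) * q + (e 0 (n - 1) * Th) * phi 1 0 := by noncomm_ring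
      _ = Th * (Jn * q + e 0 (n - 1) * phi 1 0) := by rw [hJTh, heTh]; noncomm_ring
  · -- J2 as a sum
    rw [hJ2, sum_split (fun i => E2 (i + 1) i) hn]
    have h1 : ∑ i ∈ Finset.range (n - 1), E2 (i + 1) i = Jn * phi 0 0 := by
      rw [hJn, Finset.sum_mul]
      apply Finset.sum_congr rfl
      intro i hi
      have hi' := Finset.mem_range.1 hi
      rw [hE2, Nat.mod_eq_of_lt (by omega : i + 1 < n), Nat.mod_eq_of_lt (by omega : i < n),
        Nat.div_eq_of_lt (by omega : i + 1 < n), Nat.div_eq_of_lt (by omega : i < n)]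
    have h2 : E2 (n - 1 + 1) (n - 1) = e 0 (n - 1) * phi 1 0 := by
      have hh : n - 1 + 1 = n := by omega
      rw [hh, hE2, Nat.mod_self, Nat.mod_eq_of_lt (by omega : n - 1 < n), Nat.div_self hn,
        Nat.div_eq_of_lt (by omega : n - 1 < n)]
    have h3 : ∑ i ∈ Finset.range (n - 1), E2 (n + i + 1) (n + i) = Jn * phi 1 1 := by
      rw [hJn, Finset.sum_mul]
      apply Finset.sum_congr rfl
      intro i hi
      have hi' := Finset.mem_range.1 hi
      rw [hE2, add_assoc, Nat.add_mod_left, Nat.add_mod_left,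
        Nat.mod_eq_of_lt (by omega : i + 1 < n), Nat.mod_eq_of_lt (by omega : i < n),
        Nat.add_div_left _ hn, Nat.add_div_left _ hn,
        Nat.div_eq_of_lt (by omega : i + 1 < n), Nat.div_eq_of_lt (by omega : i < n)]
    rw [h1, h2, h3, hq]
    noncomm_ring
  · intro i hi j hj l hl m hm
    have e1 : e (i % n) (j % n) * phi (i / n) (j / n) * (e (l % n) (m % n) * phi (l / n) (m / n))
        = (e (i % n) (j % n) * e (l % n) (m % n)) * (phi (i / n) (j / n) * phi (l / n) (m / n)) := by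
      have hcc := hc (l % n) (Nat.mod_lt _ hn) (m % n) (Nat.mod_lt _ hn) (i / n)
        (by have := hmod i hi; omega) (j / n) (by have := hmod j hj; omega)
      calc _ = e (i % n) (j % n) * (phi (i / n) (j / n) * e (l % n) (m % n)) *
            phi (l / n) (m / n) := by noncomm_ring
        _ = _ := by rw [← hcc]; noncomm_ring
    rw [hE2, hE2, hE2, e1, he _ (Nat.mod_lt _ hn) _ (Nat.mod_lt _ hn) _ (Nat.mod_lt _ hn) _
      (Nat.mod_lt _ hn), hp _ (by have := hmod i hi; omega) _ (by have := hmod j hj; omega) _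
      (by have := hmod l hl; omega) _ (by have := hmod m hm; omega)]
    by_cases h : j = l
    · subst h; simp
    · rw [if_neg h]
      by_cases h1 : j % n = l % n
      · have h2 : j / n ≠ l / n := by
          intro h2
          apply h
          rw [← Nat.div_add_mod j n, ← Nat.div_add_mod l n, h1, h2]
        rw [if_neg h2, mul_zero]
      · rw [if_neg h1, zero_mul]
  · have h1 : ∑ i ∈ Finset.range n, E2 i i = phi 0 0 := by
      have : ∑ i ∈ Finset.range n, E2 i i = (∑ i ∈ Finset.range n, e i i) * phi 0 0 := by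
        rw [Finset.sum_mul]
        apply Finset.sum_congr rfl
        intro i hi
        have hi' := Finset.mem_range.1 hi
        rw [hE2, Nat.mod_eq_of_lt hi', Nat.div_eq_of_lt hi']
      rw [this, hes, one_mul]
    have h2 : ∑ i ∈ Finset.range n, E2 (n + i) (n + i) = phi 1 1 := by
      have : ∑ i ∈ Finset.range n, E2 (n + i) (n + i) =
          (∑ i ∈ Finset.range n, e i i) * phi 1 1 := by
        rw [Finset.sum_mul]
        apply Finset.sum_congr rfl
        intro i hi
        have hi' := Finset.mem_range.1 hi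
        rw [hE2, Nat.add_mod_left, Nat.mod_eq_of_lt hi', Nat.add_div_left _ hn,
          Nat.div_eq_of_lt hi']
      rw [this, hes, one_mul]
    rw [sum_split2 (fun i => E2 i i), h1, h2, hq]
  · have : ∑ i ∈ Finset.range n, E2 i i = (∑ i ∈ Finset.range n, e i i) * phi 0 0 := by
      rw [Finset.sum_mul]
      apply Finset.sum_congr rfl
      intro i hi
      have hi' := Finset.mem_range.1 hi
      rw [hE2, Nat.mod_eq_of_lt hi', Nat.div_eq_of_lt hi']
    rw [this, hes, one_mul]

end alg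

end BAS2aux

open BAS2aux Pool.H711R2 in
theorem BAS2 (h : St_BAS1) : St_BAS2 := by
  intro H _ _ _ M τ T k
  obtain ⟨hphi, _, hpm, _, hec, hbp, _, _, htr⟩ := h H M τ T k
  have hn : 0 < 64 ^ k := by positivity
  obtain ⟨n, hnn⟩ : ∃ n, n = 64 ^ k := ⟨_, rfl⟩
  have heMU := T.eMU k
  rw [← hnn] at hn heMU
  have hp := hphi.mul
  have hps := hphi.star
  have hc : ∀ i < n, ∀ j < n, ∀ t < 32, ∀ t' < 32,
      T.e k i j * T.phi k t t' = T.phi k t t' * T.e k i j := by
    intro i hi j hj t ht t' ht'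
    rw [hnn] at hi hj
    exact (hec i hi j hj).1 t ht t' ht'
  have hq : T.q k = T.phi k 0 0 + T.phi k 1 1 := rfl
  have hTh : T.Th k = T.phi k 30 0 + T.phi k 31 1 := rfl
  have hE2 : ∀ i j, T.E2 k i j = T.e k (i % n) (j % n) * T.phi k (i / n) (j / n) := by
    intro i j
    rw [hnn]
    rfl
  have hJn : T.Jn k = ∑ i ∈ Finset.range (n - 1), T.e k (i + 1) i := by
    rw [hnn]
    rfl
  have hJR : T.JR k = T.Jn k + T.e k 0 (n - 1) * ∑ t ∈ Finset.range 31, T.phi k (t + 1) t := by
    rw [hnn]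
    rfl
  obtain ⟨a1, a2, a3, a4, a5, a6⟩ := alg hn heMU.mul heMU.sum hp hc (T.Jn k) (T.JR k) (T.Th k)
    (T.q k) (T.E2 k) hJn hJR hTh hq hE2
  have hsq : star (T.q k) = T.q k := by
    rw [hq, star_add, hps 0 (by norm_num) 0 (by norm_num), hps 1 (by norm_num) 1 (by norm_num)]
  have hmod : ∀ i, i < 2 * n → i / n < 2 := fun i hi =>
    Nat.div_lt_of_lt_mul (by rw [mul_comm]; exact hi)
  have hTs : star (T.Th k) = T.phi k 0 30 + T.phi k 1 31 := by
    rw [hTh, star_add, hps 30 (by norm_num) 0 (by norm_num), hps 31 (by norm_num) 1 (by norm_num)]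
  -- traces
  have hτ := T.tr
  have heB : ∀ i < n, ∀ j < n, T.e k i j ∈ T.B k := by
    intro i hi j hj
    rw [hnn] at hi hj
    exact T.e_mem k i hi j hj
  have hτe : ∀ i < n, ∀ j < n, τ (T.e k i i) = τ (T.e k j j) := by
    intro i hi j hj
    have h1 := hτ.trace (T.e k i j) (T.B_sub k _ (heB i hi j hj)) (T.e k j i)
      (T.B_sub k _ (heB j hj i hi))
    rw [heMU.mul i hi j hj j hj i hi, heMU.mul j hj i hi i hi j hj, if_pos rfl, if_pos rfl] at h1
    exact h1
  have hτ1 : ∀ i < n, τ (T.e k i i) = 1 / (n : ℂ) := by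
    intro i hi
    have h1 : ∑ j ∈ Finset.range n, τ (T.e k j j) = 1 := by
      rw [← map_sum, heMU.sum]
      exact hτ.one
    have h2 : ∑ j ∈ Finset.range n, τ (T.e k j j) = (n : ℂ) * τ (T.e k i i) := by
      rw [Finset.sum_congr rfl (fun j hj => hτe j (Finset.mem_range.1 hj) i hi),
        Finset.sum_const, Finset.card_range, nsmul_eq_mul]
    rw [h1] at h2
    have hn0 : (n : ℂ) ≠ 0 := by exact_mod_cast hn.ne'
    field_simp
    rw [mul_comm]
    exact h2.symm
  rw [← hnn]
  refine ⟨⟨a1, hsq⟩, ?_, ?_, ?_, a2, a3, a4, ?_, a5, a6, ?_, ?_, ?_, ?_⟩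
  · rw [hq]
    exact vn_add (hpm 0 (by norm_num) 0 (by norm_num)).1 (hpm 1 (by norm_num) 1 (by norm_num)).1
  · rw [hTs, hTh, hq]
    simp (disch := omega) [hp, mul_add, add_mul]
  · rw [hTs, hTh]
    simp (disch := omega) [hp, mul_add, add_mul]
  · intro i hi j hj
    have hi2 := hmod i hi
    have hj2 := hmod j hj
    rw [hE2, hE2, star_mul, heMU.star _ (Nat.mod_lt _ hn) _ (Nat.mod_lt _ hn),
      hps _ (by omega) _ (by omega), hc _ (Nat.mod_lt _ hn) _ (Nat.mod_lt _ hn) _ (by omega) _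
      (by omega)]
  · intro i hi L hL s hs
    have hi2 := hmod i hi
    have hm := Nat.mod_lt i hn
    have hmem : T.E2 k i i ∈ T.B (k + 1) := by
      rw [hE2]
      exact vn_mul (T.B_mono k _ (heB _ hm _ hm)) (hpm _ (by omega) _ (by omega)).1
    rw [T.d_indep k L hL _ hmem s hs, hE2, (htr _ (heB _ hm _ hm) _ (by omega)).2, hτ1 _ hm, hnn]
    push_cast
    rw [div_div, div_div]
    congr 1
    ring
  · intro c hc1 c' hc1'
    rw [hTh, add_mul, mul_add, (hpm 30 (by norm_num) 0 (by norm_num)).2 c hc1 c' hc1',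
      (hpm 31 (by norm_num) 1 (by norm_num)).2 c hc1 c' hc1']
  · rw [hTh, add_mul, mul_add, (hbp 30 (by norm_num) 0 (by norm_num)).1,
      (hbp 31 (by norm_num) 1 (by norm_num)).1]
  · rw [hTh, add_mul, mul_add, (hbp 30 (by norm_num) 0 (by norm_num)).2,
      (hbp 31 (by norm_num) 1 (by norm_num)).2]

end Pool.Agent.H98R2.RR
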