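import Pool.Agent.H98R2.RR.Kill

set_option autoImplicit false
open Filter Topology
open scoped ComplexOrder InnerProductSpace

namespace Pool.Agent.H98R2.RR
open Pool.H711R2

section
variable {H : Type} [NormedAddCommGroup H] [InnerProductSpace ℂ H] [CompleteSpace H]
variable {M : VonNeumannAlgebra H} {τ : (H →L[ℂ] H) →ₗ[ℂ] ℂ}

/-- unitaries which commute with all the matrix units -/
private structure CU_P (T : Tower M τ) (k : ℕ) (β : H →L[ℂ] H) : Prop where
  mem : β ∈ T.B (k + 1)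
  su : star β * β = 1
  us : β * star β = 1
  mm : ∀ c < 2, ∀ c' < 2, Commute β (T.mm k c c')
  phi : ∀ t < 32, ∀ t' < 32, Commute β (T.phi k t t')
  e : ∀ i < 64 ^ k, ∀ j < 64 ^ k, Commute β (T.e k i j)

private theorem CU_one (T : Tower M τ) (k : ℕ) : CU_P T k 1 where
  mem := one_mem _
  su := by simp
  us := by simp
  mm := fun _ _ _ _ => Commute.one_left _
  phi := fun _ _ _ _ => Commute.one_left _
  e := fun _ _ _ _ => Commute.one_left _

private theorem CU_b (h1 : St_BAS1) (T : Tower M τ) (k : ℕ) : CU_P T k (T.b k) := by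
  obtain ⟨-, -, -, -, -, h6, h7, h8, -⟩ := h1 H M τ T k
  exact ⟨(T.b_mem k).1, (T.b_uni k).1, (T.b_uni k).2.1, fun c hc c' hc' => (h7 c hc c' hc').1,
    fun t ht t' ht' => (h6 t ht t' ht').1, fun i hi j hj => (h8 i hi j hj).1⟩

private theorem CU_b' (h1 : St_BAS1) (T : Tower M τ) (k : ℕ) : CU_P T k (T.b' k) := by
  obtain ⟨-, -, -, -, -, h6, h7, h8, -⟩ := h1 H M τ T k
  exact ⟨(T.b_mem k).2, (T.b_uni k).2.2.1, (T.b_uni k).2.2.2,
    fun c hc c' hc' => (h7 c hc c' hc').2,
    fun t ht t' ht' => (h6 t ht t' ht').2, fun i hi j hj => (h8 i hi j hj).2⟩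

private theorem CU_main (h1 : St_BAS1) (T : Tower M τ) (k : ℕ) (β γ : H →L[ℂ] H)
    (hβ : CU_P T k β) (hγ : CU_P T k γ) (U : H →L[ℂ] H)
    (hU : U = T.mm k 0 1 * β + T.mm k 1 0 * γ) :
    U ∈ T.B (k + 1) ∧ star U * U = 1 ∧ U * star U = 1 ∧
      ∀ (L : ℕ) (C : Subalgebra ℂ (H →L[ℂ] H)), T.IsC k L C → ∀ g ∈ C, g * U = U * g := by
  obtain ⟨-, m2, p3, m4, e5, -, -, -, -⟩ := h1 H M τ T k
  have m01 : T.mm k 0 1 * T.mm k 1 0 = T.mm k 0 0 := by
    rw [m2.mul 0 (by norm_num) 1 (by norm_num) 1 (by norm_num) 0 (by norm_num), if_pos rfl]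
  have m10 : T.mm k 1 0 * T.mm k 0 1 = T.mm k 1 1 := by
    rw [m2.mul 1 (by norm_num) 0 (by norm_num) 0 (by norm_num) 1 (by norm_num), if_pos rfl]
  have z01 : T.mm k 0 1 * T.mm k 0 1 = 0 := by
    rw [m2.mul 0 (by norm_num) 1 (by norm_num) 0 (by norm_num) 1 (by norm_num),
      if_neg (by norm_num)]
  have z10 : T.mm k 1 0 * T.mm k 1 0 = 0 := by
    rw [m2.mul 1 (by norm_num) 0 (by norm_num) 1 (by norm_num) 0 (by norm_num),
      if_neg (by norm_num)]
  have s01 : star (T.mm k 0 1) = T.mm k 1 0 := m2.star 0 (by norm_num) 1 (by norm_num)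
  have s10 : star (T.mm k 1 0) = T.mm k 0 1 := m2.star 1 (by norm_num) 0 (by norm_num)
  have hsum : T.mm k 0 0 + T.mm k 1 1 = 1 := by
    have := m2.sum
    rwa [Finset.sum_range_succ, Finset.sum_range_one] at this
  have b00 := hβ.mm 0 (by norm_num) 0 (by norm_num)
  have b01 := hβ.mm 0 (by norm_num) 1 (by norm_num)
  have b10 := hβ.mm 1 (by norm_num) 0 (by norm_num)
  have b11 := hβ.mm 1 (by norm_num) 1 (by norm_num)
  have g00 := hγ.mm 0 (by norm_num) 0 (by norm_num)
  have g01 := hγ.mm 0 (by norm_num) 1 (by norm_num)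
  have g10 := hγ.mm 1 (by norm_num) 0 (by norm_num)
  have g11 := hγ.mm 1 (by norm_num) 1 (by norm_num)
  have hmem : U ∈ T.B (k + 1) := by
    rw [hU]
    exact add_mem (mul_mem (m4 0 (by norm_num) 1 (by norm_num)) hβ.mem)
      (mul_mem (m4 1 (by norm_num) 0 (by norm_num)) hγ.mem)
  have hsU : star U = star β * T.mm k 1 0 + star γ * T.mm k 0 1 := by
    rw [hU, star_add, star_mul, star_mul, s01, s10]
  have hUsum : star U * U = 1 := by
    have e1 : star U * U = star β * (T.mm k 1 0 * T.mm k 0 1) * β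
        + star β * (T.mm k 1 0 * T.mm k 1 0) * γ + star γ * (T.mm k 0 1 * T.mm k 0 1) * β
        + star γ * (T.mm k 0 1 * T.mm k 1 0) * γ := by
      rw [hsU, hU]
      noncomm_ring
    rw [e1, m10, m01, z01, z10]
    have e2 : star β * T.mm k 1 1 * β = T.mm k 1 1 := by
      rw [mul_assoc, ← b11.eq, ← mul_assoc, hβ.su, one_mul]
    have e3 : star γ * T.mm k 0 0 * γ = T.mm k 0 0 := by
      rw [mul_assoc, ← g00.eq, ← mul_assoc, hγ.su, one_mul]
    rw [e2, e3, mul_zero, zero_mul, mul_zero, zero_mul, add_zero, add_zero, add_comm, hsum]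
  have hUsum' : U * star U = 1 := by
    have e1 : U * star U = T.mm k 0 1 * (β * star β) * T.mm k 1 0
        + T.mm k 0 1 * (β * star γ) * T.mm k 0 1 + T.mm k 1 0 * (γ * star β) * T.mm k 1 0
        + T.mm k 1 0 * (γ * star γ) * T.mm k 0 1 := by
      rw [hsU, hU]
      noncomm_ring
    -- `star β` and `star γ` commute with the matrix units
    have sb10 : Commute (star β) (T.mm k 1 0) := by
      have := (b01.star_star)
      rwa [s01] at this
    have sg01 : Commute (star γ) (T.mm k 0 1) := by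
      have := (g10.star_star)
      rwa [s10] at this
    have e2 : T.mm k 0 1 * (β * star γ) * T.mm k 0 1 = 0 := by
      rw [mul_assoc, mul_assoc, sg01.eq, ← mul_assoc, ← mul_assoc, mul_assoc (T.mm k 0 1) β,
        b01.eq, ← mul_assoc, z01, zero_mul, zero_mul]
    have e3 : T.mm k 1 0 * (γ * star β) * T.mm k 1 0 = 0 := by
      rw [mul_assoc, mul_assoc, sb10.eq, ← mul_assoc, ← mul_assoc, mul_assoc (T.mm k 1 0) γ,
        g10.eq, ← mul_assoc, z10, zero_mul, zero_mul]
    rw [e1, e2, e3, hβ.us, hγ.us, mul_one, mul_one, m01, m10, add_zero, add_zero, hsum]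
  refine ⟨hmem, hUsum, hUsum', ?_⟩
  intro L C hC g hg
  obtain ⟨hL, hC'⟩ := hC
  obtain ⟨a, t, rfl⟩ := (hC' g).1 hg
  -- commutation with `phi` and `e`
  have cphi : ∀ t < 32, ∀ t' < 32, Commute (T.phi k t t') U := by
    intro t ht t' ht'
    rw [hU]
    obtain ⟨-, hp⟩ := p3 t ht t' ht'
    have q1 : Commute (T.phi k t t') (T.mm k 0 1) := hp 0 (by norm_num) 1 (by norm_num)
    have q2 : Commute (T.phi k t t') (T.mm k 1 0) := hp 1 (by norm_num) 0 (by norm_num)
    exact (q1.mul_right (hβ.phi t ht t' ht').symm).add_right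
      (q2.mul_right (hγ.phi t ht t' ht').symm)
  have ce : ∀ i < 64 ^ k, ∀ j < 64 ^ k, Commute (T.e k i j) U := by
    intro i hi j hj
    rw [hU]
    obtain ⟨-, hp⟩ := e5 i hi j hj
    have q1 : Commute (T.e k i j) (T.mm k 0 1) := hp 0 (by norm_num) 1 (by norm_num)
    have q2 : Commute (T.e k i j) (T.mm k 1 0) := hp 1 (by norm_num) 0 (by norm_num)
    exact (q1.mul_right (hβ.e i hi j hj).symm).add_right
      (q2.mul_right (hγ.e i hi j hj).symm)
  have hpos : 0 < 64 ^ k := by positivity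
  have hd : ∀ i < 2 * 64 ^ k, i / 64 ^ k < 32 := by
    intro i hi
    have : i / 64 ^ k < 2 := Nat.div_lt_of_lt_mul (by rwa [mul_comm] at hi)
    omega
  have cE : ∀ i < 2 * 64 ^ k, ∀ j < 2 * 64 ^ k, Commute (T.E2 k i j) U := by
    intro i hi j hj
    unfold Tower.E2
    exact (ce _ (Nat.mod_lt _ hpos) _ (Nat.mod_lt _ hpos)).mul_left (cphi _ (hd i hi) _ (hd j hj))
  have cd : ∀ s < 64 ^ (L - k - 1), Commute (T.d k L s) U := fun s hs =>
    T.d_comm k L hL U hmem s hs
  have cq : Commute (T.q k) U := by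
    unfold Tower.q
    exact (cphi 0 (by norm_num) 0 (by norm_num)).add_left (cphi 1 (by norm_num) 1 (by norm_num))
  have hfin : Commute (T.cw k L a t) U := by
    unfold Tower.cw
    refine Commute.add_left ?_ (((Commute.one_left U).sub_left cq).smul_left t)
    refine Commute.sum_left _ _ _ fun s hs => ?_
    refine Commute.sum_left _ _ _ fun i hi => ?_
    refine Commute.sum_left _ _ _ fun j hj => ?_
    exact ((cE i (Finset.mem_range.1 hi) j (Finset.mem_range.1 hj)).mul_left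
      (cd s (Finset.mem_range.1 hs))).smul_left _
  exact hfin.eq

end

theorem CU (h1 : St_BAS1) (_h2 : St_BAS2) : St_CU := by
  intro H _ _ _ M τ T k U hU
  unfold Tower.U at hU
  rcases hU with hU | hU | hU | hU
  · exact CU_main h1 T k 1 1 (CU_one T k) (CU_one T k) U (by rw [hU, mul_one, mul_one])
  · exact CU_main h1 T k (T.b k) 1 (CU_b h1 T k) (CU_one T k) U (by rw [hU, mul_one])
  · exact CU_main h1 T k 1 (T.b' k) (CU_one T k) (CU_b' h1 T k) U (by rw [hU, mul_one])
  · exact CU_main h1 T k (T.b k) (T.b' k) (CU_b h1 T k) (CU_b' h1 T k) U hU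

end Pool.Agent.H98R2.RR
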