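import Pool.Agent.H98R2.RR.Kill

/-! Task FD (helper487): an almost shift-invariant projection matrix is close in rank to a coordinate
projection.  Echelon forms (orders of vectors), counting, lower semicontinuity of the rank, and
compactness of the set of projections. -/

set_option autoImplicit false

namespace Pool.Agent.H98R2.RR

/-- positions `≥ j` -/
def FD_F (n j : ℕ) : Submodule ℂ (EuclideanSpace ℂ (Fin n)) where
  carrier := {v | ∀ k : Fin n, (k : ℕ) < j → v k = 0}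
  add_mem' := by
    intro a b ha hb k hk
    simp [ha k hk, hb k hk]
  zero_mem' := by
    intro k hk
    simp
  smul_mem' := by
    intro c a ha k hk
    simp [ha k hk]

def FD_ord (n : ℕ) (W : Submodule ℂ (EuclideanSpace ℂ (Fin n))) (i : ℕ) : Prop :=
  ∃ v ∈ W, v ∈ FD_F n i ∧ ∃ h : i < n, v ⟨i, h⟩ ≠ 0

open Classical in
noncomputable def FD_OS (n : ℕ) (W : Submodule ℂ (EuclideanSpace ℂ (Fin n))) : Finset ℕ :=
  (Finset.range n).filter (FD_ord n W)

theorem FD_mem_OS {n : ℕ} {W : Submodule ℂ (EuclideanSpace ℂ (Fin n))} {i : ℕ} :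
    i ∈ FD_OS n W ↔ FD_ord n W i := by
  classical
  unfold FD_OS
  rw [Finset.mem_filter, Finset.mem_range]
  exact ⟨fun h => h.2, fun h => ⟨by obtain ⟨_, _, _, h, _⟩ := h; exact h, h⟩⟩

theorem FD_OS_lt {n : ℕ} {W : Submodule ℂ (EuclideanSpace ℂ (Fin n))} {i : ℕ}
    (h : i ∈ FD_OS n W) : i < n := by
  obtain ⟨_, _, _, h, _⟩ := FD_mem_OS.1 h
  exact h

open Classical in
theorem FD_step (n : ℕ) (W : Submodule ℂ (EuclideanSpace ℂ (Fin n))) (j : ℕ) (hj : j < n) :
    Module.finrank ℂ ↥(W ⊓ FD_F n j) =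
      Module.finrank ℂ ↥(W ⊓ FD_F n (j + 1)) + if j ∈ FD_OS n W then 1 else 0 := by
  set φ : ↥(W ⊓ FD_F n j) →ₗ[ℂ] ℂ :=
    ((EuclideanSpace.proj (⟨j, hj⟩ : Fin n) : EuclideanSpace ℂ (Fin n) →L[ℂ] ℂ) :
      EuclideanSpace ℂ (Fin n) →ₗ[ℂ] ℂ).domRestrict (W ⊓ FD_F n j) with hφ
  have hφa : ∀ v : ↥(W ⊓ FD_F n j), φ v = (v : EuclideanSpace ℂ (Fin n)) ⟨j, hj⟩ := fun v => rfl
  have hmap : (LinearMap.ker φ).map (W ⊓ FD_F n j).subtype = W ⊓ FD_F n (j + 1) := by
    ext v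
    constructor
    · rintro ⟨⟨w, hw⟩, hk, rfl⟩
      refine ⟨hw.1, ?_⟩
      intro k hk'
      have h0 : w ⟨j, hj⟩ = 0 := by
        have := LinearMap.mem_ker.1 hk
        rw [hφa] at this
        exact this
      rcases Nat.lt_or_ge (k : ℕ) j with h1 | h1
      · exact hw.2 k h1
      · have h2 : k = ⟨j, hj⟩ := Fin.ext (by simp only; omega)
        rw [h2]
        exact h0
    · rintro ⟨h1, h2⟩
      refine ⟨⟨v, h1, fun k hk => h2 k (by omega)⟩, ?_, rfl⟩
      exact LinearMap.mem_ker.2 (h2 ⟨j, hj⟩ (by simp))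
  have hk : Module.finrank ℂ (LinearMap.ker φ) = Module.finrank ℂ ↥(W ⊓ FD_F n (j + 1)) := by
    rw [← hmap]
    exact (Submodule.finrank_map_subtype_eq _ _).symm
  rw [← hk]
  by_cases ho : j ∈ FD_OS n W
  · rw [if_pos ho]
    obtain ⟨v, hv1, hv2, h3, h4⟩ := FD_mem_OS.1 ho
    have hne : φ ≠ 0 := by
      intro h0
      apply h4
      have : φ ⟨v, hv1, hv2⟩ = 0 := by rw [h0]; rfl
      exact this
    exact (Module.Dual.finrank_ker_add_one_of_ne_zero hne).symm
  · rw [if_neg ho, add_zero]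
    have h0 : φ = 0 := by
      ext v
      by_contra hne
      exact ho (FD_mem_OS.2 ⟨v, v.2.1, v.2.2, hj, hne⟩)
    rw [h0, LinearMap.ker_zero, finrank_top]

theorem FD_card (n : ℕ) (W : Submodule ℂ (EuclideanSpace ℂ (Fin n))) : ∀ d : ℕ, d ≤ n →
    Module.finrank ℂ ↥(W ⊓ FD_F n (n - d)) =
      ((FD_OS n W).filter (fun i => n - d ≤ i)).card := by
  classical
  intro d
  induction d with
  | zero =>
    intro _
    have h1 : W ⊓ FD_F n (n - 0) = ⊥ := by
      rw [eq_bot_iff]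
      intro v hv
      rw [Submodule.mem_bot]
      ext k
      exact hv.2 k (by simp)
    rw [h1, finrank_bot]
    symm
    rw [Finset.card_eq_zero, Finset.filter_eq_empty_iff]
    intro i hi
    have := FD_OS_lt hi
    omega
  | succ d ih =>
    intro hd
    have h1 := FD_step n W (n - (d + 1)) (by omega)
    have h2 : n - (d + 1) + 1 = n - d := by omega
    rw [h2, ih (by omega)] at h1
    rw [h1]
    by_cases ho : n - (d + 1) ∈ FD_OS n W
    · rw [if_pos ho]
      have h3 : (FD_OS n W).filter (fun i => n - (d + 1) ≤ i) =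
          insert (n - (d + 1)) ((FD_OS n W).filter (fun i => n - d ≤ i)) := by
        ext i
        simp only [Finset.mem_filter, Finset.mem_insert]
        constructor
        · rintro ⟨h4, h5⟩
          by_cases h6 : i = n - (d + 1)
          · exact Or.inl h6
          · exact Or.inr ⟨h4, by omega⟩
        · rintro (h4 | ⟨h4, h5⟩)
          · subst h4
            exact ⟨ho, le_rfl⟩
          · exact ⟨h4, by omega⟩
      rw [h3, Finset.card_insert_of_notMem]
      simp only [Finset.mem_filter, not_and]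
      intro _
      omega
    · rw [if_neg ho, add_zero]
      congr 1
      apply Finset.filter_congr
      intro i hi
      have h6 : i ≠ n - (d + 1) := by
        rintro rfl
        exact ho hi
      omega

theorem FD_card_all (n : ℕ) (W : Submodule ℂ (EuclideanSpace ℂ (Fin n))) :
    Module.finrank ℂ W = (FD_OS n W).card := by
  have h := FD_card n W n le_rfl
  have h1 : FD_F n (n - n) = ⊤ := by
    rw [eq_top_iff]
    intro v _ k hk
    omega
  rw [h1, inf_top_eq] at h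
  rw [h]
  congr 1
  apply Finset.filter_true_of_mem
  intro i _
  omega

theorem FD_comb (n : ℕ) (E : Finset ℕ) (hE : ∀ e ∈ E, e < n) (r : ℕ → ℕ)
    (h : ∀ m < n, (E.filter (fun e => e + m < n ∧ e + m ∉ E)).card ≤ r m) :
    (E.filter (fun e => e < n - E.card)).card ^ 2 ≤ ∑ m ∈ Finset.range n, r m := by
  classical
  have hEn : E.card ≤ n := by
    have : E ⊆ Finset.range n := fun e he => Finset.mem_range.2 (hE e he)
    simpa using Finset.card_le_card this
  set j := n - E.card with hj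
  set A := E.filter (fun e => e < j) with hA
  set B := (Finset.Ico j n) \ E with hB
  have hBA : B.card = A.card := by
    have h1 : A.card + (E.filter (fun e => ¬ e < j)).card = E.card :=
      Finset.card_filter_add_card_filter_not _
    have h2 : E.filter (fun e => ¬ e < j) = Finset.Ico j n ∩ E := by
      ext e
      simp only [Finset.mem_filter, Finset.mem_inter, Finset.mem_Ico]
      constructor
      · rintro ⟨h3, h4⟩
        exact ⟨⟨by omega, hE e h3⟩, h3⟩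
      · rintro ⟨⟨h3, _⟩, h4⟩
        exact ⟨h4, by omega⟩
    have h3 : (Finset.Ico j n \ E).card + (Finset.Ico j n ∩ E).card = (Finset.Ico j n).card :=
      Finset.card_sdiff_add_card_inter _ _
    rw [Nat.card_Ico] at h3
    rw [h2] at h1
    rw [hB]
    omega
  have hAB : A.card ^ 2 = (A ×ˢ B).card := by
    rw [Finset.card_product, hBA, sq]
  rw [hAB]
  have hfib := Finset.card_eq_sum_card_fiberwise (s := A ×ˢ B) (t := Finset.range n)
    (f := fun ab : ℕ × ℕ => ab.2 - ab.1) (by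
      intro ab hab
      have hab := Finset.mem_product.1 (Finset.mem_coe.1 hab)
      have hb := Finset.mem_Ico.1 (Finset.mem_sdiff.1 hab.2).1
      simp only [Finset.coe_range, Set.mem_Iio]
      omega)
  rw [hfib]
  refine Finset.sum_le_sum fun m hm => ?_
  refine le_trans ?_ (h m (Finset.mem_range.1 hm))
  refine Finset.card_le_card_of_injOn (fun ab => ab.1) ?_ ?_
  · rintro ⟨a, b⟩ hab
    simp only [Finset.coe_filter, Set.mem_ofPred_eq, Finset.mem_product] at hab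
    obtain ⟨⟨ha, hb⟩, hm'⟩ := hab
    have ha' := Finset.mem_filter.1 ha
    have hb' := Finset.mem_sdiff.1 hb
    have hb2 := Finset.mem_Ico.1 hb'.1
    have hab2 : a + m = b := by omega
    simp only [Finset.coe_filter, Set.mem_ofPred_eq]
    refine ⟨ha'.1, by omega, ?_⟩
    rw [hab2]
    exact hb'.2
  · rintro ⟨a, b⟩ hab ⟨a', b'⟩ hab' heq
    simp only [Finset.coe_filter, Set.mem_ofPred_eq, Finset.mem_product] at hab hab'
    obtain ⟨⟨ha, hb⟩, hm'⟩ := hab
    obtain ⟨⟨ha2, hb2⟩, hm2⟩ := hab'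
    have h1 := Finset.mem_filter.1 ha
    have h2 := Finset.mem_Ico.1 (Finset.mem_sdiff.1 hb).1
    have h3 := Finset.mem_filter.1 ha2
    have h4 := Finset.mem_Ico.1 (Finset.mem_sdiff.1 hb2).1
    simp only at heq
    subst heq
    have : b = b' := by omega
    rw [this]

theorem FD_rank_le (n m : ℕ) (P J : EuclideanSpace ℂ (Fin n) →L[ℂ] EuclideanSpace ℂ (Fin n))
    (hJ : ∀ (v : EuclideanSpace ℂ (Fin n)) (i : Fin n), ((J ^ m) v) i =
      if h : m ≤ (i : ℕ) then v ⟨(i : ℕ) - m, by omega⟩ else 0) :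
    ((FD_OS n (LinearMap.range (P : EuclideanSpace ℂ (Fin n) →ₗ[ℂ] EuclideanSpace ℂ (Fin n)))).filter
      (fun e => e + m < n ∧ e + m ∉
        FD_OS n (LinearMap.range (P : EuclideanSpace ℂ (Fin n) →ₗ[ℂ] EuclideanSpace ℂ (Fin n))))).card ≤
    Module.finrank ℂ (LinearMap.range (((1 - P) * J ^ m * P :
      EuclideanSpace ℂ (Fin n) →L[ℂ] EuclideanSpace ℂ (Fin n)) :
        EuclideanSpace ℂ (Fin n) →ₗ[ℂ] EuclideanSpace ℂ (Fin n))) := by
  classical
  set U := LinearMap.range (P : EuclideanSpace ℂ (Fin n) →ₗ[ℂ] EuclideanSpace ℂ (Fin n)) with hU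
  set R := LinearMap.range (((1 - P) * J ^ m * P :
      EuclideanSpace ℂ (Fin n) →L[ℂ] EuclideanSpace ℂ (Fin n)) :
        EuclideanSpace ℂ (Fin n) →ₗ[ℂ] EuclideanSpace ℂ (Fin n)) with hR
  set Jm : EuclideanSpace ℂ (Fin n) →ₗ[ℂ] EuclideanSpace ℂ (Fin n) :=
    ((J ^ m : EuclideanSpace ℂ (Fin n) →L[ℂ] EuclideanSpace ℂ (Fin n)) :
        EuclideanSpace ℂ (Fin n) →ₗ[ℂ] EuclideanSpace ℂ (Fin n)) with hJm
  set W := U ⊔ U.map Jm with hW
  have h1 : W ≤ U ⊔ R := by
    refine sup_le le_sup_left ?_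
    rintro _ ⟨u, ⟨w, rfl⟩, rfl⟩
    have h2 : Jm (P w) = P ((J ^ m) (P w)) + ((1 - P) * J ^ m * P) w := by
      show (J ^ m) (P w) = P ((J ^ m) (P w)) + ((J ^ m) (P w) - P ((J ^ m) (P w)))
      abel
    have h3 : Jm ((P : EuclideanSpace ℂ (Fin n) →ₗ[ℂ] EuclideanSpace ℂ (Fin n)) w) =
      Jm (P w) := rfl
    rw [h3, h2]
    exact Submodule.add_mem_sup ⟨_, rfl⟩ ⟨w, rfl⟩
  have h2 : Module.finrank ℂ W ≤ Module.finrank ℂ U + Module.finrank ℂ R :=
    (Submodule.finrank_mono h1).trans (Submodule.finrank_add_le_finrank_add_finrank U R)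
  rw [FD_card_all n W, FD_card_all n U] at h2
  set T := (FD_OS n U).filter (fun e => e + m < n ∧ e + m ∉ FD_OS n U) with hT
  have h3 : FD_OS n U ∪ T.image (fun e => e + m) ⊆ FD_OS n W := by
    intro i hi
    rcases Finset.mem_union.1 hi with hi | hi
    · obtain ⟨v, hv, hv2, h, h'⟩ := FD_mem_OS.1 hi
      exact FD_mem_OS.2 ⟨v, Submodule.mem_sup_left hv, hv2, h, h'⟩
    · obtain ⟨e, he, rfl⟩ := Finset.mem_image.1 hi
      obtain ⟨he1, he2, _⟩ := Finset.mem_filter.1 he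
      obtain ⟨v, hv, hv2, h, h'⟩ := FD_mem_OS.1 he1
      refine FD_mem_OS.2 ⟨Jm v, Submodule.mem_sup_right (Submodule.mem_map_of_mem hv), ?_, he2, ?_⟩
      · intro k hk
        have h4 := hJ v k
        show ((J ^ m) v) k = 0
        rw [h4]
        split_ifs with h5
        · exact hv2 _ (by simp only; omega)
        · rfl
      · show ((J ^ m) v) ⟨e + m, he2⟩ ≠ 0
        rw [hJ v ⟨e + m, he2⟩, dif_pos (by simp)]
        have h6 : (⟨e + m - m, by omega⟩ : Fin n) = ⟨e, h⟩ := Fin.ext (by simp)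
        show v ⟨e + m - m, _⟩ ≠ 0
        rw [h6]
        exact h'
  have h4 : Disjoint (FD_OS n U) (T.image (fun e => e + m)) := by
    rw [Finset.disjoint_left]
    intro i hi hi2
    obtain ⟨e, he, rfl⟩ := Finset.mem_image.1 hi2
    exact (Finset.mem_filter.1 he).2.2 hi
  have h5 := Finset.card_le_card h3
  rw [Finset.card_union_of_disjoint h4, Finset.card_image_of_injective _
    (fun a b h => by simpa using h)] at h5
  omega

theorem FD_exact (n : ℕ) (P J : EuclideanSpace ℂ (Fin n) →L[ℂ] EuclideanSpace ℂ (Fin n))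
    (hP : P * P = P)
    (hJ : ∀ (m : ℕ) (v : EuclideanSpace ℂ (Fin n)) (i : Fin n), ((J ^ m) v) i =
      if h : m ≤ (i : ℕ) then v ⟨(i : ℕ) - m, by omega⟩ else 0) :
    ∃ s : ℕ, s ^ 2 ≤ ∑ m ∈ Finset.range n,
      Module.finrank ℂ (LinearMap.range (((1 - P) * J ^ m * P :
        EuclideanSpace ℂ (Fin n) →L[ℂ] EuclideanSpace ℂ (Fin n)) :
          EuclideanSpace ℂ (Fin n) →ₗ[ℂ] EuclideanSpace ℂ (Fin n))) ∧
    ∃ V : Submodule ℂ (EuclideanSpace ℂ (Fin n)), n ≤ Module.finrank ℂ V + s ∧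
      ∀ v ∈ V, P v ∈ FD_F n (n - Module.finrank ℂ
        (LinearMap.range (P : EuclideanSpace ℂ (Fin n) →ₗ[ℂ] EuclideanSpace ℂ (Fin n)))) := by
  classical
  have hcomb := FD_comb n
    (FD_OS n (LinearMap.range (P : EuclideanSpace ℂ (Fin n) →ₗ[ℂ] EuclideanSpace ℂ (Fin n))))
    (fun e he => FD_OS_lt he) _ (fun m _ => FD_rank_le n m P J (hJ m))
  set U := LinearMap.range (P : EuclideanSpace ℂ (Fin n) →ₗ[ℂ] EuclideanSpace ℂ (Fin n)) with hU
  refine ⟨_, hcomb, (U ⊓ FD_F n (n - Module.finrank ℂ U)) ⊔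
    LinearMap.ker (P : EuclideanSpace ℂ (Fin n) →ₗ[ℂ] EuclideanSpace ℂ (Fin n)), ?_, ?_⟩
  · have hPu : ∀ u ∈ U, P u = u := by
      rintro _ ⟨w, rfl⟩
      show P (P w) = P w
      rw [← ContinuousLinearMap.mul_apply, hP]
    have hinf : (U ⊓ FD_F n (n - Module.finrank ℂ U)) ⊓
        LinearMap.ker (P : EuclideanSpace ℂ (Fin n) →ₗ[ℂ] EuclideanSpace ℂ (Fin n)) = ⊥ := by
      rw [eq_bot_iff]
      rintro v ⟨⟨h1, _⟩, h2⟩
      rw [Submodule.mem_bot, ← hPu v h1]
      exact LinearMap.mem_ker.1 h2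
    have h1 := Submodule.finrank_sup_add_finrank_inf_eq (U ⊓ FD_F n (n - Module.finrank ℂ U))
      (LinearMap.ker (P : EuclideanSpace ℂ (Fin n) →ₗ[ℂ] EuclideanSpace ℂ (Fin n)))
    rw [hinf, finrank_bot, add_zero] at h1
    have h2 := LinearMap.finrank_range_add_finrank_ker
      (P : EuclideanSpace ℂ (Fin n) →ₗ[ℂ] EuclideanSpace ℂ (Fin n))
    rw [finrank_euclideanSpace_fin, ← hU] at h2
    have h3 := FD_card n U (Module.finrank ℂ U) (by omega)
    have h4 := FD_card_all n U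
    have h5 : ((FD_OS n U).filter (fun e => e < n - (FD_OS n U).card)).card +
        ((FD_OS n U).filter (fun e => ¬ e < n - (FD_OS n U).card)).card = (FD_OS n U).card :=
      Finset.card_filter_add_card_filter_not _
    have h6 : (FD_OS n U).filter (fun i => n - Module.finrank ℂ U ≤ i) =
        (FD_OS n U).filter (fun e => ¬ e < n - (FD_OS n U).card) := by
      apply Finset.filter_congr
      intro i _
      rw [← h4]
      omega
    rw [h6] at h3
    omega
  · intro v hv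
    obtain ⟨u, hu, k, hk, rfl⟩ := Submodule.mem_sup.1 hv
    obtain ⟨hu1, hu2⟩ := hu
    obtain ⟨w, rfl⟩ := hu1
    have h7 : P (P w) = P w := by rw [← ContinuousLinearMap.mul_apply, hP]
    have h8 : P k = 0 := LinearMap.mem_ker.1 hk
    show P (P w + k) ∈ _
    rw [map_add, h7, h8, add_zero]
    exact hu2

theorem FD_rs (n : ℕ) (A0 : EuclideanSpace ℂ (Fin n) →L[ℂ] EuclideanSpace ℂ (Fin n)) :
    ∃ c : ℝ, 0 < c ∧ ∀ A : EuclideanSpace ℂ (Fin n) →L[ℂ] EuclideanSpace ℂ (Fin n),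
      (∀ v, ‖A v - A0 v‖ ≤ c * ‖v‖) → ∀ ρ : ℕ,
      (∃ V : Submodule ℂ (EuclideanSpace ℂ (Fin n)), n ≤ Module.finrank ℂ V + ρ ∧
        ∀ v ∈ V, ‖A v‖ ≤ c * ‖v‖) →
      Module.finrank ℂ (LinearMap.range
        (A0 : EuclideanSpace ℂ (Fin n) →ₗ[ℂ] EuclideanSpace ℂ (Fin n))) ≤ ρ := by
  set K := LinearMap.ker (A0 : EuclideanSpace ℂ (Fin n) →ₗ[ℂ] EuclideanSpace ℂ (Fin n)) with hK
  set g : ↥Kᗮ →ₗ[ℂ] EuclideanSpace ℂ (Fin n) :=
    (A0 : EuclideanSpace ℂ (Fin n) →ₗ[ℂ] EuclideanSpace ℂ (Fin n)).domRestrict Kᗮ with hg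
  have hker : LinearMap.ker g = ⊥ := by
    rw [eq_bot_iff]
    rintro ⟨v, hv⟩ hv2
    have h1 : v ∈ K := LinearMap.mem_ker.1 hv2
    have h2 : v ∈ K ⊓ Kᗮ := ⟨h1, hv⟩
    rw [Submodule.inf_orthogonal_eq_bot, Submodule.mem_bot] at h2
    rw [Submodule.mem_bot]
    exact Subtype.ext h2
  obtain ⟨C, hC, hanti⟩ := g.exists_antilipschitzWith hker
  have hC' : (0 : ℝ) < C := by exact_mod_cast hC
  refine ⟨1 / (3 * C), by positivity, ?_⟩
  intro A hA ρ ⟨V, hV1, hV2⟩
  by_contra hlt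
  push Not at hlt
  have h1 := LinearMap.finrank_range_add_finrank_ker
    (A0 : EuclideanSpace ℂ (Fin n) →ₗ[ℂ] EuclideanSpace ℂ (Fin n))
  rw [finrank_euclideanSpace_fin, ← hK] at h1
  have h2 := Submodule.finrank_add_finrank_orthogonal K
  rw [finrank_euclideanSpace_fin] at h2
  have h3 := Submodule.finrank_sup_add_finrank_inf_eq V Kᗮ
  have h4 : Module.finrank ℂ ↥(V ⊔ Kᗮ) ≤ n := by
    have := Submodule.finrank_le (V ⊔ Kᗮ)
    rwa [finrank_euclideanSpace_fin] at this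
  have h5 : V ⊓ Kᗮ ≠ ⊥ := by
    intro h6
    rw [h6, finrank_bot] at h3
    omega
  obtain ⟨v, hv, hv0⟩ := Submodule.exists_mem_ne_zero_of_ne_bot h5
  have h7 : ‖v‖ ≤ C * ‖A0 v‖ := by
    have := ZeroHomClass.bound_of_antilipschitz g hanti ⟨v, hv.2⟩
    exact this
  have h8 := hV2 v hv.1
  have h9 := hA v
  have h10 : ‖A0 v‖ ≤ ‖A v‖ + ‖A v - A0 v‖ := by
    have : A0 v = A v - (A v - A0 v) := by abel
    calc ‖A0 v‖ = ‖A v - (A v - A0 v)‖ := by rw [← this]
      _ ≤ _ := norm_sub_le _ _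
  have hv1 : 0 < ‖v‖ := norm_pos_iff.2 hv0
  have h11 : ‖v‖ ≤ C * (2 * (1 / (3 * C) * ‖v‖)) :=
    h7.trans (mul_le_mul_of_nonneg_left (by linarith) hC'.le)
  have h12 : (C : ℝ) * (2 * (1 / (3 * C) * ‖v‖)) = 2 / 3 * ‖v‖ := by
    field_simp
  rw [h12] at h11
  linarith

theorem FD_rk (n : ℕ) (P Q : EuclideanSpace ℂ (Fin n) →L[ℂ] EuclideanSpace ℂ (Fin n))
    (hQ : Q * Q = Q) (h : ‖P - Q‖ < 1) :
    Module.finrank ℂ (LinearMap.range
      (Q : EuclideanSpace ℂ (Fin n) →ₗ[ℂ] EuclideanSpace ℂ (Fin n))) ≤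
    Module.finrank ℂ (LinearMap.range
      (P : EuclideanSpace ℂ (Fin n) →ₗ[ℂ] EuclideanSpace ℂ (Fin n))) := by
  set f := (P : EuclideanSpace ℂ (Fin n) →ₗ[ℂ] EuclideanSpace ℂ (Fin n)).rangeRestrict.domRestrict
    (LinearMap.range (Q : EuclideanSpace ℂ (Fin n) →ₗ[ℂ] EuclideanSpace ℂ (Fin n))) with hf
  apply LinearMap.finrank_le_finrank_of_injective (f := f)
  rw [← LinearMap.ker_eq_bot, eq_bot_iff]
  rintro ⟨u, hu⟩ hu2
  obtain ⟨w, hw⟩ := hu
  have h1 : P u = 0 := congrArg Subtype.val (LinearMap.mem_ker.1 hu2)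
  have h2 : Q u = u := by
    have h3 : Q w = u := hw
    rw [← h3, ← ContinuousLinearMap.mul_apply, hQ]
  have h4 : (P - Q) u = - u := by
    show P u - Q u = - u
    rw [h1, h2, zero_sub]
  have h5 := (P - Q).le_opNorm u
  rw [h4, norm_neg] at h5
  have h6 : ‖u‖ = 0 := by
    by_contra hne
    have : 0 < ‖u‖ := lt_of_le_of_ne (norm_nonneg _) (Ne.symm hne)
    nlinarith
  rw [Submodule.mem_bot]
  exact Subtype.ext (norm_eq_zero.1 h6)

theorem FD_shift1 (n : ℕ) (v : EuclideanSpace ℂ (Fin n)) (i : Fin n) :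
    (Matrix.toEuclideanCLM (n := Fin n) (𝕜 := ℂ) (shiftM n) v) i =
      if h : 1 ≤ (i : ℕ) then v ⟨(i : ℕ) - 1, by omega⟩ else 0 := by
  have h0 : (Matrix.toEuclideanCLM (n := Fin n) (𝕜 := ℂ) (shiftM n) v) i =
      ∑ k : Fin n, shiftM n i k * v k := rfl
  rw [h0]
  split_ifs with h
  · rw [Finset.sum_eq_single (⟨(i : ℕ) - 1, by omega⟩ : Fin n)]
    · unfold shiftM
      rw [if_pos (by simp only; omega), one_mul]
    · intro k _ hk
      unfold shiftM
      rw [if_neg, zero_mul]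
      intro h2
      apply hk
      apply Fin.ext
      simp only
      omega
    · intro h2
      exact absurd (Finset.mem_univ _) h2
  · apply Finset.sum_eq_zero
    intro k _
    unfold shiftM
    rw [if_neg (by omega), zero_mul]

theorem FD_shift (n m : ℕ) (v : EuclideanSpace ℂ (Fin n)) (i : Fin n) :
    (((Matrix.toEuclideanCLM (n := Fin n) (𝕜 := ℂ) (shiftM n)) ^ m) v) i =
      if h : m ≤ (i : ℕ) then v ⟨(i : ℕ) - m, by omega⟩ else 0 := by
  induction m generalizing i with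
  | zero =>
    rw [dif_pos (Nat.zero_le _)]
    rfl
  | succ m ih =>
    rw [pow_succ']
    show (Matrix.toEuclideanCLM (n := Fin n) (𝕜 := ℂ) (shiftM n)
      (((Matrix.toEuclideanCLM (n := Fin n) (𝕜 := ℂ) (shiftM n)) ^ m) v)) i = _
    rw [FD_shift1]
    by_cases h1 : 1 ≤ (i : ℕ)
    · rw [dif_pos h1, ih]
      by_cases h2 : m + 1 ≤ (i : ℕ)
      · rw [dif_pos (by simp only; omega), dif_pos h2]
        have h3 : (⟨(i : ℕ) - 1 - m, by omega⟩ : Fin n) = ⟨(i : ℕ) - (m + 1), by omega⟩ :=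
          Fin.ext (by simp only; omega)
        show v (⟨(i : ℕ) - 1 - m, by omega⟩ : Fin n) = v ⟨(i : ℕ) - (m + 1), by omega⟩
        rw [h3]
      · rw [dif_neg (by simp only; omega), dif_neg h2]
    · rw [dif_neg h1, dif_neg (by omega)]

theorem FD_coord (n j : ℕ) (v : EuclideanSpace ℂ (Fin n)) (hv : v ∈ FD_F n j) :
    Matrix.toEuclideanCLM (n := Fin n) (𝕜 := ℂ) (coordM n j) v = v := by
  ext i
  have h0 : (Matrix.toEuclideanCLM (n := Fin n) (𝕜 := ℂ) (coordM n j) v) i =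
      ∑ k : Fin n, coordM n j i k * v k := rfl
  rw [h0, Finset.sum_eq_single i]
  · unfold coordM
    by_cases h : j ≤ (i : ℕ)
    · rw [if_pos ⟨rfl, h⟩, one_mul]
    · rw [if_neg (fun h2 => h h2.2), zero_mul, hv i (by omega)]
  · intro k _ hk
    unfold coordM
    rw [if_neg (fun h2 => hk h2.1.symm), zero_mul]
  · intro h2
    exact absurd (Finset.mem_univ _) h2

theorem FD_compact (n : ℕ) : IsCompact {P : EuclideanSpace ℂ (Fin n) →L[ℂ]
    EuclideanSpace ℂ (Fin n) | P * P = P ∧ star P = P} := by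
  have : ProperSpace (EuclideanSpace ℂ (Fin n) →L[ℂ] EuclideanSpace ℂ (Fin n)) :=
    FiniteDimensional.proper ℂ _
  apply Metric.isCompact_of_isClosed_isBounded
  · exact (isClosed_eq (continuous_id.mul continuous_id) continuous_id).inter
      (isClosed_eq (ContinuousLinearMap.adjoint (𝕜 := ℂ) (E := EuclideanSpace ℂ (Fin n))
        (F := EuclideanSpace ℂ (Fin n))).continuous continuous_id)
  · refine (Metric.isBounded_closedBall
      (x := (0 : EuclideanSpace ℂ (Fin n) →L[ℂ] EuclideanSpace ℂ (Fin n))) (r := 1)).subset ?_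
    rintro P ⟨h1, h2⟩
    rw [mem_closedBall_zero_iff]
    have h3 := CStarRing.norm_star_mul_self (x := P)
    rw [h2, h1] at h3
    by_contra hlt
    push Not at hlt
    nlinarith

theorem FD_key (n : ℕ) (θ : ℝ) (hθ : 0 < θ) : ∃ ε : ℝ, 0 < ε ∧
    ∀ P ∈ {P : EuclideanSpace ℂ (Fin n) →L[ℂ] EuclideanSpace ℂ (Fin n) | P * P = P ∧ star P = P},
    P * P = P → ∀ r : ℕ → ℕ,
    (∀ m < n, crank n ε (((1 - P) *
      (Matrix.toEuclideanCLM (n := Fin n) (𝕜 := ℂ) (shiftM n)) ^ m * P :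
        EuclideanSpace ℂ (Fin n) →L[ℂ] EuclideanSpace ℂ (Fin n)) :
          EuclideanSpace ℂ (Fin n) →ₗ[ℂ] EuclideanSpace ℂ (Fin n)) (r m)) →
    ∃ s : ℕ, s ^ 2 ≤ ∑ m ∈ Finset.range n, r m ∧
      crank n θ (((1 - Matrix.toEuclideanCLM (n := Fin n) (𝕜 := ℂ) (coordM n
        (n - Module.finrank ℂ (LinearMap.range
          (P : EuclideanSpace ℂ (Fin n) →ₗ[ℂ] EuclideanSpace ℂ (Fin n)))))) * P :
        EuclideanSpace ℂ (Fin n) →L[ℂ] EuclideanSpace ℂ (Fin n)) :
          EuclideanSpace ℂ (Fin n) →ₗ[ℂ] EuclideanSpace ℂ (Fin n)) s := by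
  set J := Matrix.toEuclideanCLM (n := Fin n) (𝕜 := ℂ) (shiftM n) with hJ
  refine IsCompact.induction_on (FD_compact n) ?_ ?_ ?_ ?_
  · exact ⟨1, one_pos, fun P hP => absurd hP (Set.notMem_empty P)⟩
  · rintro s t hst ⟨ε, hε, h⟩
    exact ⟨ε, hε, fun P hP => h P (hst hP)⟩
  · rintro s t ⟨ε1, hε1, h1⟩ ⟨ε2, hε2, h2⟩
    refine ⟨min ε1 ε2, lt_min hε1 hε2, ?_⟩
    intro P hP hPP r hr
    rcases hP with hP | hP
    · refine h1 P hP hPP r fun m hm => ?_
      obtain ⟨V, hV1, hV2⟩ := hr m hm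
      exact ⟨V, hV1, fun v hv => (hV2 v hv).trans
        (mul_le_mul_of_nonneg_right (min_le_left _ _) (norm_nonneg _))⟩
    · refine h2 P hP hPP r fun m hm => ?_
      obtain ⟨V, hV1, hV2⟩ := hr m hm
      exact ⟨V, hV1, fun v hv => (hV2 v hv).trans
        (mul_le_mul_of_nonneg_right (min_le_right _ _) (norm_nonneg _))⟩
  · rintro P0 ⟨hP0, _⟩
    obtain ⟨s, hs, V, hV1, hV2⟩ := FD_exact n P0 J hP0 (fun m v i => FD_shift n m v i)
    choose c hc0 hc using fun m : ℕ => FD_rs n ((1 - P0) * J ^ m * P0)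
    have hev : ∀ᶠ x in nhdsWithin (0 : ℝ) (Set.Ioi 0), ∀ m ∈ Finset.range n, x ≤ c m :=
      (Finset.eventually_all _).2 fun m _ =>
        Filter.Eventually.filter_mono nhdsWithin_le_nhds (Iic_mem_nhds (hc0 m))
    obtain ⟨x, hx, hx0⟩ := (hev.and self_mem_nhdsWithin).exists
    set j0 := n - Module.finrank ℂ (LinearMap.range
      (P0 : EuclideanSpace ℂ (Fin n) →ₗ[ℂ] EuclideanSpace ℂ (Fin n))) with hj0
    set D : EuclideanSpace ℂ (Fin n) →L[ℂ] EuclideanSpace ℂ (Fin n) :=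
      1 - Matrix.toEuclideanCLM (n := Fin n) (𝕜 := ℂ) (coordM n j0) with hD
    have hcont : ∀ m : ℕ, Continuous (fun P : EuclideanSpace ℂ (Fin n) →L[ℂ]
        EuclideanSpace ℂ (Fin n) => (1 - P) * J ^ m * P) := fun m =>
      ((continuous_const.sub continuous_id).mul continuous_const).mul continuous_id
    have he1 : ∀ᶠ P in nhds P0, ∀ m ∈ Finset.range n,
        ‖(1 - P) * J ^ m * P - (1 - P0) * J ^ m * P0‖ ≤ c m := by
      refine (Finset.eventually_all _).2 fun m _ => ?_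
      have := (hcont m).continuousAt.eventually (Metric.closedBall_mem_nhds
        ((1 - P0) * J ^ m * P0) (hc0 m))
      filter_upwards [this] with P hP
      rw [← dist_eq_norm]
      exact hP
    have hpos : 0 < min 1 (θ / (‖D‖ + 1)) := lt_min one_pos (by positivity)
    have he2 : ∀ᶠ P in nhds P0, ‖P - P0‖ < min 1 (θ / (‖D‖ + 1)) := by
      filter_upwards [Metric.ball_mem_nhds P0 hpos] with P hP
      rw [← dist_eq_norm]
      exact hP
    refine ⟨{P | (∀ m ∈ Finset.range n,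
        ‖(1 - P) * J ^ m * P - (1 - P0) * J ^ m * P0‖ ≤ c m) ∧
        ‖P - P0‖ < min 1 (θ / (‖D‖ + 1))}, mem_nhdsWithin_of_mem_nhds (he1.and he2), x, hx0, ?_⟩
    rintro P ⟨hP1, hP2⟩ hPP r hr
    have hrk : Module.finrank ℂ (LinearMap.range
        (P : EuclideanSpace ℂ (Fin n) →ₗ[ℂ] EuclideanSpace ℂ (Fin n))) =
        Module.finrank ℂ (LinearMap.range
        (P0 : EuclideanSpace ℂ (Fin n) →ₗ[ℂ] EuclideanSpace ℂ (Fin n))) := by
      have hlt : ‖P - P0‖ < 1 := hP2.trans_le (min_le_left _ _)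
      apply le_antisymm
      · exact FD_rk n P0 P hPP (by rw [norm_sub_rev]; exact hlt)
      · exact FD_rk n P P0 hP0 hlt
    refine ⟨s, hs.trans (Finset.sum_le_sum fun m hm => ?_), V, hV1, ?_⟩
    · refine hc m ((1 - P) * J ^ m * P) ?_ (r m) ?_
      · intro v
        have := ((1 - P) * J ^ m * P - (1 - P0) * J ^ m * P0).le_opNorm v
        exact this.trans (mul_le_mul_of_nonneg_right (hP1 m hm) (norm_nonneg _))
      · obtain ⟨V', hV1', hV2'⟩ := hr m (Finset.mem_range.1 hm)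
        exact ⟨V', hV1', fun v hv => (hV2' v hv).trans
          (mul_le_mul_of_nonneg_right (hx m hm) (norm_nonneg _))⟩
    · intro v hv
      rw [hrk]
      show ‖D (P v)‖ ≤ θ * ‖v‖
      have h1 : D (P0 v) = 0 := by
        show P0 v - Matrix.toEuclideanCLM (n := Fin n) (𝕜 := ℂ) (coordM n j0) (P0 v) = 0
        rw [FD_coord n j0 _ (hV2 v hv), sub_self]
      have h2 : D (P v) = D ((P - P0) v) := by
        show D (P v) = D (P v - P0 v)
        rw [map_sub, h1, sub_zero]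
      rw [h2]
      have h3 : ‖P - P0‖ ≤ θ / (‖D‖ + 1) := (hP2.trans_le (min_le_right _ _)).le
      calc ‖D ((P - P0) v)‖ ≤ ‖D‖ * ‖(P - P0) v‖ := D.le_opNorm _
        _ ≤ ‖D‖ * (‖P - P0‖ * ‖v‖) := mul_le_mul_of_nonneg_left ((P - P0).le_opNorm v)
            (norm_nonneg _)
        _ ≤ (‖D‖ + 1) * (θ / (‖D‖ + 1) * ‖v‖) := by
            gcongr
            linarith
        _ = θ * ‖v‖ := by
            field_simp

theorem FD : St_FD := by
  intro n θ hθ
  obtain ⟨ε, hε, h⟩ := FD_key n θ hθ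
  refine ⟨ε, hε, ?_⟩
  intro q hq hq2 r hr
  set P := Matrix.toEuclideanCLM (n := Fin n) (𝕜 := ℂ) q with hP
  have hPP : P * P = P := by rw [hP, ← map_mul, hq]
  have hPs : star P = P := by
    rw [hP, ← map_star]
    congr 1
  have hrank : q.rank = Module.finrank ℂ (LinearMap.range
      (P : EuclideanSpace ℂ (Fin n) →ₗ[ℂ] EuclideanSpace ℂ (Fin n))) := by
    rw [Matrix.rank_eq_finrank_range_toLin q (PiLp.basisFun 2 ℂ (Fin n))
      (PiLp.basisFun 2 ℂ (Fin n)), hP, Matrix.coe_toEuclideanCLM_eq_toEuclideanLin,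
      Matrix.toEuclideanLin_eq_toLin]
  obtain ⟨s, hs, hc⟩ := h P ⟨hPP, hPs⟩ hPP r (by
    intro m hm
    have := hr m hm
    rw [← Matrix.coe_toEuclideanCLM_eq_toEuclideanLin] at this
    simpa only [map_mul, map_sub, map_one, map_pow] using this)
  refine ⟨s, hs, ?_⟩
  rw [← Matrix.coe_toEuclideanCLM_eq_toEuclideanLin, hrank]
  simpa only [map_mul, map_sub, map_one, map_pow] using hc

end Pool.Agent.H98R2.RR
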