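import Pool.Agent.H98R2.RR.Kill

set_option autoImplicit false
open Filter Topology
open scoped ComplexOrder InnerProductSpace

namespace Pool.Agent.H98R2.RR
open Pool.H711R2

section ka
variable {H : Type} [NormedAddCommGroup H] [InnerProductSpace ℂ H] [CompleteSpace H]

theorem ka_app {p : H →L[ℂ] H} (hp : IsStarProjection p) (v : H) : p (p v) = p v := by
  have := congrArg (fun z : H →L[ℂ] H => z v) hp.isIdempotentElem.eq
  simpa using this

theorem ka_pyth {p : H →L[ℂ] H} (hp : IsStarProjection p) (v : H) :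
    ‖v‖ ^ 2 = ‖p v‖ ^ 2 + ‖v - p v‖ ^ 2 := by
  have hs : star p = p := hp.isSelfAdjoint.star_eq
  have h0 : ⟪p v, v - p v⟫_ℂ = 0 := by
    have h1 : ⟪p v, v - p v⟫_ℂ = ⟪v, p (v - p v)⟫_ℂ := by
      have := ContinuousLinearMap.adjoint_inner_left p (v - p v) v
      rw [← ContinuousLinearMap.star_eq_adjoint, hs] at this
      exact this
    rw [h1, map_sub, ka_app hp, sub_self, inner_zero_right]
  have h2 := norm_add_sq_eq_norm_sq_add_norm_sq_of_inner_eq_zero (p v) (v - p v) h0
  rw [add_sub_cancel] at h2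
  nlinarith [h2]

/-- the spectral projection complement is below `q` if `x = x q` -/
theorem ka_below {x q : H →L[ℂ] H} (hq : IsStarProjection q) (hx : x * q = x) {b : ℝ}
    (hb : 0 < b) : q * (1 - ev x b) = 1 - ev x b := by
  have hE := ev_isStar x b
  have h1 : ev x b * (1 - q) = 1 - q := by
    ext v
    have : x ((1 - q) v) = 0 := by
      have h2 : x * (1 - q) = 0 := by rw [mul_sub, mul_one, hx, sub_self]
      have := congrArg (fun z : H →L[ℂ] H => z v) h2
      simpa using this
    exact ev_ker hb this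
  have h2 : (1 - q) * ev x b = 1 - q := by
    have := congrArg star h1
    rw [star_mul, hE.isSelfAdjoint.star_eq, star_sub, star_one, hq.isSelfAdjoint.star_eq] at this
    exact this
  have h3 : (1 - q) * (1 - ev x b) = 0 := by rw [mul_sub, mul_one, h2, sub_self]
  rw [sub_mul, one_mul, sub_eq_zero] at h3
  exact h3.symm

/-- the inverse on the spectral part -/
theorem ka_inv (x : H →L[ℂ] H) {σ : ℝ} (hσ : 0 < σ) :
    ∃ B : H →L[ℂ] H, (∀ M : VonNeumannAlgebra H, x ∈ M → B ∈ M) ∧ ‖B‖ ≤ σ⁻¹ ∧
      star x * x * B * (1 - ev x (Real.sqrt σ)) = 1 - ev x (Real.sqrt σ) := by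
  set a := star x * x with ha
  have hsa := aa_sa x
  have hmax : ∀ t : ℝ, 0 < max t σ := fun t => lt_of_lt_of_le hσ (le_max_right _ _)
  have hc : Continuous (fun t : ℝ => (max t σ)⁻¹) :=
    (continuous_id.max continuous_const).inv₀ (fun t => (hmax t).ne')
  set B : H →L[ℂ] H := cfc (fun t : ℝ => (max t σ)⁻¹) a with hB
  have hBs : star B = B := by
    have : IsSelfAdjoint B := by rw [hB]; exact cfc_predicate _ _
    exact this.star_eq
  have haB : a * B = B * a := ((Commute.refl a).cfc_real _).symm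
  set E := ev x (Real.sqrt σ) with hEd
  have hE := ev_isStar x (Real.sqrt σ)
  -- commutation of `a B` with `E`
  have hgs : IsSelfAdjoint (a * B) := by
    rw [isSelfAdjoint_iff, star_mul, hBs, hsa.star_eq, haB]
  have hag : a * gp x (Real.sqrt σ) = gp x (Real.sqrt σ) * a := gp_comm x _
  have hBg : B * gp x (Real.sqrt σ) = gp x (Real.sqrt σ) * B := by
    have h1 : Commute (gp x (Real.sqrt σ)) a := hag.symm
    have h2 : Commute a (gp x (Real.sqrt σ)) := h1.symm
    exact (h2.cfc_real (fun t : ℝ => (max t σ)⁻¹)).eq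
  have hABg : (a * B) * gp x (Real.sqrt σ) = gp x (Real.sqrt σ) * (a * B) := by
    rw [mul_assoc, hBg, ← mul_assoc, hag, mul_assoc]
  have hcomm : (a * B) * E = E * (a * B) := commute_kp hgs hABg
  -- `g (a B - 1) = 0`
  have hg0 : gp x (Real.sqrt σ) * (a * B - 1) = 0 := by
    have e1 : a * B - 1 = cfc (fun t : ℝ => t * (max t σ)⁻¹ - 1) a := by
      rw [cfc_sub (fun t : ℝ => t * (max t σ)⁻¹) (fun _ => (1 : ℝ)) a
        (by exact (continuous_id.mul hc).continuousOn) (by fun_prop),
        cfc_mul (fun t : ℝ => t) (fun t : ℝ => (max t σ)⁻¹) a (by fun_prop) hc.continuousOn,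
        cfc_id' ℝ a, cfc_const_one ℝ a]
    have hc2 : Continuous (fun t : ℝ => t * (max t σ)⁻¹ - 1) :=
      (continuous_id.mul hc).sub continuous_const
    rw [e1]
    unfold gp
    rw [← ha, ← cfc_mul (fun t : ℝ => max (t - Real.sqrt σ ^ 2) 0)
      (fun t : ℝ => t * (max t σ)⁻¹ - 1) a (by fun_prop) hc2.continuousOn]
    have e2 : (fun t : ℝ => max (t - Real.sqrt σ ^ 2) 0 * (t * (max t σ)⁻¹ - 1)) =
        fun _ => (0 : ℝ) := by
      funext t
      rw [Real.sq_sqrt hσ.le]
      rcases le_total t σ with h | h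
      · rw [max_eq_right (by linarith), zero_mul]
      · rw [max_eq_left h, mul_inv_cancel₀ (by linarith), sub_self, mul_zero]
    rw [e2, cfc_const_zero ℝ a]
  have hE1 : E * (a * B - 1) = a * B - 1 := by
    ext v
    have : gp x (Real.sqrt σ) ((a * B - 1) v) = 0 := by
      have := congrArg (fun z : H →L[ℂ] H => z v) hg0
      simpa using this
    exact kp_apply_of_ker _ this
  refine ⟨B, ?_, ?_, ?_⟩
  · intro M hx
    exact cfc_mem_vn (vn_mul (vn_star hx) hx) _
  · apply norm_cfc_le (by positivity)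
    intro t _
    rw [Real.norm_eq_abs, abs_of_pos (inv_pos.mpr (hmax t))]
    exact inv_anti₀ hσ (le_max_right _ _)
  · have h1 : (1 - E) * (a * B - 1) = 0 := by rw [sub_mul, one_mul, hE1, sub_self]
    have h2 : (a * B) * (1 - E) = (1 - E) * (a * B) := by
      rw [mul_sub, sub_mul, hcomm, mul_one, one_mul]
    rw [h2]
    rw [mul_sub, mul_one, sub_eq_zero] at h1
    exact h1

end ka

theorem KA : St_KA := by
  intro H _ _ _ M τ hτ hf K hK hKp q hq hqp σ hσ hσ1
  have hKs : star K = K := hKp.isSelfAdjoint.star_eq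
  have hKK : K * K = K := hKp.isIdempotentElem.eq
  have hqs : star q = q := hqp.isSelfAdjoint.star_eq
  have hqq : q * q = q := hqp.isIdempotentElem.eq
  obtain ⟨x, hx⟩ : ∃ x : H →L[ℂ] H, x = K * q := ⟨_, rfl⟩
  have hxM : x ∈ M := hx ▸ vn_mul hK hq
  have hxq : x * q = x := by rw [hx, mul_assoc, hqq]
  have hxs : star x = q * K := by rw [hx, star_mul, hKs, hqs]
  have haa : star x * x = q * K * q := by
    rw [hxs, hx]
    calc q * K * (K * q) = q * (K * K) * q := by noncomm_ring
      _ = q * K * q := by rw [hKK]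
  have hx1 : ‖x‖ ≤ 1 := by
    rw [hx]
    calc ‖K * q‖ ≤ ‖K‖ * ‖q‖ := norm_mul_le _ _
      _ ≤ 1 * 1 := mul_le_mul hKp.norm_le hqp.norm_le (norm_nonneg _) zero_le_one
      _ = 1 := one_mul 1
  have htr : tr τ (q * K) = tr τ (star x * x) := by
    rw [haa]
    unfold tr
    have h1 : q * (q * K) = q * K := by rw [← mul_assoc, hqq]
    rw [← hτ.trace q hq (q * K) (vn_mul hq hK), h1]
  have hproj : ∀ b : ℝ, IsStarProjection (1 - ev x b) := fun b => (ev_isStar x b).one_sub
  refine ⟨?_, ?_⟩
  · set E := ev x (Real.sqrt σ) with hEd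
    have hE : IsStarProjection E := ev_isStar x (Real.sqrt σ)
    have hEM : E ∈ M := ev_mem hxM _
    have hEs : star E = E := hE.isSelfAdjoint.star_eq
    have hR : IsStarProjection (1 - E) := hproj _
    have hRM : (1 - E) ∈ M := vn_sub (vn_one M) hEM
    have hRs : star (1 - E) = 1 - E := hR.isSelfAdjoint.star_eq
    have hRR : (1 - E) * (1 - E) = 1 - E := hR.isIdempotentElem.eq
    have hσs : 0 < Real.sqrt σ := Real.sqrt_pos.mpr hσ
    obtain ⟨B, hBM, hBn, hBR⟩ := ka_inv x hσ
    have hBM' := hBM M hxM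
    have hnE : ‖x * E‖ ≤ Real.sqrt σ := IsNormalTrace.norm_mul_ev_le x hσs.le
    have hcomm : (star x * x) * E = E * (star x * x) := ev_comm x _
    -- tr (a E) ≤ σ
    have hEE : E * E = E := hE.isIdempotentElem.eq
    have haE : tr τ (star x * x * E) ≤ σ := by
      have h1 : star x * x * E = star (x * E) * (x * E) := by
        rw [star_mul, hEs]
        calc star x * x * E = star x * x * (E * E) := by rw [hEE]
          _ = (star x * x * E) * E := by noncomm_ring
          _ = (E * (star x * x)) * E := by rw [hcomm]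
          _ = E * star x * (x * E) := by noncomm_ring
      have h2 := hτ.n2_le (vn_mul hxM hEM)
      unfold n2 at h2
      rw [← h1] at h2
      have h3 : ‖x * E‖ ^ 2 ≤ σ := by
        calc ‖x * E‖ ^ 2 ≤ (Real.sqrt σ) ^ 2 := pow_le_pow_left₀ (norm_nonneg _) hnE 2
          _ = σ := Real.sq_sqrt hσ.le
      linarith
    have hsplit : tr τ (star x * x) = tr τ (star x * x * E) + tr τ (star x * x * (1 - E)) := by
      rw [← tr_add]; congr 1; noncomm_ring
    have hcommR : (star x * x) * (1 - E) = (1 - E) * (star x * x) := by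
      rw [mul_sub, sub_mul, hcomm, mul_one, one_mul]
    have haR : tr τ (star x * x * (1 - E)) ≤ tr τ (1 - E) := by
      have h1 : star x * x * (1 - E) = star (x * (1 - E)) * (x * (1 - E)) := by
        rw [star_mul, hRs]
        calc star x * x * (1 - E) = star x * x * ((1 - E) * (1 - E)) := by rw [hRR]
          _ = (star x * x * (1 - E)) * (1 - E) := by rw [mul_assoc (star x * x)]
          _ = ((1 - E) * (star x * x)) * (1 - E) := by rw [hcommR]
          _ = (1 - E) * star x * (x * (1 - E)) := by simp only [mul_assoc]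
      have h2 := hτ.n2_mul_left hxM hRM
      rw [IsNormalTrace.n2_proj hR] at h2
      unfold n2 at h2
      rw [← h1] at h2
      have h3 : ‖x‖ ^ 2 * tr τ (1 - E) ≤ 1 * tr τ (1 - E) := by
        apply mul_le_mul_of_nonneg_right _ (hτ.tr_proj_nonneg hRM hR)
        nlinarith [norm_nonneg x]
      linarith
    refine ⟨1 - E, hRM, K * q * B * (1 - E), vn_mul (vn_mul (vn_mul hK hq) hBM') hRM, hR,
      ka_below hqp hxq hσs, ?_, ?_, ?_, ?_, ?_, ?_, ?_⟩
    · calc K * (K * q * B * (1 - E)) = (K * K) * q * B * (1 - E) := by simp only [mul_assoc]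
        _ = K * q * B * (1 - E) := by rw [hKK]
    · calc q * (K * q * B * (1 - E)) = (q * K * q) * B * (1 - E) := by simp only [mul_assoc]
        _ = 1 - E := by rw [← haa]; exact hBR
    · rw [mul_assoc, hRR]
    · calc ‖K * q * B * (1 - E)‖ ≤ ‖K * q * B‖ * ‖1 - E‖ := norm_mul_le _ _
        _ ≤ ‖K * q‖ * ‖B‖ * ‖1 - E‖ :=
            mul_le_mul_of_nonneg_right (norm_mul_le _ _) (norm_nonneg _)
        _ ≤ 1 * σ⁻¹ * 1 := by
            apply mul_le_mul _ hR.norm_le (norm_nonneg _) (by positivity)
            exact mul_le_mul (hx ▸ hx1) hBn (norm_nonneg _) zero_le_one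
        _ = σ⁻¹ := by ring
    · have h1 : (1 - (1 - E)) * (q * K) = star (x * E) := by
        rw [star_mul, hEs, hxs, sub_sub_cancel]
      rw [h1, norm_star]
      exact hnE
    · rw [htr]; linarith
    · rw [htr, ← haa]
      have h1 : n2 τ (star x * x - (1 - E)) =
          tr τ ((star x * x) * (star x * x)) - 2 * tr τ (star x * x * (1 - E)) + tr τ (1 - E) := by
        unfold n2
        rw [star_sub, star_mul, star_star, hRs]
        have h2 : (star x * x - (1 - E)) * (star x * x - (1 - E)) =
            (star x * x) * (star x * x) - (star x * x) * (1 - E) - (1 - E) * (star x * x)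
              + (1 - E) * (1 - E) := by noncomm_ring
        rw [h2, ← hcommR, hRR, tr_add, tr_sub, tr_sub]
        ring
      have h3 : tr τ ((star x * x) * (star x * x)) ≤ tr τ (star x * x) := by
        have h4 := hτ.n2_mul_left (vn_star hxM) hxM
        unfold n2 at h4
        rw [star_mul, star_star, norm_star] at h4
        have h5 : ‖x‖ ^ 2 * tr τ (star x * x) ≤ 1 * tr τ (star x * x) := by
          apply mul_le_mul_of_nonneg_right _ (hτ.tr_star_mul_self hxM)
          nlinarith [norm_nonneg x]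
        linarith
      rw [h1]
      linarith
  · set b := Real.sqrt (1 - σ) with hb
    have hb0 : 0 < b := Real.sqrt_pos.mpr (by linarith)
    have hb2 : b ^ 2 = 1 - σ := Real.sq_sqrt (by linarith)
    set E := ev x b with hEd
    have hE : IsStarProjection E := ev_isStar x b
    have hEM : E ∈ M := ev_mem hxM _
    have hEs : star E = E := hE.isSelfAdjoint.star_eq
    have hR : IsStarProjection (1 - E) := hproj _
    have hRM : (1 - E) ∈ M := vn_sub (vn_one M) hEM
    refine ⟨1 - E, hRM, hR, ka_below hqp hxq hb0, ?_, ?_⟩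
    · intro z hz hqz
      rw [sub_sub_cancel]
      have hσs : 0 < Real.sqrt σ := Real.sqrt_pos.mpr hσ
      apply ContinuousLinearMap.opNorm_le_bound _ (by positivity)
      intro v
      set w : H := z v with hw
      have hqw : q w = w := by
        have := congrArg (fun y : H →L[ℂ] H => y v) hqz
        simpa using this
      have hxw : x w = K w := by
        rw [hx]
        change K (q w) = K w
        rw [hqw]
      -- orthogonal decomposition
      have e1 := ka_pyth hE w
      have e2 := ka_pyth hKp w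
      have e3 : ‖x w‖ ^ 2 = ‖x (E w)‖ ^ 2 + ‖x (w - E w)‖ ^ 2 := by
        have h0 : ⟪x (E w), x (w - E w)⟫_ℂ = 0 := by
          rw [← inner_aa]
          have h1 : (star x * x) (E w) = E ((star x * x) w) := by
            have := congrArg (fun y : H →L[ℂ] H => y w) (ev_comm x b)
            simpa using this
          rw [h1]
          have h2 : ⟪E ((star x * x) w), w - E w⟫_ℂ = ⟪(star x * x) w, E (w - E w)⟫_ℂ := by
            have := ContinuousLinearMap.adjoint_inner_left E (w - E w) ((star x * x) w)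
            rw [← ContinuousLinearMap.star_eq_adjoint, hEs] at this
            exact this
          rw [h2, map_sub, ka_app hE, sub_self, inner_zero_right]
        have h2 := norm_add_sq_eq_norm_sq_add_norm_sq_of_inner_eq_zero _ _ h0
        rw [← map_add, add_sub_cancel] at h2
        nlinarith [h2]
      have e4 : ‖x (E w)‖ ^ 2 ≤ (1 - σ) * ‖E w‖ ^ 2 := by
        have := low hb0.le (ka_app hE w)
        calc ‖x (E w)‖ ^ 2 ≤ (b * ‖E w‖) ^ 2 := pow_le_pow_left₀ (norm_nonneg _) this 2
          _ = (1 - σ) * ‖E w‖ ^ 2 := by rw [mul_pow, hb2]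
      have e5 : ‖x (w - E w)‖ ^ 2 ≤ ‖w - E w‖ ^ 2 := by
        apply pow_le_pow_left₀ (norm_nonneg _)
        calc ‖x (w - E w)‖ ≤ ‖x‖ * ‖w - E w‖ := x.le_opNorm _
          _ ≤ 1 * ‖w - E w‖ := mul_le_mul_of_nonneg_right hx1 (norm_nonneg _)
          _ = ‖w - E w‖ := one_mul _
      rw [hxw] at e3
      have e6 : σ * ‖E w‖ ^ 2 ≤ ‖w - K w‖ ^ 2 := by nlinarith
      have e7 : Real.sqrt σ * ‖E w‖ ≤ ‖w - K w‖ := by
        refine (sq_le_sq₀ (by positivity) (norm_nonneg _)).mp ?_
        rw [mul_pow, Real.sq_sqrt hσ.le]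
        exact e6
      have e8 : ‖w - K w‖ ≤ ‖(1 - K) * z‖ * ‖v‖ := by
        have := ((1 - K) * z).le_opNorm v
        simpa using this
      change ‖E w‖ ≤ _
      rw [inv_mul_eq_div, div_mul_eq_mul_div, le_div_iff₀ hσs]
      linarith
    · have h1 := hτ.cheb hxM (vn_one M) b
      rw [mul_one, mul_one, hb2, IsNormalTrace.n2_proj hR] at h1
      rw [htr]
      unfold n2 at h1
      rw [inv_mul_eq_div, le_div_iff₀ (by linarith)]
      linarith

end Pool.Agent.H98R2.RR
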