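import Pool.Agent.H941R2.F44.KBC

set_option autoImplicit false
open Filter Topology
open scoped ComplexOrder InnerProductSpace

namespace Pool.Agent.H98R2.RR
open Pool.H711R2 Pool.H711R2.IsNormalTrace

section final
variable {H : Type} [NormedAddCommGroup H] [InnerProductSpace ℂ H] [CompleteSpace H]
variable {M : VonNeumannAlgebra H} {τ : (H →L[ℂ] H) →ₗ[ℂ] ℂ}

lemma kb_sum_proj {m : ℕ} {e : ℕ → ℕ → (H →L[ℂ] H)} (h : MU m e) {i j : ℕ} (hi : i < m) (hj : j < m)
    (hij : i ≠ j) : IsStarProjection (e i i) ∧ IsStarProjection (e i i + e j j) := by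
  have h1 : ∀ a < m, e a a * e a a = e a a := fun a ha => by rw [h.mul a ha a ha a ha a ha, if_pos rfl]
  have h2 : ∀ a < m, star (e a a) = e a a := fun a ha => h.star a ha a ha
  refine ⟨⟨h1 i hi, h2 i hi⟩, ?_, ?_⟩
  · show (e i i + e j j) * (e i i + e j j) = e i i + e j j
    rw [add_mul, mul_add, mul_add, h1 i hi, h1 j hj, h.mul i hi i hi j hj j hj,
      h.mul j hj j hj i hi i hi, if_neg hij, if_neg (Ne.symm hij)]
    abel
  · show star (e i i + e j j) = e i i + e j j
    rw [star_add, h2 i hi, h2 j hj]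

set_option maxHeartbeats 4000000 in
theorem KB (h1 : St_BAS1) (h2 : St_BAS2) (h3 : St_KA) : St_KB := by
  intro H _ _ _ M τ T k S Si ad σ hσ hσ4
  obtain ⟨mu, mu2, bphi, bmm, -, bb, -, -, bB⟩ := h1 H M τ T k
  obtain ⟨qp', qB, ThTh, ThTh', JT, J2e, E2m, -, -, -, -, Thmm, Thb, Thb'⟩ := h2 H M τ T k
  have hτ := T.tr
  have hBM : ∀ x, x ∈ T.B (k + 1) → x ∈ M := fun x hx => T.B_sub _ x hx
  have Pm : ∀ a b c d : ℕ, a < 32 → b < 32 → c < 32 → d < 32 →
      T.phi k a b * T.phi k c d = if b = c then T.phi k a d else 0 :=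
    fun a b c d ha hb hc hd => mu.mul a ha b hb c hc d hd
  have phiM : ∀ a b : ℕ, a < 32 → b < 32 → T.phi k a b ∈ M :=
    fun a b ha hb => hBM _ (bphi a ha b hb).1
  have phiS : ∀ a < 32, T.phi k a a * S = S * T.phi k a a := ad.comm
  have p0 := (kb_sum_proj mu (by norm_num : 0 < 32) (by norm_num : 1 < 32) (by norm_num)).1
  have p1 := (kb_sum_proj mu (by norm_num : 1 < 32) (by norm_num : 0 < 32) (by norm_num)).1
  have p31 := (kb_sum_proj mu (by norm_num : 31 < 32) (by norm_num : 0 < 32) (by norm_num)).1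
  have pqp := (kb_sum_proj mu (by norm_num : 30 < 32) (by norm_num : 31 < 32) (by norm_num)).2
  set n := 64 ^ k with hn
  have hn0 : 0 < n := by positivity
  -- memberships
  have ThM : T.Th k ∈ M := by
    unfold Tower.Th; exact vn_add (phiM _ _ (by norm_num) (by norm_num)) (phiM _ _ (by norm_num) (by norm_num))
  have bM : T.b k ∈ M := hBM _ (T.b_mem k).1
  have b'M : T.b' k ∈ M := hBM _ (T.b_mem k).2
  have eM : ∀ i < n, ∀ j < n, T.e k i j ∈ M := fun i hi j hj => T.B_sub k _ (T.e_mem k i hi j hj)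
  have sumM : ∀ (s : Finset ℕ) (f : ℕ → (H →L[ℂ] H)), (∀ i ∈ s, f i ∈ M) → ∑ i ∈ s, f i ∈ M := by
    intro s f hf
    apply Finset.sum_induction _ (fun x => x ∈ M) (fun a b ha hb => vn_add ha hb)
    · have := vn_sub (vn_one M) (vn_one M); rwa [sub_self] at this
    · exact hf
  have JRM : T.JR k ∈ M := by
    unfold Tower.JR
    refine vn_add ?_ (vn_mul ?_ ?_)
    · unfold Tower.Jn
      apply sumM
      intro i hi
      have := Finset.mem_range.mp hi
      exact eM _ (by omega) _ (by omega)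
    · exact eM _ hn0 _ (by omega)
    · apply sumM
      intro t ht
      have := Finset.mem_range.mp ht
      exact phiM _ _ (by omega) (by omega)
  have mmM : ∀ c < 2, ∀ c' < 2, T.mm k c c' ∈ M := fun c hc c' hc' => hBM _ (bmm c hc c' hc')
  have SM : S ∈ M := hBM _ ad.S_mem
  have SiM : Si ∈ M := hBM _ ad.Si_mem
  -- algebra of the window
  have Thq : T.Th k * T.q k = T.Th k := by
    unfold Tower.Th Tower.q
    rw [add_mul, mul_add, mul_add, Pm _ _ _ _ (by norm_num) (by norm_num) (by norm_num) (by norm_num),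
      Pm _ _ _ _ (by norm_num) (by norm_num) (by norm_num) (by norm_num),
      Pm _ _ _ _ (by norm_num) (by norm_num) (by norm_num) (by norm_num),
      Pm _ _ _ _ (by norm_num) (by norm_num) (by norm_num) (by norm_num)]
    simp
  have qpTh : (T.phi k 30 30 + T.phi k 31 31) * T.Th k = T.Th k := by
    unfold Tower.Th
    rw [add_mul, mul_add, mul_add, Pm _ _ _ _ (by norm_num) (by norm_num) (by norm_num) (by norm_num),
      Pm _ _ _ _ (by norm_num) (by norm_num) (by norm_num) (by norm_num),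
      Pm _ _ _ _ (by norm_num) (by norm_num) (by norm_num) (by norm_num),
      Pm _ _ _ _ (by norm_num) (by norm_num) (by norm_num) (by norm_num)]
    simp
  have Th1 : T.Th k * T.phi k 1 1 = T.phi k 31 1 := by
    unfold Tower.Th
    rw [add_mul, Pm _ _ _ _ (by norm_num) (by norm_num) (by norm_num) (by norm_num),
      Pm _ _ _ _ (by norm_num) (by norm_num) (by norm_num) (by norm_num)]
    simp
  have Th10 : T.Th k * T.phi k 1 0 = T.phi k 31 0 := by
    unfold Tower.Th
    rw [add_mul, Pm _ _ _ _ (by norm_num) (by norm_num) (by norm_num) (by norm_num),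
      Pm _ _ _ _ (by norm_num) (by norm_num) (by norm_num) (by norm_num)]
    simp
  have qφ : T.q k * T.phi k 0 0 = T.phi k 0 0 := by
    unfold Tower.q
    rw [add_mul, Pm _ _ _ _ (by norm_num) (by norm_num) (by norm_num) (by norm_num),
      Pm _ _ _ _ (by norm_num) (by norm_num) (by norm_num) (by norm_num)]
    simp
  have φq : T.phi k 0 0 * T.q k = T.phi k 0 0 := by
    unfold Tower.q
    rw [mul_add, Pm _ _ _ _ (by norm_num) (by norm_num) (by norm_num) (by norm_num),
      Pm _ _ _ _ (by norm_num) (by norm_num) (by norm_num) (by norm_num)]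
    simp
  have qψ : T.q k * T.phi k 1 1 = T.phi k 1 1 := by
    unfold Tower.q
    rw [add_mul, Pm _ _ _ _ (by norm_num) (by norm_num) (by norm_num) (by norm_num),
      Pm _ _ _ _ (by norm_num) (by norm_num) (by norm_num) (by norm_num)]
    simp
  have Xiq : T.phi k 31 0 * T.q k = T.phi k 31 0 := by
    unfold Tower.q
    rw [mul_add, Pm _ _ _ _ (by norm_num) (by norm_num) (by norm_num) (by norm_num),
      Pm _ _ _ _ (by norm_num) (by norm_num) (by norm_num) (by norm_num)]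
    simp
  have qS : T.q k * S = S * T.q k := by
    unfold Tower.q
    rw [add_mul, mul_add, phiS 0 (by norm_num), phiS 1 (by norm_num)]
  have qpS : (T.phi k 30 30 + T.phi k 31 31) * S = S * (T.phi k 30 30 + T.phi k 31 31) := by
    rw [add_mul, mul_add, phiS 30 (by norm_num), phiS 31 (by norm_num)]
  have qM : T.q k ∈ M := hBM _ qB
  have J2q : T.J2 k * T.q k = T.J2 k := by
    unfold Tower.J2; rw [mul_assoc, qp'.isIdempotentElem.eq]
  have qJ2 : T.q k * T.J2 k = T.J2 k := by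
    unfold Tower.J2; rw [mul_assoc, ← mul_assoc, qp'.isIdempotentElem.eq]
  have JTm : ∀ m, T.JR k ^ m * T.Th k = T.Th k * T.J2 k ^ m := by
    intro m
    induction m with
    | zero => simp
    | succ m ih => rw [pow_succ, mul_assoc, JT, ← mul_assoc, ih, mul_assoc, ← pow_succ]
  have hJ2n := kb_J2pow h2 T k
  rw [← hn] at hJ2n
  -- constants
  set c : ℝ := 1 + ‖S‖ + ‖Si‖ with hc
  have hS0 := norm_nonneg S
  have hSi0 := norm_nonneg Si
  have c1 : 1 ≤ c := by linarith
  have c0 : 0 < c := by linarith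
  set ε0 : ℝ := σ ^ 2 / (8 * c ^ 2) with hε0
  have hε0p : 0 < ε0 := by positivity
  refine ⟨ε0, hε0p, ?_⟩
  intro ε' hε'
  set A : ℝ := 1 + ‖S * T.JR k * Si‖ + ‖S * T.Th k * Si‖ with hA
  have hA1 : 1 ≤ A := by
    have := norm_nonneg (S * T.JR k * Si)
    have := norm_nonneg (S * T.Th k * Si)
    linarith
  set Cm : ℝ := (2 * n + 1) * A ^ (2 * n) with hCm
  have hCm1 : 1 ≤ Cm := by
    have a1 : (1:ℝ) ≤ A ^ (2 * n) := one_le_pow₀ hA1
    have a2 : (1:ℝ) ≤ 2 * n + 1 := by
      have : (0:ℝ) ≤ n := Nat.cast_nonneg n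
      linarith
    nlinarith
  have hs0 : 0 < Real.sqrt σ := Real.sqrt_pos.mpr hσ
  set Dc : ℝ := c ^ 2 * (Real.sqrt σ)⁻¹ * ((ε0 ^ 2)⁻¹ + σ⁻¹) * (2 * Cm) with hDc
  have hDc0 : 0 < Dc := by positivity
  set τ0 : ℝ := min ε' (1 / 4) / Dc with hτ0
  have hτ0p : 0 < τ0 := by positivity
  have hD1 : Dc * τ0 ≤ ε' := by
    rw [hτ0, mul_div_cancel₀ _ hDc0.ne']; exact min_le_left _ _
  have hD2 : Dc * τ0 ≤ 1 / 4 := by
    rw [hτ0, mul_div_cancel₀ _ hDc0.ne']; exact min_le_right _ _
  refine ⟨τ0, hτ0p, ?_⟩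
  intro K hK hKp hY θ η hη hη1 hlay
  set t : ℝ := Cm * τ0 with ht
  have ht0 : 0 < t := by positivity
  have hτt : τ0 ≤ t := by nlinarith
  have hbase : c ^ 2 * (Real.sqrt σ)⁻¹ * ((ε0 ^ 2)⁻¹ + σ⁻¹) * t * 2 = Dc * τ0 := by
    rw [ht, hDc]; ring
  have hsm : c ^ 2 * (Real.sqrt σ)⁻¹ * ((ε0 ^ 2)⁻¹ + σ⁻¹) * t ≤ 1 / 4 := by
    have : 0 ≤ c ^ 2 * (Real.sqrt σ)⁻¹ * ((ε0 ^ 2)⁻¹ + σ⁻¹) * t := by positivity
    linarith
  have hJK : ‖(1 - K) * (S * T.JR k * Si) * K‖ ≤ τ0 := hY _ (by simp [Tower.Y])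
  have hTK : ‖(1 - K) * (S * T.Th k * Si) * K‖ ≤ τ0 := hY _ (by simp [Tower.Y])
  have hpow : ∀ m ≤ 2 * n, ‖(1 - K) * (S * (T.Th k * T.J2 k ^ m) * Si) * K‖ ≤ t := by
    intro m hm
    rw [← JTm, kb_conj_pow ad.inv']
    have a1 := kb_pow hKp hA1 (a := S * T.JR k * Si) (b := S * T.Th k * Si)
      (by rw [hA]; have := norm_nonneg (S * T.Th k * Si); linarith)
      (by rw [hA]; have := norm_nonneg (S * T.JR k * Si); linarith) hτ0p.le hJK hTK m
    refine a1.trans ?_
    rw [ht, hCm]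
    have a2 : ((m:ℝ) + 1) ≤ 2 * n + 1 := by
      have : (m:ℝ) ≤ 2 * n := by exact_mod_cast hm
      linarith
    have a3 : A ^ m ≤ A ^ (2 * n) := pow_le_pow_right₀ hA1 hm
    gcongr
  -- trace data
  have hl : ∀ a < 32, (θ - η) / 32 ≤ tr τ (T.phi k a a * K) ∧
      tr τ (T.phi k a a * K) ≤ (θ + η) / 32 := by
    intro a ha
    have := abs_le.mp (hlay a ha)
    constructor <;> linarith
  have h1B : (1 : H →L[ℂ] H) ∈ T.B k := one_mem _
  have trphi : ∀ a < 32, tr τ (T.phi k a a) = 1 / 32 := by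
    intro a ha
    have := (bB 1 h1B a ha).2
    rw [one_mul, hτ.one] at this
    unfold tr
    rw [this]
    have h5 : (1 / 32 : ℂ) = ((1 / 32 : ℝ) : ℂ) := by push_cast; ring
    rw [h5, Complex.ofReal_re]
  have projphi : ∀ a < 32, IsStarProjection (T.phi k a a) := fun a ha =>
    ⟨by show _ * _ = _; rw [Pm _ _ _ _ ha ha ha ha, if_pos rfl], mu.star a ha a ha⟩
  have hl1 : ∀ a < 32, tr τ (T.phi k a a * K) ≤ 1 / 32 := by
    intro a ha
    rw [← trphi a ha]
    exact kb_tr_le_one hτ hK (phiM a a ha ha) hKp (projphi a ha)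
  have XiXi : star (T.phi k 31 0) * T.phi k 31 0 = T.phi k 0 0 := by
    rw [mu.star 31 (by norm_num) 0 (by norm_num),
      Pm _ _ _ _ (by norm_num) (by norm_num) (by norm_num) (by norm_num)]; simp
  have χXi : T.phi k 31 31 * T.phi k 31 0 = T.phi k 31 0 := by
    rw [Pm _ _ _ _ (by norm_num) (by norm_num) (by norm_num) (by norm_num)]; simp
  have Xiφ : T.phi k 31 0 * T.phi k 0 0 = T.phi k 31 0 := by
    rw [Pm _ _ _ _ (by norm_num) (by norm_num) (by norm_num) (by norm_num)]; simp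
  have χψ : T.phi k 31 31 * (T.Th k * T.phi k 1 1) = T.Th k * T.phi k 1 1 := by
    rw [Th1, Pm _ _ _ _ (by norm_num) (by norm_num) (by norm_num) (by norm_num)]; simp
  have D : KBD M τ (T.q k) (T.phi k 30 30 + T.phi k 31 31) (T.phi k 0 0) (T.phi k 1 1)
      (T.phi k 31 31) (T.Th k) (T.phi k 31 0) S Si K c θ η :=
    { hτ := hτ
      faith := T.faithful
      qM := qM
      qpM := vn_add (phiM _ _ (by norm_num) (by norm_num)) (phiM _ _ (by norm_num) (by norm_num))
      φM := phiM _ _ (by norm_num) (by norm_num)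
      ψM := phiM _ _ (by norm_num) (by norm_num)
      χM := phiM _ _ (by norm_num) (by norm_num)
      ThM := ThM
      XiM := phiM _ _ (by norm_num) (by norm_num)
      SM := SM
      SiM := SiM
      KM := hK
      q_p := qp'
      qp_p := pqp
      φp := p0
      ψp := p1
      χp := p31
      Kp := hKp
      SSi := ad.inv
      SiS := ad.inv'
      Sq := qS
      Sqp := qpS
      Sφ := phiS 0 (by norm_num)
      Sχ := phiS 31 (by norm_num)
      qφ := qφ
      φq := φq
      qψ := qψ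
      ThTh := ThTh
      qpTh := qpTh
      Thq := Thq
      χψ := χψ
      XiXi := XiXi
      χXi := χXi
      Xiφ := Xiφ
      Xiq := Xiq
      c1 := c1
      Sc := by rw [hc]; linarith
      Sic := by rw [hc]; linarith
      η0 := hη
      tq := by
        unfold Tower.q
        rw [add_mul, tr_add]
        have a1 := (hl 0 (by norm_num)).1
        have a2 := (hl 1 (by norm_num)).1
        linarith
      tqp := by
        rw [add_mul, tr_add]
        have a1 := (hl 30 (by norm_num)).2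
        have a2 := (hl 31 (by norm_num)).2
        linarith
      tφ := (hl 0 (by norm_num)).1
      tχ := (hl 31 (by norm_num)).2
      tqp1 := by
        rw [add_mul, tr_add]
        have a1 := hl1 30 (by norm_num)
        have a2 := hl1 31 (by norm_num)
        linarith
      tχ1 := hl1 31 (by norm_num) }
  have gTh : GS M (T.q k) (T.phi k 30 30 + T.phi k 31 31) S Si K t (T.Th k) :=
    ⟨ThM, Thq, qpTh, hTK.trans hτt⟩
  have gXi : ‖(1 - K) * (S * T.phi k 31 0 * Si) * K‖ ≤ t := by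
    have := hpow n (by omega)
    rwa [hJ2n, Th10] at this
  obtain ⟨W, hW, Wp, hWp, hWs, hWps, hqW, hqWp, hC, htr, hL0, hL1, hL2⟩ :=
    kb_core h3 D hσ hσ4 hε0p le_rfl ht0.le hsm gTh gXi
  have hCε : c ^ 2 * (Real.sqrt σ)⁻¹ * (ε0 ^ 2)⁻¹ * t ≤ ε' / 2 := by
    have : c ^ 2 * (Real.sqrt σ)⁻¹ * (ε0 ^ 2)⁻¹ * t
        ≤ c ^ 2 * (Real.sqrt σ)⁻¹ * ((ε0 ^ 2)⁻¹ + σ⁻¹) * t := by
      gcongr
      have : 0 ≤ σ⁻¹ := by positivity
      linarith
    linarith
  have hJm : ∀ m < 2 * n, ‖(1 - Wp) * (T.J2 k ^ m * W)‖ ≤ ε' := by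
    intro m hm
    have g : GS M (T.q k) (T.phi k 30 30 + T.phi k 31 31) S Si K t (T.Th k * T.J2 k ^ m) := by
      refine ⟨?_, ?_, ?_, hpow m hm.le⟩
      · rw [← JTm]; exact vn_mul (vn_pow JRM m) ThM
      · rw [← JTm, mul_assoc, Thq]
      · rw [← mul_assoc, qpTh]
    have a1 := hC _ g
    have a2 : star (T.Th k) * (T.Th k * T.J2 k ^ m) * W = T.J2 k ^ m * W := by
      rw [← mul_assoc (star (T.Th k)), ThTh]
      rcases Nat.eq_zero_or_pos m with h | h
      · subst h; rw [pow_zero, mul_one, one_mul, hqW]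
      · obtain ⟨l, rfl⟩ : ∃ l, m = l + 1 := ⟨m - 1, by omega⟩
        rw [pow_succ', ← mul_assoc, qJ2]
    rw [a2] at a1
    linarith
  refine ⟨W, hW, Wp, hWp, hWs, hWps, hqW, hqWp, hJm, ?_, ?_, htr, hL0, hL1, ?_⟩
  · have := hJm 0 (by omega)
    rwa [pow_zero, one_mul] at this
  · -- unitaries
    have gen : ∀ x ∈ M, x * T.q k = T.q k * x → T.Th k * x ∈ T.Y k →
        ‖(1 - Wp) * (x * W)‖ ≤ ε' / 2 := by
      intro x hx hxq hxY
      have g : GS M (T.q k) (T.phi k 30 30 + T.phi k 31 31) S Si K t (T.Th k * x) := by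
        refine ⟨vn_mul ThM hx, ?_, ?_, (hY _ hxY).trans hτt⟩
        · rw [mul_assoc, hxq, ← mul_assoc, Thq]
        · rw [← mul_assoc, qpTh]
      have a1 := hC _ g
      have a2 : star (T.Th k) * (T.Th k * x) * W = x * W := by
        rw [← mul_assoc (star (T.Th k)), ThTh, ← hxq, mul_assoc, hqW]
      rw [a2] at a1
      linarith
    have mq : ∀ c < 2, ∀ c' < 2, T.mm k c c' * T.q k = T.q k * T.mm k c c' := by
      intro c hc c' hc'
      unfold Tower.q
      rw [mul_add, add_mul, (bphi 0 (by norm_num) 0 (by norm_num)).2 c hc c' hc',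
        (bphi 1 (by norm_num) 1 (by norm_num)).2 c hc c' hc']
    have bq : T.b k * T.q k = T.q k * T.b k := by
      unfold Tower.q
      rw [mul_add, add_mul, (bb 0 (by norm_num) 0 (by norm_num)).1,
        (bb 1 (by norm_num) 1 (by norm_num)).1]
    have bq' : T.b' k * T.q k = T.q k * T.b' k := by
      unfold Tower.q
      rw [mul_add, add_mul, (bb 0 (by norm_num) 0 (by norm_num)).2,
        (bb 1 (by norm_num) 1 (by norm_num)).2]
    have m01 := mmM 0 (by norm_num) 1 (by norm_num)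
    have m10 := mmM 1 (by norm_num) 0 (by norm_num)
    have u1 := gen (T.mm k 0 1) m01 (mq 0 (by norm_num) 1 (by norm_num)) (by simp [Tower.Y])
    have u2 := gen (T.mm k 1 0) m10 (mq 1 (by norm_num) 0 (by norm_num)) (by simp [Tower.Y])
    have u3 := gen (T.mm k 0 1 * T.b k) (vn_mul m01 bM)
      (by rw [mul_assoc, bq, ← mul_assoc, mq 0 (by norm_num) 1 (by norm_num), mul_assoc])
      (by simp [Tower.Y])
    have u4 := gen (T.mm k 1 0 * T.b' k) (vn_mul m10 b'M)
      (by rw [mul_assoc, bq', ← mul_assoc, mq 1 (by norm_num) 0 (by norm_num), mul_assoc])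
      (by simp [Tower.Y])
    have two : ∀ x y : H →L[ℂ] H, ‖(1 - Wp) * (x * W)‖ ≤ ε' / 2 → ‖(1 - Wp) * (y * W)‖ ≤ ε' / 2 →
        ‖(1 - Wp) * ((x + y) * W)‖ ≤ ε' := by
      intro x y hx hy
      have : (1 - Wp) * ((x + y) * W) = (1 - Wp) * (x * W) + (1 - Wp) * (y * W) := by
        noncomm_ring
      rw [this]
      exact (norm_add_le _ _).trans (by linarith)
    intro U hU
    simp only [Tower.U, Set.mem_insert_iff, Set.mem_singleton_iff] at hU
    rcases hU with rfl | rfl | rfl | rfl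
    · exact two _ _ u1 u2
    · exact two _ _ u3 u2
    · exact two _ _ u1 u4
    · exact two _ _ u3 u4
  · -- L2
    intro e he hep hecomm W' hW' hW'p hWW' hen κ hk1 hk2
    exact hL2 e he hep (hecomm S ad.S_mem)
      (hecomm _ (bphi 0 (by norm_num) 0 (by norm_num)).1) W' hW' hW'p hWW' hen κ hk1 hk2

end final

end Pool.Agent.H98R2.RR
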