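import Pool.Agent.H98R2.RR.Kill

set_option autoImplicit false
open Filter Topology
open scoped ComplexOrder InnerProductSpace

namespace Pool.Agent.H98R2.RR
open Pool.H711R2 Pool.H711R2.IsNormalTrace

section gen
variable {H : Type} [NormedAddCommGroup H] [InnerProductSpace ℂ H] [CompleteSpace H]
variable {M : VonNeumannAlgebra H} {τ : (H →L[ℂ] H) →ₗ[ℂ] ℂ}

lemma kb_app {p : H →L[ℂ] H} (hp : IsStarProjection p) (v : H) : p (p v) = p v := by
  have := congrArg (fun z : H →L[ℂ] H => z v) hp.isIdempotentElem.eq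
  simpa using this

lemma kb_papp {a b c : H →L[ℂ] H} (h : a * b = c) (v : H) : a (b v) = c v := by
  have := congrArg (fun z : H →L[ℂ] H => z v) h
  simpa using this

lemma kb_le {p : H →L[ℂ] H} (hp : IsStarProjection p) (v : H) : ‖p v‖ ≤ ‖v‖ := by
  have h := p.le_opNorm v
  have h1 : ‖p‖ ≤ 1 := hp.norm_le
  nlinarith [norm_nonneg v]

lemma kb_inj (hτ : IsNormalTrace M τ) {g P A : H →L[ℂ] H} (hg : g ∈ M) (hP : P ∈ M) (hA : A ∈ M)
    (hgp : IsStarProjection g) (hPp : IsStarProjection P)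
    (h : ∀ v, g v = v → P (A v) = 0 → v = 0) : tr τ g ≤ tr τ P := by
  have hx : P * A ∈ M := vn_mul hP hA
  have h1 := hτ.tr_disjoint hg (kp_mem hx) hgp (kp_isStar _) (by
    intro v h2 h3
    apply h v h2
    have := kp_apply_mem (P * A) v
    rw [h3] at this
    simpa using this)
  have h2 : tr τ (1 - P) ≤ tr τ (kp (star (P * A))) := by
    apply hτ.tr_mono (vn_sub (vn_one M) hP) (kp_mem (vn_star hx)) hPp.one_sub (kp_isStar _)
    intro v hv
    apply kp_apply_of_ker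
    have h3 : P v = 0 := by
      have : (1 - P) v = v - P v := by simp
      rw [this] at hv
      exact sub_eq_self.mp hv
    rw [star_mul, hPp.isSelfAdjoint.star_eq]
    simp [h3]
  rw [← hτ.trace_kp hx, tr_sub, hτ.tr_one] at h2
  linarith

/-- the range projection of `A * R` for an invertible-like `A` -/
lemma kb_range (hτ : IsNormalTrace M τ) {A R : H →L[ℂ] H} (hA : A ∈ M) (hR : R ∈ M)
    (hRp : IsStarProjection R) :
    ∃ X ∈ M, IsStarProjection X ∧ (1 - X) * (A * R) = 0 ∧ tr τ X ≤ tr τ R ∧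
      ((∀ v, R v = v → A v = 0 → v = 0) → tr τ R ≤ tr τ X) ∧
      (∀ z : H →L[ℂ] H, z * (A * R) = 0 → z * X = 0) := by
  set y := A * R with hy
  have hyM : y ∈ M := vn_mul hA hR
  refine ⟨1 - kp (star y), vn_sub (vn_one M) (kp_mem (vn_star hyM)), (kp_isStar _).one_sub,
    ?_, ?_, ?_, ?_⟩
  · have h1 : star y * kp (star y) = 0 := mul_kp _
    have h2 := congrArg star h1
    rw [star_mul, star_star, kp_star, star_zero] at h2
    rw [sub_sub_cancel]; exact h2
  · have h1 : tr τ (1 - R) ≤ tr τ (kp y) := by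
      apply hτ.tr_mono (vn_sub (vn_one M) hR) (kp_mem hyM) hRp.one_sub (kp_isStar _)
      intro v hv
      apply kp_apply_of_ker
      have h2 : R v = 0 := by
        have : (1 - R) v = v - R v := by simp
        rw [this] at hv
        exact sub_eq_self.mp hv
      rw [hy]; simp [h2]
    rw [tr_sub, hτ.tr_one, ← hτ.trace_kp hyM]
    rw [tr_sub, hτ.tr_one] at h1
    linarith
  · intro h
    have h1 := hτ.tr_disjoint hR (kp_mem hyM) hRp (kp_isStar _) (by
      intro v h2 h3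
      apply h v h2
      have := kp_apply_mem y v
      rw [h3, hy] at this
      simpa [h2] using this)
    rw [tr_sub, hτ.tr_one, ← hτ.trace_kp hyM]
    linarith
  · intro z hz
    have h1 : kp (star y) * star z = star z := by
      ext v
      have h2 : star y (star z v) = 0 := by
        have := congrArg star hz
        rw [star_mul, star_zero] at this
        have := congrArg (fun w : H →L[ℂ] H => w v) this
        simpa using this
      simpa using kp_apply_of_ker (star y) h2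
    have h2 := congrArg star h1
    rw [star_mul, star_star, kp_star] at h2
    rw [mul_sub, mul_one, h2, sub_self]

/-- products of almost invariant operators -/
lemma kb_pow {K a b : H →L[ℂ] H} (hK : IsStarProjection K) {τ0 A : ℝ} (hA : 1 ≤ A)
    (ha : ‖a‖ ≤ A) (hb : ‖b‖ ≤ A) (h0 : 0 ≤ τ0) (h1 : ‖(1 - K) * a * K‖ ≤ τ0)
    (h2 : ‖(1 - K) * b * K‖ ≤ τ0) (m : ℕ) :
    ‖(1 - K) * (a ^ m * b) * K‖ ≤ (m + 1) * A ^ m * τ0 := by
  induction m with
  | zero => simpa using h2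
  | succ m ih =>
    have e1 : (1 - K) * (a ^ (m + 1) * b) * K =
        ((1 - K) * a * K) * (a ^ m * b * K) + ((1 - K) * a) * ((1 - K) * (a ^ m * b) * K) := by
      rw [pow_succ']
      noncomm_ring
    have hKn : ‖K‖ ≤ 1 := hK.norm_le
    have hK1 : ‖(1 : H →L[ℂ] H) - K‖ ≤ 1 := hK.one_sub.norm_le
    have hp : ‖a ^ m * b * K‖ ≤ A ^ (m + 1) := by
      have h3 : ‖a ^ m‖ ≤ A ^ m := by
        rcases Nat.eq_zero_or_pos m with h | h
        · subst h
          simp only [pow_zero]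
          exact ContinuousLinearMap.norm_id_le
        · exact (norm_pow_le' a h).trans (by gcongr)
      calc ‖a ^ m * b * K‖ ≤ ‖a ^ m * b‖ * ‖K‖ := norm_mul_le _ _
        _ ≤ (‖a ^ m‖ * ‖b‖) * 1 := by gcongr; exact norm_mul_le _ _
        _ ≤ (A ^ m * A) * 1 := by gcongr
        _ = _ := by ring
    have hA0 : 0 ≤ A := by linarith
    rw [e1]
    calc ‖((1 - K) * a * K) * (a ^ m * b * K) + ((1 - K) * a) * ((1 - K) * (a ^ m * b) * K)‖
        ≤ ‖(1 - K) * a * K‖ * ‖a ^ m * b * K‖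
          + ‖(1 - K) * a‖ * ‖(1 - K) * (a ^ m * b) * K‖ :=
          (norm_add_le _ _).trans (add_le_add (norm_mul_le _ _) (norm_mul_le _ _))
      _ ≤ τ0 * A ^ (m + 1) + (1 * A) * ((m + 1) * A ^ m * τ0) := by
          gcongr
          exact (norm_mul_le _ _).trans (by gcongr)
      _ = _ := by push_cast; ring

lemma kb_comm_inv {S Si p : H →L[ℂ] H} (h1 : S * Si = 1) (h2 : Si * S = 1)
    (h : p * S = S * p) : p * Si = Si * p := by
  calc p * Si = (Si * S) * p * Si := by rw [h2, one_mul]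
    _ = Si * (S * p) * Si := by noncomm_ring
    _ = Si * (p * S) * Si := by rw [h]
    _ = Si * p * (S * Si) := by noncomm_ring
    _ = _ := by rw [h1, mul_one]

lemma kb_conj_pow {S Si a b : H →L[ℂ] H} (h2 : Si * S = 1) (m : ℕ) :
    S * (a ^ m * b) * Si = (S * a * Si) ^ m * (S * b * Si) := by
  induction m with
  | zero => simp
  | succ m ih =>
    rw [pow_succ', pow_succ', mul_assoc (S * a * Si), ← ih]
    calc S * (a * a ^ m * b) * Si = S * a * 1 * (a ^ m * b) * Si := by noncomm_ring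
      _ = S * a * (Si * S) * (a ^ m * b) * Si := by rw [h2]
      _ = _ := by noncomm_ring

lemma kb_tr_le_one (hτ : IsNormalTrace M τ) {K p : H →L[ℂ] H} (hK : K ∈ M) (hp : p ∈ M)
    (hKp : IsStarProjection K) (hpp : IsStarProjection p) : tr τ (p * K) ≤ tr τ p := by
  have h1 := hτ.tr_star_mul_self (vn_mul (vn_sub (vn_one M) hK) hp)
  have h2 : star ((1 - K) * p) * ((1 - K) * p) = p * p - p * K * p := by
    rw [star_mul, hKp.one_sub.isSelfAdjoint.star_eq, hpp.isSelfAdjoint.star_eq]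
    calc p * (1 - K) * ((1 - K) * p) = p * ((1 - K) * (1 - K)) * p := by noncomm_ring
      _ = p * (1 - K) * p := by rw [hKp.one_sub.isIdempotentElem.eq]
      _ = _ := by noncomm_ring
  have h3 : tr τ (p * K * p) = tr τ (p * K) := by
    unfold tr
    rw [hτ.trace (p * K) (vn_mul hp hK) p hp, ← mul_assoc, hpp.isIdempotentElem.eq]
  rw [h2, hpp.isIdempotentElem.eq, tr_sub, h3] at h1
  linarith

end gen

section tower
variable {H : Type} [NormedAddCommGroup H] [InnerProductSpace ℂ H] [CompleteSpace H]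
variable {M : VonNeumannAlgebra H} {τ : (H →L[ℂ] H) →ₗ[ℂ] ℂ}

lemma kb_J2pow (h2 : St_BAS2) (T : Tower M τ) (k : ℕ) : T.J2 k ^ (64 ^ k) = T.phi k 1 0 := by
  obtain ⟨-, -, -, -, -, hJ, hE, -, -, -, -⟩ := h2 H M τ T k
  set n := 64 ^ k with hn
  have hn0 : 0 < n := by positivity
  have key : ∀ m, 1 ≤ m → m ≤ n →
      T.J2 k ^ m = ∑ i ∈ Finset.range (2 * n - m), T.E2 k (i + m) i := by
    intro m hm
    induction m, hm using Nat.le_induction with
    | base => intro _; rw [pow_one]; exact hJ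
    | succ m hm ih =>
      intro hmn
      rw [pow_succ', ih (by omega), hJ, Finset.sum_mul]
      simp_rw [Finset.mul_sum]
      rw [Finset.sum_comm]
      have hsub : Finset.range (2 * n - (m + 1)) ⊆ Finset.range (2 * n - m) := by
        intro x hx; simp only [Finset.mem_range] at hx ⊢; omega
      rw [← Finset.sum_subset hsub]
      · apply Finset.sum_congr rfl
        intro i hi
        have hi' := Finset.mem_range.mp hi
        rw [Finset.sum_eq_single (i + m)]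
        · rw [hE _ (by omega) _ (by omega) _ (by omega) _ (by omega), if_pos rfl]
          congr 1
        · intro j hj hne
          have hj' := Finset.mem_range.mp hj
          rw [hE _ (by omega) _ (by omega) _ (by omega) _ (by omega), if_neg hne]
        · intro h
          exact absurd (Finset.mem_range.mpr (by omega)) h
      · intro i hi hni
        have hi' := Finset.mem_range.mp hi
        apply Finset.sum_eq_zero
        intro j hj
        have hj' := Finset.mem_range.mp hj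
        rw [hE _ (by omega) _ (by omega) _ (by omega) _ (by omega), if_neg]
        intro h
        apply hni
        rw [Finset.mem_range]; omega
  rw [key n hn0 le_rfl]
  have h3 : 2 * n - n = n := by omega
  rw [h3]
  have h4 : ∀ i ∈ Finset.range n, T.E2 k (i + n) i = T.e k i i * T.phi k 1 0 := by
    intro i hi
    have hi' := Finset.mem_range.mp hi
    unfold Tower.E2
    rw [← hn, Nat.add_mod_right, Nat.mod_eq_of_lt hi', Nat.add_div_right _ hn0,
      Nat.div_eq_of_lt hi']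
  rw [Finset.sum_congr rfl h4, ← Finset.sum_mul, (T.eMU k).sum, one_mul]

end tower

section core
variable {H : Type} [NormedAddCommGroup H] [InnerProductSpace ℂ H] [CompleteSpace H]
variable {M : VonNeumannAlgebra H} {τ : (H →L[ℂ] H) →ₗ[ℂ] ℂ}

structure KBD (M : VonNeumannAlgebra H) (τ : (H →L[ℂ] H) →ₗ[ℂ] ℂ)
    (q qp φ ψ χ Th Xi S Si K : H →L[ℂ] H) (c θ η : ℝ) : Prop where
  hτ : IsNormalTrace M τ
  faith : ∀ x ∈ M, τ (star x * x) = 0 → x = 0
  qM : q ∈ M
  qpM : qp ∈ M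
  φM : φ ∈ M
  ψM : ψ ∈ M
  χM : χ ∈ M
  ThM : Th ∈ M
  XiM : Xi ∈ M
  SM : S ∈ M
  SiM : Si ∈ M
  KM : K ∈ M
  q_p : IsStarProjection q
  qp_p : IsStarProjection qp
  φp : IsStarProjection φ
  ψp : IsStarProjection ψ
  χp : IsStarProjection χ
  Kp : IsStarProjection K
  SSi : S * Si = 1
  SiS : Si * S = 1
  Sq : q * S = S * q
  Sqp : qp * S = S * qp
  Sφ : φ * S = S * φ
  Sχ : χ * S = S * χ
  qφ : q * φ = φ
  φq : φ * q = φ
  qψ : q * ψ = ψ
  ThTh : star Th * Th = q
  qpTh : qp * Th = Th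
  Thq : Th * q = Th
  χψ : χ * (Th * ψ) = Th * ψ
  XiXi : star Xi * Xi = φ
  χXi : χ * Xi = Xi
  Xiφ : Xi * φ = Xi
  Xiq : Xi * q = Xi
  c1 : 1 ≤ c
  Sc : ‖S‖ ≤ c
  Sic : ‖Si‖ ≤ c
  η0 : 0 ≤ η
  tq : 2 * ((θ - η) / 32) ≤ tr τ (q * K)
  tqp : tr τ (qp * K) ≤ 2 * ((θ + η) / 32)
  tφ : (θ - η) / 32 ≤ tr τ (φ * K)
  tχ : tr τ (χ * K) ≤ (θ + η) / 32
  tqp1 : tr τ (qp * K) ≤ 1 / 16
  tχ1 : tr τ (χ * K) ≤ 1 / 32

/-- good shifts -/
def GS (M : VonNeumannAlgebra H) (q qp S Si K : H →L[ℂ] H) (t : ℝ) (Θ : H →L[ℂ] H) : Prop :=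
  Θ ∈ M ∧ Θ * q = Θ ∧ qp * Θ = Θ ∧ ‖(1 - K) * (S * Θ * Si) * K‖ ≤ t

lemma kb_iso {Th q : H →L[ℂ] H} (h : star Th * Th = q) {v : H} (hv : q v = v) :
    ‖Th v‖ = ‖v‖ := by
  have h1 : ⟪Th v, Th v⟫_ℂ = ⟪v, v⟫_ℂ := by
    have h2 : ⟪Th v, Th v⟫_ℂ = ⟪star Th (Th v), v⟫_ℂ :=
      (ContinuousLinearMap.adjoint_inner_left Th v (Th v)).symm
    have h3 : star Th (Th v) = q v := kb_papp h v
    rw [h2, h3, hv]
  have h4 := congrArg Complex.re h1
  rw [isr, isr] at h4
  have h5 := norm_nonneg (Th v)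
  have h6 := norm_nonneg v
  nlinarith [sq_nonneg (‖Th v‖ - ‖v‖), sq_nonneg (‖Th v‖ + ‖v‖)]

lemma KBD.low {q qp φ ψ χ Th Xi S Si K : H →L[ℂ] H} {c θ η : ℝ}
    (D : KBD M τ q qp φ ψ χ Th Xi S Si K c θ η) (v : H) : ‖v‖ ≤ c * ‖S v‖ ∧ ‖v‖ ≤ c * ‖Si v‖ := by
  have c0 : 0 ≤ c := by linarith [D.c1]
  constructor
  · have h : v = Si (S v) := by
      have := kb_papp D.SiS v; simpa using this.symm
    calc ‖v‖ = ‖Si (S v)‖ := by rw [← h]
      _ ≤ ‖Si‖ * ‖S v‖ := ContinuousLinearMap.le_opNorm _ _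
      _ ≤ c * ‖S v‖ := by gcongr; exact D.Sic
  · have h : v = S (Si v) := by
      have := kb_papp D.SSi v; simpa using this.symm
    calc ‖v‖ = ‖S (Si v)‖ := by rw [← h]
      _ ≤ ‖S‖ * ‖Si v‖ := ContinuousLinearMap.le_opNorm _ _
      _ ≤ c * ‖Si v‖ := by gcongr; exact D.Sc

set_option maxHeartbeats 4000000 in
theorem kb_core (h3 : St_KA) {q qp φ ψ χ Th Xi S Si K : H →L[ℂ] H} {c θ η : ℝ}
    (D : KBD M τ q qp φ ψ χ Th Xi S Si K c θ η) {σ ε0 t : ℝ} (hσ : 0 < σ) (hσ4 : σ < 1 / 4)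
    (hε0 : 0 < ε0) (hε1 : ε0 ≤ σ ^ 2 / (8 * c ^ 2)) (ht : 0 ≤ t)
    (hsm : c ^ 2 * (Real.sqrt σ)⁻¹ * ((ε0 ^ 2)⁻¹ + σ⁻¹) * t ≤ 1 / 4)
    (gTh : GS M q qp S Si K t Th) (gXi : ‖(1 - K) * (S * Xi * Si) * K‖ ≤ t) :
    ∃ W ∈ M, ∃ Wp ∈ M, IsStarProjection W ∧ IsStarProjection Wp ∧ q * W = W ∧
      q * Wp = Wp ∧
      (∀ Θ, GS M q qp S Si K t Θ →
        ‖(1 - Wp) * (star Th * Θ * W)‖ ≤ c ^ 2 * (Real.sqrt σ)⁻¹ * (ε0 ^ 2)⁻¹ * t) ∧
      tr τ Wp ≤ tr τ W + η + 4 * σ ∧
      (∀ P ∈ M, IsStarProjection P → φ * P = P → ∀ W' ∈ M, IsStarProjection W' →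
        W * W' = W' → ‖(1 - P) * (φ * W')‖ ≤ ε0 →
        θ / 32 - η - σ - (tr τ W - tr τ W') ≤ tr τ P) ∧
      (∀ P ∈ M, IsStarProjection P → ψ * P = P → ‖(1 - W) * P‖ ≤ ε0 →
        tr τ P ≤ θ / 32 + η + 4 * σ) ∧
      (∀ e ∈ M, IsStarProjection e → e * S = S * e → e * φ = φ * e →
        ∀ W' ∈ M, IsStarProjection W' → W * W' = W' → ‖(1 - e) * W'‖ ≤ ε0 →
        ∀ κ : ℝ, tr τ (e * φ) ≤ θ / 32 + κ → tr τ W - tr τ W' ≤ κ →
        n2 τ (φ * (K - e) * φ) ≤ 40 * (κ + η + σ)) := by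
  have hτ := D.hτ
  have c1 := D.c1
  have c0 : 0 < c := by linarith
  have hc2 : 1 ≤ c ^ 2 := by nlinarith
  have hσσ : σ ^ 2 ≤ σ / 4 := by nlinarith
  have hε2 : ε0 ≤ σ ^ 2 / 8 := by
    refine hε1.trans ?_
    gcongr
    nlinarith
  have hε3 : ε0 * c ^ 2 ≤ σ ^ 2 / 8 := by
    have : σ ^ 2 / (8 * c ^ 2) * c ^ 2 = σ ^ 2 / 8 := by field_simp
    calc ε0 * c ^ 2 ≤ σ ^ 2 / (8 * c ^ 2) * c ^ 2 := by gcongr
      _ = _ := this
  have hε1' : ε0 ≤ 1 := by nlinarith
  have hσ1 : 0 < ε0 ^ 2 := by positivity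
  have hσ1l : ε0 ^ 2 < 1 := by nlinarith
  have hσ1σ : ε0 ^ 2 ≤ σ / 8 := by nlinarith
  have hsq : Real.sqrt (ε0 ^ 2) = ε0 := Real.sqrt_sq hε0.le
  have hs0 : 0 < Real.sqrt σ := Real.sqrt_pos.mpr hσ
  set s : ℝ := (Real.sqrt σ)⁻¹ with hs
  have hsp : 0 < s := by positivity
  have hs1 : s ^ 2 = σ⁻¹ := by rw [hs, inv_pow, Real.sq_sqrt hσ.le]
  -- commutation
  have Siq := kb_comm_inv D.SSi D.SiS D.Sq
  have Siφ := kb_comm_inv D.SSi D.SiS D.Sφ
  -- spectral parts
  obtain ⟨⟨R, hR, Y, hY, hRp, hqR, hKY, hqY, hYR, hYn, hRn, hRtr, -⟩, -⟩ :=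
    h3 H M τ hτ D.faith K D.KM D.Kp q D.qM D.q_p (ε0 ^ 2) hσ1 hσ1l
  obtain ⟨⟨R0, hR0, Y0, hY0, hR0p, hφR0, hKY0, hφY0, hY0R0, hY0n, -, hR0tr, hR0n⟩, -⟩ :=
    h3 H M τ hτ D.faith K D.KM D.Kp φ D.φM D.φp σ hσ (by linarith)
  obtain ⟨-, ⟨Rp, hRpM, hRpp, hqRp, hRpn, hRptr⟩⟩ :=
    h3 H M τ hτ D.faith K D.KM D.Kp qp D.qpM D.qp_p σ hσ (by linarith)
  obtain ⟨-, ⟨R1, hR1, hR1p, hχR1, hR1n, hR1tr⟩⟩ :=
    h3 H M τ hτ D.faith K D.KM D.Kp χ D.χM D.χp σ hσ (by linarith)
  rw [hsq] at hRn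
  -- the projections `W`, `Wp`
  obtain ⟨W, hW, hWp, hW0, hWtr1, hWtr2, hWz⟩ := kb_range hτ D.SiM hR hRp
  obtain ⟨Wp, hWpM, hWpp, hWp0, hWptr, -, hWpz⟩ :=
    kb_range hτ (vn_mul (vn_star D.ThM) D.SiM) hRpM hRpp
  have hWtr : tr τ R ≤ tr τ W := hWtr2 (by
    intro v _ h
    have := (D.low v).2
    rw [h, norm_zero, mul_zero] at this
    exact norm_le_zero_iff.mp this)
  have hqW : q * W = W := by
    have h1 : (1 - q) * (Si * R) = 0 := by
      have : (1 - q) * (Si * R) = Si * R - q * Si * R := by noncomm_ring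
      rw [this, Siq, mul_assoc, hqR, sub_self]
    have h2 := hWz _ h1
    have h3 : (1 - q) * W = W - q * W := by noncomm_ring
    rw [h3] at h2
    exact (sub_eq_zero.mp h2).symm
  have hqs : q * star Th = star Th := by
    have := congrArg star D.Thq
    rwa [star_mul, D.q_p.isSelfAdjoint.star_eq] at this
  have hqWp : q * Wp = Wp := by
    have h1 : (1 - q) * (star Th * Si * Rp) = 0 := by
      have : (1 - q) * (star Th * Si * Rp) = star Th * Si * Rp - (q * star Th) * Si * Rp := by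
        noncomm_ring
      rw [this, hqs, sub_self]
    have h2 := hWpz _ h1
    have h3 : (1 - q) * Wp = Wp - q * Wp := by noncomm_ring
    rw [h3] at h2
    exact (sub_eq_zero.mp h2).symm
  -- `W = Si R S W`
  have hRSW : R * (S * W) = S * W := by
    have h1 : ((1 - R) * S) * (Si * R) = 0 := by
      calc ((1 - R) * S) * (Si * R) = (1 - R) * (S * Si) * R := by noncomm_ring
        _ = R - R * R := by rw [D.SSi]; noncomm_ring
        _ = 0 := by rw [hRp.isIdempotentElem.eq, sub_self]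
    have h2 := hWz _ h1
    have h3 : (1 - R) * S * W = S * W - R * (S * W) := by noncomm_ring
    rw [h3] at h2
    exact (sub_eq_zero.mp h2).symm
  set X : H →L[ℂ] H := Y * (S * W) with hX
  have hKX : K * X = X := by rw [hX, ← mul_assoc, hKY]
  have hSW : S * W = q * X := by rw [hX, ← mul_assoc, hqY, hRSW]
  have hXn : ‖X‖ ≤ (ε0 ^ 2)⁻¹ * c := by
    calc ‖X‖ ≤ ‖Y‖ * ‖S * W‖ := norm_mul_le _ _
      _ ≤ (ε0 ^ 2)⁻¹ * (c * 1) := by
        gcongr
        calc ‖S * W‖ ≤ ‖S‖ * ‖W‖ := norm_mul_le _ _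
          _ ≤ c * 1 := by gcongr; exact D.Sc; exact hWp.norm_le
      _ = _ := by ring
  have hThn : ‖star Th‖ ≤ 1 := by
    rw [norm_star]
    have : ‖Th‖ * ‖Th‖ ≤ 1 := by
      rw [← CStarRing.norm_star_mul_self, D.ThTh]; exact D.q_p.norm_le
    nlinarith [norm_nonneg Th]
  -- C1
  have C1 : ∀ Θ, GS M q qp S Si K t Θ →
      ‖(1 - Wp) * (star Th * Θ * W)‖ ≤ c ^ 2 * s * (ε0 ^ 2)⁻¹ * t ∧
      ‖(1 - K) * (S * Θ * W)‖ ≤ t * ‖X‖ := by
    intro Θ ⟨hΘ, hΘq, hqΘ, hΘt⟩
    have e1 : S * Θ * W = (S * Θ * Si) * X := by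
      calc S * Θ * W = S * Θ * ((Si * S) * W) := by rw [D.SiS, one_mul]
        _ = S * Θ * Si * (S * W) := by noncomm_ring
        _ = S * Θ * Si * (q * X) := by rw [hSW]
        _ = S * Θ * (Si * q) * X := by noncomm_ring
        _ = S * (Θ * q) * Si * X := by rw [← Siq]; noncomm_ring
        _ = _ := by rw [hΘq]
    have e2 : (1 - K) * (S * Θ * W) = ((1 - K) * (S * Θ * Si) * K) * X := by
      rw [e1, mul_assoc _ K X, hKX, ← mul_assoc]
    have e3 : ‖(1 - K) * (S * Θ * W)‖ ≤ t * ‖X‖ := by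
      rw [e2]
      exact (norm_mul_le _ _).trans (by gcongr)
    refine ⟨?_, e3⟩
    have e4 : qp * (S * Θ * W) = S * Θ * W := by
      calc qp * (S * Θ * W) = (qp * S) * Θ * W := by noncomm_ring
        _ = S * (qp * Θ) * W := by rw [D.Sqp]; noncomm_ring
        _ = _ := by rw [hqΘ]
    have hzM : S * Θ * W ∈ M := vn_mul (vn_mul D.SM hΘ) hW
    have e5 := hRpn _ hzM e4
    have e6 : (1 - Wp) * (star Th * Θ * W) =
        ((1 - Wp) * (star Th * Si)) * ((1 - Rp) * (S * Θ * W)) := by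
      have a1 : star Th * Θ * W = star Th * Si * (S * Θ * W) := by
        calc star Th * Θ * W = star Th * 1 * Θ * W := by noncomm_ring
          _ = star Th * (Si * S) * Θ * W := by rw [D.SiS]
          _ = _ := by noncomm_ring
      have a2 : (1 - Wp) * (star Th * Si * (S * Θ * W)) =
          ((1 - Wp) * (star Th * Si * Rp)) * (S * Θ * W) +
          ((1 - Wp) * (star Th * Si)) * ((1 - Rp) * (S * Θ * W)) := by noncomm_ring
      rw [a1, a2, hWp0, zero_mul, zero_add]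
    rw [e6]
    have n1 : ‖(1 - Wp) * (star Th * Si)‖ ≤ c := by
      calc ‖(1 - Wp) * (star Th * Si)‖ ≤ ‖(1 : H →L[ℂ] H) - Wp‖ * ‖star Th * Si‖ := norm_mul_le _ _
        _ ≤ 1 * (‖star Th‖ * ‖Si‖) := by
          gcongr
          · exact hWpp.one_sub.norm_le
          · exact norm_mul_le _ _
        _ ≤ 1 * (1 * c) := by gcongr; exact D.Sic
        _ = c := by ring
    calc ‖((1 - Wp) * (star Th * Si)) * ((1 - Rp) * (S * Θ * W))‖
        ≤ ‖(1 - Wp) * (star Th * Si)‖ * ‖(1 - Rp) * (S * Θ * W)‖ := norm_mul_le _ _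
      _ ≤ c * (s * (t * ((ε0 ^ 2)⁻¹ * c))) := by
        gcongr
        refine e5.trans ?_
        gcongr
        exact e3.trans (by gcongr)
      _ = _ := by ring
  -- traces
  have hinv : (1 - σ)⁻¹ ≤ 1 + 2 * σ := by
    rw [inv_le_comm₀ (by linarith) (by linarith), inv_le_comm₀ (by positivity) (by linarith)]
    rw [inv_le_iff_one_le_mul₀ (by linarith)]
    nlinarith
  have hnK : ∀ p ∈ M, IsStarProjection p → 0 ≤ tr τ (p * K) := by
    intro p hp hpp
    have h1 := hτ.tr_star_mul_self (vn_mul D.KM hp)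
    have h2 : star (K * p) * (K * p) = p * K * p := by
      rw [star_mul, D.Kp.isSelfAdjoint.star_eq, hpp.isSelfAdjoint.star_eq]
      calc p * K * (K * p) = p * (K * K) * p := by noncomm_ring
        _ = _ := by rw [D.Kp.isIdempotentElem.eq]
    have h3 : tr τ (p * K * p) = tr τ (p * K) := by
      unfold tr
      rw [hτ.trace (p * K) (vn_mul hp D.KM) p hp, ← mul_assoc, hpp.isIdempotentElem.eq]
    rw [h2, h3] at h1
    exact h1
  have hRp' : tr τ Rp ≤ tr τ (qp * K) + σ / 8 := by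
    have h1 := hnK qp D.qpM D.qp_p
    have h2 := D.tqp1
    calc tr τ Rp ≤ (1 - σ)⁻¹ * tr τ (qp * K) := hRptr
      _ ≤ (1 + 2 * σ) * tr τ (qp * K) := by gcongr
      _ ≤ _ := by nlinarith
  have hR1' : tr τ R1 ≤ tr τ (χ * K) + σ / 16 := by
    have h1 := hnK χ D.χM D.χp
    have h2 := D.tχ1
    calc tr τ R1 ≤ (1 - σ)⁻¹ * tr τ (χ * K) := hR1tr
      _ ≤ (1 + 2 * σ) * tr τ (χ * K) := by gcongr
      _ ≤ _ := by nlinarith
  have hη := D.η0
  -- `u`
  set u : H →L[ℂ] H := Si * (q * Y0) with hu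
  have huM : u ∈ M := vn_mul D.SiM (vn_mul D.qM hY0)
  have hun : ‖u‖ ≤ c * σ⁻¹ := by
    calc ‖u‖ ≤ ‖Si‖ * ‖q * Y0‖ := norm_mul_le _ _
      _ ≤ c * (1 * σ⁻¹) := by
        gcongr
        · exact D.Sic
        · exact (norm_mul_le _ _).trans (by gcongr; exact D.q_p.norm_le)
      _ = _ := by ring
  have hφu : φ * u = Si * R0 := by
    calc φ * (Si * (q * Y0)) = (φ * Si) * q * Y0 := by noncomm_ring
      _ = Si * ((φ * q) * Y0) := by rw [Siφ]; noncomm_ring
      _ = _ := by rw [D.φq, hφY0]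
  have h1Wu : ‖(1 - W) * u‖ ≤ c * ε0 * σ⁻¹ := by
    have a1 : (1 - W) * u = ((1 - W) * Si) * ((1 - R) * (q * K)) * Y0 := by
      have a2 : u = Si * (q * K) * Y0 := by
        rw [hu]; conv_lhs => rw [← hKY0]
        noncomm_ring
      have a3 : (1 - W) * (Si * (q * K) * Y0) =
          ((1 - W) * (Si * R)) * ((q * K) * Y0) + ((1 - W) * Si) * ((1 - R) * (q * K)) * Y0 := by
        noncomm_ring
      rw [a2, a3, hW0, zero_mul, zero_add]
    rw [a1]
    calc ‖((1 - W) * Si) * ((1 - R) * (q * K)) * Y0‖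
        ≤ ‖((1 - W) * Si) * ((1 - R) * (q * K))‖ * ‖Y0‖ := norm_mul_le _ _
      _ ≤ (‖(1 - W) * Si‖ * ‖(1 - R) * (q * K)‖) * σ⁻¹ := by gcongr; exact norm_mul_le _ _
      _ ≤ ((1 * c) * ε0) * σ⁻¹ := by
        gcongr
        exact (norm_mul_le _ _).trans (by gcongr; exact hWp.one_sub.norm_le; exact D.Sic)
      _ = _ := by ring
  -- the large subprojection `g` of `R0`
  have G : ∀ W' ∈ M, IsStarProjection W' → W * W' = W' → ∃ g ∈ M, IsStarProjection g ∧
      (∀ v, g v = v → R0 v = v) ∧ tr τ R0 - (tr τ W - tr τ W') ≤ tr τ g ∧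
      (∀ v, g v = v → ‖Si v - φ (W' (u v))‖ ≤ c * ε0 * σ⁻¹ * ‖v‖) := by
    intro W' hW' hW'p hWW'
    have hWW'2 : W' * W = W' := by
      have := congrArg star hWW'
      rwa [star_mul, hWp.isSelfAdjoint.star_eq, hW'p.isSelfAdjoint.star_eq] at this
    have hdp : IsStarProjection (W - W') := by
      refine ⟨?_, hWp.isSelfAdjoint.sub hW'p.isSelfAdjoint⟩
      show (W - W') * (W - W') = W - W'
      have : (W - W') * (W - W') = W * W - W * W' - W' * W + W' * W' := by noncomm_ring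
      rw [this, hWp.isIdempotentElem.eq, hWW', hWW'2, hW'p.isIdempotentElem.eq]; abel
    have hdM : W - W' ∈ M := vn_sub hW hW'
    set x := (W - W') * u with hx
    have hxM : x ∈ M := vn_mul hdM huM
    obtain ⟨g, hg, hgp, hg1, hg2, hg3⟩ := hτ.exists_inf (kp_mem hxM) hR0 (kp_isStar x) hR0p
    refine ⟨g, hg, hgp, hg2, ?_, ?_⟩
    · have a1 : tr τ (1 - (W - W')) ≤ tr τ (kp (star x)) := by
        apply hτ.tr_mono (vn_sub (vn_one M) hdM) (kp_mem (vn_star hxM)) hdp.one_sub (kp_isStar _)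
        intro v hv
        apply kp_apply_of_ker
        have a2 : (W - W') v = 0 := by
          have : (1 - (W - W')) v = v - (W - W') v := by simp
          rw [this] at hv
          exact sub_eq_self.mp hv
        rw [hx, star_mul, hdp.isSelfAdjoint.star_eq, mul_apply_eq_comp, a2, map_zero]
      rw [← hτ.trace_kp hxM, tr_sub, hτ.tr_one, tr_sub] at a1
      linarith
    · intro v hv
      have b1 : x v = 0 := by
        have := kp_apply_mem x v
        rwa [hg1 v hv] at this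
      have b2 : Si v = φ (u v) := by
        have := kb_papp hφu v
        rw [this, mul_apply_eq_comp, hg2 v hv]
      have b3 : u v = W' (u v) + ((1 - W) * u) v := by
        have b4 : W (u v) - W' (u v) = 0 := by simpa [hx] using b1
        have b5 : ((1 - W) * u) v = u v - W (u v) := by simp
        rw [b5]
        have b6 : W (u v) = W' (u v) := sub_eq_zero.mp b4
        rw [b6]; abel
      have b7 : Si v - φ (W' (u v)) = φ (((1 - W) * u) v) := by
        rw [b2]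
        conv_lhs => arg 1; rw [b3]
        rw [map_add]; abel
      rw [b7]
      calc ‖φ (((1 - W) * u) v)‖ ≤ ‖((1 - W) * u) v‖ := kb_le D.φp _
        _ ≤ ‖(1 - W) * u‖ * ‖v‖ := ContinuousLinearMap.le_opNorm _ _
        _ ≤ _ := by gcongr
  have hcs : c * ε0 * σ⁻¹ * c ≤ σ / 8 := by
    have : c * ε0 * σ⁻¹ * c = (ε0 * c ^ 2) * σ⁻¹ := by ring
    rw [this]
    calc (ε0 * c ^ 2) * σ⁻¹ ≤ (σ ^ 2 / 8) * σ⁻¹ := by gcongr
      _ = σ / 8 := by field_simp
  refine ⟨W, hW, Wp, hWpM, hWp, hWpp, hqW, hqWp, fun Θ h => (C1 Θ h).1, ?_, ?_, ?_, ?_⟩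
  · -- traces
    have a1 := D.tq
    have a2 := D.tqp
    linarith
  · -- L0
    intro P hP hPp hφP W' hW' hW'p hWW' hPn
    obtain ⟨g, hg, hgp, hg1, hg2, hg3⟩ := G W' hW' hW'p hWW'
    have a1 : tr τ g ≤ tr τ P := by
      apply kb_inj hτ hg hP D.SiM hgp hPp
      intro v hv hv0
      have b1 := hg3 v hv
      have b2 : ‖(1 - P) (φ (W' (u v)))‖ ≤ ε0 * (c * σ⁻¹ * ‖v‖) := by
        have b3 : (1 - P) (φ (W' (u v))) = ((1 - P) * (φ * W')) (W' (u v)) := by
          simp only [mul_apply_eq_comp, kb_app hW'p]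
        rw [b3]
        calc _ ≤ ‖(1 - P) * (φ * W')‖ * ‖W' (u v)‖ := ContinuousLinearMap.le_opNorm _ _
          _ ≤ ε0 * (c * σ⁻¹ * ‖v‖) := by
            gcongr
            refine (kb_le hW'p _).trans ?_
            exact (ContinuousLinearMap.le_opNorm _ _).trans (by gcongr)
      have b4 : ‖Si v‖ ≤ c * ε0 * σ⁻¹ * ‖v‖ + ε0 * (c * σ⁻¹ * ‖v‖) := by
        have b5 : Si v = (1 - P) (Si v - φ (W' (u v))) + (1 - P) (φ (W' (u v))) := by
          rw [← map_add, sub_add_cancel]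
          have : (1 - P) (Si v) = Si v - P (Si v) := by simp
          rw [this, hv0, sub_zero]
        calc ‖Si v‖ = ‖(1 - P) (Si v - φ (W' (u v))) + (1 - P) (φ (W' (u v)))‖ := by rw [← b5]
          _ ≤ ‖(1 - P) (Si v - φ (W' (u v)))‖ + ‖(1 - P) (φ (W' (u v)))‖ := norm_add_le _ _
          _ ≤ _ := add_le_add ((kb_le hPp.one_sub _).trans b1) b2
      have b6 := (D.low v).2
      have b7 : ‖v‖ ≤ 2 * (c * ε0 * σ⁻¹ * c) * ‖v‖ := by
        calc ‖v‖ ≤ c * ‖Si v‖ := b6
          _ ≤ c * (c * ε0 * σ⁻¹ * ‖v‖ + ε0 * (c * σ⁻¹ * ‖v‖)) := by gcongr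
          _ = _ := by ring
      have b8 : ‖v‖ ≤ 2 * (σ / 8) * ‖v‖ := b7.trans (by gcongr)
      have b9 := norm_nonneg v
      have b10 : ‖v‖ ≤ 0 := by nlinarith
      exact norm_le_zero_iff.mp b10
    have a2 := D.tφ
    linarith
  · -- L1
    intro P hP hPp hψP hPn
    have hA : S * Th ∈ M := vn_mul D.SM D.ThM
    have a1 : tr τ P ≤ tr τ R1 := by
      apply kb_inj hτ hP hR1 hA hPp hR1p
      intro v hv hv0
      have hqv : q v = v := by
        have h5 : q * P = P := by rw [← hψP, ← mul_assoc, D.qψ]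
        have := kb_papp h5 v
        rwa [hv] at this
      -- `z = S Th P`
      have hzM : S * Th * P ∈ M := vn_mul hA hP
      have hχz : χ * (S * Th * P) = S * Th * P := by
        calc χ * (S * Th * P) = (χ * S) * Th * P := by noncomm_ring
          _ = S * (χ * (Th * P)) := by rw [D.Sχ]; noncomm_ring
          _ = S * (χ * (Th * (ψ * P))) := by rw [hψP]
          _ = S * ((χ * (Th * ψ)) * P) := by noncomm_ring
          _ = S * (Th * (ψ * P)) := by rw [D.χψ]; noncomm_ring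
          _ = _ := by rw [hψP, mul_assoc]
      have b1 := hR1n _ hzM hχz
      have b2 : ‖(1 - K) * (S * Th * P)‖ ≤ t * ((ε0 ^ 2)⁻¹ * c) + c * ε0 := by
        have b3 : (1 - K) * (S * Th * P) = ((1 - K) * (S * Th * W)) * P +
            ((1 - K) * S * Th) * ((1 - W) * P) := by noncomm_ring
        rw [b3]
        have hTh1 : ‖Th‖ ≤ 1 := by rw [← norm_star]; exact hThn
        calc ‖((1 - K) * (S * Th * W)) * P + ((1 - K) * S * Th) * ((1 - W) * P)‖
            ≤ ‖(1 - K) * (S * Th * W)‖ * ‖P‖ + ‖(1 - K) * S * Th‖ * ‖(1 - W) * P‖ :=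
              (norm_add_le _ _).trans (add_le_add (norm_mul_le _ _) (norm_mul_le _ _))
          _ ≤ (t * ((ε0 ^ 2)⁻¹ * c)) * 1 + (1 * c * 1) * ε0 := by
            gcongr
            · exact (C1 Th gTh).2.trans (by gcongr)
            · exact hPp.norm_le
            · refine (norm_mul_le _ _).trans ?_
              gcongr
              refine (norm_mul_le _ _).trans ?_
              gcongr
              · exact D.Kp.one_sub.norm_le
              · exact D.Sc
          _ = _ := by ring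
      have b4 : ‖S (Th v)‖ ≤ s * (t * ((ε0 ^ 2)⁻¹ * c) + c * ε0) * ‖v‖ := by
        have b5 : S (Th v) = ((1 - R1) * (S * Th * P)) v := by
          have hv0' : R1 (S (Th v)) = 0 := by simpa using hv0
          simp [hv, hv0']
        rw [b5]
        exact (ContinuousLinearMap.le_opNorm _ _).trans (by gcongr; exact b1.trans (by gcongr))
      have b6 := (D.low (Th v)).1
      rw [kb_iso D.ThTh hqv] at b6
      have b7 : ‖v‖ ≤ (c ^ 2 * s * (ε0 ^ 2)⁻¹ * t + s * (ε0 * c ^ 2)) * ‖v‖ := by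
        calc ‖v‖ ≤ c * ‖S (Th v)‖ := b6
          _ ≤ c * (s * (t * ((ε0 ^ 2)⁻¹ * c) + c * ε0) * ‖v‖) := by gcongr
          _ = _ := by ring
      have b8 : c ^ 2 * s * (ε0 ^ 2)⁻¹ * t ≤ 1 / 4 := by
        have : c ^ 2 * s * (ε0 ^ 2)⁻¹ * t ≤ c ^ 2 * s * ((ε0 ^ 2)⁻¹ + σ⁻¹) * t := by
          gcongr
          have : 0 ≤ σ⁻¹ := by positivity
          linarith
        exact this.trans hsm
      have b9 : s * (ε0 * c ^ 2) ≤ 1 / 4 := by
        have h5 : s * σ ≤ 1 := by
          rw [hs]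
          have h6 : Real.sqrt σ * Real.sqrt σ = σ := Real.mul_self_sqrt hσ.le
          have h7 : Real.sqrt σ ≤ 1 := by
            exact Real.sqrt_le_iff.mpr ⟨by norm_num, by linarith⟩
          calc (Real.sqrt σ)⁻¹ * σ = (Real.sqrt σ)⁻¹ * (Real.sqrt σ * Real.sqrt σ) := by rw [h6]
            _ = Real.sqrt σ := by field_simp
            _ ≤ 1 := h7
        calc s * (ε0 * c ^ 2) ≤ s * (σ ^ 2 / 8) := by gcongr
          _ = (s * σ) * (σ / 8) := by ring
          _ ≤ 1 * (σ / 8) := by gcongr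
          _ ≤ 1 / 4 := by linarith
      have b10 := norm_nonneg v
      have b11 : ‖v‖ ≤ 0 := by nlinarith
      exact norm_le_zero_iff.mp b11
    have a2 := D.tχ
    linarith
  · -- L2
    intro e he hep heS heφ W' hW' hW'p hWW' hen κ hκ1 hκ2
    obtain ⟨g, hg, hgp, hg1, hg2, hg3⟩ := G W' hW' hW'p hWW'
    -- `tr R0 ≤ tr R1`
    have hA : S * Xi * Si ∈ M := vn_mul (vn_mul D.SM D.XiM) D.SiM
    have a1 : tr τ R0 ≤ tr τ R1 := by
      apply kb_inj hτ hR0 hR1 hA hR0p hR1p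
      intro v hv hv0
      have hφSi : φ (Si v) = Si v := by
        have h5 : φ * (Si * R0) = Si * R0 := by
          rw [← mul_assoc, Siφ, mul_assoc, hφR0]
        have := kb_papp h5 v
        simpa [hv] using this
      have e1 : S * Xi * Si * R0 = (S * Xi * Si) * Y0 := by
        calc S * Xi * Si * R0 = S * Xi * Si * (φ * Y0) := by rw [hφY0]
          _ = S * Xi * (Si * φ) * Y0 := by noncomm_ring
          _ = S * (Xi * φ) * Si * Y0 := by rw [← Siφ]; noncomm_ring
          _ = _ := by rw [D.Xiφ]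
      have hzM : S * Xi * Si * R0 ∈ M := vn_mul hA hR0
      have hχz : χ * (S * Xi * Si * R0) = S * Xi * Si * R0 := by
        calc χ * (S * Xi * Si * R0) = (χ * S) * Xi * Si * R0 := by noncomm_ring
          _ = S * (χ * Xi) * Si * R0 := by rw [D.Sχ]; noncomm_ring
          _ = _ := by rw [D.χXi]
      have b1 := hR1n _ hzM hχz
      have b2 : ‖(1 - K) * (S * Xi * Si * R0)‖ ≤ t * σ⁻¹ := by
        have b3 : (1 - K) * (S * Xi * Si * R0) = ((1 - K) * (S * Xi * Si) * K) * Y0 := by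
          rw [e1, mul_assoc _ K Y0, hKY0, ← mul_assoc]
        rw [b3]
        exact (norm_mul_le _ _).trans (by gcongr)
      have b4 : ‖S (Xi (Si v))‖ ≤ s * (t * σ⁻¹) * ‖v‖ := by
        have b5 : S (Xi (Si v)) = ((1 - R1) * (S * Xi * Si * R0)) v := by
          have hv0' : R1 (S (Xi (Si v))) = 0 := by simpa using hv0
          simp [hv, hv0']
        rw [b5]
        exact (ContinuousLinearMap.le_opNorm _ _).trans (by gcongr; exact b1.trans (by gcongr))
      have b6 := (D.low (Xi (Si v))).1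
      rw [kb_iso D.XiXi hφSi] at b6
      have b7 := (D.low v).2
      have b8 : ‖v‖ ≤ (c ^ 2 * s * σ⁻¹ * t) * ‖v‖ := by
        calc ‖v‖ ≤ c * ‖Si v‖ := b7
          _ ≤ c * (c * ‖S (Xi (Si v))‖) := by gcongr
          _ ≤ c * (c * (s * (t * σ⁻¹) * ‖v‖)) := by gcongr
          _ = _ := by ring
      have b9 : c ^ 2 * s * σ⁻¹ * t ≤ 1 / 4 := by
        have : c ^ 2 * s * σ⁻¹ * t ≤ c ^ 2 * s * ((ε0 ^ 2)⁻¹ + σ⁻¹) * t := by
          gcongr
          have : 0 ≤ (ε0 ^ 2)⁻¹ := by positivity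
          linarith
        exact this.trans hsm
      have b10 := norm_nonneg v
      have b11 : ‖v‖ ≤ 0 := by nlinarith
      exact norm_le_zero_iff.mp b11
    -- `(1 - e) g` is small
    have heSi := kb_comm_inv D.SSi D.SiS heS
    have hφe : ∀ w, (1 - e) (φ w) = φ ((1 - e) w) := by
      intro w
      have := kb_papp heφ w
      simp only [sub_apply, one_apply_eq_self, map_sub, this, mul_apply_eq_comp]
    have a2 : ‖(1 - e) * g‖ ≤ σ / 4 := by
      apply ContinuousLinearMap.opNorm_le_bound _ (by positivity)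
      intro v0
      rw [mul_apply_eq_comp]
      set v := g v0 with hv'
      have hv : g v = v := kb_app hgp v0
      have hvn : ‖v‖ ≤ ‖v0‖ := kb_le hgp v0
      have b1 := hg3 v hv
      have b2 : ‖(1 - e) (φ (W' (u v)))‖ ≤ ε0 * (c * σ⁻¹ * ‖v‖) := by
        rw [hφe]
        refine (kb_le D.φp _).trans ?_
        have b3 : (1 - e) (W' (u v)) = ((1 - e) * W') (W' (u v)) := by
          simp only [mul_apply_eq_comp, kb_app hW'p]
        rw [b3]
        calc _ ≤ ‖(1 - e) * W'‖ * ‖W' (u v)‖ := ContinuousLinearMap.le_opNorm _ _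
          _ ≤ ε0 * (c * σ⁻¹ * ‖v‖) := by
            gcongr
            refine (kb_le hW'p _).trans ?_
            exact (ContinuousLinearMap.le_opNorm _ _).trans (by gcongr)
      have b4 : ‖(1 - e) (Si v)‖ ≤ c * ε0 * σ⁻¹ * ‖v‖ + ε0 * (c * σ⁻¹ * ‖v‖) := by
        have b5 : (1 - e) (Si v) = (1 - e) (Si v - φ (W' (u v))) + (1 - e) (φ (W' (u v))) := by
          rw [← map_add, sub_add_cancel]
        rw [b5]
        exact (norm_add_le _ _).trans (add_le_add ((kb_le hep.one_sub _).trans b1) b2)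
      have b6 : (1 - e) v = S ((1 - e) (Si v)) := by
        have h5 : S * (1 - e) * Si = 1 - e := by
          calc S * (1 - e) * Si = S * Si - (S * e) * Si := by noncomm_ring
            _ = S * Si - e * (S * Si) := by rw [← heS]; noncomm_ring
            _ = _ := by rw [D.SSi, mul_one]
        have := congrArg (fun z : H →L[ℂ] H => z v) h5
        simpa using this.symm
      rw [b6]
      calc ‖S ((1 - e) (Si v))‖ ≤ ‖S‖ * ‖(1 - e) (Si v)‖ := ContinuousLinearMap.le_opNorm _ _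
        _ ≤ c * (c * ε0 * σ⁻¹ * ‖v‖ + ε0 * (c * σ⁻¹ * ‖v‖)) := by gcongr; exact D.Sc
        _ = 2 * (c * ε0 * σ⁻¹ * c) * ‖v‖ := by ring
        _ ≤ 2 * (σ / 8) * ‖v0‖ := by gcongr
        _ = σ / 4 * ‖v0‖ := by ring
    have hgR : R0 * g = g ∧ g * R0 = g := by
      have h5 : R0 * g = g := by
        ext v; simpa using hg1 _ (kb_app hgp v)
      refine ⟨h5, ?_⟩
      have := congrArg star h5
      rwa [star_mul, hR0p.isSelfAdjoint.star_eq, hgp.isSelfAdjoint.star_eq] at this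
    have hdg : IsStarProjection (R0 - g) := diff_proj hgp hR0p hg1
    have h1e : (1 : H →L[ℂ] H) - e ∈ M := vn_sub (vn_one M) he
    have hκ0 : 0 ≤ tr τ W - tr τ W' := by
      have := hτ.tr_mono hW' hW hW'p hWp (fun v hv => by
        have := kb_papp hWW' v
        rwa [hv] at this)
      linarith
    have a3 : n2 τ ((1 - e) * R0) ≤ 2 * (σ / 4) ^ 2 + 2 * κ := by
      have b1 : (1 - e) * R0 = (1 - e) * g + (1 - e) * (R0 - g) := by noncomm_ring
      have b2 := hτ.n2_add (vn_mul h1e hg) (vn_mul h1e (vn_sub hR0 hg))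
      have b3 : n2 τ ((1 - e) * g) ≤ (σ / 4) ^ 2 := by
        refine (hτ.n2_le (vn_mul h1e hg)).trans ?_
        gcongr
      have b4 : n2 τ ((1 - e) * (R0 - g)) ≤ κ := by
        have b5 := hτ.n2_mul_left h1e (vn_sub hR0 hg)
        rw [n2_proj hdg, tr_sub] at b5
        have b6 : ‖(1 : H →L[ℂ] H) - e‖ ≤ 1 := hep.one_sub.norm_le
        have b7 := norm_nonneg ((1 : H →L[ℂ] H) - e)
        have b8 : 0 ≤ tr τ R0 - tr τ g := by
          rw [← tr_sub]; exact hτ.tr_proj_nonneg (vn_sub hR0 hg) hdg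
        have b9 : ‖(1 : H →L[ℂ] H) - e‖ ^ 2 ≤ 1 := by nlinarith
        nlinarith
      rw [b1]
      linarith
    have heφp : IsStarProjection (e * φ) := by
      refine ⟨?_, ?_⟩
      · show e * φ * (e * φ) = e * φ
        calc e * φ * (e * φ) = e * (φ * e) * φ := by noncomm_ring
          _ = (e * e) * (φ * φ) := by rw [← heφ]; noncomm_ring
          _ = _ := by rw [hep.isIdempotentElem.eq, D.φp.isIdempotentElem.eq]
      · show star (e * φ) = e * φ
        rw [star_mul, hep.isSelfAdjoint.star_eq, D.φp.isSelfAdjoint.star_eq, heφ]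
    have a4 : n2 τ (R0 - e * φ) ≤ 5 * κ + η + 2 * σ := by
      have b1 : n2 τ (R0 - e * φ) = tr τ (e * φ) - tr τ R0 + 2 * n2 τ ((1 - e) * R0) := by
        have hRe : R0 * φ = R0 := by
          have := congrArg star hφR0
          rwa [star_mul, hR0p.isSelfAdjoint.star_eq, D.φp.isSelfAdjoint.star_eq] at this
        have e1 : star (R0 - e * φ) * (R0 - e * φ) = R0 + e * φ - R0 * e * φ - e * R0 := by
          rw [star_sub, hR0p.isSelfAdjoint.star_eq, heφp.isSelfAdjoint.star_eq, sub_mul, mul_sub,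
            mul_sub, hR0p.isIdempotentElem.eq, heφp.isIdempotentElem.eq]
          have : e * φ * R0 = e * R0 := by rw [mul_assoc, hφR0]
          rw [this, ← mul_assoc]; abel
        have e2 : star ((1 - e) * R0) * ((1 - e) * R0) = R0 - R0 * (e * R0) := by
          rw [star_mul, hep.one_sub.isSelfAdjoint.star_eq, hR0p.isSelfAdjoint.star_eq]
          calc R0 * (1 - e) * ((1 - e) * R0) = R0 * ((1 - e) * (1 - e)) * R0 := by noncomm_ring
            _ = R0 * (1 - e) * R0 := by rw [hep.one_sub.isIdempotentElem.eq]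
            _ = R0 * R0 - R0 * (e * R0) := by noncomm_ring
            _ = _ := by rw [hR0p.isIdempotentElem.eq]
        have e3 : tr τ (R0 * (e * R0)) = tr τ (e * R0) := by
          unfold tr
          rw [hτ.trace R0 hR0 (e * R0) (vn_mul he hR0), mul_assoc, hR0p.isIdempotentElem.eq]
        have e4 : tr τ (R0 * e * φ) = tr τ (e * R0) := by
          unfold tr
          rw [mul_assoc, heφ, ← mul_assoc, hRe, hτ.trace R0 hR0 e he]
        unfold n2
        rw [e1, e2, tr_sub, tr_sub, tr_add, tr_sub, e3, e4]; ring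
      rw [b1]
      have b2 := D.tφ
      have b3 : 2 * (2 * (σ / 4) ^ 2 + 2 * κ) ≤ σ + 4 * κ := by nlinarith
      linarith
    have a5 : φ * (K - e) * φ = (φ * K * φ - R0) + (R0 - e * φ) := by
      have : φ * e * φ = e * φ := by
        rw [← heφ, mul_assoc, D.φp.isIdempotentElem.eq]
      have h6 : φ * (K - e) * φ = φ * K * φ - φ * e * φ := by noncomm_ring
      rw [h6, this]; abel
    have a6 := hτ.n2_add (vn_sub (vn_mul (vn_mul D.φM D.KM) D.φM) hR0)
      (vn_sub hR0 (vn_mul he D.φM))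
    rw [a5]
    have a7 := D.tφ
    have a8 := D.tχ
    linarith

end core

end Pool.Agent.H98R2.RR
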