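import Pool.Agent.H941R2.F44.KEe
import Pool.Agent.H98R2.RR.KEx

set_option autoImplicit false
open Filter Topology
open scoped ComplexOrder InnerProductSpace

namespace Pool.Agent.H98R2.RR
open Pool.H711R2

section aux
variable {H : Type} [NormedAddCommGroup H] [InnerProductSpace ℂ H] [CompleteSpace H]
variable {M : VonNeumannAlgebra H} {τ : (H →L[ℂ] H) →ₗ[ℂ] ℂ}

theorem KEx_mono {x P R : H →L[ℂ] H} {κ ε κ' ε' : ℝ} (h : Maps M τ x P R κ ε)
    (h1 : κ ≤ κ') (h2 : ε ≤ ε') : Maps M τ x P R κ' ε' := by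
  obtain ⟨P1, a, b, c, d, e⟩ := h
  exact ⟨P1, a, b, c, d.trans h1, e.trans h2⟩

theorem KEx_one : ‖(1 : H →L[ℂ] H)‖ ≤ 1 := ContinuousLinearMap.norm_id_le

theorem KEx_comp (hMC : St_MC) (ht : IsNormalTrace M τ)
    (hf : ∀ x ∈ M, τ (star x * x) = 0 → x = 0) {P R Z : H →L[ℂ] H}
    (hP : P ∈ M) (hR : R ∈ M) (hZ : Z ∈ M) (hPs : IsStarProjection P) (hRs : IsStarProjection R)
    (hZs : IsStarProjection Z) {κ1 κ2 ε1 ε2 : ℝ} (h1 : 0 ≤ ε1) (h2 : 0 ≤ ε2)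
    (a : Maps M τ 1 P R κ1 ε1) (b : Maps M τ 1 R Z κ2 ε2) :
    Maps M τ 1 P Z (κ1 + κ2) (ε1 + ε2) := by
  have := hMC H M τ ht hf 1 (vn_one M) 1 (vn_one M) P hP R hR Z hZ hPs hRs hZs κ1 κ2 ε1 ε2
    h1 h2 a b
  rw [mul_one] at this
  refine KEx_mono this le_rfl ?_
  have h3 : ‖(1 : H →L[ℂ] H)‖ * ε1 ≤ 1 * ε1 := mul_le_mul_of_nonneg_right KEx_one h1
  have h4 : ‖(1 : H →L[ℂ] H)‖ * ε2 ≤ 1 * ε2 := mul_le_mul_of_nonneg_right KEx_one h2
  linarith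

theorem KEx_norm {p x : H →L[ℂ] H} (hp : IsStarProjection p) {ε : ℝ} (h : ‖x‖ ≤ ε) :
    ‖p * x‖ ≤ ε := by
  have h1 := norm_mul_le p x
  have h2 : ‖p‖ * ‖x‖ ≤ 1 * ‖x‖ := mul_le_mul_of_nonneg_right hp.norm_le (norm_nonneg _)
  linarith

end aux

theorem KEx (hMC : St_MC) (hMR : St_MR) (hPI1 : St_PI1) (hPI2 : St_PI2) (hPI3 : St_PI3)
    (hFIB : St_FIB) (hK1 : St_KE1) (hK2 : St_KE2) (hK3 : St_KE3) (hFD : St_FD) : St_KEx := by
  classical
  obtain ⟨cnt, cs, rk, dgp, cdg⟩ := hK3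
  refine ⟨100, by norm_num, ?_⟩
  intro H _ _ _ M τ T k ε0 hε0
  obtain ⟨θ', hθ'0, hθ'1, hθ'2⟩ : ∃ θ' : ℝ, 0 < θ' ∧ θ' ≤ 1 / 8 ∧ θ' ≤ ε0 / 8 :=
    ⟨min (1 / 8) (ε0 / 8), by positivity, min_le_left _ _, min_le_right _ _⟩
  obtain ⟨εF, hεF, hFD'⟩ := hFD (2 * 64 ^ k) θ' hθ'0
  obtain ⟨c, hc1, hcj⟩ : ∃ c : ℝ, 1 ≤ c ∧ ∀ j < 2 * 64 ^ k, ‖T.J2 k ^ j‖ ≤ c := by
    refine ⟨1 + ∑ j ∈ Finset.range (2 * 64 ^ k), ‖T.J2 k ^ j‖, ?_, ?_⟩
    · have : 0 ≤ ∑ j ∈ Finset.range (2 * 64 ^ k), ‖T.J2 k ^ j‖ :=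
        Finset.sum_nonneg (fun _ _ => norm_nonneg _)
      linarith
    · intro j hj
      have := Finset.single_le_sum (f := fun j => ‖T.J2 k ^ j‖) (fun _ _ => norm_nonneg _)
        (Finset.mem_range.2 hj)
      linarith
  obtain ⟨δ, hδ0, hδ1, hδ2, hδ3⟩ : ∃ δ : ℝ, 0 < δ ∧ δ ≤ 1 / 8 ∧ δ ≤ ε0 / 8 ∧
      6 * c * δ ≤ εF / 2 := by
    have hc0 : 0 < c := by linarith
    refine ⟨min (1 / 8) (min (ε0 / 8) (εF / (12 * c))), by positivity, min_le_left _ _,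
      (min_le_right _ _).trans (min_le_left _ _), ?_⟩
    have : min (1 / 8) (min (ε0 / 8) (εF / (12 * c))) ≤ εF / (12 * c) :=
      (min_le_right _ _).trans (min_le_right _ _)
    calc 6 * c * min (1 / 8) (min (ε0 / 8) (εF / (12 * c))) ≤ 6 * c * (εF / (12 * c)) :=
          mul_le_mul_of_nonneg_left this (by positivity)
      _ = εF / 2 := by field_simp; ring
  refine ⟨δ⁻¹, ?_, δ, hδ0, ?_⟩
  · rw [one_lt_inv₀ hδ0]; linarith
  intro κ hκ hκ1 L C hC Q hQC hQ W hW Wp hWp W' hW' hWs hWps hW's hqW hqWp hJ hWWp htWp hWW'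
    htW' hQW' htQ θ H0 H1
  rw [inv_inv] at hQW'
  obtain ⟨e1, e2, e3, e4, e5, e6, e7⟩ := hK1 H M τ T k L C hC
  have hF := hFIB H M τ T k L hC.1
  obtain ⟨p1, p2, p3, p4, p5, p6, p7, p8⟩ := hPI1 H M τ _ _ _ _ _ hF
  obtain ⟨Qm, hQm1, hQm2, hqQ, hQq⟩ := e1 Q hQC hQ
  set E : Fin (2 * 64 ^ k) → Fin (2 * 64 ^ k) → (H →L[ℂ] H) := fun i j => T.E2 k i j with hE
  set d : Fin (64 ^ (L - k - 1)) → (H →L[ℂ] H) := fun s => T.d k L s with hd
  set w : ℝ := 1 / (32 * 64 ^ k * 64 ^ (L - k - 1)) with hw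
  have hproj : ∀ A : Fin (64 ^ (L - k - 1)) → Matrix (Fin (2 * 64 ^ k)) (Fin (2 * 64 ^ k)) ℂ,
      (∀ s, A s * A s = A s) → (∀ s, (A s).conjTranspose = A s) →
      IsStarProjection (pim E d A) := by
    intro A h1 h2
    refine ⟨?_, ?_⟩
    · show pim E d A * pim E d A = pim E d A
      rw [p2]
      congr 1
      funext s
      exact h1 s
    · show star (pim E d A) = pim E d A
      rw [p5]
      congr 1
      funext s
      exact h2 s
  have hdg : ∀ p : Fin (64 ^ (L - k - 1)) → Fin (2 * 64 ^ k) → Prop,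
      IsStarProjection (pim E d (fun s => dgM (p s))) := by
    intro p
    apply hproj
    · intro s
      rw [(dgp _ _ _).1]
      simp
    · intro s
      exact (dgp _ (p s) (p s)).2
  have hdgm : ∀ p p' : Fin (64 ^ (L - k - 1)) → Fin (2 * 64 ^ k) → Prop,
      pim E d (fun s => dgM (p s)) * pim E d (fun s => dgM (p' s)) =
        pim E d (fun s => dgM (fun i => p s i ∧ p' s i)) := by
    intro p p'
    rw [p2]
    congr 1
    funext s
    exact (dgp _ (p s) (p' s)).1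
  have htrp : ∀ A, tr τ (pim E d A) = w * ∑ s, (A s).trace.re := by
    intro A
    unfold tr
    rw [p6, Complex.re_ofReal_mul, Complex.re_sum]
  have hw0 : 0 < w := by rw [hw]; positivity
  -- q
  have hqs : IsStarProjection (T.q k) := by
    rw [e3]
    exact hproj _ (fun _ => by simp) (fun _ => by simp)
  have hqM : T.q k ∈ M := by rw [e3]; exact p1 _
  have hqpim : ∀ A, T.q k * pim E d A = pim E d A := by
    intro A
    rw [e3, p2]
    simp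
  have hpimq : ∀ A, pim E d A * T.q k = pim E d A := by
    intro A
    rw [e3, p2]
    simp
  set Q' := pim E d Qm with hQ'
  have hQ's : IsStarProjection Q' := hproj Qm hQm1 hQm2
  have hQ'M : Q' ∈ M := p1 Qm
  have hqW' : T.q k * W' = W' := by rw [← hWW', ← mul_assoc, hqW]
  have hQ'W' : (1 - Q') * W' = (1 - Q) * W' := by
    rw [sub_mul, sub_mul, ← hQq, mul_assoc, hqW']
  have hQmem : Q ∈ M := by
    obtain ⟨a, t, ha⟩ := (hC.2 Q).1 hQC
    rw [ha]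
    unfold Tower.cw
    refine vn_add (sum_mem fun s hs => sum_mem fun i hi => sum_mem fun j hj => ?_) ?_
    · exact vn_smul _ (vn_mul
        (hF.E_mem ⟨i, Finset.mem_range.1 hi⟩ ⟨j, Finset.mem_range.1 hj⟩)
        (hF.d_mem ⟨s, Finset.mem_range.1 hs⟩))
    · exact vn_smul _ (vn_sub (vn_one M) hqM)
  have hQM : tr τ Q' ≤ tr τ Q := by
    apply T.tr.tr_mono hQ'M hQmem hQ's hQ
    intro v hv
    have hQQ' : Q * Q' = Q' := by
      rw [← hQq, ← mul_assoc, hQ.isIdempotentElem.eq]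
    have := congrArg (fun z : H →L[ℂ] H => z v) hQQ'
    simp only [ContinuousLinearMap.mul_apply] at this
    rw [hv] at this
    exact this
  have hJ2q : T.J2 k * T.q k = T.J2 k := by
    unfold Tower.J2
    rw [mul_assoc, hqs.isIdempotentElem.eq]
  have hJM : T.J2 k ∈ M := by
    have := e2 1
    rw [pow_one, hJ2q] at this
    rw [this]
    exact p1 _
  have hch : ∀ j < 2 * 64 ^ k, Maps M τ (T.J2 k ^ j) Q' Q' (35 * κ) (6 * c * δ) ∧
      Maps M τ 1 Q' W (18 * κ) (2 * δ) ∧ Maps M τ 1 W Q' (16 * κ) δ := by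
    intro j hj
    refine hK2 H M τ T.tr T.faithful (T.J2 k ^ j) (vn_pow hJM j) Q' hQ'M W hW Wp hWp W' hW'
      hQ's hWs hWps hW's c δ κ (hcj j hj) hc1 hδ0.le hδ1 hκ.le (hJ j hj) hWWp htWp hWW' htW'
      ?_ (hQM.trans htQ)
    rw [hQ'W']
    exact hQW'
  have hpos : 0 < 2 * 64 ^ k := by positivity
  obtain ⟨-, hQW, hWQ⟩ := hch 0 hpos
  -- cranks
  have hcr : ∀ j, ∃ r : Fin (64 ^ (L - k - 1)) → ℕ, j < 2 * 64 ^ k →
      (∀ s, crank (2 * 64 ^ k) εF (Matrix.toEuclideanLin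
        ((1 - Qm s) * shiftM (2 * 64 ^ k) ^ j * Qm s)) (r s)) ∧
      w * ∑ s, (r s : ℝ) ≤ 35 * κ := by
    intro j
    by_cases hj : j < 2 * 64 ^ k
    · obtain ⟨P1, hP1, hP1s, hQP1, htP1, hnP1⟩ := (hch j hj).1
      have hA : pim E d (fun s => (1 - Qm s) * shiftM (2 * 64 ^ k) ^ j * Qm s) * P1 =
          T.q k * ((1 - Q') * (T.J2 k ^ j * P1)) := by
        have h1 : pim E d (fun s => (1 - Qm s) * shiftM (2 * 64 ^ k) ^ j * Qm s) =
            (T.q k - Q') * (T.J2 k ^ j * T.q k) * Q' := by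
          rw [e2, e3, hQ', p4, p2, p2]
        rw [h1]
        have h2 : T.q k - Q' = T.q k * (1 - Q') := by
          rw [mul_sub, mul_one, hqpim]
        have h3 : T.q k * Q' = Q' := hqpim _
        rw [h2]
        calc T.q k * (1 - Q') * (T.J2 k ^ j * T.q k) * Q' * P1
            = T.q k * ((1 - Q') * (T.J2 k ^ j * ((T.q k * Q') * P1))) := by
              simp only [mul_assoc]
          _ = _ := by rw [h3, hQP1]
      obtain ⟨r, hr1, hr2⟩ := hPI2 H M τ _ _ _ E d hF Qm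
        (fun s => (1 - Qm s) * shiftM (2 * 64 ^ k) ^ j * Qm s) hQm1 hQm2
        (by intro s; rw [mul_assoc, hQm1]) P1 hP1 hP1s hQP1 (εF / 2) (by positivity)
        (by rw [hA]; exact KEx_norm hqs (hnP1.trans hδ3))
      refine ⟨r, fun _ => ⟨?_, hr2.trans htP1⟩⟩
      intro s
      have := hr1 s
      rwa [mul_div_cancel₀ _ (two_ne_zero)] at this
    · exact ⟨fun _ => 0, fun h => absurd h hj⟩
  choose r hr using hcr
  have hfd := fun s => hFD' (Qm s) (hQm1 s) (hQm2 s) (fun j => r j s)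
    (fun j hj => (hr j hj).1 s)
  choose σ hσ1 hσ2 using hfd
  have hCS : w * ∑ s, (σ s : ℝ) ≤ 2 * Real.sqrt κ := by
    have := cs (64 ^ k) (64 ^ (L - k - 1)) r σ κ (by positivity) (by positivity) hκ.le hσ1 ?_
    · push_cast at this
      exact this
    · intro j hj
      push_cast
      exact (hr j hj).2
  set sκ := Real.sqrt κ with hsκ
  have hκs : κ ≤ sκ := by
    rw [hsκ]
    have h1 : Real.sqrt κ ≤ 1 := Real.sqrt_le_one.2 hκ1 
    have h2 := Real.mul_self_sqrt hκ.le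
    nlinarith [Real.sqrt_nonneg κ]
  have hsκ0 : 0 ≤ sκ := Real.sqrt_nonneg _
  obtain ⟨P1, hP1, hP1s, hQP1, htP1, hnP1⟩ := hPI3 H M τ _ _ _ E d hF Qm
    (fun s => 1 - coordM (2 * 64 ^ k) (2 * 64 ^ k - (Qm s).rank)) hQm1 hQm2 σ θ' hθ'0.le hσ2
  set jj : Fin (64 ^ (L - k - 1)) → ℕ := fun s => 2 * 64 ^ k - (Qm s).rank with hjj
  set PF := pim E d (fun s => dgM (fun i : Fin (2 * 64 ^ k) => jj s ≤ (i : ℕ))) with hPF
  have hPFc : PF = pim E d (fun s => coordM (2 * 64 ^ k) (2 * 64 ^ k - (Qm s).rank)) := by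
    rw [hPF]
    congr 1
    funext s
    rw [cdg]
  have hPFs : IsStarProjection PF := hdg (fun s i => jj s ≤ (i : ℕ))
  have hPFM : PF ∈ M := p1 _
  have hQPF : Maps M τ 1 Q' PF (2 * sκ) θ' := by
    refine ⟨P1, hP1, hP1s, hQP1, htP1.trans hCS, ?_⟩
    have h1 : (1 - PF) * (1 * P1) = pim E d
        (fun s => 1 - coordM (2 * 64 ^ k) (2 * 64 ^ k - (Qm s).rank)) * P1 := by
      rw [← p4 (fun _ => 1), ← e3, ← hPFc, sub_mul, sub_mul, one_mul, one_mul]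
      congr 1
      rw [← hQP1, ← mul_assoc, hqpim]
    rw [h1]
    exact hnP1
  have htPF : tr τ PF = tr τ Q' := by
    rw [hPFc, hQ', htrp, htrp]
    congr 1
    apply Finset.sum_congr rfl
    intro s _
    rw [(rk _ _ (hQm1 s)).1, (rk _ _ (hQm1 s)).2.2]
  have hPFQ : Maps M τ 1 PF Q' (2 * sκ + 0) (2 * θ') :=
    hMR H M τ T.tr T.faithful Q' hQ'M PF hPFM hQ's hPFs (2 * sκ) 0 θ' hθ'0.le (by linarith)
      hQPF (by rw [htPF]; linarith)
  have hPFW : Maps M τ 1 PF W (2 * sκ + 0 + 18 * κ) (2 * θ' + 2 * δ) :=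
    KEx_comp hMC T.tr T.faithful hPFM hQ'M hW hPFs hQ's hWs (by linarith) (by linarith)
      hPFQ hQW
  have hWPF : Maps M τ 1 W PF (16 * κ + 2 * sκ) (δ + θ') :=
    KEx_comp hMC T.tr T.faithful hW hQ'M hPFM hWs hQ's hPFs (by linarith) (by linarith)
      hWQ hQPF
  set g1 := pim E d (fun s => dgM (fun i : Fin (2 * 64 ^ k) =>
    jj s ≤ (i : ℕ) ∧ 64 ^ k ≤ (i : ℕ))) with hg1
  set g0 := pim E d (fun s => dgM (fun i : Fin (2 * 64 ^ k) =>
    jj s ≤ (i : ℕ) ∧ (i : ℕ) < 64 ^ k)) with hg0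
  set g2 := pim E d (fun s => dgM (fun i : Fin (2 * 64 ^ k) =>
    jj s ≤ (i : ℕ) ∧ jj s ≤ 64 ^ k)) with hg2
  have hg1s : IsStarProjection g1 := hdg (fun s i => jj s ≤ (i : ℕ) ∧ 64 ^ k ≤ (i : ℕ))
  have hg0s : IsStarProjection g0 := hdg (fun s i => jj s ≤ (i : ℕ) ∧ (i : ℕ) < 64 ^ k)
  have hg2s : IsStarProjection g2 := hdg (fun s i => jj s ≤ (i : ℕ) ∧ jj s ≤ 64 ^ k)
  have hPFg1 : PF * g1 = g1 := by
    rw [hPF, hg1, hdgm (fun s i => jj s ≤ (i : ℕ))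
      (fun s i => jj s ≤ (i : ℕ) ∧ 64 ^ k ≤ (i : ℕ))]
    congr 1
    funext s
    congr 1
    funext i
    exact propext ⟨fun h => h.2, fun h => ⟨h.1, h⟩⟩
  have hPFg2 : PF * g2 = g2 := by
    rw [hPF, hg2, hdgm (fun s i => jj s ≤ (i : ℕ))
      (fun s i => jj s ≤ (i : ℕ) ∧ jj s ≤ 64 ^ k)]
    congr 1
    funext s
    congr 1
    funext i
    exact propext ⟨fun h => h.2, fun h => ⟨h.1, h⟩⟩
  have hp11 : T.phi k 1 1 * g1 = g1 := by
    rw [e5, hg1, hdgm (fun s i => 64 ^ k ≤ (i : ℕ))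
      (fun s i => jj s ≤ (i : ℕ) ∧ 64 ^ k ≤ (i : ℕ))]
    congr 1
    funext s
    congr 1
    funext i
    exact propext ⟨fun h => h.2, fun h => ⟨h.2, h⟩⟩
  have hp00 : T.phi k 0 0 * g0 = g0 := by
    rw [e4, hg0, hdgm (fun s i => (i : ℕ) < 64 ^ k)
      (fun s i => jj s ≤ (i : ℕ) ∧ (i : ℕ) < 64 ^ k)]
    congr 1
    funext s
    congr 1
    funext i
    exact propext ⟨fun h => h.2, fun h => ⟨h.2, h⟩⟩
  have hg0p : g0 * T.phi k 0 0 = T.phi k 0 0 * PF := by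
    rw [e4, hg0, hPF, hdgm (fun s i => (i : ℕ) < 64 ^ k) (fun s i => jj s ≤ (i : ℕ)),
      hdgm (fun s i => jj s ≤ (i : ℕ) ∧ (i : ℕ) < 64 ^ k) (fun s i => (i : ℕ) < 64 ^ k)]
    congr 1
    funext s
    congr 1
    funext i
    exact propext ⟨fun h => ⟨h.2, h.1.1⟩, fun h => ⟨⟨h.2, h.1⟩, h.1⟩⟩
  have hphis : IsStarProjection (T.phi k 0 0) := by
    rw [e4]
    exact hdg (fun s i => (i : ℕ) < 64 ^ k)
  -- H1
  have hT1 : tr τ g1 ≤ θ / 32 + κ + (2 * sκ + 18 * κ) := by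
    have hm : Maps M τ 1 g1 PF 0 0 := by
      refine ⟨g1, p1 _, hg1s, hg1s.isIdempotentElem.eq, by simp, ?_⟩
      rw [one_mul, sub_mul, one_mul, hPFg1, sub_self, norm_zero]
    obtain ⟨P2, hP2, hP2s, hgP2, htP2, hnP2⟩ :=
      KEx_comp hMC T.tr T.faithful (p1 _) hPFM hW hg1s hPFs hWs le_rfl (by linarith) hm hPFW
    have := H1 P2 hP2 hP2s (by rw [← hgP2, ← mul_assoc, hp11]) (by
      rw [one_mul] at hnP2
      linarith)
    linarith
  -- H0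
  have hT0 : θ / 32 - κ - (16 * κ + 2 * sκ) ≤ tr τ g0 := by
    obtain ⟨W2, hW2, hW2s, hWW2, htW2, hnW2⟩ := hWPF
    have := H0 g0 (p1 _) hg0s hp00 W2 hW2 hW2s hWW2 (by
      have h1 : (1 - g0) * (T.phi k 0 0 * W2) = T.phi k 0 0 * ((1 - PF) * (1 * W2)) := by
        rw [one_mul, sub_mul, sub_mul, mul_sub, one_mul, one_mul, ← mul_assoc g0, hg0p,
          mul_assoc]
      rw [h1]
      exact KEx_norm hphis (by linarith))
    linarith
  obtain ⟨c1, c2, c3⟩ := cnt (64 ^ k) (64 ^ (L - k - 1)) jj (fun s => Nat.sub_le _ _)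
  have hcA : tr τ PF - tr τ g2 ≤ tr τ g1 - tr τ g0 := by
    rw [hPF, hg2, hg1, hg0, htrp, htrp, htrp, htrp, c3]
    have := mul_le_mul_of_nonneg_left c1 hw0.le
    rw [mul_add] at this ⊢
    linarith
  -- the set F
  set F : Finset ℕ := (Finset.range (64 ^ (L - k - 1))).filter
    (fun s => ∃ h : s < 64 ^ (L - k - 1), jj ⟨s, h⟩ ≤ 64 ^ k) with hFdef
  have hFsub : F ⊆ Finset.range (64 ^ (L - k - 1)) := Finset.filter_subset _ _
  have hFmem : ∀ s : Fin (64 ^ (L - k - 1)), (s : ℕ) ∈ F ↔ jj s ≤ 64 ^ k := by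
    intro s
    rw [hFdef, Finset.mem_filter, Finset.mem_range]
    constructor
    · rintro ⟨_, h, h'⟩
      exact h'
    · intro h
      exact ⟨s.2, s.2, h⟩
  obtain ⟨f1, f2, f3⟩ := e7 F hFsub
  have hFq := e6 F hFsub
  have hFq' : (∑ s ∈ F, T.d k L s) * T.q k =
      pim E d (fun s => dgM (fun _ : Fin (2 * 64 ^ k) => jj s ≤ 64 ^ k)) := by
    rw [hFq]
    congr 1
    funext s
    congr 1
    funext i
    exact propext (hFmem s)
  set e := ∑ s ∈ F, T.d k L s with he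
  have heg2 : e * g2 = g2 := by
    have h1 : g2 = T.q k * g2 := (hqpim _).symm
    rw [h1, ← mul_assoc, hFq', hg2, hdgm (fun s i => jj s ≤ 64 ^ k)
      (fun s i => jj s ≤ (i : ℕ) ∧ jj s ≤ 64 ^ k), hqpim]
    congr 1
    funext s
    congr 1
    funext i
    exact propext ⟨fun h => h.2, fun h => ⟨h.2, h⟩⟩
  have hm : Maps M τ 1 PF e (tr τ g1 - tr τ g0) 0 := by
    refine ⟨g2, p1 _, hg2s, hPFg2, hcA, ?_⟩
    rw [one_mul, sub_mul, one_mul, heg2, sub_self, norm_zero]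
  obtain ⟨W3, hW3, hW3s, hWW3, htW3, hnW3⟩ :=
    KEx_comp hMC T.tr T.faithful hW hPFM f2 hWs hPFs f1 (by linarith) le_rfl hWPF hm
  refine ⟨F, hFsub, W3, hW3, hW3s, hWW3, ?_, ?_, ?_⟩
  · rw [one_mul] at hnW3
    exact hnW3.trans (by linarith)
  · linarith
  · have h1 : e * T.phi k 0 0 = pim E d (fun s => dgM (fun i : Fin (2 * 64 ^ k) =>
        jj s ≤ 64 ^ k ∧ (i : ℕ) < 64 ^ k)) := by
      have h2 : T.q k * T.phi k 0 0 = T.phi k 0 0 := by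
        rw [e4]
        exact hqpim _
      rw [← h2, ← mul_assoc, hFq', e4]
      exact hdgm (fun s i => jj s ≤ 64 ^ k) (fun s i => (i : ℕ) < 64 ^ k)
    rw [h1, htrp]
    have h3 := mul_le_mul_of_nonneg_left c2 hw0.le
    rw [hg1, htrp] at hT1
    linarith

end Pool.Agent.H98R2.RR
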