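import Pool.Agent.H941R2.F44.KEe

/-!
Task KE3 (helper682, second seat): counting, Cauchy-Schwarz, trace = rank.
-/

set_option autoImplicit false
open Filter Topology
open scoped ComplexOrder InnerProductSpace

namespace Pool.Agent.H98R2.RR

theorem KE3_dgM_val (m : ℕ) (P : ℕ → Prop) (a b : ℕ) (h : ∀ i < m, P i ↔ a ≤ i ∧ i < b)
    (hb : b ≤ m) : (dgM (fun i : Fin m => P i)).trace.re = ((b - a : ℕ) : ℝ) := by
  classical
  have h1 : (dgM (fun i : Fin m => P i)).trace = ∑ i : Fin m, (fun j : ℕ => if P j then (1 : ℂ) else 0) i := by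
    refine Finset.sum_congr rfl fun i _ => ?_
    show (if i = i ∧ P i then (1 : ℂ) else 0) = if P i then (1 : ℂ) else 0
    simp only [true_and]
  rw [h1, Fin.sum_univ_eq_sum_range (fun j : ℕ => if P j then (1 : ℂ) else 0) m, Finset.sum_boole]
  have h2 : (Finset.range m).filter P = Finset.Ico a b := by
    ext i
    simp only [Finset.mem_filter, Finset.mem_range, Finset.mem_Ico]
    constructor
    · rintro ⟨h3, h4⟩; exact (h i h3).1 h4
    · intro h3; exact ⟨by omega, (h i (by omega)).2 h3⟩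
  rw [h2, Nat.card_Ico]
  simp

theorem KE3c1 : ∀ (n N : ℕ) (j : Fin N → ℕ), (∀ s, j s ≤ 2 * n) →
    (∑ s, (dgM (fun i : Fin (2 * n) => j s ≤ (i : ℕ) ∧ ¬ j s ≤ n)).trace.re) +
      (∑ s, (dgM (fun i : Fin (2 * n) => j s ≤ (i : ℕ) ∧ (i : ℕ) < n)).trace.re) ≤
      ∑ s, (dgM (fun i : Fin (2 * n) => j s ≤ (i : ℕ) ∧ n ≤ (i : ℕ))).trace.re ∧
    (∑ s, (dgM (fun i : Fin (2 * n) => j s ≤ n ∧ (i : ℕ) < n)).trace.re) ≤
      ∑ s, (dgM (fun i : Fin (2 * n) => j s ≤ (i : ℕ) ∧ n ≤ (i : ℕ))).trace.re ∧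
    (∑ s, (dgM (fun i : Fin (2 * n) => j s ≤ (i : ℕ))).trace.re) =
      (∑ s, (dgM (fun i : Fin (2 * n) => j s ≤ (i : ℕ) ∧ ¬ j s ≤ n)).trace.re) +
      (∑ s, (dgM (fun i : Fin (2 * n) => j s ≤ (i : ℕ) ∧ j s ≤ n)).trace.re) := by
  intro n N j hj
  have key : ∀ s, ∃ x1 x2 x3 x4 x5 x6 : ℕ,
      (dgM (fun i : Fin (2 * n) => j s ≤ (i : ℕ) ∧ ¬ j s ≤ n)).trace.re = (x1 : ℝ) ∧
      (dgM (fun i : Fin (2 * n) => j s ≤ (i : ℕ) ∧ (i : ℕ) < n)).trace.re = (x2 : ℝ) ∧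
      (dgM (fun i : Fin (2 * n) => j s ≤ (i : ℕ) ∧ n ≤ (i : ℕ))).trace.re = (x3 : ℝ) ∧
      (dgM (fun i : Fin (2 * n) => j s ≤ n ∧ (i : ℕ) < n)).trace.re = (x4 : ℝ) ∧
      (dgM (fun i : Fin (2 * n) => j s ≤ (i : ℕ))).trace.re = (x5 : ℝ) ∧
      (dgM (fun i : Fin (2 * n) => j s ≤ (i : ℕ) ∧ j s ≤ n)).trace.re = (x6 : ℝ) ∧
      x1 + x2 ≤ x3 ∧ x4 ≤ x3 ∧ x5 = x1 + x6 := by
    intro s
    have ha := hj s
    by_cases h : j s ≤ n
    · refine ⟨_, _, _, _, _, _,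
        KE3_dgM_val (2 * n) (fun i => j s ≤ i ∧ ¬ j s ≤ n) 0 0 (fun i hi => by omega) (by omega),
        KE3_dgM_val (2 * n) (fun i => j s ≤ i ∧ i < n) (j s) n (fun i hi => by omega) (by omega),
        KE3_dgM_val (2 * n) (fun i => j s ≤ i ∧ n ≤ i) n (2 * n) (fun i hi => by omega) (by omega),
        KE3_dgM_val (2 * n) (fun i => j s ≤ n ∧ i < n) 0 n (fun i hi => by omega) (by omega),
        KE3_dgM_val (2 * n) (fun i => j s ≤ i) (j s) (2 * n) (fun i hi => by omega) (by omega),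
        KE3_dgM_val (2 * n) (fun i => j s ≤ i ∧ j s ≤ n) (j s) (2 * n) (fun i hi => by omega) (by omega),
        by omega, by omega, by omega⟩
    · refine ⟨_, _, _, _, _, _,
        KE3_dgM_val (2 * n) (fun i => j s ≤ i ∧ ¬ j s ≤ n) (j s) (2 * n) (fun i hi => by omega) (by omega),
        KE3_dgM_val (2 * n) (fun i => j s ≤ i ∧ i < n) 0 0 (fun i hi => by omega) (by omega),
        KE3_dgM_val (2 * n) (fun i => j s ≤ i ∧ n ≤ i) (j s) (2 * n) (fun i hi => by omega) (by omega),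
        KE3_dgM_val (2 * n) (fun i => j s ≤ n ∧ i < n) 0 0 (fun i hi => by omega) (by omega),
        KE3_dgM_val (2 * n) (fun i => j s ≤ i) (j s) (2 * n) (fun i hi => by omega) (by omega),
        KE3_dgM_val (2 * n) (fun i => j s ≤ i ∧ j s ≤ n) 0 0 (fun i hi => by omega) (by omega),
        by omega, by omega, by omega⟩
  choose x1 x2 x3 x4 x5 x6 h1 h2 h3 h4 h5 h6 h7 h8 h9 using key
  simp only [h1, h2, h3, h4, h5, h6]
  rw [← Finset.sum_add_distrib, ← Finset.sum_add_distrib]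
  refine ⟨Finset.sum_le_sum fun s _ => by exact_mod_cast h7 s,
    Finset.sum_le_sum fun s _ => by exact_mod_cast h8 s,
    Finset.sum_congr rfl fun s _ => by exact_mod_cast h9 s⟩

theorem KE3c3 : (∀ (m : ℕ) (Q : Matrix (Fin m) (Fin m) ℂ), Q * Q = Q → Q.trace = (Q.rank : ℂ) ∧
    Q.rank ≤ m ∧ (coordM m (m - Q.rank)).trace = (Q.rank : ℂ)) := by
  intro m Q hQ
  have hle : Q.rank ≤ m := Matrix.rank_le_width Q
  refine ⟨?_, hle, ?_⟩
  · have h1 : IsIdempotentElem Q.toLin' := by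
      show Q.toLin' * Q.toLin' = Q.toLin'
      rw [Module.End.mul_eq_comp, ← Matrix.toLin'_mul, hQ]
    have h2 := (LinearMap.IsIdempotentElem.isProj_range _ h1).trace
    rw [Matrix.trace_toLin'_eq] at h2
    exact h2
  · have h1 : (coordM m (m - Q.rank)).trace = ∑ i : Fin m, (fun j : ℕ => if m - Q.rank ≤ j then (1 : ℂ) else 0) i := by
      refine Finset.sum_congr rfl fun i _ => ?_
      show (if i = i ∧ m - Q.rank ≤ (i : ℕ) then (1 : ℂ) else 0) = if m - Q.rank ≤ (i : ℕ) then (1 : ℂ) else 0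
      simp only [true_and]
    rw [h1, Fin.sum_univ_eq_sum_range (fun j : ℕ => if m - Q.rank ≤ j then (1 : ℂ) else 0) m, Finset.sum_boole]
    have h2 : (Finset.range m).filter (fun j => m - Q.rank ≤ j) = Finset.Ico (m - Q.rank) m := by
      ext i
      simp only [Finset.mem_filter, Finset.mem_range, Finset.mem_Ico]
      tauto
    rw [h2, Nat.card_Ico]
    congr 1
    omega

theorem KE3c4 : (∀ (m : ℕ) (p p' : Fin m → Prop), dgM p * dgM p' = dgM (fun i => p i ∧ p' i) ∧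
    (dgM p).conjTranspose = dgM p) := by
  classical
  intro m p p'
  have hd : ∀ p : Fin m → Prop, dgM p = Matrix.diagonal (fun i => if p i then (1 : ℂ) else 0) := by
    intro p
    ext i j
    show (if i = j ∧ p i then (1 : ℂ) else 0) = _
    rw [Matrix.diagonal_apply]
    by_cases h : i = j
    · simp only [h, true_and, if_true]
    · simp only [h, false_and, if_false]
  constructor
  · rw [hd, hd, hd, Matrix.diagonal_mul_diagonal]
    congr 1
    funext i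
    by_cases h1 : p i <;> by_cases h2 : p' i <;> simp [h1, h2]
  · rw [hd, Matrix.diagonal_conjTranspose]
    congr 1
    funext i
    show star (if p i then (1 : ℂ) else 0) = if p i then (1 : ℂ) else 0
    by_cases h1 : p i <;> simp [h1]

theorem KE3c5 : (∀ (m j : ℕ), coordM m j = dgM (fun i : Fin m => j ≤ (i : ℕ))) := by
  intro m j
  ext i i'
  by_cases h : i = i' ∧ j ≤ (i : ℕ)
  · have e1 : coordM m j i i' = 1 := if_pos h
    have e2 : dgM (fun i : Fin m => j ≤ (i : ℕ)) i i' = 1 := by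
      unfold dgM
      exact if_pos h
    rw [e1, e2]
  · have e1 : coordM m j i i' = 0 := if_neg h
    have e2 : dgM (fun i : Fin m => j ≤ (i : ℕ)) i i' = 0 := by
      unfold dgM
      exact if_neg h
    rw [e1, e2]

theorem KE3c2 : (∀ (n N : ℕ) (r : ℕ → Fin N → ℕ) (σ : Fin N → ℕ) (κ : ℝ), 0 < n → 0 < N → 0 ≤ κ →
    (∀ s, σ s ^ 2 ≤ ∑ j ∈ Finset.range (2 * n), r j s) →
    (∀ j < 2 * n, (1 / (32 * n * N) : ℝ) * ∑ s, (r j s : ℝ) ≤ 35 * κ) →
    (1 / (32 * n * N) : ℝ) * ∑ s, (σ s : ℝ) ≤ 2 * Real.sqrt κ) := by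
  intro n N r σ κ hn hN hκ h1 h2
  have hn' : (0 : ℝ) < n := by exact_mod_cast hn
  have hN' : (0 : ℝ) < N := by exact_mod_cast hN
  have hw : (0 : ℝ) < 1 / (32 * n * N) := by positivity
  set w : ℝ := 1 / (32 * n * N) with hwd
  have hwN : w * N = 1 / (32 * n) := by rw [hwd]; field_simp
  -- Cauchy-Schwarz
  have h3 : (∑ s, (σ s : ℝ)) ^ 2 ≤ N * ∑ s, (σ s : ℝ) ^ 2 := by
    have := sq_sum_le_card_mul_sum_sq (s := (Finset.univ : Finset (Fin N))) (f := fun s => (σ s : ℝ))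
    simpa using this
  have h4 : w * ∑ s, (σ s : ℝ) ^ 2 ≤ 2 * n * (35 * κ) := by
    have h5 : ∑ s, (σ s : ℝ) ^ 2 ≤ ∑ j ∈ Finset.range (2 * n), ∑ s, (r j s : ℝ) := by
      rw [Finset.sum_comm]
      refine Finset.sum_le_sum fun s _ => ?_
      exact_mod_cast h1 s
    calc w * ∑ s, (σ s : ℝ) ^ 2 ≤ w * ∑ j ∈ Finset.range (2 * n), ∑ s, (r j s : ℝ) :=
          mul_le_mul_of_nonneg_left h5 hw.le
      _ = ∑ j ∈ Finset.range (2 * n), w * ∑ s, (r j s : ℝ) := Finset.mul_sum _ _ _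
      _ ≤ ∑ j ∈ Finset.range (2 * n), 35 * κ :=
          Finset.sum_le_sum fun j hj => h2 j (Finset.mem_range.1 hj)
      _ = 2 * n * (35 * κ) := by rw [Finset.sum_const, Finset.card_range, nsmul_eq_mul]; push_cast; ring
  have h6 : (w * ∑ s, (σ s : ℝ)) ^ 2 ≤ (2 * Real.sqrt κ) ^ 2 := by
    calc (w * ∑ s, (σ s : ℝ)) ^ 2 = w ^ 2 * (∑ s, (σ s : ℝ)) ^ 2 := by ring
      _ ≤ w ^ 2 * (N * ∑ s, (σ s : ℝ) ^ 2) := mul_le_mul_of_nonneg_left h3 (by positivity)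
      _ = (w * N) * (w * ∑ s, (σ s : ℝ) ^ 2) := by ring
      _ ≤ (w * N) * (2 * n * (35 * κ)) := mul_le_mul_of_nonneg_left h4 (by positivity)
      _ = 35 / 16 * κ := by rw [hwN]; field_simp; ring
      _ ≤ 4 * κ := by linarith
      _ = (2 * Real.sqrt κ) ^ 2 := by rw [mul_pow, Real.sq_sqrt hκ]; ring
  exact abs_le_of_sq_le_sq' h6 (by positivity) |>.2

theorem KE3 : St_KE3 := ⟨KE3c1, KE3c2, KE3c3, KE3c4, KE3c5⟩

end Pool.Agent.H98R2.RR
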