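import Pool.Agent.H98R2.RR.Kill
import Pool.Agent.H98R2.RR.EX

/-! Task LM (helper997): equidistribution over the layers -/

set_option autoImplicit false
open Filter Topology
open scoped ComplexOrder InnerProductSpace ComplexConjugate

namespace Pool.Agent.H98R2.RR
open Pool.H711R2

namespace LMaux

variable {H : Type} [NormedAddCommGroup H] [InnerProductSpace ℂ H] [CompleteSpace H]
  {M : VonNeumannAlgebra H} {τ : (H →L[ℂ] H) →ₗ[ℂ] ℂ}

/-- `|tr (p y)| ≤ η` if `n2 y ≤ η ^ 2` -/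
theorem tr_proj_mul (hτ : IsNormalTrace M τ) {p y : H →L[ℂ] H} (hp : p ∈ M)
    (hP : IsStarProjection p) (hy : y ∈ M) {η : ℝ} (hη : 0 ≤ η) (h : n2 τ y ≤ η ^ 2) :
    |tr τ (p * y)| ≤ η := by
  have hps : star p = p := hP.isSelfAdjoint.star_eq
  have hpp : p * p = p := hP.isIdempotentElem.eq
  set z : ℝ := tr τ (p * y) with hz
  have h1 : tr τ (star y * p) = z := by
    have h2 : star y * p = star (p * y) := by rw [star_mul, hps]
    rw [h2, hz]
    unfold tr
    rw [EXaux.tau_star hτ (vn_mul hp hy)]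
    simp
  have h3 : tr τ p ≤ 1 := by
    have h4 : 0 ≤ tr τ (1 - p) :=
      hτ.tr_proj_nonneg (vn_sub (vn_one M) hp) hP.one_sub
    rw [tr_sub, hτ.tr_one] at h4
    linarith
  have h5 := hτ.n2_nonneg (vn_sub hy (vn_smul ((z : ℝ) : ℂ) hp))
  have h6 : star (y - ((z : ℝ) : ℂ) • p) * (y - ((z : ℝ) : ℂ) • p)
      = star y * y - ((z : ℝ) : ℂ) • (star y * p) - ((z : ℝ) : ℂ) • (p * y)
        + ((z * z : ℝ) : ℂ) • p := by
    rw [star_sub, star_smul, hps]
    have h7 : star ((z : ℝ) : ℂ) = ((z : ℝ) : ℂ) := by simp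
    rw [h7, sub_mul, mul_sub, mul_sub, smul_mul_smul_comm, hpp, mul_smul_comm, smul_mul_assoc]
    push_cast
    abel
  have h8 : 0 ≤ n2 τ y - 2 * z * z + z * z * tr τ p := by
    unfold n2 at h5 ⊢
    rw [h6, tr_add, tr_sub, tr_sub, tr_smul, tr_smul, tr_smul, h1] at h5
    nlinarith [h5]
  have h9 : z ^ 2 ≤ η ^ 2 := by
    have h10 : z * z * tr τ p ≤ z * z * 1 :=
      mul_le_mul_of_nonneg_left h3 (mul_self_nonneg z)
    nlinarith [h8, h10, h]
  exact abs_le_of_sq_le_sq h9 hη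

end LMaux

theorem LM (h1 : St_BAS1) : St_LM := by
  intro H _ _ _ M τ T k K hK hKP x hx η hη hn t ht
  obtain ⟨hMU, -, hphi, -, -, -, -, -, hc⟩ := h1 H M τ T k
  have hxM : x ∈ M := T.B_sub k x hx
  have hpM : T.phi k t t ∈ M := T.B_sub (k + 1) _ (hphi t ht t ht).1
  have hP : IsStarProjection (T.phi k t t) := by
    constructor
    · have h := hMU.mul t ht t ht t ht t ht
      rw [if_pos rfl] at h
      exact h
    · exact hMU.star t ht t ht
  have hyM : K - x ∈ M := vn_sub hK hxM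
  have e1 : tr τ (T.phi k t t * x) = tr τ x / 32 := by
    obtain ⟨h2, h3⟩ := hc x hx t ht
    unfold tr
    rw [h2, h3]
    simp
  have e2 := LMaux.tr_proj_mul T.tr hpM hP hyM hη hn
  have e3 := LMaux.tr_proj_mul T.tr (vn_one M) (IsStarProjection.one _) hyM hη hn
  rw [mul_sub, tr_sub, e1] at e2
  rw [one_mul, tr_sub] at e3
  rw [abs_le] at e2 e3 ⊢
  constructor <;> linarith [e2.1, e2.2, e3.1, e3.2]

end Pool.Agent.H98R2.RR
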