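import Pool.Agent.H883R2.ISP.KEd

set_option autoImplicit false
open Filter Topology
open scoped ComplexOrder InnerProductSpace

namespace Pool.Agent.H98R2.RR
open Pool.H711R2

theorem PI3_trace (m : ℕ) (P : Matrix (Fin m) (Fin m) ℂ) (hP : P * P = P) :
    P.trace = (Module.finrank ℂ (LinearMap.range (Matrix.toEuclideanLin P)) : ℂ) := by
  have h1 : LinearMap.trace ℂ _ (Matrix.toEuclideanLin P) = P.trace := by
    rw [LinearMap.trace_eq_matrix_trace ℂ (EuclideanSpace.basisFun (Fin m) ℂ).toBasis,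
      Matrix.toEuclideanLin_eq_toLin_orthonormal, LinearMap.toMatrix_toLin]
  have h2 : IsIdempotentElem (Matrix.toEuclideanLin P) := by
    change (Matrix.toEuclideanLin P) * (Matrix.toEuclideanLin P) = Matrix.toEuclideanLin P
    ext1 v
    have : Matrix.toEuclideanLin P (Matrix.toEuclideanLin P v) = Matrix.toEuclideanLin P v := by
      have e : ∀ w, Matrix.toEuclideanLin P w = Matrix.toEuclideanCLM (n := Fin m) (𝕜 := ℂ) P w :=
        fun w => rfl
      rw [e, e, ← mul_apply_eq_comp, ← map_mul, hP]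
    exact this
  have h3 := (LinearMap.IsIdempotentElem.isProj_range _ h2).trace
  rw [← h1, h3]

theorem PI3_core (m : ℕ) (Q B : Matrix (Fin m) (Fin m) ℂ) (hQ : Q * Q = Q)
    (hQs : Q.conjTranspose = Q) (r : ℕ) (θ : ℝ) (hθ : 0 ≤ θ)
    (h : crank m θ (Matrix.toEuclideanLin (B * Q)) r) :
    ∃ G X : Matrix (Fin m) (Fin m) ℂ, G * G = G ∧ G.conjTranspose = G ∧ Q * G = G ∧
      Q.trace.re - G.trace.re ≤ r ∧
      ((θ ^ 2 : ℝ) : ℂ) • G - (B * G).conjTranspose * (B * G) = X.conjTranspose * X := by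
  obtain ⟨V, hV, hVn⟩ := h
  set Φ := Matrix.toEuclideanCLM (n := Fin m) (𝕜 := ℂ) with hΦ
  set R := LinearMap.range (Matrix.toEuclideanLin Q) with hR
  set U := V ⊓ R with hU
  set g : EuclideanSpace ℂ (Fin m) →L[ℂ] EuclideanSpace ℂ (Fin m) := U.starProjection with hg
  have hgg : g * g = g := (isStarProjection_starProjection (U := U)).isIdempotentElem
  have hgs : star g = g := (isStarProjection_starProjection (U := U)).isSelfAdjoint
  have hgU : ∀ v, g v ∈ U := fun v => Submodule.starProjection_apply_mem U v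
  have hQR : ∀ v ∈ R, Φ Q v = v := by
    rintro _ ⟨w, rfl⟩
    have e : Matrix.toEuclideanLin Q w = Φ Q w := rfl
    rw [e, ← mul_apply_eq_comp, ← map_mul, hQ]
  have hQg : Φ Q * g = g := by
    ext1 v
    rw [mul_apply_eq_comp]
    exact hQR _ (hgU v).2
  have hsym' : ∀ y, Φ (Φ.symm y) = y := fun y => Φ.apply_symm_apply y
  have hsym : Φ (Φ.symm g) = g := hsym' g
  have inj : ∀ A A', Φ A = Φ A' → A = A' := fun A A' h => by
    have := congrArg Φ.symm h
    rwa [Φ.symm_apply_apply, Φ.symm_apply_apply] at this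
  -- the square root
  have hpos : 0 ≤ ((θ ^ 2 : ℝ) : ℂ) • g - star (Φ B * g) * (Φ B * g) := by
    rw [ContinuousLinearMap.nonneg_iff_isPositive, ContinuousLinearMap.isPositive_iff_complex]
    intro v
    have e1 : ⟪(((θ ^ 2 : ℝ) : ℂ) • g - star (Φ B * g) * (Φ B * g)) v, v⟫_ℂ =
        ((θ ^ 2 * ‖g v‖ ^ 2 - ‖Φ B (g v)‖ ^ 2 : ℝ) : ℂ) := by
      rw [sub_apply, inner_sub_left, smul_apply,
        inner_smul_left, mul_apply_eq_comp, ContinuousLinearMap.star_eq_adjoint,
        ContinuousLinearMap.adjoint_inner_left, mul_apply_eq_comp]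
      have e2 : ⟪g v, v⟫_ℂ = ((‖g v‖ ^ 2 : ℝ) : ℂ) := by
        have : ⟪g v, g v⟫_ℂ = ⟪g v, v⟫_ℂ := by
          conv_lhs => rw [← ContinuousLinearMap.adjoint_inner_left,
            ← ContinuousLinearMap.star_eq_adjoint, hgs, ← mul_apply_eq_comp, hgg]
        rw [← this, inner_self_eq_norm_sq_to_K]
        push_cast
        rfl
      have e3 : ⟪Φ B (g v), Φ B (g v)⟫_ℂ = ((‖Φ B (g v)‖ ^ 2 : ℝ) : ℂ) := by
        rw [inner_self_eq_norm_sq_to_K]
        push_cast
        rfl
      rw [e2, e3, Complex.conj_ofReal]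
      push_cast
      rfl
    have e4 : ‖Φ B (g v)‖ ≤ θ * ‖g v‖ := by
      have := hVn (g v) (hgU v).1
      have e5 : Matrix.toEuclideanLin (B * Q) (g v) = Φ B (g v) := by
        have e6 : Matrix.toEuclideanLin (B * Q) (g v) = Φ (B * Q) (g v) := rfl
        rw [e6, map_mul, mul_apply_eq_comp, hQR _ (hgU v).2]
      rwa [e5] at this
    have e7 : 0 ≤ θ ^ 2 * ‖g v‖ ^ 2 - ‖Φ B (g v)‖ ^ 2 := by
      have := mul_self_le_mul_self (norm_nonneg _) e4
      nlinarith
    rw [e1]
    generalize (θ ^ 2 * ‖g v‖ ^ 2 - ‖Φ B (g v)‖ ^ 2) = t at e7 ⊢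
    constructor
    · simp
    · simpa using e7
  obtain ⟨x, hx⟩ := CStarAlgebra.nonneg_iff_eq_star_mul_self.mp hpos
  refine ⟨Φ.symm g, Φ.symm x, ?_, ?_, ?_, ?_, ?_⟩
  · apply inj
    rw [map_mul, hsym, hgg]
  · apply inj
    rw [← Matrix.star_eq_conjTranspose, map_star, hsym, hgs]
  · apply inj
    rw [map_mul, hsym, hQg]
  · have hG : Φ.symm g * Φ.symm g = Φ.symm g := by
      apply inj
      rw [map_mul, hsym, hgg]
    rw [PI3_trace m Q hQ, PI3_trace m _ hG]
    have hrange : LinearMap.range (Matrix.toEuclideanLin (Φ.symm g)) = U := by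
      have e : ∀ v, Matrix.toEuclideanLin (Φ.symm g) v = g v := by
        intro v
        have : Matrix.toEuclideanLin (Φ.symm g) v = Φ (Φ.symm g) v := rfl
        rw [this, hsym]
      ext v
      constructor
      · rintro ⟨w, rfl⟩
        rw [e]; exact hgU w
      · intro hv
        refine ⟨v, ?_⟩
        rw [e]
        exact Submodule.starProjection_eq_self_iff.2 hv
    rw [hrange]
    have h1 := Submodule.finrank_sup_add_finrank_inf_eq V R
    have h2 : Module.finrank ℂ (V ⊔ R : Submodule ℂ (EuclideanSpace ℂ (Fin m))) ≤ m := by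
      have := Submodule.finrank_le (V ⊔ R)
      simpa using this
    simp only [Complex.natCast_re]
    have h3 : Module.finrank ℂ R ≤ Module.finrank ℂ U + r := by
      rw [hU]; omega
    have h4 : (Module.finrank ℂ R : ℝ) ≤ Module.finrank ℂ U + r := by exact_mod_cast h3
    linarith
  · apply inj
    rw [← Matrix.star_eq_conjTranspose, ← Matrix.star_eq_conjTranspose]
    simp only [map_sub, map_smul, map_mul, map_star, hsym']
    exact hx

theorem PI3_smul {H : Type} [NormedAddCommGroup H] [InnerProductSpace ℂ H] [CompleteSpace H]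
    {m N : ℕ} (E : Fin m → Fin m → (H →L[ℂ] H)) (d : Fin N → (H →L[ℂ] H))
    (A : Fin N → Matrix (Fin m) (Fin m) ℂ) (c : ℂ) :
    c • pim E d A = pim E d (fun s => c • A s) := by
  unfold pim
  simp only [Finset.smul_sum, smul_smul, Matrix.smul_apply, smul_eq_mul]

theorem PI3_inner {H : Type} [NormedAddCommGroup H] [InnerProductSpace ℂ H] [CompleteSpace H]
    (T : H →L[ℂ] H) (v : H) : (⟪(star T * T) v, v⟫_ℂ).re = ‖T v‖ ^ 2 := by
  rw [mul_apply_eq_comp, ContinuousLinearMap.star_eq_adjoint,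
    ContinuousLinearMap.adjoint_inner_left, inner_self_eq_norm_sq_to_K]
  norm_cast

theorem PI3 (h : St_PI1) : St_PI3 := by
  intro H _ _ _ M τ m N w E d hF Q B hQ hQs r θ hθ hr
  obtain ⟨hmem, hmul, hadd, hsub, hstar, htr, hone, hinj⟩ := h H M τ m N w E d hF
  choose G X hGG hGs hQG htrG hX using
    fun s => PI3_core m (Q s) (B s) (hQ s) (hQs s) (r s) θ hθ (hr s)
  have hP2 : pim E d G * pim E d G = pim E d G := by
    rw [hmul]; congr 1; funext s; exact hGG s
  have hPs : star (pim E d G) = pim E d G := by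
    rw [hstar]; congr 1; funext s; exact hGs s
  have hproj : IsStarProjection (pim E d G) := ⟨hP2, hPs⟩
  refine ⟨pim E d G, hmem G, hproj, ?_, ?_, ?_⟩
  · rw [hmul]; congr 1; funext s; exact hQG s
  · unfold tr
    rw [htr, htr, Complex.re_ofReal_mul, Complex.re_ofReal_mul, Complex.re_sum, Complex.re_sum,
      ← mul_sub, ← Finset.sum_sub_distrib]
    exact mul_le_mul_of_nonneg_left (Finset.sum_le_sum fun s _ => htrG s) hF.w_pos.le
  · set T := pim E d B * pim E d G with hT
    set P := pim E d G with hP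
    have hkey : ((θ ^ 2 : ℝ) : ℂ) • P - star T * T = star (pim E d X) * pim E d X := by
      have e1 : T = pim E d (fun s => B s * G s) := by rw [hT, hP, hmul]
      rw [e1, hstar, hmul, hP, PI3_smul, hsub, hstar, hmul]
      congr 1
      funext s
      exact hX s
    have hPP : star P * P = P := by rw [hPs, hP2]
    apply ContinuousLinearMap.opNorm_le_bound _ hθ
    intro v
    have h1 : (⟪(((θ ^ 2 : ℝ) : ℂ) • P - star T * T) v, v⟫_ℂ).re =
        θ ^ 2 * ‖P v‖ ^ 2 - ‖T v‖ ^ 2 := by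
      rw [sub_apply, inner_sub_left, smul_apply, inner_smul_left, Complex.sub_re,
        PI3_inner, Complex.conj_ofReal, Complex.re_ofReal_mul]
      have := PI3_inner P v
      rw [hPP] at this
      rw [this]
    have h2 := PI3_inner (pim E d X) v
    rw [← hkey, h1] at h2
    have h3 : ‖P v‖ ≤ ‖v‖ := by
      have a1 := PI3_inner P v
      rw [hPP] at a1
      have a2 : (⟪P v, v⟫_ℂ).re ≤ ‖P v‖ * ‖v‖ :=
        (Complex.re_le_norm _).trans (norm_inner_le_norm _ _)
      rw [a1] at a2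
      by_contra hcon
      push Not at hcon
      have a3 : 0 < ‖P v‖ := lt_of_le_of_lt (norm_nonneg _) hcon
      nlinarith
    have h4 : ‖T v‖ ^ 2 ≤ (θ * ‖v‖) ^ 2 := by
      have b1 : ‖P v‖ ^ 2 ≤ ‖v‖ ^ 2 := by
        exact pow_le_pow_left₀ (norm_nonneg _) h3 2
      have b2 : 0 ≤ ‖pim E d X v‖ ^ 2 := by positivity
      have b3 : θ ^ 2 * ‖P v‖ ^ 2 ≤ θ ^ 2 * ‖v‖ ^ 2 := mul_le_mul_of_nonneg_left b1 (by positivity)
      rw [mul_pow]
      linarith
    exact (pow_le_pow_iff_left₀ (norm_nonneg _) (by positivity) two_ne_zero).1 h4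

end Pool.Agent.H98R2.RR
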