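import Pool.Agent.H941R2.F44.Cons1

set_option autoImplicit false
open Filter Topology
open scoped ComplexOrder InnerProductSpace

namespace Pool.Agent.H98R2.RR
open Pool.H711R2

theorem vn_closed {H : Type} [NormedAddCommGroup H] [InnerProductSpace ℂ H] [CompleteSpace H]
    (M : VonNeumannAlgebra H) : IsClosed (M : Set (H →L[ℂ] H)) := by
  rw [← M.centralizer_centralizer]
  exact Set.isClosed_centralizer _

theorem REC (h : St_STEP) : St_CONS := by
  intro H _ _ _ M τ T Φ hΦ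
  have hstep := h H M τ T Φ hΦ
  let P : ℕ → (H →L[ℂ] H) × (H →L[ℂ] H) × ℝ → Prop := fun k s =>
    s.1 ∈ T.B k ∧ s.2.1 ∈ T.B k ∧ s.1 * s.2.1 = 1 ∧ s.2.1 * s.1 = 1 ∧ 0 < s.2.2
  have step : ∀ (k : ℕ) (s : (H →L[ℂ] H) × (H →L[ℂ] H) × ℝ), P k s →
      ∃ s' : (H →L[ℂ] H) × (H →L[ℂ] H) × ℝ, P (k + 1) s' ∧
        ‖s'.1 * T.Jn (k + 1) * s'.2.1 - s.1 * T.Jn k * s.2.1‖ ≤ s.2.2 / 2 ∧
        s'.2.2 ≤ s.2.2 / 2 ∧ ∃ S1 S1i, T.Adm k S1 S1i ∧ ∀ A,
          ‖A - s'.1 * T.Jn (k + 1) * s'.2.1‖ ≤ s'.2.2 →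
          ∀ K, IsStarProjection K → A * K = K * A * K →
          ∀ y ∈ T.Y k, ‖(1 - K) * (S1 * y * S1i) * K‖ ≤ Φ k S1 S1i := by
    intro k s hs
    obtain ⟨h1, h2, h3, h4, h5⟩ := hs
    obtain ⟨S', Si', a1, a2, a3, a4, a5, S1, S1i, a6, ρ, hρ, a7⟩ :=
      hstep k s.1 s.2.1 h1 h2 h3 h4 (s.2.2 / 2) (half_pos h5)
    refine ⟨(S', Si', min (s.2.2 / 2) ρ), ⟨a1, a2, a3, a4, lt_min (half_pos h5) hρ⟩, a5,
      min_le_left _ _, S1, S1i, a6, ?_⟩
    intro A hA
    exact a7 A (hA.trans (min_le_right _ _))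
  choose! nx hnx using step
  let σ : ℕ → (H →L[ℂ] H) × (H →L[ℂ] H) × ℝ := fun k => Nat.rec (1, 1, 1) (fun k s => nx k s) k
  have σs : ∀ k, σ (k + 1) = nx k (σ k) := fun k => rfl
  have hone : ∀ k, (1 : H →L[ℂ] H) ∈ T.B k := fun k =>
    (T.B k).toStarSubalgebra.toSubalgebra.one_mem
  have hP : ∀ k, P k (σ k) := by
    intro k
    induction k with
    | zero => exact ⟨hone 0, hone 0, mul_one 1, mul_one 1, one_pos⟩
    | succ k ih => rw [σs]; exact (hnx k (σ k) ih).1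
  set a : ℕ → (H →L[ℂ] H) := fun k => (σ k).1 * T.Jn k * (σ k).2.1 with ha
  set r : ℕ → ℝ := fun k => (σ k).2.2 with hr
  have hrpos : ∀ k, 0 < r k := fun k => (hP k).2.2.2.2
  have h1 : ∀ k, ‖a (k + 1) - a k‖ ≤ r k / 2 := by
    intro k
    have := (hnx k (σ k) (hP k)).2.1
    exact this
  have h2 : ∀ k, r (k + 1) ≤ r k / 2 := by
    intro k
    have := (hnx k (σ k) (hP k)).2.2.1
    exact this
  have h3 : ∀ k, r k ≤ (1 / 2) ^ k := by
    intro k
    induction k with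
    | zero => simp [hr, σ]
    | succ k ih =>
      have := h2 k
      rw [pow_succ]
      linarith
  have h4 : ∀ j m, ‖a (j + m) - a j‖ ≤ r j - r (j + m) := by
    intro j m
    induction m with
    | zero => simp
    | succ m ih =>
      have e1 : a (j + (m + 1)) - a j = (a (j + m + 1) - a (j + m)) + (a (j + m) - a j) := by
        rw [← add_assoc]; abel
      rw [e1, ← add_assoc]
      refine (norm_add_le _ _).trans ?_
      have := h1 (j + m)
      have := h2 (j + m)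
      linarith
  have hC : CauchySeq a := by
    refine cauchySeq_of_le_geometric (1 / 2) 1 (by norm_num) ?_
    intro n
    rw [dist_comm, dist_eq_norm]
    have := h1 n
    have := h3 n
    have := hrpos n
    linarith
  obtain ⟨A, hA⟩ := cauchySeq_tendsto_of_complete hC
  have h5 : ∀ j, ‖A - a j‖ ≤ r j := by
    intro j
    have t1 : Tendsto (fun m => ‖a (j + m) - a j‖) atTop (𝓝 ‖A - a j‖) := by
      have : Tendsto (fun m => a (j + m)) atTop (𝓝 A) := by
        have := (tendsto_add_atTop_iff_nat j).2 hA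
        simpa [add_comm] using this
      exact (this.sub_const _).norm
    refine le_of_tendsto t1 (Eventually.of_forall fun m => ?_)
    have := h4 j m
    have := hrpos (j + m)
    linarith
  have haM : ∀ k, a k ∈ M := by
    intro k
    apply T.B_sub k
    have hJ : T.Jn k ∈ T.B k := by
      unfold Tower.Jn
      refine (T.B k).toStarSubalgebra.toSubalgebra.sum_mem fun i hi => ?_
      have := Finset.mem_range.1 hi
      exact T.e_mem k _ (by omega) _ (by omega)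
    exact (T.B k).toStarSubalgebra.toSubalgebra.mul_mem
      ((T.B k).toStarSubalgebra.toSubalgebra.mul_mem (hP k).1 hJ) (hP k).2.1
  have hAM : A ∈ M := (vn_closed M).mem_of_tendsto hA (Eventually.of_forall haM)
  refine ⟨A, hAM, fun k => ?_⟩
  obtain ⟨S1, S1i, b1, b2⟩ := (hnx k (σ k) (hP k)).2.2.2
  refine ⟨S1, S1i, b1, fun K _ hK hAK => b2 A ?_ K hK hAK⟩
  exact h5 (k + 1)

end Pool.Agent.H98R2.RR
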