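import Pool.Agent.H941R2.F44.Tow2

/-!
helper209: the step of the construction, from the algebraic similarity.
-/

set_option autoImplicit false
set_option linter.unusedSectionVars false
set_option maxHeartbeats 2000000
open Filter Topology
open scoped ComplexOrder InnerProductSpace

namespace Pool.Agent.H209R2.ISP.T
open Pool.H711R2 Pool.Agent.H98R2.RR

section tow
variable {H : Type} [NormedAddCommGroup H] [InnerProductSpace ℂ H] [CompleteSpace H]
variable {M : VonNeumannAlgebra H} {τ : (H →L[ℂ] H) →ₗ[ℂ] ℂ} (T : Tower M τ) (k : ℕ)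

lemma comm_ph (x : H →L[ℂ] H)
    (h1 : ∀ i < 64 ^ k, ∀ j < 64 ^ k, Commute x (T.e k i j))
    (h2 : ∀ t < 32, ∀ t' < 32, Commute x (T.phi k t t'))
    (X : Matrix (Fin (32 * 64 ^ k)) (Fin (32 * 64 ^ k)) ℂ) :
    x * ph T k X = ph T k X * x := by
  rw [ph_apply, Finset.mul_sum, Finset.sum_mul]
  refine Finset.sum_congr rfl fun a _ => ?_
  rw [Finset.mul_sum, Finset.sum_mul]
  refine Finset.sum_congr rfl fun c _ => ?_
  rw [mul_smul_comm, smul_mul_assoc]
  congr 1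
  exact (h1 _ a.2.isLt _ c.2.isLt).mul_right (h2 _ a.1.isLt _ c.1.isLt)

lemma xx_comm (l : Fin 4) (X : Matrix (Fin (32 * 64 ^ k)) (Fin (32 * 64 ^ k)) ℂ) :
    T.xx k l.val * ph T k X = ph T k X * T.xx k l.val := by
  have m1 : ∀ c < 2, ∀ c' < 2, ∀ i < 64 ^ k, ∀ j < 64 ^ k, Commute (T.mm k c c') (T.e k i j) :=
    fun c hc c' hc' i hi j hj => (mm_e_comm T k i j c c' hi hj hc hc').symm
  have m2 : ∀ c < 2, ∀ c' < 2, ∀ t < 32, ∀ t' < 32, Commute (T.mm k c c') (T.phi k t t') :=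
    fun c hc c' hc' t ht t' ht' => mm_phi_comm T k c c' t t' hc hc' ht ht'
  have b1 : ∀ i < 64 ^ k, ∀ j < 64 ^ k, Commute (T.b k) (T.e k i j) :=
    fun i hi j hj => comm_e T k _ (fun i hi j hj => (T.b_comm k i hi j hj).1) i j hi hj
  have b2 : ∀ t < 32, ∀ t' < 32, Commute (T.b k) (T.phi k t t') :=
    fun t ht t' ht' => comm_phi T k _ (fun i hi j hj => (T.b_comm k i hi j hj).1) t t' ht ht'
  have b1' : ∀ i < 64 ^ k, ∀ j < 64 ^ k, Commute (T.b' k) (T.e k i j) :=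
    fun i hi j hj => comm_e T k _ (fun i hi j hj => (T.b_comm k i hi j hj).2) i j hi hj
  have b2' : ∀ t < 32, ∀ t' < 32, Commute (T.b' k) (T.phi k t t') :=
    fun t ht t' ht' => comm_phi T k _ (fun i hi j hj => (T.b_comm k i hi j hj).2) t t' ht ht'
  apply comm_ph
  · intro i hi j hj
    fin_cases l
    · exact m1 0 (by norm_num) 1 (by norm_num) i hi j hj
    · exact m1 1 (by norm_num) 0 (by norm_num) i hi j hj
    · exact (m1 0 (by norm_num) 1 (by norm_num) i hi j hj).mul_left (b1 i hi j hj)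
    · exact (m1 1 (by norm_num) 0 (by norm_num) i hi j hj).mul_left (b1' i hi j hj)
  · intro t ht t' ht'
    fin_cases l
    · exact m2 0 (by norm_num) 1 (by norm_num) t ht t' ht'
    · exact m2 1 (by norm_num) 0 (by norm_num) t ht t' ht'
    · exact (m2 0 (by norm_num) 1 (by norm_num) t ht t' ht').mul_left (b2 t ht t' ht')
    · exact (m2 1 (by norm_num) 0 (by norm_num) t ht t' ht').mul_left (b2' t ht t' ht')

lemma zeta_eq (hn : 0 < 64 ^ k) (e : ℝ) :
    ph T k (Jm (32 * 64 ^ k)) + Yw (64 ^ k) hn (ph T k) (fun l => T.xx k l.val) e =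
      T.Jn k + T.e k 0 (64 ^ k - 1) * T.zeta k (fun j => (e : ℂ) ^ (4 + j)) := by
  rw [ph_J]
  unfold Tower.JR Tower.zeta Yw
  rw [mul_add, add_assoc]
  congr 2
  rw [Finset.mul_sum, ← Fin.sum_univ_eq_sum_range (fun j => T.e k 0 (64 ^ k - 1) *
    (e : ℂ) ^ (4 + j) • (T.phi k (ss j) (ss j + aa j - 1) * T.xx k j))]
  refine Finset.sum_congr rfl fun l _ => ?_
  rw [xx_comm, ph_wrap, mul_smul_comm, mul_assoc]

lemma dg_mem (δ : ℂ) : ph T k (dg (64 ^ k) δ) ∈ T.B (k + 1) := by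
  rw [ph_dg]
  refine sum_mem fun t ht => ?_
  exact (T.B (k + 1)).toStarSubalgebra.toSubalgebra.smul_mem
    (phi_mem T k t t (Finset.mem_range.1 ht) (Finset.mem_range.1 ht)) _

lemma phi_comm_B (x : H →L[ℂ] H) (hx : x ∈ T.B k) (t : ℕ) (ht : t < 32) :
    T.phi k t t * x = x * T.phi k t t := by
  unfold Tower.phi
  rw [Finset.mul_sum, Finset.sum_mul]
  exact Finset.sum_congr rfl fun c hc => T.f_comm k x hx _ (pth_lt _ ht _ (Finset.mem_range.1 hc))

lemma phi_comm_dg (δ : ℂ) (t : ℕ) (ht : t < 32) :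
    T.phi k t t * ph T k (dg (64 ^ k) δ) = ph T k (dg (64 ^ k) δ) * T.phi k t t := by
  rw [ph_dg, Finset.mul_sum, Finset.sum_mul]
  refine Finset.sum_congr rfl fun s hs => ?_
  rw [mul_smul_comm, smul_mul_assoc, phi_mul T k _ _ _ _ ht ht (Finset.mem_range.1 hs)
    (Finset.mem_range.1 hs), phi_mul T k _ _ _ _ (Finset.mem_range.1 hs)
    (Finset.mem_range.1 hs) ht ht]
  by_cases h : t = s
  · subst h; rfl
  · rw [if_neg h, if_neg (Ne.symm h)]

lemma norm_proj_le {K : H →L[ℂ] H} (hK : IsStarProjection K) : ‖K‖ ≤ 1 := by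
  have h1 : ‖K‖ * ‖K‖ = ‖K‖ := by
    rw [← CStarRing.norm_star_mul_self, hK.isSelfAdjoint.star_eq, hK.isIdempotentElem.eq]
  by_contra h
  have h3 := not_le.1 h
  nlinarith

end tow

theorem STEP (h : St_ALG) : St_STEP := by
  intro H _ _ _ M τ T Φ hΦ k S Si hS hSi hSS hSS' ε hε
  have hn : 0 < 64 ^ k := pos64 k
  obtain ⟨δ, hδ0, hδ⟩ : ∃ δ : ℝ, 0 < δ ∧ δ * ‖S * ph T k (Jlnk (64 ^ k)) * Si‖ ≤ ε / 2 := by
    refine ⟨ε / 2 / (‖S * ph T k (Jlnk (64 ^ k)) * Si‖ + 1), by positivity, ?_⟩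
    rw [div_mul_eq_mul_div, div_le_iff₀ (by positivity)]
    have : 0 ≤ ‖S * ph T k (Jlnk (64 ^ k)) * Si‖ := norm_nonneg _
    nlinarith
  have hδc : (δ : ℂ) ≠ 0 := by exact_mod_cast hδ0.ne'
  set D := ph T k (dg (64 ^ k) (δ : ℂ)) with hD
  set Di := ph T k (dg (64 ^ k) (δ : ℂ)⁻¹) with hDi
  have hDD : D * Di = 1 := by
    rw [hD, hDi, ← map_mul, dg_mul_inv _ _ hδc, map_one]
  have hDD' : Di * D = 1 := by
    have := dg_mul_inv (64 ^ k) (δ : ℂ)⁻¹ (inv_ne_zero hδc)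
    rw [inv_inv] at this
    rw [hD, hDi, ← map_mul, this, map_one]
  have i1 : (S * D) * (Di * Si) = 1 := by
    calc (S * D) * (Di * Si) = S * (D * Di) * Si := by noncomm_ring
      _ = 1 := by rw [hDD, mul_one, hSS]
  have i2 : (Di * Si) * (S * D) = 1 := by
    calc (Di * Si) * (S * D) = Di * (Si * S) * D := by noncomm_ring
      _ = 1 := by rw [hSS', mul_one, hDD']
  have hconj : (S * D) * ph T k (Jm (32 * 64 ^ k)) * (Di * Si) - S * T.Jn k * Si =
      (δ : ℂ) • (S * ph T k (Jlnk (64 ^ k)) * Si) := by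
    have h1 : D * ph T k (Jm (32 * 64 ^ k)) * Di = T.Jn k + (δ : ℂ) • ph T k (Jlnk (64 ^ k)) := by
      rw [hD, hDi, ← map_mul, ← map_mul, dg_J _ hn _ hδc, map_add, map_smul, ph_blk]
    calc (S * D) * ph T k (Jm (32 * 64 ^ k)) * (Di * Si) - S * T.Jn k * Si
        = S * (D * ph T k (Jm (32 * 64 ^ k)) * Di) * Si - S * T.Jn k * Si := by noncomm_ring
      _ = _ := by
        rw [h1, mul_add, add_mul, add_sub_cancel_left, mul_smul_comm, smul_mul_assoc]
  have hadm : T.Adm k (S * D) (Di * Si) := by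
    refine ⟨mul_mem (T.B_mono k S hS) (dg_mem T k _), mul_mem (dg_mem T k _) (T.B_mono k Si hSi),
      i1, i2, fun t ht => ?_⟩
    rw [← mul_assoc, phi_comm_B T k S hS t ht, mul_assoc, hD, phi_comm_dg T k _ t ht]
    noncomm_ring
  set F := Φ k (S * D) (Di * Si) with hF
  have hF0 : 0 < F := hΦ _ _ _
  obtain ⟨e, he0, hnear, Cst, hC0, hK⟩ := K1P (64 ^ k) hn (ph T k) (fun l => T.xx k l.val)
    (fun l X => xx_comm T k l X) (S * D) (Di * Si) i1 i2 (ε / 2) (F / 2) (by positivity)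
    (by positivity)
  obtain ⟨Y, Yi, hY, hYi, hYY, hYY', hJ⟩ := h H M τ T k (fun j => (e : ℂ) ^ (4 + j))
    (fun j _ => pow_ne_zero _ (by exact_mod_cast he0.ne'))
  have hkey : (S * D * Y) * T.Jn (k + 1) * (Yi * (Di * Si)) =
      (S * D) * (ph T k (Jm (32 * 64 ^ k)) +
        Yw (64 ^ k) hn (ph T k) (fun l => T.xx k l.val) e) * (Di * Si) := by
    rw [zeta_eq, hJ]
    noncomm_ring
  refine ⟨S * D * Y, Yi * (Di * Si), mul_mem hadm.S_mem hY, mul_mem hYi hadm.Si_mem, ?_, ?_, ?_,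
    S * D, Di * Si, hadm, F / 2 / (Cst + 1), by positivity, ?_⟩
  · calc S * D * Y * (Yi * (Di * Si)) = S * D * (Y * Yi) * (Di * Si) := by noncomm_ring
      _ = 1 := by rw [hYY, mul_one, i1]
  · calc Yi * (Di * Si) * (S * D * Y) = Yi * ((Di * Si) * (S * D)) * Y := by noncomm_ring
      _ = 1 := by rw [i2, mul_one, hYY']
  · rw [hkey]
    have h1 : ‖(S * D) * ph T k (Jm (32 * 64 ^ k)) * (Di * Si) - S * T.Jn k * Si‖ ≤ ε / 2 := by
      rw [hconj, norm_smul, Complex.norm_real, Real.norm_of_nonneg hδ0.le]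
      exact hδ
    have h2 := norm_sub_le_norm_sub_add_norm_sub ((S * D) * (ph T k (Jm (32 * 64 ^ k)) +
        Yw (64 ^ k) hn (ph T k) (fun l => T.xx k l.val) e) * (Di * Si))
        ((S * D) * ph T k (Jm (32 * 64 ^ k)) * (Di * Si)) (S * T.Jn k * Si)
    have h3 := hnear.le
    linarith
  · intro A hA K hKp hAK y hy
    have n1 : ‖K‖ ≤ 1 := norm_proj_le hKp
    have n2 : ‖1 - K‖ ≤ 1 := norm_proj_le hKp.one_sub
    have hKK : K * K = K := hKp.isIdempotentElem.eq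
    obtain ⟨k1, k2, k3⟩ := hK K hKK n2 n1
    have hz : ‖(1 - K) * ((S * D) * (ph T k (Jm (32 * 64 ^ k)) +
        Yw (64 ^ k) hn (ph T k) (fun l => T.xx k l.val) e) * (Di * Si)) * K‖ ≤
        F / 2 / (Cst + 1) := by
      rw [← hkey]
      have h0 : (1 - K) * A * K = 0 := by
        calc (1 - K) * A * K = A * K - K * A * K := by noncomm_ring
          _ = 0 := by rw [← hAK, sub_self]
      calc ‖(1 - K) * ((S * D * Y) * T.Jn (k + 1) * (Yi * (Di * Si))) * K‖
          = ‖(1 - K) * (((S * D * Y) * T.Jn (k + 1) * (Yi * (Di * Si))) - A) * K‖ := by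
            have h3 : (1 - K) * (((S * D * Y) * T.Jn (k + 1) * (Yi * (Di * Si))) - A) * K =
                (1 - K) * ((S * D * Y) * T.Jn (k + 1) * (Yi * (Di * Si))) * K
                  - (1 - K) * A * K := by
              generalize (S * D * Y) * T.Jn (k + 1) * (Yi * (Di * Si)) = Z
              noncomm_ring
            rw [h3, h0, sub_zero]
        _ ≤ ‖((S * D * Y) * T.Jn (k + 1) * (Yi * (Di * Si))) - A‖ := norm_sandwich _ _ n2 n1
        _ ≤ _ := by rw [norm_sub_rev]; exact hA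
    have hfin : F / 2 + Cst * ‖(1 - K) * ((S * D) * (ph T k (Jm (32 * 64 ^ k)) +
        Yw (64 ^ k) hn (ph T k) (fun l => T.xx k l.val) e) * (Di * Si)) * K‖ ≤ F := by
      have h1 : Cst * ‖(1 - K) * ((S * D) * (ph T k (Jm (32 * 64 ^ k)) +
        Yw (64 ^ k) hn (ph T k) (fun l => T.xx k l.val) e) * (Di * Si)) * K‖ ≤
        Cst * (F / 2 / (Cst + 1)) := mul_le_mul_of_nonneg_left hz hC0
      have h2 : Cst * (F / 2 / (Cst + 1)) ≤ F / 2 := by
        rw [mul_div_assoc', div_le_iff₀ (by positivity)]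
        nlinarith
      linarith
    rw [ph_J30] at k2 k3
    have hth : ∀ l : Fin 4, T.xx k l.val * T.Th k = T.Th k * T.xx k l.val := by
      intro l
      have := xx_comm T k l ((Jm (32 * 64 ^ k)) ^ (30 * 64 ^ k))
      rwa [ph_J30] at this
    have k3' : ∀ l : Fin 4, ‖(1 - K) * ((S * D) * (T.Th k * T.xx k l.val) * (Di * Si)) * K‖ ≤ F := by
      intro l
      rw [← hth]
      exact (k3 l).trans hfin
    rcases hy with hy | hy | hy | hy | hy | hy
    · rw [hy, ← ph_J]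
      exact k1.trans hfin
    · rw [hy]
      exact k2.trans hfin
    · rw [hy]; exact k3' 0
    · rw [hy]; exact k3' 1
    · rw [hy]; exact k3' 2
    · rw [hy]; exact k3' 3

end Pool.Agent.H209R2.ISP.T
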