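import Pool.Agent.H98R2.RR.UG

/-! UG2x: approximation of `[g W]` by `[g P]`, `δ` depending only on `lam`, `ε`, together with
the minimality of `V'` (helper275). -/

set_option autoImplicit false
open Filter Topology
open scoped ComplexOrder InnerProductSpace

namespace Pool.Agent.H98R2.RR
open Pool.H711R2 Pool.H711R2.IsNormalTrace

section ug2
variable {H : Type} [NormedAddCommGroup H] [InnerProductSpace ℂ H] [CompleteSpace H]
variable {M : VonNeumannAlgebra H} {τ : (H →L[ℂ] H) →ₗ[ℂ] ℂ}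

/-- the range projection -/
noncomputable def ug2_rp (x : H →L[ℂ] H) : H →L[ℂ] H := 1 - kp (star x)

theorem ug2_rp_star (x : H →L[ℂ] H) : IsStarProjection (ug2_rp x) := (kp_isStar _).one_sub

theorem ug2_rp_mem {x : H →L[ℂ] H} (hx : x ∈ M) : ug2_rp x ∈ M :=
  vn_sub (vn_one M) (kp_mem (vn_star hx))

theorem ug2_rp_mul (x : H →L[ℂ] H) : ug2_rp x * x = x := by
  have h := congrArg star (mul_kp (star x))
  rw [star_mul, star_star, kp_star, star_zero] at h
  unfold ug2_rp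
  rw [sub_mul, one_mul, h, sub_zero]

theorem ug2_rp_min (x e : H →L[ℂ] H) (h : e * x = x) : e * ug2_rp x = ug2_rp x := by
  have h1 : star x * star (1 - e) = 0 := by
    rw [← star_mul, sub_mul, one_mul, h, sub_self, star_zero]
  have h2 : kp (star x) * star (1 - e) = star (1 - e) := by
    ext v
    have h3 : star x (star (1 - e) v) = 0 := by
      exact congrArg (fun z : H →L[ℂ] H => z v) h1
    exact kp_apply_of_ker (star x) h3
  have h4 := congrArg star h2
  rw [star_mul, star_star, kp_star] at h4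
  unfold ug2_rp
  rw [mul_sub, mul_one]
  have h5 : e * kp (star x) = kp (star x) - (1 - e) := by
    rw [← h4, sub_mul, one_mul]
    abel
  rw [h5]
  abel

theorem ug2_kp {g gi Q : H →L[ℂ] H} (hgi : gi * g = 1) (hQ : IsStarProjection Q) :
    kp (g * Q) = 1 - Q := by
  have h1 : Q * kp (g * Q) = 0 := by
    calc Q * kp (g * Q) = gi * (g * Q * kp (g * Q)) := by
          rw [← mul_assoc, ← mul_assoc, hgi, one_mul]
      _ = 0 := by rw [mul_kp, mul_zero]
  have h2 : kp (g * Q) * (1 - Q) = 1 - Q := by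
    ext v
    have h3 : (g * Q) ((1 - Q) v) = 0 := by
      have : g * Q * (1 - Q) = 0 := by
        rw [mul_assoc, mul_sub, mul_one, hQ.isIdempotentElem.eq, sub_self, mul_zero]
      exact congrArg (fun z : H →L[ℂ] H => z v) this
    exact kp_apply_of_ker (g * Q) h3
  have h4 := congrArg star h2
  rw [star_mul, kp_star, star_sub, star_one, hQ.isSelfAdjoint.star_eq] at h4
  rw [sub_mul, one_mul, h1, sub_zero] at h4
  exact h4

theorem ug2_tr (hτ : IsNormalTrace M τ) {g gi Q : H →L[ℂ] H} (hg : g ∈ M) (hQM : Q ∈ M)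
    (hgi : gi * g = 1) (hQ : IsStarProjection Q) : tr τ (ug2_rp (g * Q)) = tr τ Q := by
  unfold ug2_rp
  rw [tr_sub, hτ.tr_one, ← hτ.trace_kp (vn_mul hg hQM), ug2_kp hgi hQ, tr_sub, hτ.tr_one]
  ring

theorem ug2_up {g : H →L[ℂ] H} (hg : 0 ≤ g) {c : ℝ} (h : g * g ≤ sc c) (v : H) :
    ‖g v‖ ^ 2 ≤ c * ‖v‖ ^ 2 := by
  rw [ContinuousLinearMap.le_def] at h
  have h1 := h.re_inner_nonneg_left v
  have hs : star g = g := (IsSelfAdjoint.of_nonneg hg).star_eq
  have e1 : (sc c - g * g : H →L[ℂ] H) v = ((c : ℝ) : ℂ) • v - (star g * g) v := by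
    rw [hs]; simp [sc]
  rw [e1, inner_sub_left, inner_smul_left, inner_aa, map_sub] at h1
  have h2 : RCLike.re (⟪g v, g v⟫_ℂ) = ‖g v‖ ^ 2 := isr _
  have h3 : RCLike.re ((starRingEnd ℂ) ((c : ℝ) : ℂ) * ⟪v, v⟫_ℂ) = c * ‖v‖ ^ 2 := by
    rw [inner_self_eq_norm_sq_to_K]
    simp [← Complex.ofReal_pow]
  rw [h2, h3] at h1
  linarith

theorem ug2_low {g : H →L[ℂ] H} (hg : 0 ≤ g) {c : ℝ} (h : sc c ≤ g * g) (v : H) :
    c * ‖v‖ ^ 2 ≤ ‖g v‖ ^ 2 := by
  rw [ContinuousLinearMap.le_def] at h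
  have h1 := h.re_inner_nonneg_left v
  have hs : star g = g := (IsSelfAdjoint.of_nonneg hg).star_eq
  have e1 : (g * g - sc c : H →L[ℂ] H) v = (star g * g) v - ((c : ℝ) : ℂ) • v := by
    rw [hs]; simp [sc]
  rw [e1, inner_sub_left, inner_smul_left, inner_aa, map_sub] at h1
  have h2 : RCLike.re (⟪g v, g v⟫_ℂ) = ‖g v‖ ^ 2 := isr _
  have h3 : RCLike.re ((starRingEnd ℂ) ((c : ℝ) : ℂ) * ⟪v, v⟫_ℂ) = c * ‖v‖ ^ 2 := by
    rw [inner_self_eq_norm_sq_to_K]
    simp [← Complex.ofReal_pow]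
  rw [h2, h3] at h1
  linarith

theorem ug2_norm_g {g : H →L[ℂ] H} (hg : 0 ≤ g) {c : ℝ} (hc : 0 < c) (h : g * g ≤ sc c) :
    ‖g‖ ≤ Real.sqrt c := by
  apply ContinuousLinearMap.opNorm_le_bound _ (Real.sqrt_nonneg c)
  intro v
  refine (sq_le_sq₀ (norm_nonneg _) (by positivity)).mp ?_
  rw [mul_pow, Real.sq_sqrt hc.le]
  exact ug2_up hg h v

theorem ug2_norm_gi {g gi : H →L[ℂ] H} (hg : 0 ≤ g) {c : ℝ} (hc : 0 < c)
    (h : sc c⁻¹ ≤ g * g) (hggi : g * gi = 1) : ‖gi‖ ≤ Real.sqrt c := by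
  apply ContinuousLinearMap.opNorm_le_bound _ (Real.sqrt_nonneg c)
  intro v
  refine (sq_le_sq₀ (norm_nonneg _) (by positivity)).mp ?_
  rw [mul_pow, Real.sq_sqrt hc.le]
  have h1 := ug2_low hg h (gi v)
  have h2 : g (gi v) = v := by
    have := congrArg (fun z : H →L[ℂ] H => z v) hggi
    simpa using this
  rw [h2, inv_mul_le_iff₀ hc] at h1
  exact h1

theorem ug2_n2a (hτ : IsNormalTrace M τ) {A B : H →L[ℂ] H} (hA : A ∈ M) (hB : B ∈ M)
    (pA : IsStarProjection A) (pB : IsStarProjection B) :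
    n2 τ ((1 - A) * B) = tr τ B - tr τ (A * B) := by
  have e : star ((1 - A) * B) * ((1 - A) * B) = B - B * (A * B) := by
    rw [star_mul, star_sub, star_one, pA.isSelfAdjoint.star_eq, pB.isSelfAdjoint.star_eq]
    have h1 : (1 - A) * (1 - A) = 1 - A := pA.one_sub.isIdempotentElem.eq
    calc B * (1 - A) * ((1 - A) * B) = B * ((1 - A) * (1 - A)) * B := by noncomm_ring
      _ = B * B - B * (A * B) := by rw [h1]; noncomm_ring
      _ = B - B * (A * B) := by rw [pB.isIdempotentElem.eq]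
  unfold n2
  rw [e, tr_sub]
  congr 1
  unfold tr
  rw [hτ.trace _ hB _ (vn_mul hA hB), mul_assoc, pB.isIdempotentElem.eq]

theorem ug2_n2b (hτ : IsNormalTrace M τ) {A B : H →L[ℂ] H} (hA : A ∈ M) (hB : B ∈ M)
    (pA : IsStarProjection A) (pB : IsStarProjection B) :
    n2 τ (A - B) = tr τ A + tr τ B - 2 * tr τ (A * B) := by
  have e : star (A - B) * (A - B) = A + B - A * B - B * A := by
    rw [star_sub, pA.isSelfAdjoint.star_eq, pB.isSelfAdjoint.star_eq]
    calc (A - B) * (A - B) = A * A + B * B - A * B - B * A := by noncomm_ring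
      _ = _ := by rw [pA.isIdempotentElem.eq, pB.isIdempotentElem.eq]
  unfold n2
  rw [e, tr_sub, tr_sub, tr_add]
  have h : tr τ (B * A) = tr τ (A * B) := by
    unfold tr
    rw [hτ.trace _ hB _ hA]
  rw [h]
  ring

end ug2

theorem UG2x : St_UG2x := by
  intro lam hl ε hε
  have hl0 : 0 < lam := by linarith
  have hK : 0 < 3 + 2 * lam ^ 2 := by positivity
  set s : ℝ := min 1 (ε / (3 + 2 * lam ^ 2)) with hs
  have hs0 : 0 < s := lt_min one_pos (by positivity)
  have hs1 : s ≤ 1 := min_le_left _ _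
  have hsε : s * (3 + 2 * lam ^ 2) ≤ ε := by
    have h : s ≤ ε / (3 + 2 * lam ^ 2) := min_le_right _ _
    rwa [le_div_iff₀ hK] at h
  refine ⟨s ^ 2, by positivity, ?_⟩
  intro H _ _ _ M B τ hτ hf hBM W hWM P hPB hW hP hWP g hgB gi hgiB hg0 hggi hgig hlow hup V hVM hV
    hVg hVW
  have hPM := hBM P hPB
  have hgM := hBM g hgB
  have hgiM := hBM gi hgiB
  have hWs : star W = W := hW.isSelfAdjoint.star_eq
  have hWW : W * W = W := hW.isIdempotentElem.eq
  -- Step A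
  have a1 := ug2_n2b hτ hWM hPM hW hP
  have a2 := ug2_n2a hτ hPM hWM hP hW
  have a3 := ug2_n2a hτ hWM hPM hW hP
  have a4 : tr τ (P * W) = tr τ (W * P) := by
    unfold tr
    rw [hτ.trace _ hPM _ hWM]
  have a5 := hτ.n2_nonneg (vn_mul (vn_sub (vn_one M) hPM) hWM)
  have a6 := hτ.n2_nonneg (vn_mul (vn_sub (vn_one M) hWM) hPM)
  -- Step B
  set b : ℝ := Real.sqrt s with hb
  have hb0 : 0 < b := Real.sqrt_pos.mpr hs0
  have hbb : b ^ 2 = s := Real.sq_sqrt hs0.le
  set x : H →L[ℂ] H := (1 - P) * W with hx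
  have hxM : x ∈ M := vn_mul (vn_sub (vn_one M) hPM) hWM
  set e : H →L[ℂ] H := ev x b with he
  have heM : e ∈ M := ev_mem hxM b
  have hep : IsStarProjection e := ev_isStar x b
  have hker : ∀ v, (1 - W) v = v → e v = v := by
    intro v hv
    apply ev_ker hb0
    have h1 : x * (1 - W) = 0 := by
      rw [hx, mul_assoc, mul_sub, mul_one, hWW, sub_self, mul_zero]
    have h2 := congrArg (fun z : H →L[ℂ] H => z v) h1
    have h3 : x ((1 - W) v) = 0 := h2
    rwa [hv] at h3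
  have he1 : e * (1 - W) = 1 - W := by
    ext v
    have h1 : (1 - W) ((1 - W) v) = (1 - W) v := by
      have := congrArg (fun z : H →L[ℂ] H => z v) hW.one_sub.isIdempotentElem.eq
      exact this
    exact hker _ h1
  have he2 : (1 - W) * e = 1 - W := by
    have h := congrArg star he1
    rwa [star_mul, star_sub, star_one, hWs, hep.isSelfAdjoint.star_eq] at h
  set W1 : H →L[ℂ] H := e - (1 - W) with hW1
  have hW1M : W1 ∈ M := vn_sub heM (vn_sub (vn_one M) hWM)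
  have hW1p : IsStarProjection W1 := diff_proj hW.one_sub hep hker
  have hWW1 : W * W1 = W1 := by
    have h1 : (1 - W) * W1 = 0 := by
      rw [hW1, mul_sub, he2, hW.one_sub.isIdempotentElem.eq, sub_self]
    rw [sub_mul, one_mul, sub_eq_zero] at h1
    exact h1.symm
  have heW1 : e * W1 = W1 := by
    rw [hW1, mul_sub, hep.isIdempotentElem.eq, he1]
  have b1 := hτ.cheb hxM (vn_one M) b
  rw [mul_one, mul_one] at b1
  rw [n2_proj hep.one_sub, tr_sub, hτ.tr_one, hbb] at b1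
  have b2 : tr τ W1 = tr τ e - (1 - tr τ W) := by
    rw [hW1, tr_sub, tr_sub, hτ.tr_one]
  have b3 : 1 - tr τ e ≤ s := by
    have h1 : s * (1 - tr τ e) ≤ s * s := by
      have : n2 τ x ≤ s ^ 2 := by linarith
      nlinarith
    exact le_of_mul_le_mul_left h1 hs0
  have b4 : ‖(1 - P) * W1‖ ≤ b := by
    have h1 : (1 - P) * W1 = x * e * W1 := by
      rw [mul_assoc, heW1, hx, mul_assoc, hWW1]
    rw [h1]
    calc ‖x * e * W1‖ ≤ ‖x * e‖ * ‖W1‖ := norm_mul_le _ _
      _ ≤ b * 1 := by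
          gcongr
          · exact norm_mul_ev_le x hb0.le
          · exact norm_proj_le hW1p
      _ = b := mul_one b
  -- Step C
  have hgW1M : g * W1 ∈ M := vn_mul hgM hW1M
  refine ⟨ug2_rp (g * P), ug2_rp_mem (vn_mul hgB hPB), ug2_rp_star _, ug2_rp_mul _,
    fun e he => ug2_rp_min _ e he, ?_⟩
  set V' : H →L[ℂ] H := ug2_rp (g * P) with hV'
  set V1 : H →L[ℂ] H := ug2_rp (g * W1) with hV1
  have hV'M : V' ∈ M := ug2_rp_mem (vn_mul hgM hPM)
  have hV1M : V1 ∈ M := ug2_rp_mem hgW1M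
  have pV' : IsStarProjection V' := ug2_rp_star _
  have pV1 : IsStarProjection V1 := ug2_rp_star _
  have tV' : tr τ V' = tr τ P := ug2_tr hτ hgM hPM hgig hP
  have tV1 : tr τ V1 = tr τ W1 := ug2_tr hτ hgM hW1M hgig hW1p
  have c1 : V * V1 = V1 := by
    apply ug2_rp_min
    calc V * (g * W1) = V * (g * W) * W1 := by rw [mul_assoc, mul_assoc, hWW1]
      _ = g * W1 := by rw [hVg, mul_assoc, hWW1]
  have c2 : g * W1 * gi * V1 = V1 := by
    apply ug2_rp_min
    calc g * W1 * gi * (g * W1) = g * W1 * (gi * g) * W1 := by noncomm_ring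
      _ = g * W1 := by rw [hgig, mul_one, mul_assoc, hW1p.isIdempotentElem.eq]
  have c3 : (1 - V') * (g * P) = 0 := by
    rw [sub_mul, one_mul, ug2_rp_mul, sub_self]
  have c4 : (1 - V') * V1 = (1 - V') * g * ((1 - P) * W1) * gi * V1 := by
    calc (1 - V') * V1 = (1 - V') * (g * W1 * gi * V1) := by rw [c2]
      _ = (1 - V') * g * ((1 - P) * W1) * gi * V1 +
          (1 - V') * (g * P) * (W1 * gi * V1) := by noncomm_ring
      _ = _ := by rw [c3, zero_mul, add_zero]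
  have c5 : ‖(1 - V') * V1‖ ≤ lam * b := by
    rw [c4]
    have n1 : ‖1 - V'‖ ≤ 1 := norm_proj_le pV'.one_sub
    have n2' : ‖g‖ ≤ Real.sqrt lam := ug2_norm_g hg0 hl0 hup
    have n3 : ‖gi‖ ≤ Real.sqrt lam := ug2_norm_gi hg0 hl0 hlow hggi
    have n4 : ‖V1‖ ≤ 1 := norm_proj_le pV1
    calc ‖(1 - V') * g * ((1 - P) * W1) * gi * V1‖
        ≤ ‖(1 - V') * g * ((1 - P) * W1) * gi‖ * ‖V1‖ := norm_mul_le _ _
      _ ≤ (‖(1 - V') * g * ((1 - P) * W1)‖ * ‖gi‖) * ‖V1‖ := by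
          gcongr
          exact norm_mul_le _ _
      _ ≤ ((‖(1 - V') * g‖ * ‖(1 - P) * W1‖) * ‖gi‖) * ‖V1‖ := by
          gcongr
          exact norm_mul_le _ _
      _ ≤ (((‖1 - V'‖ * ‖g‖) * ‖(1 - P) * W1‖) * ‖gi‖) * ‖V1‖ := by
          gcongr
          exact norm_mul_le _ _
      _ ≤ (((1 * Real.sqrt lam) * b) * Real.sqrt lam) * 1 := by
          gcongr
      _ = (Real.sqrt lam * Real.sqrt lam) * b := by ring
      _ = lam * b := by rw [Real.mul_self_sqrt hl0.le]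
  have c6 := ug2_n2a hτ hV'M hV1M pV' pV1
  have c7 := hτ.n2_le (vn_mul (vn_sub (vn_one M) hV'M) hV1M)
  have c8 : ‖(1 - V') * V1‖ ^ 2 ≤ lam ^ 2 * s := by
    calc ‖(1 - V') * V1‖ ^ 2 ≤ (lam * b) ^ 2 := by
          gcongr
      _ = lam ^ 2 * s := by rw [mul_pow, hbb]
  -- tr (V V') ≥ tr (V1 V')
  have hD : IsStarProjection (V - V1) := by
    apply diff_proj pV1 hV
    intro v hv
    have h1 : V (V1 v) = V1 v := by
      have := congrArg (fun z : H →L[ℂ] H => z v) c1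
      exact this
    rwa [hv] at h1
  have d1 := ug2_n2a hτ (vn_sub (vn_one M) (vn_sub hVM hV1M)) hV'M hD.one_sub pV'
  have d2 := hτ.n2_nonneg (vn_mul (vn_sub (vn_one M) (vn_sub (vn_one M) (vn_sub hVM hV1M))) hV'M)
  rw [d1, sub_mul, one_mul, tr_sub, sub_mul, tr_sub] at d2
  have d3 : tr τ (V' * V1) = tr τ (V1 * V') := by
    unfold tr
    rw [hτ.trace _ hV'M _ hV1M]
  have d4 := ug2_n2b hτ hVM hV'M hV pV'
  rw [d4, tV', hVW]
  rw [tV1] at c6
  have d5 : tr τ P ≤ tr τ W + s ^ 2 := by linarith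
  have d6 : tr τ (W1) - lam ^ 2 * s ≤ tr τ (V * V') := by linarith
  have d7 : s ^ 2 ≤ s := by nlinarith
  nlinarith

end Pool.Agent.H98R2.RR
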