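import Pool.Agent.H98R2.RR.Kill

/-! # UG3: the gap inequality for the four unitaries, on the window. -/

set_option autoImplicit false
open Filter Topology
open scoped ComplexOrder InnerProductSpace

namespace Pool.Agent.H98R2.RR
open Pool.H711R2

namespace UG3x

/-! ### the algebra of `2 x 2` matrix units -/

section alg
variable {R : Type*} [Ring R] [StarRing R]

/-- `2 x 2` matrix units -/
structure M2 (a d x y : R) : Prop where
  xy : x * y = a
  yx : y * x = d
  xx : x * x = 0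
  yy : y * y = 0
  aa : a * a = a
  dd : d * d = d
  ad : a * d = 0
  da : d * a = 0
  ax : a * x = x
  xd : x * d = x
  dy : d * y = y
  ya : y * a = y
  sum : a + d = 1
  sx : star x = y
  sy : star y = x
  sa : star a = a
  sd : star d = d

variable {a d x y b : R}

theorem U_sq (h : M2 a d x y) (hx : b * x = x * b) (hy : b * y = y * b) :
    (x * b + y) * (x * b + y) = b := by
  have e1 : x * b * (x * b) = 0 := by
    rw [mul_assoc, ← mul_assoc b x b, hx, mul_assoc, ← mul_assoc x x, h.xx, zero_mul]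
  have e2 : x * b * y = a * b := by rw [mul_assoc, hy, ← mul_assoc, h.xy]
  have e3 : y * (x * b) = d * b := by rw [← mul_assoc, h.yx]
  rw [add_mul, mul_add, mul_add, e1, e2, e3, h.yy, zero_add, add_zero, ← add_mul, h.sum, one_mul]

theorem U_sq' (h : M2 a d x y) (hx : b * x = x * b) (hy : b * y = y * b) :
    (x + y * b) * (x + y * b) = b := by
  have e1 : y * b * (y * b) = 0 := by
    rw [mul_assoc, ← mul_assoc b y b, hy, mul_assoc, ← mul_assoc y y, h.yy, zero_mul]
  have e2 : x * (y * b) = a * b := by rw [← mul_assoc, h.xy]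
  have e3 : y * b * x = d * b := by rw [mul_assoc, hx, ← mul_assoc, h.yx]
  rw [add_mul, mul_add, mul_add, e1, e2, e3, h.xx, zero_add, add_zero, ← add_mul, h.sum, one_mul]

/-- `b` is a unitary which commutes with the matrix units -/
structure CB (a d x y b : R) : Prop where
  u1 : star b * b = 1
  u2 : b * star b = 1
  ba : b * a = a * b
  bd : b * d = d * b
  bx : b * x = x * b
  bY : b * y = y * b

theorem CB.sbx (h : M2 a d x y) (c : CB a d x y b) : star b * x = x * star b := by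
  have := congrArg star c.bY
  rw [star_mul, star_mul, h.sy] at this
  exact this.symm

theorem CB.sby (h : M2 a d x y) (c : CB a d x y b) : star b * y = y * star b := by
  have := congrArg star c.bx
  rw [star_mul, star_mul, h.sx] at this
  exact this.symm

theorem CB.sba (h : M2 a d x y) (c : CB a d x y b) : star b * a = a * star b := by
  have := congrArg star c.ba
  rw [star_mul, star_mul, h.sa] at this
  exact this.symm

theorem CB.sbd (h : M2 a d x y) (c : CB a d x y b) : star b * d = d * star b := by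
  have := congrArg star c.bd
  rw [star_mul, star_mul, h.sd] at this
  exact this.symm

theorem uni1 (h : M2 a d x y) : star (x + y) * (x + y) = 1 ∧ (x + y) * star (x + y) = 1 ∧
    (x + y) * (x + y) = 1 := by
  have e : star (x + y) = x + y := by rw [star_add, h.sx, h.sy, add_comm]
  have e2 : (x + y) * (x + y) = 1 := by
    rw [add_mul, mul_add, mul_add, h.xx, h.xy, h.yx, h.yy, zero_add, add_zero, h.sum]
  rw [e]
  exact ⟨e2, e2, e2⟩

theorem uni2 (h : M2 a d x y) (c : CB a d x y b) :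
    star (x * b + y) * (x * b + y) = 1 ∧ (x * b + y) * star (x * b + y) = 1 := by
  have e : star (x * b + y) = star b * y + x := by rw [star_add, star_mul, h.sx, h.sy]
  rw [e]
  constructor
  · have e1 : star b * y * (x * b) = d := by
      rw [mul_assoc, ← mul_assoc y, h.yx, ← c.bd, ← mul_assoc, c.u1, one_mul]
    have e2 : star b * y * y = 0 := by rw [mul_assoc, h.yy, mul_zero]
    have e3 : x * (x * b) = 0 := by rw [← mul_assoc, h.xx, zero_mul]
    rw [add_mul, mul_add, mul_add, e1, e2, e3, h.xy, add_zero, zero_add, add_comm, h.sum]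
  · have e1 : x * b * (star b * y) = a := by
      rw [mul_assoc, ← mul_assoc b, c.u2, one_mul, h.xy]
    have e2 : x * b * x = 0 := by rw [mul_assoc, c.bx, ← mul_assoc, h.xx, zero_mul]
    have e3 : y * (star b * y) = 0 := by rw [c.sby h, ← mul_assoc, h.yy, zero_mul]
    rw [add_mul, mul_add, mul_add, e1, e2, e3, h.yx, add_zero, zero_add, h.sum]

theorem uni3 (h : M2 a d x y) (c : CB a d x y b) :
    star (x + y * b) * (x + y * b) = 1 ∧ (x + y * b) * star (x + y * b) = 1 := by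
  have e : star (x + y * b) = y + star b * x := by rw [star_add, star_mul, h.sx, h.sy]
  rw [e]
  constructor
  · have e1 : star b * x * (y * b) = a := by
      rw [mul_assoc, ← mul_assoc x, h.xy, ← c.ba, ← mul_assoc, c.u1, one_mul]
    have e2 : star b * x * x = 0 := by rw [mul_assoc, h.xx, mul_zero]
    have e3 : y * (y * b) = 0 := by rw [← mul_assoc, h.yy, zero_mul]
    rw [add_mul, mul_add, mul_add, e1, e2, e3, h.yx, add_zero, zero_add, add_comm, h.sum]
  · have e1 : y * b * (star b * x) = d := by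
      rw [mul_assoc, ← mul_assoc b, c.u2, one_mul, h.yx]
    have e2 : y * b * y = 0 := by rw [mul_assoc, c.bY, ← mul_assoc, h.yy, zero_mul]
    have e3 : x * (star b * x) = 0 := by rw [c.sbx h, ← mul_assoc, h.xx, zero_mul]
    rw [add_mul, mul_add, mul_add, e1, e2, e3, h.xy, add_zero, zero_add, h.sum]

theorem Xeq (h : M2 a d x y) : (x + y) * (x * b + y) = a + d * b := by
  have e1 : x * (x * b) = 0 := by rw [← mul_assoc, h.xx, zero_mul]
  have e2 : y * (x * b) = d * b := by rw [← mul_assoc, h.yx]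
  rw [add_mul, mul_add, mul_add, e1, e2, h.xy, h.yy, zero_add, add_zero]

theorem uni4 (h : M2 a d x y) (c : CB a d x y b) :
    star (a + d * b) * (a + d * b) = 1 ∧ (a + d * b) * star (a + d * b) = 1 := by
  obtain ⟨p1, p2, -⟩ := uni1 h
  obtain ⟨q1, q2⟩ := uni2 h c
  rw [← Xeq h, star_mul]
  constructor
  · rw [mul_assoc, ← mul_assoc (star (x + y)), p1, one_mul, q1]
  · rw [mul_assoc, ← mul_assoc (x * b + y), q2, one_mul, p2]

theorem corner1 (h : M2 a d x y) (c : CB a d x y b) (E : R) :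
    a * (E * (a + d * b) - (a + d * b) * E) * d = (a * E * d) * (b - 1) := by
  have e1 : (a + d * b) * d = d * b := by
    rw [add_mul, h.ad, mul_assoc, c.bd, ← mul_assoc, h.dd, zero_add]
  have e2 : a * (a + d * b) = a := by
    rw [mul_add, h.aa, ← mul_assoc, h.ad, zero_mul, add_zero]
  calc a * (E * (a + d * b) - (a + d * b) * E) * d
      = a * E * ((a + d * b) * d) - (a * (a + d * b)) * E * d := by noncomm_ring
    _ = (a * E * d) * (b - 1) := by rw [e1, e2]; noncomm_ring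

theorem corner2 (h : M2 a d x y) (c : CB a d x y b) (E : R) :
    d * (E * (a + d * b) - (a + d * b) * E) * a = (1 - b) * (d * E * a) := by
  have e1 : (a + d * b) * a = a := by
    rw [add_mul, h.aa, mul_assoc, c.ba, ← mul_assoc, h.da, zero_mul, add_zero]
  have e2 : d * (a + d * b) = b * d := by
    rw [mul_add, h.da, ← mul_assoc, h.dd, zero_add, c.bd]
  calc d * (E * (a + d * b) - (a + d * b) * E) * a
      = d * E * ((a + d * b) * a) - (d * (a + d * b)) * E * a := by noncomm_ring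
    _ = (1 - b) * (d * E * a) := by rw [e1, e2]; noncomm_ring

theorem split4 (h : M2 a d x y) (E : R) :
    E - (a * E * a + d * E * d) = a * E * d + d * E * a := by
  have e : E = (a + d) * E * (a + d) := by rw [h.sum, one_mul, mul_one]
  calc E - (a * E * a + d * E * d)
      = (a + d) * E * (a + d) - (a * E * a + d * E * d) := by rw [← e]
    _ = a * E * d + d * E * a := by noncomm_ring

theorem swapG (h : M2 a d x y) {G0 G1 : R} (g0x : G0 * x = x * G0) (g0y : G0 * y = y * G0)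
    (g1x : G1 * x = x * G1) (g1y : G1 * y = y * G1) :
    (G0 * a + G1 * d) + (x + y) * (G0 * a + G1 * d) * (x + y) = G0 + G1 := by
  have hxa : x * a = 0 := by rw [← h.xy, ← mul_assoc, h.xx, zero_mul]
  have hyd : y * d = 0 := by rw [← h.yx, ← mul_assoc, h.yy, zero_mul]
  have u0 : (x + y) * G0 = G0 * (x + y) := by rw [add_mul, mul_add, g0x, g0y]
  have u1 : (x + y) * G1 = G1 * (x + y) := by rw [add_mul, mul_add, g1x, g1y]
  have e1 : (x + y) * a * (x + y) = d := by
    rw [add_mul, hxa, h.ya, zero_add, mul_add, h.yx, h.yy, add_zero]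
  have e2 : (x + y) * d * (x + y) = a := by
    rw [add_mul, h.xd, hyd, add_zero, mul_add, h.xx, h.xy, zero_add]
  calc (G0 * a + G1 * d) + (x + y) * (G0 * a + G1 * d) * (x + y)
      = (G0 * a + G1 * d) + (((x + y) * G0) * a * (x + y) + ((x + y) * G1) * d * (x + y)) := by
        noncomm_ring
    _ = (G0 * a + G1 * d) + (G0 * ((x + y) * a * (x + y)) + G1 * ((x + y) * d * (x + y))) := by
        rw [u0, u1]; noncomm_ring
    _ = (G0 + G1) * (a + d) := by rw [e1, e2]; noncomm_ring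
    _ = G0 + G1 := by rw [h.sum, mul_one]

end alg

/-! ### the 2-norm -/

section norm
variable {H : Type} [NormedAddCommGroup H] [InnerProductSpace ℂ H] [CompleteSpace H]
variable {M : VonNeumannAlgebra H} {τ : (H →L[ℂ] H) →ₗ[ℂ] ℂ}

theorem n2_neg (x : H →L[ℂ] H) : n2 τ (-x) = n2 τ x := by
  unfold n2
  rw [star_neg, neg_mul_neg]

theorem n2_sub (hτ : IsNormalTrace M τ) {x y : H →L[ℂ] H} (hx : x ∈ M) (hy : y ∈ M) :
    n2 τ (x - y) ≤ 2 * n2 τ x + 2 * n2 τ y := by
  have hy' : -y ∈ M := neg_mem hy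
  have h := hτ.n2_add hx hy'
  rw [n2_neg, ← sub_eq_add_neg] at h
  exact h

theorem n2_ul {u x : H →L[ℂ] H} (hu : star u * u = 1) : n2 τ (u * x) = n2 τ x := by
  unfold n2
  have : star (u * x) * (u * x) = star x * x := by
    rw [star_mul, mul_assoc, ← mul_assoc (star u), hu, one_mul]
  rw [this]

theorem n2_ur (hτ : IsNormalTrace M τ) {u x : H →L[ℂ] H} (huM : u ∈ M) (hx : x ∈ M)
    (hu : u * star u = 1) : n2 τ (x * u) = n2 τ x := by
  rw [← hτ.n2_star (vn_mul hx huM), star_mul, n2_ul (by rw [star_star]; exact hu),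
    hτ.n2_star hx]

theorem n2_pl (hτ : IsNormalTrace M τ) {p x : H →L[ℂ] H} (hpM : p ∈ M) (hx : x ∈ M)
    (hp : ‖p‖ ≤ 1) : n2 τ (p * x) ≤ n2 τ x := by
  have h := hτ.n2_mul_left hpM hx
  have h1 : ‖p‖ ^ 2 ≤ 1 := by nlinarith [norm_nonneg p]
  have h2 := hτ.n2_nonneg hx
  nlinarith

theorem n2_pr (hτ : IsNormalTrace M τ) {p x : H →L[ℂ] H} (hpM : p ∈ M) (hx : x ∈ M)
    (hp : ‖p‖ ≤ 1) : n2 τ (x * p) ≤ n2 τ x := by
  have h := hτ.n2_mul_right hpM hx
  have h1 : ‖p‖ ^ 2 ≤ 1 := by nlinarith [norm_nonneg p]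
  have h2 := hτ.n2_nonneg hx
  nlinarith

theorem n2_half (x : H →L[ℂ] H) : n2 τ ((1 / 2 : ℂ) • x) = (1 / 4) * n2 τ x := by
  unfold n2
  have : star ((1 / 2 : ℂ) • x) * ((1 / 2 : ℂ) • x) = (((1 / 4 : ℝ)) : ℂ) • (star x * x) := by
    rw [star_smul, smul_mul_smul_comm]
    congr 1
    simp
    norm_num
  rw [this, tr_smul]

/-- commutator -/
theorem com_mul (hτ : IsNormalTrace M τ) {V X Y : H →L[ℂ] H} (hV : V ∈ M) (hX : X ∈ M)
    (hY : Y ∈ M) (hX1 : star X * X = 1) (hY2 : Y * star Y = 1) :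
    n2 τ (V * (X * Y) - X * Y * V) ≤
      2 * n2 τ (V * X - X * V) + 2 * n2 τ (V * Y - Y * V) := by
  have e : V * (X * Y) - X * Y * V = (V * X - X * V) * Y + X * (V * Y - Y * V) := by noncomm_ring
  rw [e]
  have m1 : V * X - X * V ∈ M := vn_sub (vn_mul hV hX) (vn_mul hX hV)
  have m2 : V * Y - Y * V ∈ M := vn_sub (vn_mul hV hY) (vn_mul hY hV)
  have h := hτ.n2_add (vn_mul m1 hY) (vn_mul hX m2)
  rw [n2_ur hτ hY m1 hY2, n2_ul hX1] at h
  exact h

theorem com_sq (hτ : IsNormalTrace M τ) {V U b : H →L[ℂ] H} (hV : V ∈ M) (hU : U ∈ M)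
    (u1 : star U * U = 1) (u2 : U * star U = 1) (hsq : U * U = b) {c : ℝ}
    (hc : n2 τ (V * U - U * V) ≤ c) : n2 τ (V * b - b * V) ≤ 4 * c := by
  subst hsq
  have := com_mul hτ hV hU hU u1 u2
  linarith

theorem com_le (hτ : IsNormalTrace M τ) {z X : H →L[ℂ] H} (hz : z ∈ M) (hX : X ∈ M)
    (hX1 : star X * X = 1) (hX2 : X * star X = 1) :
    n2 τ (z * X - X * z) ≤ 4 * n2 τ z := by
  have h := n2_sub hτ (vn_mul hz hX) (vn_mul hX hz)
  rw [n2_ur hτ hX hz hX2, n2_ul hX1] at h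
  linarith

/-- commutator of a nearby element -/
theorem com_near (hτ : IsNormalTrace M τ) {V E X : H →L[ℂ] H} (hV : V ∈ M) (hE : E ∈ M)
    (hX : X ∈ M) (hX1 : star X * X = 1) (hX2 : X * star X = 1) :
    n2 τ (E * X - X * E) ≤ 2 * n2 τ (V * X - X * V) + 8 * n2 τ (V - E) := by
  have e : E * X - X * E = (V * X - X * V) - ((V - E) * X - X * (V - E)) := by noncomm_ring
  have m0 : V - E ∈ M := vn_sub hV hE
  rw [e]
  have h := n2_sub hτ (vn_sub (vn_mul hV hX) (vn_mul hX hV))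
    (vn_sub (vn_mul m0 hX) (vn_mul hX m0))
  have h2 := com_le hτ m0 hX hX1 hX2
  linarith

theorem tr_star (hτ : IsNormalTrace M τ) {z : H →L[ℂ] H} (hz : z ∈ M) :
    tr τ (star z) = tr τ z := by
  have p2 := hτ.pos (1 + Complex.I • z) (vn_add (vn_one M) (vn_smul _ hz))
  have p3 := hτ.pos z hz
  have e2 : star (1 + Complex.I • z) * (1 + Complex.I • z)
      = 1 + Complex.I • z - Complex.I • star z + star z * z := by
    rw [star_add, star_one, star_smul]
    have : star Complex.I = -Complex.I := by simp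
    rw [this, neg_smul, add_mul, mul_add, mul_add, one_mul, one_mul, mul_one, neg_mul,
      smul_mul_smul_comm, Complex.I_mul_I, neg_smul, one_smul, neg_neg]
    abel
  rw [e2, map_add, map_sub, map_add, hτ.one, map_smul, map_smul, smul_eq_mul, smul_eq_mul] at p2
  rw [Complex.le_def] at p2 p3
  have i2 := p2.2
  have i3 := p3.2
  simp at i2 i3
  unfold tr
  linarith

theorem n2_b1 (hτ : IsNormalTrace M τ) {z b : H →L[ℂ] H} (hz : z ∈ M) (hb : b ∈ M)
    (hu : b * star b = 1) (t1 : tr τ (b * (star z * z)) = 0) :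
    n2 τ (z * (b - 1)) = 2 * n2 τ z := by
  have hw : star z * z ∈ M := vn_mul (vn_star hz) hz
  have hbs : star b ∈ M := vn_star hb
  have t2 : tr τ ((star z * z) * star b) = 0 := by
    have : star (b * (star z * z)) = (star z * z) * star b := by
      rw [star_mul, star_mul, star_star]
    rw [← this, tr_star hτ (vn_mul hb hw), t1]
  have t3 : tr τ ((star z * z) * b) = 0 := by
    rw [← t1]; unfold tr; rw [hτ.trace _ hw _ hb]
  have hbm : b - 1 ∈ M := vn_sub hb (vn_one M)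
  have e1 : n2 τ (z * (b - 1)) = tr τ ((star z * z) * ((b - 1) * star (b - 1))) := by
    unfold n2
    have : star (z * (b - 1)) * (z * (b - 1)) = star (b - 1) * ((star z * z) * (b - 1)) := by
      rw [star_mul]; noncomm_ring
    rw [this]
    unfold tr
    rw [hτ.trace _ (vn_star hbm) _ (vn_mul hw hbm), mul_assoc]
  have e2 : (b - 1) * star (b - 1) = (2 : ℕ) • (1 : H →L[ℂ] H) - b - star b := by
    rw [star_sub, star_one, sub_mul, mul_sub, mul_sub, hu]
    simp only [mul_one, one_mul, two_nsmul]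
    abel
  have e3 : (star z * z) * ((2 : ℕ) • (1 : H →L[ℂ] H)) = star z * z + star z * z := by
    rw [two_nsmul, mul_add, mul_one]
  rw [e1, e2, mul_sub, mul_sub, tr_sub, tr_sub, t2, t3, e3, tr_add]
  unfold n2
  ring

theorem n2_b2 (hτ : IsNormalTrace M τ) {z b : H →L[ℂ] H} (hz : z ∈ M) (hb : b ∈ M)
    (hu : star b * b = 1) (t1 : tr τ (b * (z * star z)) = 0) :
    n2 τ ((1 - b) * z) = 2 * n2 τ z := by
  have hw : z * star z ∈ M := vn_mul hz (vn_star hz)
  have t2 : tr τ (star b * (star (star z) * star z)) = 0 := by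
    have e : star b * (star (star z) * star z) = star ((z * star z) * b) := by
      rw [star_mul, star_mul, star_star]
    rw [e, tr_star hτ (vn_mul hw hb)]
    rw [← t1]; unfold tr; rw [hτ.trace _ hw _ hb]
  have h := n2_b1 hτ (vn_star hz) (vn_star hb) (by rw [star_star]; exact hu) t2
  have e2 : star ((1 - b) * z) = -(star z * (star b - 1)) := by
    rw [star_mul, star_sub, star_one]; noncomm_ring
  rw [← hτ.n2_star (vn_mul (vn_sub (vn_one M) hb) hz), e2, n2_neg, h, hτ.n2_star hz]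

theorem core (hτ : IsNormalTrace M τ) {a d x y b V E G0 G1 : H →L[ℂ] H} (h : M2 a d x y)
    (cb : CB a d x y b) (ha : a ∈ M) (hd : d ∈ M) (hx : x ∈ M) (hy : y ∈ M) (hb : b ∈ M)
    (hV : V ∈ M) (hE : E ∈ M) (hG0 : G0 ∈ M) (hG1 : G1 ∈ M) (na : ‖a‖ ≤ 1) (nd : ‖d‖ ≤ 1)
    {c g : ℝ} (hV1 : n2 τ (V * (x + y) - (x + y) * V) ≤ c)
    (hV2 : n2 τ (V * (x * b + y) - (x * b + y) * V) ≤ c) (hVE : n2 τ (V - E) ≤ g)
    (g0x : G0 * x = x * G0) (g0y : G0 * y = y * G0) (g1x : G1 * x = x * G1)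
    (g1y : G1 * y = y * G1) (e0 : a * E * a = G0 * a) (e1 : d * E * d = G1 * d)
    (z1 : tr τ (b * (star (a * E * d) * (a * E * d))) = 0)
    (z2 : tr τ (b * ((d * E * a) * star (d * E * a))) = 0) :
    n2 τ (V - (1 / 2 : ℂ) • (G0 + G1)) ≤ 193 * c + 204 * g := by
  obtain ⟨p1, p2, p3⟩ := uni1 h
  obtain ⟨q1, q2⟩ := uni2 h cb
  obtain ⟨r1, r2⟩ := uni4 h cb
  have hU : x + y ∈ M := vn_add hx hy
  have hUb : x * b + y ∈ M := vn_add (vn_mul hx hb) hy
  have hX : a + d * b ∈ M := vn_add ha (vn_mul hd hb)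
  have s1 : n2 τ (V * (a + d * b) - (a + d * b) * V) ≤ 4 * c := by
    have := com_mul hτ hV hU hUb p1 q2
    rw [Xeq h] at this
    linarith
  have s2 : n2 τ (E * (a + d * b) - (a + d * b) * E) ≤ 8 * c + 8 * g := by
    have := com_near hτ hV hE hX r1 r2
    linarith
  set K := E * (a + d * b) - (a + d * b) * E with hK
  have hKM : K ∈ M := vn_sub (vn_mul hE hX) (vn_mul hX hE)
  have m1 : a * E * d ∈ M := vn_mul (vn_mul ha hE) hd
  have m2 : d * E * a ∈ M := vn_mul (vn_mul hd hE) ha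
  have s3 : 2 * n2 τ (a * E * d) ≤ n2 τ K := by
    have e := corner1 h cb E
    rw [← n2_b1 hτ m1 hb cb.u2 z1, ← e]
    exact (n2_pr hτ hd (vn_mul ha hKM) nd).trans (n2_pl hτ ha hKM na)
  have s4 : 2 * n2 τ (d * E * a) ≤ n2 τ K := by
    have e := corner2 h cb E
    rw [← n2_b2 hτ m2 hb cb.u1 z2, ← e]
    exact (n2_pr hτ ha (vn_mul hd hKM) na).trans (n2_pl hτ hd hKM nd)
  set E1 := a * E * a + d * E * d with hE1
  have hE1M : E1 ∈ M := vn_add (vn_mul (vn_mul ha hE) ha) (vn_mul (vn_mul hd hE) hd)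
  have s5 : n2 τ (E - E1) ≤ 16 * c + 16 * g := by
    rw [hE1, split4 h E]
    have := hτ.n2_add m1 m2
    linarith
  have s6 : n2 τ (V - E1) ≤ 32 * c + 34 * g := by
    have e : V - E1 = (V - E) + (E - E1) := by abel
    rw [e]
    have := hτ.n2_add (vn_sub hV hE) (vn_sub hE hE1M)
    linarith
  have s7 : n2 τ (E1 * (x + y) - (x + y) * E1) ≤ 2 * c + 8 * n2 τ (V - E1) := by
    have := com_near hτ hV hE1M hU p1 p2
    linarith
  have hEG : E1 = G0 * a + G1 * d := by rw [hE1, e0, e1]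
  have e3 : E1 + (x + y) * E1 * (x + y) = G0 + G1 := by
    rw [hEG]
    exact swapG h g0x g0y g1x g1y
  have e4 : E1 - (1 / 2 : ℂ) • (G0 + G1) =
      (1 / 2 : ℂ) • ((E1 * (x + y) - (x + y) * E1) * (x + y)) := by
    have e5 : (E1 * (x + y) - (x + y) * E1) * (x + y) = E1 - (x + y) * E1 * (x + y) := by
      rw [sub_mul, mul_assoc E1, p3, mul_one]
    rw [e5, ← e3]
    have : E1 = (1 / 2 : ℂ) • (E1 + E1) := by
      rw [← two_smul ℂ E1, smul_smul]; norm_num
    conv_lhs => rw [show E1 - (1 / 2 : ℂ) • (E1 + (x + y) * E1 * (x + y)) =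
      (1 / 2 : ℂ) • (E1 + E1) - (1 / 2 : ℂ) • (E1 + (x + y) * E1 * (x + y)) by rw [← this]]
    rw [← smul_sub]
    congr 1
    abel
  have hCM : E1 * (x + y) - (x + y) * E1 ∈ M := vn_sub (vn_mul hE1M hU) (vn_mul hU hE1M)
  have s8 : n2 τ (E1 - (1 / 2 : ℂ) • (G0 + G1)) ≤ (1 / 4) * (2 * c + 8 * n2 τ (V - E1)) := by
    rw [e4, n2_half, n2_ur hτ hU hCM p2]
    linarith
  have e6 : V - (1 / 2 : ℂ) • (G0 + G1) = (V - E1) + (E1 - (1 / 2 : ℂ) • (G0 + G1)) := by abel
  rw [e6]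
  have := hτ.n2_add (vn_sub hV hE1M) (vn_sub hE1M (vn_smul (1 / 2 : ℂ) (vn_add hG0 hG1)))
  linarith

end norm

/-! ### the path order -/

set_option maxRecDepth 100000 in
theorem pth_surj : ∀ p < 64, ∃ t < 32, ∃ c < 2, pth t c = p := by decide

theorem pth_lt {t c : ℕ} (ht : t < 32) (hc : c < 2) : pth t c < 64 := by
  unfold pth
  split_ifs <;> omega

theorem pth_inj {t c t' c' : ℕ} (ht : t < 32) (hc : c < 2) (ht' : t' < 32) (hc' : c' < 2)
    (h : pth t c = pth t' c') : t = t' ∧ c = c' := by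
  unfold pth at h
  split_ifs at h <;> omega

section spans
variable {H : Type} [NormedAddCommGroup H] [InnerProductSpace ℂ H] [CompleteSpace H]
variable {M : VonNeumannAlgebra H} {τ : (H →L[ℂ] H) →ₗ[ℂ] ℂ}

/-- the span of the `e (k+1) i j * d s` -/
def AA (T : Tower M τ) (k L : ℕ) : Submodule ℂ (H →L[ℂ] H) :=
  Submodule.span ℂ {x | ∃ i < 64 ^ (k + 1), ∃ j < 64 ^ (k + 1), ∃ s < 64 ^ (L - k - 1),
    x = T.e (k + 1) i j * T.d k L s}

/-- the span of the `e k i j * phi t t' * d s` -/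
def GG (T : Tower M τ) (k L : ℕ) : Submodule ℂ (H →L[ℂ] H) :=
  Submodule.span ℂ {x | ∃ i < 64 ^ k, ∃ j < 64 ^ k, ∃ t < 32, ∃ t' < 32,
    ∃ s < 64 ^ (L - k - 1), x = T.e k i j * T.phi k t t' * T.d k L s}

/-- the span of the `E2 i j * d s` -/
def CC (T : Tower M τ) (k L : ℕ) : Submodule ℂ (H →L[ℂ] H) :=
  Submodule.span ℂ {x | ∃ i < 2 * 64 ^ k, ∃ j < 2 * 64 ^ k, ∃ s < 64 ^ (L - k - 1),
    x = T.E2 k i j * T.d k L s}

variable {T : Tower M τ} {k L : ℕ}

theorem AA_M (hL : k + 1 ≤ L) {x : H →L[ℂ] H} (hx : x ∈ AA T k L) : x ∈ M := by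
  induction hx using Submodule.span_induction with
  | mem x hx =>
    obtain ⟨i, hi, j, hj, s, hs, rfl⟩ := hx
    exact vn_mul (T.B_sub _ _ (T.e_mem _ i hi j hj)) (T.B_sub _ _ (T.d_mem k L hL s hs))
  | zero => exact zero_mem M
  | add x y _ _ h1 h2 => exact vn_add h1 h2
  | smul a x _ h1 => exact vn_smul a h1

theorem AA_b (hL : k + 1 ≤ L) {x : H →L[ℂ] H} (hx : x ∈ AA T k L) : T.b k * x = x * T.b k := by
  induction hx using Submodule.span_induction with
  | mem x hx =>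
    obtain ⟨i, hi, j, hj, s, hs, rfl⟩ := hx
    have h1 := (T.b_comm k i hi j hj).1
    have h2 := T.d_comm k L hL (T.b k) (T.b_mem k).1 s hs
    rw [← mul_assoc, h1, mul_assoc, mul_assoc, h2]
  | zero => rw [mul_zero, zero_mul]
  | add x y _ _ h1 h2 => rw [mul_add, add_mul, h1, h2]
  | smul a x _ h1 => rw [mul_smul_comm, smul_mul_assoc, h1]

theorem AA_tb (hL : k + 1 ≤ L) {x : H →L[ℂ] H} (hx : x ∈ AA T k L) : τ (T.b k * x) = 0 := by
  induction hx using Submodule.span_induction with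
  | mem x hx =>
    obtain ⟨i, hi, j, hj, s, hs, rfl⟩ := hx
    rw [← mul_assoc, T.d_indep k L hL _ (vn_mul (T.b_mem k).1 (T.e_mem _ i hi j hj)) s hs,
      (T.b_zero k i hi j hj).1, zero_div]
  | zero => rw [mul_zero, map_zero]
  | add x y _ _ h1 h2 => rw [mul_add, map_add, h1, h2, add_zero]
  | smul a x _ h1 => rw [mul_smul_comm, map_smul, h1, smul_zero]

theorem AA_mul (hL : k + 1 ≤ L) {x y : H →L[ℂ] H} (hx : x ∈ AA T k L) (hy : y ∈ AA T k L) :
    x * y ∈ AA T k L := by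
  induction hx using Submodule.span_induction with
  | mem x hx =>
    obtain ⟨i, hi, j, hj, s, hs, rfl⟩ := hx
    induction hy using Submodule.span_induction with
    | mem y hy =>
      obtain ⟨i', hi', j', hj', s', hs', rfl⟩ := hy
      have h1 := T.d_comm k L hL _ (T.e_mem _ i' hi' j' hj') s hs
      have h2 := (T.d_proj k L hL s hs s' hs').2
      have h3 := (T.eMU (k + 1)).mul i hi j hj i' hi' j' hj'
      have e : T.e (k + 1) i j * T.d k L s * (T.e (k + 1) i' j' * T.d k L s') =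
          (T.e (k + 1) i j * T.e (k + 1) i' j') * (T.d k L s * T.d k L s') := by
        rw [mul_assoc, ← mul_assoc (T.d k L s), h1]
        simp only [mul_assoc]
      rw [e, h2, h3]
      by_cases hji : j = i'
      · by_cases hss : s = s'
        · rw [if_pos hji, if_pos hss]
          exact Submodule.subset_span ⟨i, hi, j', hj', s, hs, rfl⟩
        · rw [if_neg hss, mul_zero]; exact zero_mem _
      · rw [if_neg hji, zero_mul]; exact zero_mem _
    | zero => rw [mul_zero]; exact zero_mem _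
    | add x y _ _ h1 h2 => rw [mul_add]; exact add_mem h1 h2
    | smul a x _ h1 => rw [mul_smul_comm]; exact Submodule.smul_mem _ _ h1
  | zero => rw [zero_mul]; exact zero_mem _
  | add x y _ _ h1 h2 => rw [add_mul]; exact add_mem h1 h2
  | smul a x _ h1 => rw [smul_mul_assoc]; exact Submodule.smul_mem _ _ h1

theorem AA_star (hL : k + 1 ≤ L) {x : H →L[ℂ] H} (hx : x ∈ AA T k L) : star x ∈ AA T k L := by
  induction hx using Submodule.span_induction with
  | mem x hx =>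
    obtain ⟨i, hi, j, hj, s, hs, rfl⟩ := hx
    rw [star_mul, (T.d_proj k L hL s hs s hs).1, (T.eMU (k + 1)).star i hi j hj,
      T.d_comm k L hL _ (T.e_mem _ j hj i hi) s hs]
    exact Submodule.subset_span ⟨j, hj, i, hi, s, hs, rfl⟩
  | zero => rw [star_zero]; exact zero_mem _
  | add x y _ _ h1 h2 => rw [star_add]; exact add_mem h1 h2
  | smul a x _ h1 => rw [star_smul]; exact Submodule.smul_mem _ _ h1

theorem e_AA (hL : k + 1 ≤ L) {i j : ℕ} (hi : i < 64 ^ (k + 1)) (hj : j < 64 ^ (k + 1)) :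
    T.e (k + 1) i j ∈ AA T k L := by
  rw [← mul_one (T.e (k + 1) i j), ← T.d_sum k L hL, Finset.mul_sum]
  exact Submodule.sum_mem _ fun s hs =>
    Submodule.subset_span ⟨i, hi, j, hj, s, Finset.mem_range.1 hs, rfl⟩

theorem idx_lt {p i : ℕ} (hp : p < 64) (hi : i < 64 ^ k) : p * 64 ^ k + i < 64 ^ (k + 1) := by
  have h1 : (p + 1) * 64 ^ k ≤ 64 * 64 ^ k := Nat.mul_le_mul_right _ hp
  have h2 : 64 ^ (k + 1) = 64 * 64 ^ k := by rw [pow_succ]; ring
  rw [h2]
  have h3 : (p + 1) * 64 ^ k = p * 64 ^ k + 64 ^ k := by ring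
  omega

theorem f_AA (hL : k + 1 ≤ L) {p q : ℕ} (hp : p < 64) (hq : q < 64) :
    T.f k p q ∈ AA T k L := by
  rw [← one_mul (T.f k p q), ← (T.eMU k).sum, Finset.sum_mul]
  refine Submodule.sum_mem _ fun i hi => ?_
  have hi' := Finset.mem_range.1 hi
  rw [← (T.ef k i hi' i hi' p hp q hq).2]
  exact e_AA hL (idx_lt hp hi') (idx_lt hq hi')

theorem mm_AA (hL : k + 1 ≤ L) {c c' : ℕ} (hc : c < 2) (hc' : c' < 2) :
    T.mm k c c' ∈ AA T k L :=
  Submodule.sum_mem _ fun t ht => f_AA hL (pth_lt (Finset.mem_range.1 ht) hc)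
    (pth_lt (Finset.mem_range.1 ht) hc')

theorem phi_mm {t t' c c' : ℕ} (ht : t < 32) (ht' : t' < 32) (hc : c < 2) (hc' : c' < 2) :
    T.phi k t t' * T.mm k c c' = T.f k (pth t c) (pth t' c') := by
  unfold Tower.phi Tower.mm
  rw [Finset.sum_mul_sum]
  rw [Finset.sum_eq_single c, Finset.sum_eq_single t']
  · rw [(T.fMU k).mul _ (pth_lt ht hc) _ (pth_lt ht' hc) _ (pth_lt ht' hc) _ (pth_lt ht' hc'),
      if_pos rfl]
  · intro t1 h1 h2
    have h1' := Finset.mem_range.1 h1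
    rw [(T.fMU k).mul _ (pth_lt ht hc) _ (pth_lt ht' hc) _ (pth_lt h1' hc) _ (pth_lt h1' hc'),
      if_neg]
    intro h3
    exact h2 (pth_inj ht' hc h1' hc h3).1.symm
  · intro h; exact absurd (Finset.mem_range.2 ht') h
  · intro c1 h1 h2
    have h1' := Finset.mem_range.1 h1
    refine Finset.sum_eq_zero fun t1 h3 => ?_
    have h3' := Finset.mem_range.1 h3
    rw [(T.fMU k).mul _ (pth_lt ht h1') _ (pth_lt ht' h1') _ (pth_lt h3' hc) _ (pth_lt h3' hc'),
      if_neg]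
    intro h4
    exact h2 (pth_inj ht' h1' h3' hc h4).2
  · intro h; exact absurd (Finset.mem_range.2 hc) h

end spans

section spans2
variable {H : Type} [NormedAddCommGroup H] [InnerProductSpace ℂ H] [CompleteSpace H]
variable {M : VonNeumannAlgebra H} {τ : (H →L[ℂ] H) →ₗ[ℂ] ℂ}
variable {T : Tower M τ} {k L : ℕ}

theorem phi_mem (hb : St_BAS1) {t t' : ℕ} (ht : t < 32) (ht' : t' < 32) :
    T.phi k t t' ∈ T.B (k + 1) := ((hb H M τ T k).2.2.1 t ht t' ht').1

theorem mm_mem (hb : St_BAS1) {c c' : ℕ} (hc : c < 2) (hc' : c' < 2) :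
    T.mm k c c' ∈ T.B (k + 1) := (hb H M τ T k).2.2.2.1 c hc c' hc'

theorem GG_M (hb : St_BAS1) (hL : k + 1 ≤ L) {x : H →L[ℂ] H} (hx : x ∈ GG T k L) : x ∈ M := by
  induction hx using Submodule.span_induction with
  | mem x hx =>
    obtain ⟨i, hi, j, hj, t, ht, t', ht', s, hs, rfl⟩ := hx
    exact vn_mul (vn_mul (T.B_sub _ _ (T.e_mem _ i hi j hj)) (T.B_sub _ _ (phi_mem hb ht ht')))
      (T.B_sub _ _ (T.d_mem k L hL s hs))
  | zero => exact zero_mem M
  | add x y _ _ h1 h2 => exact vn_add h1 h2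
  | smul a x _ h1 => exact vn_smul a h1

theorem GG_mm (hb : St_BAS1) (hL : k + 1 ≤ L) {x : H →L[ℂ] H} (hx : x ∈ GG T k L) {c c' : ℕ}
    (hc : c < 2) (hc' : c' < 2) : x * T.mm k c c' = T.mm k c c' * x := by
  induction hx using Submodule.span_induction with
  | mem x hx =>
    obtain ⟨i, hi, j, hj, t, ht, t', ht', s, hs, rfl⟩ := hx
    have h1 := T.d_comm k L hL _ (mm_mem (T := T) (k := k) hb hc hc') s hs
    have h2 := ((hb H M τ T k).2.2.1 t ht t' ht').2 c hc c' hc'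
    have h3 := ((hb H M τ T k).2.2.2.2.1 i hi j hj).2 c hc c' hc'
    rw [mul_assoc, h1, ← mul_assoc, mul_assoc (T.e k i j), h2, ← mul_assoc, h3]
    simp only [mul_assoc]
  | zero => rw [mul_zero, zero_mul]
  | add x y _ _ h1 h2 => rw [mul_add, add_mul, h1, h2]
  | smul a x _ h1 => rw [mul_smul_comm, smul_mul_assoc, h1]

theorem AA_dec (hb : St_BAS1) (hL : k + 1 ≤ L) {r : ℕ} (hr : r < 2) {x : H →L[ℂ] H}
    (hx : x ∈ AA T k L) :
    ∃ G ∈ GG T k L, T.mm k r r * x * T.mm k r r = G * T.mm k r r := by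
  induction hx using Submodule.span_induction with
  | mem x hx =>
    obtain ⟨I, hI, J, hJ, s, hs, rfl⟩ := hx
    have hn : 0 < 64 ^ k := by positivity
    have h64 : 64 ^ (k + 1) = 64 * 64 ^ k := by rw [pow_succ]; ring
    have hp : I / 64 ^ k < 64 := by rw [Nat.div_lt_iff_lt_mul hn, ← h64]; exact hI
    have hq : J / 64 ^ k < 64 := by rw [Nat.div_lt_iff_lt_mul hn, ← h64]; exact hJ
    have hi : I % 64 ^ k < 64 ^ k := Nat.mod_lt _ hn
    have hj : J % 64 ^ k < 64 ^ k := Nat.mod_lt _ hn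
    obtain ⟨t, ht, c, hc, hpc⟩ := pth_surj _ hp
    obtain ⟨t', ht', c', hc', hqc⟩ := pth_surj _ hq
    have e1 := (T.ef k _ hi _ hj _ hp _ hq).2
    have eI : I / 64 ^ k * 64 ^ k + I % 64 ^ k = I := Nat.div_add_mod' I _
    have eJ : J / 64 ^ k * 64 ^ k + J % 64 ^ k = J := Nat.div_add_mod' J _
    rw [eI, eJ, ← hpc, ← hqc, ← phi_mm ht ht' hc hc'] at e1
    rw [e1]
    set ee := T.e k (I % 64 ^ k) (J % 64 ^ k) with hee
    set ph := T.phi k t t' with hph
    have h1 := T.d_comm k L hL _ (mm_mem (T := T) (k := k) hb hr hr) s hs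
    have h2 := ((hb H M τ T k).2.2.1 t ht t' ht').2 r hr r hr
    have h3 := ((hb H M τ T k).2.2.2.2.1 _ hi _ hj).2 r hr r hr
    have hmu := (hb H M τ T k).2.1
    rw [← hee] at h3
    rw [← hph] at h2
    have e2 : T.mm k r r * (ee * (ph * T.mm k c c') * T.d k L s) * T.mm k r r =
        ee * ph * (T.mm k r r * T.mm k c c' * T.mm k r r) * T.d k L s := by
      calc T.mm k r r * (ee * (ph * T.mm k c c') * T.d k L s) * T.mm k r r
          = (T.mm k r r * ee) * ph * T.mm k c c' * (T.d k L s * T.mm k r r) := by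
            simp only [mul_assoc]
        _ = ee * (T.mm k r r * ph) * T.mm k c c' * (T.mm k r r * T.d k L s) := by
            rw [← h3, h1]; simp only [mul_assoc]
        _ = ee * ph * (T.mm k r r * T.mm k c c' * T.mm k r r) * T.d k L s := by
            rw [← h2]; simp only [mul_assoc]
    rw [e2]
    rw [hmu.mul r hr r hr c hc c' hc']
    by_cases hrc : r = c
    · rw [if_pos hrc, hmu.mul r hr c' hc' r hr r hr]
      by_cases hrc' : c' = r
      · rw [if_pos hrc']
        refine ⟨ee * ph * T.d k L s, Submodule.subset_span ⟨_, hi, _, hj, t, ht, t', ht', s, hs,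
          rfl⟩, ?_⟩
        rw [mul_assoc (ee * ph), ← h1, mul_assoc (ee * ph)]
      · rw [if_neg hrc']
        exact ⟨0, zero_mem _, by rw [mul_zero, zero_mul, zero_mul]⟩
    · rw [if_neg hrc, zero_mul]
      exact ⟨0, zero_mem _, by rw [mul_zero, zero_mul, zero_mul]⟩
  | zero => exact ⟨0, zero_mem _, by rw [mul_zero, zero_mul]⟩
  | add x y _ _ h1 h2 =>
    obtain ⟨G, hG, e⟩ := h1
    obtain ⟨G', hG', e'⟩ := h2
    exact ⟨G + G', add_mem hG hG', by rw [mul_add, add_mul, e, e', add_mul]⟩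
  | smul a x _ h1 =>
    obtain ⟨G, hG, e⟩ := h1
    exact ⟨a • G, Submodule.smul_mem _ _ hG, by
      rw [mul_smul_comm, smul_mul_assoc, e, smul_mul_assoc]⟩

theorem q_phi (hb : St_BAS1) {t t' : ℕ} (ht : t < 32) (ht' : t' < 32) :
    T.q k * T.phi k t t' = if t < 2 then T.phi k t t' else 0 := by
  have hmu := (hb H M τ T k).1
  unfold Tower.q
  rw [add_mul, hmu.mul 0 (by norm_num) 0 (by norm_num) t ht t' ht',
    hmu.mul 1 (by norm_num) 1 (by norm_num) t ht t' ht']
  rcases Nat.lt_or_ge t 2 with h | h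
  · rw [if_pos h]
    interval_cases t
    · simp
    · simp
  · rw [if_neg (by omega), if_neg (by omega), if_neg (by omega), add_zero]

theorem phi_q (hb : St_BAS1) {t t' : ℕ} (ht : t < 32) (ht' : t' < 32) :
    T.phi k t t' * T.q k = if t' < 2 then T.phi k t t' else 0 := by
  have hmu := (hb H M τ T k).1
  unfold Tower.q
  rw [mul_add, hmu.mul t ht t' ht' 0 (by norm_num) 0 (by norm_num),
    hmu.mul t ht t' ht' 1 (by norm_num) 1 (by norm_num)]
  rcases Nat.lt_or_ge t' 2 with h | h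
  · rw [if_pos h]
    interval_cases t'
    · simp
    · simp
  · rw [if_neg (by omega), if_neg (by omega), if_neg (by omega), add_zero]

theorem GG_q (hb : St_BAS1) (hb2 : St_BAS2) (hL : k + 1 ≤ L) {x : H →L[ℂ] H}
    (hx : x ∈ GG T k L) : T.q k * x * T.q k ∈ CC T k L := by
  induction hx using Submodule.span_induction with
  | mem x hx =>
    obtain ⟨i, hi, j, hj, t, ht, t', ht', s, hs, rfl⟩ := hx
    have hqB : T.q k ∈ T.B (k + 1) := (hb2 H M τ T k).2.1
    have h1 := T.d_comm k L hL _ hqB s hs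
    have h3 : T.e k i j * T.q k = T.q k * T.e k i j := by
      have h4 := ((hb H M τ T k).2.2.2.2.1 i hi j hj).1
      unfold Tower.q
      rw [mul_add, add_mul, h4 0 (by norm_num) 0 (by norm_num), h4 1 (by norm_num) 1 (by norm_num)]
    have e : T.q k * (T.e k i j * T.phi k t t' * T.d k L s) * T.q k =
        T.e k i j * ((T.q k * T.phi k t t') * T.q k) * T.d k L s := by
      calc T.q k * (T.e k i j * T.phi k t t' * T.d k L s) * T.q k
          = (T.q k * T.e k i j) * T.phi k t t' * (T.d k L s * T.q k) := by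
            simp only [mul_assoc]
        _ = T.e k i j * ((T.q k * T.phi k t t') * T.q k) * T.d k L s := by
            rw [← h3, h1]; simp only [mul_assoc]
    rw [e, q_phi hb ht ht']
    by_cases h5 : t < 2
    · rw [if_pos h5, phi_q hb ht ht']
      by_cases h6 : t' < 2
      · rw [if_pos h6]
        refine Submodule.subset_span ⟨t * 64 ^ k + i, ?_, t' * 64 ^ k + j, ?_, s, hs, ?_⟩
        · have : (t + 1) * 64 ^ k ≤ 2 * 64 ^ k := Nat.mul_le_mul_right _ h5
          have h7 : (t + 1) * 64 ^ k = t * 64 ^ k + 64 ^ k := by ring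
          omega
        · have : (t' + 1) * 64 ^ k ≤ 2 * 64 ^ k := Nat.mul_le_mul_right _ h6
          have h7 : (t' + 1) * 64 ^ k = t' * 64 ^ k + 64 ^ k := by ring
          omega
        · unfold Tower.E2
          have hn : 0 < 64 ^ k := by positivity
          have a1 : (t * 64 ^ k + i) % 64 ^ k = i := by
            rw [Nat.mul_add_mod_self_right, Nat.mod_eq_of_lt hi]
          have a2 : (t' * 64 ^ k + j) % 64 ^ k = j := by
            rw [Nat.mul_add_mod_self_right, Nat.mod_eq_of_lt hj]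
          have a3 : (t * 64 ^ k + i) / 64 ^ k = t := by
            rw [mul_comm, Nat.mul_add_div hn, Nat.div_eq_of_lt hi, add_zero]
          have a4 : (t' * 64 ^ k + j) / 64 ^ k = t' := by
            rw [mul_comm, Nat.mul_add_div hn, Nat.div_eq_of_lt hj, add_zero]
          rw [a1, a2, a3, a4]
      · rw [if_neg h6, mul_zero, zero_mul]; exact zero_mem _
    · rw [if_neg h5, zero_mul, mul_zero, zero_mul]; exact zero_mem _
  | zero => rw [mul_zero, zero_mul]; exact zero_mem _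
  | add x y _ _ h1 h2 => rw [mul_add, add_mul]; exact add_mem h1 h2
  | smul a x _ h1 => rw [mul_smul_comm, smul_mul_assoc]; exact Submodule.smul_mem _ _ h1

theorem CC_cw {x : H →L[ℂ] H} (hx : x ∈ CC T k L) : ∃ a, x = T.cw k L a 0 := by
  induction hx using Submodule.span_induction with
  | mem x hx =>
    obtain ⟨i, hi, j, hj, s, hs, rfl⟩ := hx
    refine ⟨fun s' i' j' => if s' = s then (if i' = i then (if j' = j then 1 else 0) else 0)
      else 0, ?_⟩
    unfold Tower.cw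
    rw [zero_smul, add_zero, Finset.sum_eq_single s, Finset.sum_eq_single i,
      Finset.sum_eq_single j]
    · dsimp only
      rw [if_pos rfl, if_pos rfl, if_pos rfl, one_smul]
    · intro j' _ h
      dsimp only
      rw [if_pos rfl, if_pos rfl, if_neg h, zero_smul]
    · intro h; exact absurd (Finset.mem_range.2 hj) h
    · intro i' _ h
      refine Finset.sum_eq_zero fun j' _ => ?_
      dsimp only
      rw [if_pos rfl, if_neg h, zero_smul]
    · intro h; exact absurd (Finset.mem_range.2 hi) h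
    · intro s' _ h
      refine Finset.sum_eq_zero fun i' _ => Finset.sum_eq_zero fun j' _ => ?_
      dsimp only
      rw [if_neg h, zero_smul]
    · intro h; exact absurd (Finset.mem_range.2 hs) h
  | zero =>
    refine ⟨fun _ _ _ => 0, ?_⟩
    unfold Tower.cw
    simp
  | add x y _ _ h1 h2 =>
    obtain ⟨a, rfl⟩ := h1
    obtain ⟨a', rfl⟩ := h2
    refine ⟨fun s i j => a s i j + a' s i j, ?_⟩
    unfold Tower.cw
    simp only [zero_smul, add_zero, add_smul, Finset.sum_add_distrib]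
  | smul c x _ h1 =>
    obtain ⟨a, rfl⟩ := h1
    refine ⟨fun s i j => c * a s i j, ?_⟩
    unfold Tower.cw
    simp only [zero_smul, add_zero, mul_smul, Finset.smul_sum]

theorem m2 (hb : St_BAS1) : M2 (T.mm k 0 0) (T.mm k 1 1) (T.mm k 0 1) (T.mm k 1 0) := by
  have hmu := (hb H M τ T k).2.1
  have z : (0 : ℕ) < 2 := by norm_num
  have o : (1 : ℕ) < 2 := by norm_num
  constructor
  · rw [hmu.mul 0 z 1 o 1 o 0 z]; simp
  · rw [hmu.mul 1 o 0 z 0 z 1 o]; simp
  · rw [hmu.mul 0 z 1 o 0 z 1 o]; simp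
  · rw [hmu.mul 1 o 0 z 1 o 0 z]; simp
  · rw [hmu.mul 0 z 0 z 0 z 0 z]; simp
  · rw [hmu.mul 1 o 1 o 1 o 1 o]; simp
  · rw [hmu.mul 0 z 0 z 1 o 1 o]; simp
  · rw [hmu.mul 1 o 1 o 0 z 0 z]; simp
  · rw [hmu.mul 0 z 0 z 0 z 1 o]; simp
  · rw [hmu.mul 0 z 1 o 1 o 1 o]; simp
  · rw [hmu.mul 1 o 1 o 1 o 0 z]; simp
  · rw [hmu.mul 1 o 0 z 0 z 0 z]; simp
  · have := hmu.sum
    rw [Finset.sum_range_succ, Finset.sum_range_one] at this
    exact this
  · exact hmu.star 0 z 1 o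
  · exact hmu.star 1 o 0 z
  · exact hmu.star 0 z 0 z
  · exact hmu.star 1 o 1 o

end spans2

end UG3x

open UG3x in
theorem UG3 (h1 : St_BAS1) (h2 : St_BAS2) : St_UG3 := by
  intro H _ _ _ M τ T k L hg hL V hVB hVp hqV c hc
  have hτ := T.tr
  have hVM : V ∈ M := T.B_sub L V hVB
  have z : (0 : ℕ) < 2 := by norm_num
  have o : (1 : ℕ) < 2 := by norm_num
  have hm2 : M2 (T.mm k 0 0) (T.mm k 1 1) (T.mm k 0 1) (T.mm k 1 0) := m2 h1
  obtain ⟨bu1, bu2, bu3, bu4⟩ := T.b_uni k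
  have hbc := (h1 H M τ T k).2.2.2.2.2.2.1
  have cb : CB (T.mm k 0 0) (T.mm k 1 1) (T.mm k 0 1) (T.mm k 1 0) (T.b k) :=
    ⟨bu1, bu2, (hbc 0 z 0 z).1, (hbc 1 o 1 o).1, (hbc 0 z 1 o).1, (hbc 1 o 0 z).1⟩
  have cb' : CB (T.mm k 0 0) (T.mm k 1 1) (T.mm k 0 1) (T.mm k 1 0) (T.b' k) :=
    ⟨bu3, bu4, (hbc 0 z 0 z).2, (hbc 1 o 1 o).2, (hbc 0 z 1 o).2, (hbc 1 o 0 z).2⟩
  have mB : ∀ c < 2, ∀ c' < 2, T.mm k c c' ∈ M := fun c hc c' hc' =>
    T.B_sub _ _ ((h1 H M τ T k).2.2.2.1 c hc c' hc')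
  have ha := mB 0 z 0 z
  have hd := mB 1 o 1 o
  have hx := mB 0 z 1 o
  have hy := mB 1 o 0 z
  have hb : T.b k ∈ M := T.B_sub _ _ (T.b_mem k).1
  have hb' : T.b' k ∈ M := T.B_sub _ _ (T.b_mem k).2
  have c1 : n2 τ (V * (T.mm k 0 1 + T.mm k 1 0) - (T.mm k 0 1 + T.mm k 1 0) * V) ≤ c :=
    hc _ (by simp [Tower.U])
  have c2 : n2 τ (V * (T.mm k 0 1 * T.b k + T.mm k 1 0) -
      (T.mm k 0 1 * T.b k + T.mm k 1 0) * V) ≤ c := hc _ (by simp [Tower.U])
  have c3 : n2 τ (V * (T.mm k 0 1 + T.mm k 1 0 * T.b' k) -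
      (T.mm k 0 1 + T.mm k 1 0 * T.b' k) * V) ≤ c := hc _ (by simp [Tower.U])
  obtain ⟨q1, q2⟩ := uni2 hm2 cb
  obtain ⟨r1, r2⟩ := uni3 hm2 cb'
  have hU2 : T.mm k 0 1 * T.b k + T.mm k 1 0 ∈ M := vn_add (vn_mul hx hb) hy
  have hU3 : T.mm k 0 1 + T.mm k 1 0 * T.b' k ∈ M := vn_add hx (vn_mul hy hb')
  have c4 : n2 τ (V * T.b k - T.b k * V) ≤ 4 * c :=
    com_sq hτ hVM hU2 q1 q2 (U_sq hm2 cb.bx cb.bY) c2
  have c5 : n2 τ (V * T.b' k - T.b' k * V) ≤ 4 * c :=
    com_sq hτ hVM hU3 r1 r2 (U_sq' hm2 cb'.bx cb'.bY) c3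
  obtain ⟨a', hgap⟩ := T.gap k L hL V hVB
  set E := ∑ s ∈ Finset.range (64 ^ (L - k - 1)), ∑ i ∈ Finset.range (64 ^ (k + 1)),
      ∑ j ∈ Finset.range (64 ^ (k + 1)), a' s i j • (T.e (k + 1) i j * T.d k L s) with hE
  have hEA : E ∈ AA T k L := by
    refine Submodule.sum_mem _ fun s hs => Submodule.sum_mem _ fun i hi =>
      Submodule.sum_mem _ fun j hj => Submodule.smul_mem _ _ (Submodule.subset_span
        ⟨i, Finset.mem_range.1 hi, j, Finset.mem_range.1 hj, s, Finset.mem_range.1 hs, rfl⟩)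
  have hEM : E ∈ M := AA_M hL hEA
  have hVE : n2 τ (V - E) ≤ T.gapc * (8 * c) := by
    refine hgap.trans (mul_le_mul_of_nonneg_left ?_ hg.le)
    linarith
  obtain ⟨G0, hG0, e0⟩ := AA_dec h1 hL z hEA
  obtain ⟨G1, hG1, e1⟩ := AA_dec h1 hL o hEA
  have na : ‖T.mm k 0 0‖ ≤ 1 := (show IsStarProjection (T.mm k 0 0) from ⟨hm2.aa, hm2.sa⟩).norm_le
  have nd : ‖T.mm k 1 1‖ ≤ 1 := (show IsStarProjection (T.mm k 1 1) from ⟨hm2.dd, hm2.sd⟩).norm_le
  have aA := mm_AA (T := T) (k := k) hL z z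
  have dA := mm_AA (T := T) (k := k) hL o o
  have z1A : T.mm k 0 0 * E * T.mm k 1 1 ∈ AA T k L := AA_mul hL (AA_mul hL aA hEA) dA
  have z2A : T.mm k 1 1 * E * T.mm k 0 0 ∈ AA T k L := AA_mul hL (AA_mul hL dA hEA) aA
  have hcore := core hτ hm2 cb ha hd hx hy hb hVM hEM (GG_M h1 hL hG0) (GG_M h1 hL hG1) na nd
    c1 c2 hVE (GG_mm h1 hL hG0 z o) (GG_mm h1 hL hG0 o z) (GG_mm h1 hL hG1 z o)
    (GG_mm h1 hL hG1 o z) e0 e1
    (by unfold tr; rw [AA_tb hL (AA_mul hL (AA_star hL z1A) z1A)]; rfl)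
    (by unfold tr; rw [AA_tb hL (AA_mul hL z2A (AA_star hL z2A))]; rfl)
  have hGG : (1 / 2 : ℂ) • (G0 + G1) ∈ GG T k L := Submodule.smul_mem _ _ (add_mem hG0 hG1)
  obtain ⟨a, ha'⟩ := CC_cw (GG_q h1 h2 hL hGG)
  refine ⟨a, 0, ?_⟩
  obtain ⟨hqp, hqB, -⟩ := h2 H M τ T k
  have hqM : T.q k ∈ M := T.B_sub _ _ hqB
  have hVq : V * T.q k = V := by
    have := congrArg star hqV
    rw [star_mul, hqp.isSelfAdjoint.star_eq, hVp.isSelfAdjoint.star_eq] at this
    exact this
  have e : V - T.cw k L a 0 = T.q k * (V - (1 / 2 : ℂ) • (G0 + G1)) * T.q k := by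
    rw [← ha', mul_sub, sub_mul, hqV, hVq]
  have hDM : V - (1 / 2 : ℂ) • (G0 + G1) ∈ M := vn_sub hVM (GG_M h1 hL hGG)
  have nq : ‖T.q k‖ ≤ 1 := hqp.norm_le
  rw [e]
  have f1 := n2_pr hτ hqM (vn_mul hqM hDM) nq
  have f2 := n2_pl hτ hqM hDM nq
  have hc0 : 0 ≤ c := (hτ.n2_nonneg (vn_sub (vn_mul hVM (vn_add hx hy))
    (vn_mul (vn_add hx hy) hVM))).trans c1
  have f3 : 0 ≤ T.gapc * c := mul_nonneg hg.le hc0
  calc _ ≤ _ := f1
    _ ≤ _ := f2
    _ ≤ 193 * c + 204 * (T.gapc * (8 * c)) := hcore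
    _ ≤ 2000 * (1 + T.gapc) * c := by nlinarith

end Pool.Agent.H98R2.RR
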