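import Pool.Agent.H941R2.CM.Model
import Pool.Agent.H941R2.F44.Fin
import Pool.Agent.H941R2.F44.Step
import Pool.Agent.H941R2.F44.Rec
import Pool.Agent.H941R2.F44.Alg1
import Pool.Agent.H98R2.RR.KL
import Pool.Agent.H98R2.RR.VI
import Pool.Agent.H98R2.RR.EX
import Pool.Agent.H98R2.RR.BS
import Pool.Agent.H98R2.RR.RR
import Pool.Agent.H941R2.F44.BAS1
import Pool.Agent.H941R2.F44.BAS2
import Pool.Agent.H941R2.F44.KA
import Pool.Agent.H941R2.F44.KB
import Pool.Agent.H941R2.F44.UG1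
import Pool.Agent.H941R2.F44.UG2x
import Pool.Agent.H941R2.F44.UG3
import Pool.Agent.H98R2.RR.CW
import Pool.Agent.H941R2.F44.CU
import Pool.Agent.H98R2.RR.PP
import Pool.Agent.H98R2.RR.LAST
import Pool.Agent.H941R2.F44.LM
import Pool.Agent.H941R2.F44.FD
import Pool.Agent.H98R2.RR.ASM
import Pool.Agent.H941R2.F44.MC
import Pool.Agent.H941R2.F44.MR
import Pool.Agent.H883R2.ISP.PI1
import Pool.Agent.H941R2.F44.PI2
import Pool.Agent.H941R2.F44.PI3
import Pool.Agent.H941R2.F44.FIB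
import Pool.Agent.H941R2.F44.KE1
import Pool.Agent.H941R2.F44.KE2
import Pool.Agent.H941R2.F44.KE3
import Pool.Agent.H941R2.F44.KE

set_option autoImplicit false
namespace Pool.Agent.H941R2.F44

open Pool.Agent.H98R2.RR

theorem bas2 : St_BAS2 := BAS2 BAS1

theorem cu : St_CU := CU BAS1 bas2

theorem fib : St_FIB := FIB BAS1 bas2

theorem ug : St_UG := UG UG1 UG2x (UG3 BAS1 bas2) (CW BAS1 bas2) cu bas2

theorem kex : St_KEx :=
  KEx MC MR PI1 (PI2 PI1) (PI3 PI1) fib (KE1 BAS1 bas2 PI1 fib) (KE2 MC MR) KE3 FD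

theorem kill : St_KILL :=
  ASM (KB BAS1 bas2 KA) ug PP kex (LAST BAS1) (LM BAS1) (RR (BS (VI KL) EX)) cu


/-- There is a von Neumann algebra with nontrivial projections and an operator in it without
nontrivial invariant projections in the algebra. -/
theorem main_not :
    ¬ (∀ (H : Type) [NormedAddCommGroup H] [InnerProductSpace ℂ H] [CompleteSpace H]
      (M : VonNeumannAlgebra H),
      (∃ Q ∈ M, IsIdempotentElem Q ∧ IsSelfAdjoint Q ∧ Q ≠ 0 ∧ Q ≠ 1) →
      ∀ A ∈ M, ∃ P ∈ M, IsIdempotentElem P ∧ IsSelfAdjoint P ∧ P ≠ 0 ∧ P ≠ 1 ∧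
        A * P = P * A * P) :=
  Pool.Agent.H209R2.ISP.T.FINAL Pool.Agent.H941R2.CM.MODEL
    (REC (Pool.Agent.H209R2.ISP.T.STEP ALG)) kill

end Pool.Agent.H941R2.F44
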