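import Mathlib
import Pool.Agent.H711R2.Tr7

/-!
# The commutant of an operator without invariant projections in a von Neumann algebra
-/

set_option autoImplicit false
open Filter Topology
open scoped ComplexOrder InnerProductSpace

namespace Pool.Agent.H941R2.F44
open Pool.H711R2

variable {H : Type} [NormedAddCommGroup H] [InnerProductSpace ℂ H] [CompleteSpace H]
variable {M : VonNeumannAlgebra H}

/-- a closed subspace which is invariant under the commutant of `A ∈ M` is trivial -/
theorem triv {A : H →L[ℂ] H} (hA : A ∈ M)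
    (hno : ∀ P ∈ M, IsIdempotentElem P → IsSelfAdjoint P → A * P = P * A * P → P = 0 ∨ P = 1)
    (K : Submodule ℂ H) (hK : IsClosed (K : Set H))
    (hinv : ∀ T : H →L[ℂ] H, A * T = T * A → ∀ x ∈ K, T x ∈ K) : K = ⊥ ∨ K = ⊤ := by
  have : CompleteSpace K := hK.completeSpace_coe
  have hP : IsStarProjection K.starProjection := isStarProjection_starProjection
  have hr : (K.starProjection).range = K := Submodule.range_starProjection _
  have hM : K.starProjection ∈ M := by
    rw [VonNeumannAlgebra.IsStarProjection.mem_iff hP]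
    intro y hy
    rw [hr, Module.End.mem_invtSubmodule]
    intro v hv
    have h1 : A * y = y * A := VonNeumannAlgebra.mem_commutant_iff.mp hy A hA
    exact hinv y h1 v hv
  have hAP : A * K.starProjection = K.starProjection * A * K.starProjection := by
    ext v
    have h1 : A (K.starProjection v) ∈ K := hinv A rfl _ (Submodule.starProjection_apply_mem _ v)
    have h2 := Submodule.starProjection_eq_self_iff.mpr h1
    simpa using h2.symm
  rcases hno _ hM hP.isIdempotentElem hP.isSelfAdjoint hAP with h | h
  · left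
    rw [← hr, h]
    ext v
    simp [eq_comm]
  · right
    rw [← hr, h]
    ext v
    simp

/-- a self-adjoint element commuting with `A` is a scalar -/
theorem scalar {A : H →L[ℂ] H} (hA : A ∈ M)
    (hno : ∀ P ∈ M, IsIdempotentElem P → IsSelfAdjoint P → A * P = P * A * P → P = 0 ∨ P = 1)
    [Nontrivial (H →L[ℂ] H)]
    {s : H →L[ℂ] H} (hs : s ∈ M) (hsa : IsSelfAdjoint s) (hc : s * A = A * s) :
    ∃ c : ℝ, s = ((c : ℝ) : ℂ) • (1 : H →L[ℂ] H) := by
  have hle : ∀ a ∈ spectrum ℝ s, ∀ b ∈ spectrum ℝ s, ¬ a < b := by
    intro a ha b hb hab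
    set c : ℝ := (a + b) / 2 with hcdef
    set f : ℝ → ℝ := fun x => max (x - c) 0 with hf
    set g : ℝ → ℝ := fun x => max (c - x) 0 with hg
    have hfc : Continuous f := by fun_prop
    have hgc : Continuous g := by fun_prop
    have hfg : cfc f s * cfc g s = 0 := by
      rw [← cfc_mul f g s hfc.continuousOn hgc.continuousOn]
      have : (fun x => f x * g x) = fun _ => (0 : ℝ) := by
        funext x
        simp only [hf, hg]
        rcases le_total x c with h | h
        · rw [max_eq_right (by linarith : x - c ≤ 0), zero_mul]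
        · rw [max_eq_right (by linarith : c - x ≤ 0), mul_zero]
      rw [this, cfc_const_zero]
    have hcomm : Commute (cfc f s) A := Commute.cfc_real hc f
    have hPM : kp (cfc f s) ∈ M := kp_mem (cfc_mem_vn hs f)
    have hAP : A * kp (cfc f s) = kp (cfc f s) * A * kp (cfc f s) := by
      ext v
      have h1 : cfc f s (A (kp (cfc f s) v)) = 0 := by
        have h2 := congrArg (fun z : H →L[ℂ] H => z (kp (cfc f s) v)) hcomm.eq
        simp only [mul_apply_eq_comp] at h2
        rw [h2, kp_apply_mem, map_zero]
      simpa using (kp_apply_of_ker _ h1).symm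
    have hspf := cfc_map_spectrum f s hsa hfc.continuousOn
    have hspg := cfc_map_spectrum g s hsa hgc.continuousOn
    rcases hno _ hPM (kp_isStar _).isIdempotentElem (kp_isStar _).isSelfAdjoint hAP with h | h
    · have h0 : cfc g s = 0 := by
        ext v
        have h1 : cfc f s (cfc g s v) = 0 := by
          have := congrArg (fun z : H →L[ℂ] H => z v) hfg
          simpa using this
        have h2 := kp_apply_of_ker _ h1
        rw [h] at h2
        simpa using h2.symm
      rw [h0] at hspg
      have h3 : g a ∈ g '' spectrum ℝ s := ⟨a, ha, rfl⟩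
      rw [← hspg, spectrum.zero_eq] at h3
      have h4 : g a = 0 := h3
      have h5 : 0 < g a := by
        simp only [hg]
        apply lt_max_of_lt_left
        linarith
      linarith
    · have h0 : cfc f s = 0 := by
        have := mul_kp (cfc f s)
        rwa [h, mul_one] at this
      rw [h0] at hspf
      have h3 : f b ∈ f '' spectrum ℝ s := ⟨b, hb, rfl⟩
      rw [← hspf, spectrum.zero_eq] at h3
      have h4 : f b = 0 := h3
      have h5 : 0 < f b := by
        simp only [hf]
        apply lt_max_of_lt_left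
        linarith
      linarith
  have hne : (spectrum ℝ s).Nonempty := ContinuousFunctionalCalculus.spectrum_nonempty s hsa
  obtain ⟨c, hc0⟩ := hne
  refine ⟨c, ?_⟩
  have h1 : cfc (fun x : ℝ => x) s = cfc (fun _ : ℝ => c) s := by
    refine cfc_congr fun x hx => ?_
    exact le_antisymm (not_lt.mp (hle _ hc0 _ hx)) (not_lt.mp (hle _ hx _ hc0))
  rw [cfc_id' ℝ s hsa, cfc_const c s hsa] at h1
  rw [h1, Algebra.algebraMap_eq_smul_one]
  ext v
  simp

/-- `A` is not normal -/
theorem not_normal {A : H →L[ℂ] H} (hA : A ∈ M)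
    (hQ : ∃ Q ∈ M, IsIdempotentElem Q ∧ IsSelfAdjoint Q ∧ Q ≠ 0 ∧ Q ≠ 1)
    (hno : ∀ P ∈ M, IsIdempotentElem P → IsSelfAdjoint P → A * P = P * A * P → P = 0 ∨ P = 1)
    (hn : A * star A = star A * A) : False := by
  obtain ⟨Q, hQM, hQi, hQs, hQ0, hQ1⟩ := hQ
  have : Nontrivial (H →L[ℂ] H) := ⟨⟨Q, 0, hQ0⟩⟩
  have hAs : star A ∈ M := star_mem hA
  obtain ⟨c, hc⟩ := scalar hA hno (s := A + star A) (add_mem hA hAs)
    (by rw [IsSelfAdjoint, star_add, star_star, add_comm])
    (by rw [add_mul, mul_add, hn])
  obtain ⟨d, hd⟩ := scalar hA hno (s := Complex.I • (A - star A)) (vn_smul _ (sub_mem hA hAs))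
    (by
      rw [IsSelfAdjoint, star_smul, star_sub, star_star]
      have : star Complex.I = -Complex.I := by simp
      rw [this, neg_smul, ← smul_neg, neg_sub])
    (by rw [smul_mul_assoc, mul_smul_comm, sub_mul, mul_sub, hn])
  have h2 : A - star A = (-Complex.I * (d : ℂ)) • (1 : H →L[ℂ] H) := by
    have := congrArg (fun z : H →L[ℂ] H => (-Complex.I) • z) hd
    simp only [smul_smul] at this
    rw [show -Complex.I * Complex.I = 1 by rw [neg_mul, Complex.I_mul_I, neg_neg], one_smul] at this
    exact this
  have h3 : A = (((c : ℂ) - Complex.I * d) / 2) • (1 : H →L[ℂ] H) := by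
    have h4 : (2 : ℂ) • A = ((c : ℂ) - Complex.I * d) • (1 : H →L[ℂ] H) := by
      have h5 : (2 : ℂ) • A = (A + star A) + (A - star A) := by
        rw [two_smul]
        abel
      rw [h5, hc, h2, ← add_smul]
      congr 1
      ring
    have h6 := congrArg (fun z : H →L[ℂ] H => ((2 : ℂ)⁻¹) • z) h4
    simp only [smul_smul] at h6
    rw [inv_mul_cancel₀ two_ne_zero, one_smul] at h6
    rw [h6]
    congr 1
    ring
  have h7 : A * Q = Q * A * Q := by
    rw [h3, smul_mul_assoc, one_mul, mul_smul_comm, mul_one, smul_mul_assoc, hQi.eq]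
  rcases hno Q hQM hQi hQs h7 with h | h
  · exact hQ0 h
  · exact hQ1 h

end Pool.Agent.H941R2.F44
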