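import Pool.Agent.H941R2.F44.Tow
import Pool.Agent.H209R2.ISP.TWrap3
import Pool.Agent.H941R2.F44.Cons1

/-!
helper209: the homomorphism `M_{32 n} → B (k+1)` of a tower.
-/

set_option autoImplicit false
set_option linter.unusedSectionVars false
set_option maxHeartbeats 2000000
open Filter Topology
open scoped ComplexOrder InnerProductSpace

namespace Pool.Agent.H209R2.ISP.T
open Pool.H711R2 Pool.Agent.H98R2.RR

section sums
variable {A : Type*} [Ring A] [Algebra ℂ A]

lemma sum_shift (N q : ℕ) (g : ℕ → ℕ → A) :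
    ∑ i ∈ Finset.range N, ∑ j ∈ Finset.range N, (if i = j + q then (1 : ℂ) else 0) • g i j =
      ∑ j ∈ Finset.range N, if j + q < N then g (j + q) j else 0 := by
  rw [Finset.sum_comm]
  refine Finset.sum_congr rfl fun j _ => ?_
  by_cases h : j + q < N
  · rw [if_pos h, Finset.sum_eq_single (j + q)]
    · rw [if_pos rfl, one_smul]
    · intro i _ hi
      rw [if_neg hi, zero_smul]
    · intro h2; exact absurd (Finset.mem_range.2 h) h2
  · rw [if_neg h]
    refine Finset.sum_eq_zero fun i hi => ?_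
    rw [if_neg, zero_smul]
    have := Finset.mem_range.1 hi
    omega

lemma sum_shift1 (N : ℕ) (hN : 0 < N) (g : ℕ → ℕ → A) :
    ∑ i ∈ Finset.range N, ∑ j ∈ Finset.range N, (if i = j + 1 then (1 : ℂ) else 0) • g i j =
      ∑ j ∈ Finset.range (N - 1), g (j + 1) j := by
  rw [sum_shift]
  obtain ⟨N', rfl⟩ : ∃ N', N = N' + 1 := ⟨N - 1, by omega⟩
  rw [Finset.sum_range_succ, if_neg (by omega), add_zero, Nat.add_sub_cancel]
  refine Finset.sum_congr rfl fun j hj => ?_
  rw [if_pos]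
  have := Finset.mem_range.1 hj
  omega

lemma sum_diag (N : ℕ) (c : ℕ → ℂ) (g : ℕ → ℕ → A) :
    ∑ i ∈ Finset.range N, ∑ j ∈ Finset.range N, (if i = j then c i else 0) • g i j =
      ∑ i ∈ Finset.range N, c i • g i i := by
  refine Finset.sum_congr rfl fun i hi => ?_
  rw [Finset.sum_eq_single i]
  · rw [if_pos rfl]
  · intro j _ hj
    rw [if_neg (Ne.symm hj), zero_smul]
  · intro h; exact absurd hi h

lemma sum_point (N : ℕ) (a b : ℕ) (ha : a < N) (hb : b < N) (g : ℕ → ℕ → A) :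
    ∑ i ∈ Finset.range N, ∑ j ∈ Finset.range N, (if i = a ∧ j = b then (1 : ℂ) else 0) • g i j =
      g a b := by
  rw [Finset.sum_eq_single a]
  · rw [Finset.sum_eq_single b]
    · rw [if_pos ⟨rfl, rfl⟩, one_smul]
    · intro j _ hj
      rw [if_neg (fun h => hj h.2), zero_smul]
    · intro h; exact absurd (Finset.mem_range.2 hb) h
  · intro i _ hi
    refine Finset.sum_eq_zero fun j _ => ?_
    rw [if_neg (fun h => hi h.1), zero_smul]
  · intro h; exact absurd (Finset.mem_range.2 ha) h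

end sums

section tow
variable {H : Type} [NormedAddCommGroup H] [InnerProductSpace ℂ H] [CompleteSpace H]
variable {M : VonNeumannAlgebra H} {τ : (H →L[ℂ] H) →ₗ[ℂ] ℂ} (T : Tower M τ) (k : ℕ)

/-- the homomorphism -/
noncomputable def ph : Matrix (Fin (32 * 64 ^ k)) (Fin (32 * 64 ^ k)) ℂ →ₐ[ℂ] (H →L[ℂ] H) :=
  (muHom (EE T k) (EE_mul T k) (EE_sum T k)).comp
    (Matrix.reindexAlgEquiv ℂ ℂ (finProdFinEquiv (m := 32) (n := 64 ^ k)).symm).toAlgHom

lemma ph_apply (X : Matrix (Fin (32 * 64 ^ k)) (Fin (32 * 64 ^ k)) ℂ) :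
    ph T k X = ∑ x : Fin 32 × Fin (64 ^ k), ∑ y : Fin 32 × Fin (64 ^ k),
      X (finProdFinEquiv x) (finProdFinEquiv y) • EE T k x y := rfl

lemma ph_prod (X : Matrix (Fin (32 * 64 ^ k)) (Fin (32 * 64 ^ k)) ℂ) (a b : ℕ → ℕ → ℂ)
    (h : ∀ x y : Fin 32 × Fin (64 ^ k), X (finProdFinEquiv x) (finProdFinEquiv y) =
      a x.2.val y.2.val * b x.1.val y.1.val) :
    ph T k X = (∑ i ∈ Finset.range (64 ^ k), ∑ j ∈ Finset.range (64 ^ k), a i j • T.e k i j) *
      (∑ t ∈ Finset.range 32, ∑ t' ∈ Finset.range 32, b t t' • T.phi k t t') := by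
  rw [ph_apply]
  simp only [h]
  unfold EE
  rw [Finset.sum_mul_sum]
  rw [Fintype.sum_prod_type]
  rw [Finset.sum_comm]
  rw [← Fin.sum_univ_eq_sum_range (fun i => ∑ t ∈ Finset.range 32,
    (∑ j ∈ Finset.range (64 ^ k), a i j • T.e k i j) * ∑ t' ∈ Finset.range 32, b t t' • T.phi k t t')]
  refine Finset.sum_congr rfl fun i _ => ?_
  rw [← Fin.sum_univ_eq_sum_range (fun t =>
    (∑ j ∈ Finset.range (64 ^ k), a i j • T.e k i j) * ∑ t' ∈ Finset.range 32, b t t' • T.phi k t t')]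
  refine Finset.sum_congr rfl fun t _ => ?_
  rw [Fintype.sum_prod_type, Finset.sum_mul_sum, Finset.sum_comm]
  rw [← Fin.sum_univ_eq_sum_range (fun j => ∑ t' ∈ Finset.range 32,
    (a i j • T.e k i j) * (b t t' • T.phi k t t'))]
  refine Finset.sum_congr rfl fun j _ => ?_
  rw [← Fin.sum_univ_eq_sum_range (fun t' => (a i j • T.e k i j) * (b t t' • T.phi k t t'))]
  refine Finset.sum_congr rfl fun t' _ => ?_
  rw [smul_mul_smul_comm]

lemma fpv (x : Fin 32 × Fin (64 ^ k)) :
    (finProdFinEquiv x).val = x.2.val + 64 ^ k * x.1.val := rfl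

lemma dm (n : ℕ) (hn : 0 < n) (i t : ℕ) (hi : i < n) : (i + n * t) / n = t ∧ (i + n * t) % n = i := by
  constructor
  · rw [Nat.add_mul_div_left _ _ hn, Nat.div_eq_of_lt hi, zero_add]
  · rw [Nat.add_mul_mod_self_left, Nat.mod_eq_of_lt hi]

lemma eq_iff (n : ℕ) (hn : 0 < n) (i t i' t' : ℕ) (hi : i < n) (hi' : i' < n) :
    i + n * t = i' + n * t' ↔ i = i' ∧ t = t' := by
  constructor
  · intro h
    have h1 := dm n hn i t hi
    have h2 := dm n hn i' t' hi'
    rw [h] at h1
    exact ⟨h1.2.symm.trans h2.2, h1.1.symm.trans h2.1⟩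
  · rintro ⟨rfl, rfl⟩; rfl

lemma ph_blk : ph T k (Jblk (64 ^ k)) = T.Jn k := by
  have hn : 0 < 64 ^ k := pos64 k
  rw [ph_prod T k _ (fun i j => if i = j + 1 then 1 else 0) (fun t t' => if t = t' then 1 else 0)]
  · rw [sum_shift1 _ hn, sum_diag 32 (fun _ => 1)]
    simp only [one_smul]
    rw [phi_sum, mul_one]
    rfl
  · intro x y
    unfold Jblk
    rw [Matrix.of_apply, fpv, fpv]
    by_cases h1 : x.1.val = y.1.val
    · by_cases h2 : x.2.val = y.2.val + 1
      · rw [if_pos h1, if_pos h2, if_pos, mul_one]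
        refine ⟨by rw [h1, h2]; ring, ?_⟩
        rw [Nat.dvd_add_left (dvd_mul_right _ _), h2]
        intro h3
        have := Nat.le_of_dvd (by omega) h3
        have := x.2.isLt
        omega
      · rw [if_neg h2, zero_mul, if_neg]
        rintro ⟨h3, _⟩
        rw [h1] at h3
        omega
    · rw [if_neg h1, mul_zero, if_neg]
      rintro ⟨h3, h4⟩
      have h5 : x.2.val ≠ 0 := by
        intro h; apply h4; rw [h, zero_add]; exact dvd_mul_right _ _
      have h6 : (x.2.val - 1) + 64 ^ k * x.1.val = y.2.val + 64 ^ k * y.1.val := by omega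
      have h7 := (eq_iff (64 ^ k) hn _ _ _ _ (by have := x.2.isLt; omega) y.2.isLt).1 h6
      exact h1 h7.2

lemma ph_lnk : ph T k (Jlnk (64 ^ k)) = T.e k 0 (64 ^ k - 1) *
    ∑ t ∈ Finset.range 31, T.phi k (t + 1) t := by
  have hn : 0 < 64 ^ k := pos64 k
  rw [ph_prod T k _ (fun i j => if i = 0 ∧ j = 64 ^ k - 1 then 1 else 0)
    (fun t t' => if t = t' + 1 then 1 else 0)]
  · rw [sum_shift1 32 (by norm_num), sum_point _ _ _ hn (by omega)]
  · intro x y
    unfold Jlnk
    rw [Matrix.of_apply, fpv, fpv]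
    have hx := x.2.isLt
    have hy := y.2.isLt
    by_cases h2 : x.2.val = 0 ∧ y.2.val = 64 ^ k - 1
    · by_cases h1 : x.1.val = y.1.val + 1
      · rw [if_pos h2, if_pos h1, mul_one, if_pos]
        refine ⟨?_, by rw [h2.1, zero_add]; exact dvd_mul_right _ _⟩
        rw [h2.1, h2.2, h1, Nat.mul_add]
        omega
      · rw [if_neg h1, mul_zero, if_neg]
        rintro ⟨h3, _⟩
        rw [h2.1, h2.2] at h3
        have h4 : 0 + 64 ^ k * x.1.val = 0 + 64 ^ k * (y.1.val + 1) := by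
          rw [Nat.mul_add]; omega
        exact h1 ((eq_iff (64 ^ k) hn _ _ _ _ hn hn).1 h4).2
    · rw [if_neg h2, zero_mul, if_neg]
      rintro ⟨h3, h4⟩
      rw [Nat.dvd_add_left (dvd_mul_right _ _)] at h4
      have h5 : x.2.val = 0 := by
        by_contra h
        have := Nat.le_of_dvd (by omega) h4
        omega
      apply h2
      refine ⟨h5, ?_⟩
      rw [h5] at h3
      have h6 : y.2.val + 1 = 64 ^ k := by
        have h7 : 64 ^ k ∣ y.2.val + 1 := by
          have : y.2.val + 1 + 64 ^ k * y.1.val = 64 ^ k * x.1.val := by omega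
          have h8 : 64 ^ k ∣ y.2.val + 1 + 64 ^ k * y.1.val := by
            rw [this]; exact dvd_mul_right _ _
          exact (Nat.dvd_add_left (dvd_mul_right _ _)).1 h8
        have := Nat.le_of_dvd (by omega) h7
        omega
      omega

lemma J_split (n : ℕ) : Jm (32 * n) = Jblk n + Jlnk n := by
  ext i j
  rw [Matrix.add_apply]
  unfold Jm Jblk Jlnk
  rw [Matrix.of_apply, Matrix.of_apply, Matrix.of_apply]
  by_cases h : i.val = j.val + 1
  · by_cases h2 : n ∣ i.val
    · rw [if_pos h, if_neg (fun h3 => h3.2 h2), if_pos ⟨h, h2⟩, zero_add]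
    · rw [if_pos h, if_pos ⟨h, h2⟩, if_neg (fun h3 => h2 h3.2), add_zero]
  · rw [if_neg h, if_neg (fun h3 => h h3.1), if_neg (fun h3 => h h3.1), add_zero]

lemma ph_J : ph T k (Jm (32 * 64 ^ k)) = T.JR k := by
  rw [J_split, map_add, ph_blk, ph_lnk]
  rfl

lemma ph_J30 : ph T k ((Jm (32 * 64 ^ k)) ^ (30 * 64 ^ k)) = T.Th k := by
  have hn : 0 < 64 ^ k := pos64 k
  rw [ph_prod T k _ (fun i j => if i = j then 1 else 0) (fun t t' => if t = t' + 30 then 1 else 0)]
  · rw [sum_shift, sum_diag _ (fun _ => 1)]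
    simp only [one_smul]
    rw [(T.eMU k).sum, one_mul]
    unfold Tower.Th
    simp [Finset.sum_range_succ]
  · intro x y
    rw [Jm_pow, Matrix.of_apply, fpv, fpv]
    have h1 : x.2.val + 64 ^ k * x.1.val = y.2.val + 64 ^ k * y.1.val + 30 * 64 ^ k ↔
        x.2.val = y.2.val ∧ x.1.val = y.1.val + 30 := by
      rw [← eq_iff (64 ^ k) hn _ _ _ _ x.2.isLt y.2.isLt, Nat.mul_add]
      constructor
      · intro h; omega
      · intro h; omega
    by_cases h2 : x.2.val = y.2.val
    · by_cases h3 : x.1.val = y.1.val + 30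
      · rw [if_pos h2, if_pos h3, if_pos (h1.2 ⟨h2, h3⟩), mul_one]
      · rw [if_neg h3, mul_zero, if_neg (fun h => h3 (h1.1 h).2)]
    · rw [if_neg h2, zero_mul, if_neg (fun h => h2 (h1.1 h).1)]

lemma ph_dg (δ : ℂ) : ph T k (dg (64 ^ k) δ) = ∑ t ∈ Finset.range 32, δ ^ t • T.phi k t t := by
  have hn : 0 < 64 ^ k := pos64 k
  rw [ph_prod T k _ (fun i j => if i = j then 1 else 0) (fun t t' => if t = t' then δ ^ t else 0)]
  · rw [sum_diag (64 ^ k) (fun _ => 1), sum_diag 32 (fun t => δ ^ t)]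
    simp only [one_smul]
    rw [(T.eMU k).sum, one_mul]
  · intro x y
    unfold dg
    by_cases h : x = y
    · subst h
      rw [Matrix.diagonal_apply_eq, if_pos rfl, if_pos rfl, one_mul, fpv,
        (dm (64 ^ k) hn _ _ x.2.isLt).1]
    · rw [Matrix.diagonal_apply_ne]
      · by_cases h2 : x.2.val = y.2.val
        · rw [if_neg (c := x.1.val = y.1.val), mul_zero]
          intro h3; exact h (Prod.ext (Fin.ext h3) (Fin.ext h2))
        · rw [if_neg h2, zero_mul]
      · intro h2; exact h (finProdFinEquiv.injective h2)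

lemma ph_single (a b : Fin (32 * 64 ^ k)) (s t : ℕ) (hs : s < 32) (ht : t < 32)
    (ha : a.val = 64 ^ k * s) (hb : b.val = 64 ^ k * (t + 1) - 1) :
    ph T k (Matrix.single a b 1) = T.e k 0 (64 ^ k - 1) * T.phi k s t := by
  have hn : 0 < 64 ^ k := pos64 k
  rw [ph_prod T k _ (fun i j => if i = 0 ∧ j = 64 ^ k - 1 then 1 else 0)
    (fun u v => if u = s ∧ v = t then 1 else 0)]
  · rw [sum_point _ _ _ hs ht, sum_point _ _ _ hn (by omega)]
  · intro x y
    have h1 : a = finProdFinEquiv x ↔ x.2.val = 0 ∧ x.1.val = s := by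
      rw [Fin.ext_iff, fpv, ha]
      have := eq_iff (64 ^ k) hn 0 s _ x.1.val hn x.2.isLt
      constructor
      · intro h
        have := this.1 (by omega)
        omega
      · intro h
        have := this.2 (by omega)
        omega
    have h2 : b = finProdFinEquiv y ↔ y.2.val = 64 ^ k - 1 ∧ y.1.val = t := by
      rw [Fin.ext_iff, fpv, hb]
      have := eq_iff (64 ^ k) hn (64 ^ k - 1) t _ y.1.val (by omega) y.2.isLt
      have h3 : 64 ^ k * (t + 1) - 1 = 64 ^ k - 1 + 64 ^ k * t := by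
        rw [Nat.mul_add]; omega
      rw [h3]
      constructor
      · intro h
        have := this.1 (by omega)
        omega
      · intro h
        have := this.2 (by omega)
        omega
    rw [Matrix.single_apply]
    by_cases ha2 : x.2.val = 0 ∧ x.1.val = s
    · by_cases hb2 : y.2.val = 64 ^ k - 1 ∧ y.1.val = t
      · rw [if_pos ⟨h1.2 ha2, h2.2 hb2⟩, if_pos ⟨ha2.1, hb2.1⟩, if_pos ⟨ha2.2, hb2.2⟩, mul_one]
      · rw [if_neg (fun h => hb2 (h2.1 h.2))]
        by_cases h3 : y.2.val = 64 ^ k - 1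
        · rw [if_neg (c := x.1.val = s ∧ y.1.val = t) (fun h => hb2 ⟨h3, h.2⟩), mul_zero]
        · rw [if_neg (fun h => h3 h.2), zero_mul]
    · rw [if_neg (fun h => ha2 (h1.1 h.1))]
      by_cases h3 : x.2.val = 0
      · rw [if_neg (c := x.1.val = s ∧ y.1.val = t) (fun h => ha2 ⟨h3, h.1⟩), mul_zero]
      · rw [if_neg (fun h => h3 h.1), zero_mul]

lemma ph_wrap (hn : 0 < 64 ^ k) (l : Fin 4) :
    ph T k (Matrix.single (wa (64 ^ k) hn l) (wb (64 ^ k) hn l) 1) =
      T.e k 0 (64 ^ k - 1) * T.phi k (ss l.val) (ss l.val + aa l.val - 1) := by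
  apply ph_single
  · fin_cases l <;> simp [ss]
  · fin_cases l <;> simp [ss, aa]
  · fin_cases l <;> simp [ss, wa] <;> ring
  · fin_cases l <;> simp [ss, aa, wb] <;> omega

end tow

end Pool.Agent.H209R2.ISP.T
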