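import Pool.Agent.H98R2.RR.Kill

set_option autoImplicit false
open Filter Topology
open scoped ComplexOrder InnerProductSpace

namespace Pool.Agent.H98R2.RR
open Pool.H711R2

section UG1aux

variable {H : Type} [NormedAddCommGroup H] [InnerProductSpace ℂ H] [CompleteSpace H]

/-- the spectral projection of a self-adjoint element for `(1/2, ∞)` -/
theorem ug1_spec {B : VonNeumannAlgebra H} {a : H →L[ℂ] H} (ha : a ∈ B) (hsa : IsSelfAdjoint a) :
    ∃ P ∈ B, IsStarProjection P ∧ (∃ r ∈ B, ‖r‖ ≤ 2 ∧ a * r * P = P) ∧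
      (∃ r ∈ B, ‖r‖ ≤ 2 ∧ (1 - a) * r * (1 - P) = 1 - P) ∧
      ∀ q : H →L[ℂ] H, IsStarProjection q → a * q = a → q * P = P := by
  set fp : ℝ → ℝ := fun t => max (t - 1 / 2) 0 with hfp
  set fm : ℝ → ℝ := fun t => max (1 / 2 - t) 0 with hfm
  set c : ℝ → ℝ := fun t => (max t (1 / 2))⁻¹ with hc
  set c' : ℝ → ℝ := fun t => (max (1 - t) (1 / 2))⁻¹ with hc'
  have hfpc : Continuous fp := by fun_prop
  have hfmc : Continuous fm := by fun_prop
  have hcc : Continuous c := by
    refine Continuous.inv₀ (by fun_prop) fun t => ?_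
    have : (1 / 2 : ℝ) ≤ max t (1 / 2) := le_max_right _ _
    linarith
  have hcc' : Continuous c' := by
    refine Continuous.inv₀ (by fun_prop) fun t => ?_
    have : (1 / 2 : ℝ) ≤ max (1 - t) (1 / 2) := le_max_right _ _
    linarith
  have hcb : ∀ t, ‖c t‖ ≤ 2 := by
    intro t
    have h1 : (1 / 2 : ℝ) ≤ max t (1 / 2) := le_max_right _ _
    rw [hc, Real.norm_of_nonneg (by simp only; positivity)]
    simp only
    rw [inv_le_comm₀ (by linarith) (by norm_num)]
    linarith
  have hcb' : ∀ t, ‖c' t‖ ≤ 2 := by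
    intro t
    have h1 : (1 / 2 : ℝ) ≤ max (1 - t) (1 / 2) := le_max_right _ _
    rw [hc', Real.norm_of_nonneg (by simp only; positivity)]
    simp only
    rw [inv_le_comm₀ (by linarith) (by norm_num)]
    linarith
  set b : H →L[ℂ] H := cfc fp a with hb
  set b' : H →L[ℂ] H := cfc fm a with hb'
  set r : H →L[ℂ] H := cfc c a with hr
  set r' : H →L[ℂ] H := cfc c' a with hr'
  have hbs : star b = b := by
    have : IsSelfAdjoint b := by rw [hb]; exact cfc_predicate _ _
    exact this.star_eq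
  have hbs' : star b' = b' := by
    have : IsSelfAdjoint b' := by rw [hb']; exact cfc_predicate _ _
    exact this.star_eq
  -- products
  have e1 : b * b' = 0 := by
    rw [hb, hb', ← cfc_mul fp fm a hfpc.continuousOn hfmc.continuousOn]
    have : (fun t => fp t * fm t) = fun _ => (0 : ℝ) := by
      funext t
      simp only [hfp, hfm]
      rcases le_total t (1 / 2) with h | h
      · rw [max_eq_right (by linarith : t - 1 / 2 ≤ 0), zero_mul]
      · rw [max_eq_right (by linarith : 1 / 2 - t ≤ 0), mul_zero]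
    rw [this, cfc_const_zero]
  have e2 : a * r = 1 - 2 • b' := by
    have h1 : a * r = cfc (fun t => t * c t) a := by
      rw [cfc_mul (fun t => t) c a continuous_id.continuousOn hcc.continuousOn, cfc_id' ℝ a]
    have h2 : (1 : H →L[ℂ] H) - 2 • b' = cfc (fun t => 1 - 2 * fm t) a := by
      rw [cfc_sub (fun _ => (1 : ℝ)) (fun t => 2 * fm t) a continuous_const.continuousOn
        (by fun_prop), cfc_const_mul (2 : ℝ) fm a hfmc.continuousOn, cfc_const_one ℝ a]
      congr 1
      rw [hb', two_smul, two_smul]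
    rw [h1, h2]
    congr 1
    funext t
    simp only [hc, hfm]
    rcases le_total t (1 / 2) with h | h
    · rw [max_eq_right h, max_eq_left (by linarith : (0 : ℝ) ≤ 1 / 2 - t)]
      ring
    · rw [max_eq_left h, max_eq_right (by linarith : 1 / 2 - t ≤ 0)]
      have : t ≠ 0 := by linarith
      field_simp
      ring
  have e3 : (1 - a) * r' = 1 - 2 • b := by
    have h1 : (1 - a) * r' = cfc (fun t => (1 - t) * c' t) a := by
      rw [cfc_mul (fun t => 1 - t) c' a (by fun_prop) hcc'.continuousOn,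
        cfc_sub (fun _ => (1 : ℝ)) (fun t => t) a continuous_const.continuousOn
        continuous_id.continuousOn, cfc_id' ℝ a, cfc_const_one ℝ a]
    have h2 : (1 : H →L[ℂ] H) - 2 • b = cfc (fun t => 1 - 2 * fp t) a := by
      rw [cfc_sub (fun _ => (1 : ℝ)) (fun t => 2 * fp t) a continuous_const.continuousOn
        (by fun_prop), cfc_const_mul (2 : ℝ) fp a hfpc.continuousOn, cfc_const_one ℝ a]
      congr 1
      rw [hb, two_smul, two_smul]
    rw [h1, h2]
    congr 1
    funext t
    simp only [hc', hfp]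
    rcases le_total t (1 / 2) with h | h
    · rw [max_eq_left (by linarith : (1 / 2 : ℝ) ≤ 1 - t), max_eq_right (by linarith : t - 1 / 2 ≤ 0)]
      have : 1 - t ≠ 0 := by linarith
      field_simp
      ring
    · rw [max_eq_right (by linarith : 1 - t ≤ (1 / 2 : ℝ)),
        max_eq_left (by linarith : (0 : ℝ) ≤ t - 1 / 2)]
      ring
  have e4 : b = cfc (fun t => fp t * c t) a * a := by
    have h1 : cfc (fun t => fp t * c t) a * a = cfc (fun t => (fp t * c t) * t) a := by
      rw [cfc_mul (fun t => fp t * c t) (fun t => t) a (by fun_prop) continuous_id.continuousOn,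
        cfc_id' ℝ a]
    rw [h1, hb]
    congr 1
    funext t
    simp only [hc, hfp]
    rcases le_total t (1 / 2) with h | h
    · rw [max_eq_right (by linarith : t - 1 / 2 ≤ 0)]
      ring
    · rw [max_eq_left h]
      have : t ≠ 0 := by linarith
      field_simp
  -- the kernel projection
  have hK := kp_isStar b
  have hKs : star (kp b) = kp b := hK.isSelfAdjoint.star_eq
  have hKi : kp b * kp b = kp b := hK.isIdempotentElem.eq
  have k1 : b * kp b = 0 := mul_kp b
  have k2 : kp b * b' = b' := by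
    ext v
    rw [mul_apply_eq_comp]
    apply kp_apply_of_ker
    have := congrArg (fun T : H →L[ℂ] H => T v) e1
    simpa using this
  have k3 : b' * (1 - kp b) = 0 := by
    have h1 : b' * kp b = b' := by
      have := congrArg star k2
      rwa [star_mul, hbs', hKs] at this
    rw [mul_sub, mul_one, h1, sub_self]
  refine ⟨1 - kp b, vn_sub (vn_one B) (kp_mem (cfc_mem_vn ha fp)), hK.one_sub, ?_, ?_, ?_⟩
  · refine ⟨r, cfc_mem_vn ha c, norm_cfc_le (by norm_num) fun t _ => hcb t, ?_⟩
    rw [e2, sub_mul, one_mul, smul_mul_assoc, k3, smul_zero, sub_zero]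
  · refine ⟨r', cfc_mem_vn ha c', norm_cfc_le (by norm_num) fun t _ => hcb' t, ?_⟩
    rw [e3, sub_sub_cancel, sub_mul, one_mul, smul_mul_assoc, k1, smul_zero, sub_zero]
  · intro q hq haq
    have hqs : star q = q := hq.isSelfAdjoint.star_eq
    have hqi : q * q = q := hq.isIdempotentElem.eq
    have h1 : b * (1 - q) = 0 := by
      rw [e4, mul_assoc, mul_sub, mul_one, haq, sub_self, mul_zero]
    have h2 : kp b * (1 - q) = 1 - q := by
      ext v
      rw [mul_apply_eq_comp]
      apply kp_apply_of_ker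
      have := congrArg (fun T : H →L[ℂ] H => T v) h1
      simpa using this
    have h3 : (1 - kp b) * (1 - q) = 0 := by rw [sub_mul, one_mul, h2, sub_self]
    have h4 := congrArg star h3
    rw [star_mul, star_sub, star_sub, star_one, hqs, hKs, star_zero, sub_mul, one_mul,
      sub_eq_zero] at h4
    exact h4.symm

theorem ug1_norm {p : H →L[ℂ] H} (hp : IsStarProjection p) : ‖p‖ ≤ 1 := by
  have h1 : ‖star p * p‖ = ‖p‖ * ‖p‖ := CStarRing.norm_star_mul_self
  rw [hp.isSelfAdjoint.star_eq, hp.isIdempotentElem.eq] at h1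
  by_contra h
  push Not at h
  nlinarith

theorem ug1_neg {τ : (H →L[ℂ] H) →ₗ[ℂ] ℂ} (x : H →L[ℂ] H) : n2 τ (-x) = n2 τ x := by
  unfold n2
  rw [star_neg, neg_mul_neg]

/-- two-sided bound -/
theorem ug1_two {M : VonNeumannAlgebra H} {τ : (H →L[ℂ] H) →ₗ[ℂ] ℂ} (hτ : IsNormalTrace M τ)
    {c d x : H →L[ℂ] H} (hc : c ∈ M) (hd : d ∈ M) (hx : x ∈ M) (C D : ℝ) (hC : ‖c‖ ≤ C)
    (hD : ‖d‖ ≤ D) : n2 τ (c * x * d) ≤ C ^ 2 * D ^ 2 * n2 τ x := by
  have h1 := hτ.n2_mul_right hd (vn_mul hc hx)
  have h2 := hτ.n2_mul_left hc hx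
  have h3 := hτ.n2_nonneg hx
  have h4 := hτ.n2_nonneg (vn_mul hc hx)
  have h5 : ‖c‖ ^ 2 ≤ C ^ 2 := pow_le_pow_left₀ (norm_nonneg _) hC 2
  have h6 : ‖d‖ ^ 2 ≤ D ^ 2 := pow_le_pow_left₀ (norm_nonneg _) hD 2
  calc n2 τ (c * x * d) ≤ ‖d‖ ^ 2 * n2 τ (c * x) := h1
    _ ≤ D ^ 2 * n2 τ (c * x) := mul_le_mul_of_nonneg_right h6 h4
    _ ≤ D ^ 2 * (‖c‖ ^ 2 * n2 τ x) := mul_le_mul_of_nonneg_left h2 (by positivity)
    _ ≤ D ^ 2 * (C ^ 2 * n2 τ x) := by gcongr
    _ = _ := by ring

end UG1aux

/-- UG1 -/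
theorem UG1 : St_UG1 := by
  intro H _ _ _ M τ T k W hW hWp hqW ε hε
  have hτ := T.tr
  obtain ⟨L0, y, hy, hyε⟩ := T.dense W hW (ε / 16) (by positivity)
  have hmono : ∀ n m, n ≤ m → ∀ x ∈ T.B n, x ∈ T.B m := by
    intro n m hnm
    induction m, hnm using Nat.le_induction with
    | base => exact fun x hx => hx
    | succ m _ ih => exact fun x hx => T.B_mono m x (ih x hx)
  set L := max L0 (k + 1) with hL
  -- the window
  have hp : ∀ t < 2, ∀ c < 2, pth t c < 64 := by decide
  have hne : ∀ t < 2, ∀ c < 2, ∀ t' < 2, ∀ c' < 2, pth t c = pth t' c' → t = t' ∧ c = c' := by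
    intro t ht c hc t' ht' c' hc'
    interval_cases t <;> interval_cases c <;> interval_cases t' <;> interval_cases c' <;>
      simp [pth]
  have hqdef : T.q k = ∑ t ∈ Finset.range 2, ∑ c ∈ Finset.range 2,
      T.f k (pth t c) (pth t c) := by
    unfold Tower.q Tower.phi
    rw [Finset.sum_range_succ (fun t => ∑ c ∈ Finset.range 2, T.f k (pth t c) (pth t c)) 1,
      Finset.sum_range_one]
  have hqs : star (T.q k) = T.q k := by
    rw [hqdef, star_sum]
    refine Finset.sum_congr rfl fun t ht => ?_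
    rw [star_sum]
    refine Finset.sum_congr rfl fun c hc => ?_
    exact (T.fMU k).star _ (hp t (Finset.mem_range.mp ht) c (Finset.mem_range.mp hc)) _
      (hp t (Finset.mem_range.mp ht) c (Finset.mem_range.mp hc))
  have hqi : T.q k * T.q k = T.q k := by
    have h1 : ∀ t < 2, ∀ c < 2, T.f k (pth t c) (pth t c) * T.q k = T.f k (pth t c) (pth t c) := by
      intro t ht c hc
      rw [hqdef, Finset.mul_sum, Finset.sum_eq_single t]
      · rw [Finset.mul_sum, Finset.sum_eq_single c]
        · rw [(T.fMU k).mul _ (hp t ht c hc) _ (hp t ht c hc) _ (hp t ht c hc) _ (hp t ht c hc),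
            if_pos rfl]
        · intro c' hc' hcc
          rw [Finset.mem_range] at hc'
          rw [(T.fMU k).mul _ (hp t ht c hc) _ (hp t ht c hc) _ (hp t ht c' hc') _
            (hp t ht c' hc'), if_neg]
          intro h
          exact hcc (hne t ht c hc t ht c' hc' h).2.symm
        · intro h
          exact absurd (Finset.mem_range.mpr hc) h
      · intro t' ht' htt
        rw [Finset.mem_range] at ht'
        rw [Finset.mul_sum]
        refine Finset.sum_eq_zero fun c' hc' => ?_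
        rw [Finset.mem_range] at hc'
        rw [(T.fMU k).mul _ (hp t ht c hc) _ (hp t ht c hc) _ (hp t' ht' c' hc') _
            (hp t' ht' c' hc'), if_neg]
        intro h
        exact htt (hne t ht c hc t' ht' c' hc' h).1.symm
      · intro h
        exact absurd (Finset.mem_range.mpr ht) h
    have h2 : (∑ t ∈ Finset.range 2, ∑ c ∈ Finset.range 2, T.f k (pth t c) (pth t c)) * T.q k =
        ∑ t ∈ Finset.range 2, ∑ c ∈ Finset.range 2, T.f k (pth t c) (pth t c) := by
      rw [Finset.sum_mul]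
      refine Finset.sum_congr rfl fun t ht => ?_
      rw [Finset.sum_mul]
      refine Finset.sum_congr rfl fun c hc => ?_
      exact h1 t (Finset.mem_range.mp ht) c (Finset.mem_range.mp hc)
    rwa [← hqdef] at h2
  have hqB : T.q k ∈ T.B (k + 1) := by
    rw [hqdef]
    refine sum_mem fun t ht => sum_mem fun c hc => ?_
    exact T.f_mem k _ (hp t (Finset.mem_range.mp ht) c (Finset.mem_range.mp hc)) _
      (hp t (Finset.mem_range.mp ht) c (Finset.mem_range.mp hc))
  generalize T.q k = q at hqW hqs hqi hqB ⊢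
  have hqp : IsStarProjection q := ⟨hqi, hqs⟩
  have hWs : star W = W := hWp.isSelfAdjoint.star_eq
  have hWi : W * W = W := hWp.isIdempotentElem.eq
  have hWq : W * q = W := by
    have := congrArg star hqW
    rwa [star_mul, hWs, hqs] at this
  have hqL : q ∈ T.B L := hmono _ _ (le_max_right _ _) q hqB
  have hyL : y ∈ T.B L := hmono _ _ (le_max_left _ _) y hy
  have hBM : ∀ x ∈ T.B L, x ∈ M := fun x hx => T.B_sub L x hx
  have hqM := hBM q hqL
  have hyM := hBM y hyL
  set hf : H →L[ℂ] H := ((1 / 2 : ℂ)) • (1 : H →L[ℂ] H) with hhf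
  have hfL : hf ∈ T.B L := vn_smul _ (vn_one _)
  have hfM := hBM hf hfL
  have hfn : ‖hf‖ ≤ 1 / 2 := by
    rw [hhf, norm_smul]
    have h1 : ‖(1 : H →L[ℂ] H)‖ ≤ 1 := ContinuousLinearMap.norm_id_le
    have h2 : ‖(1 / 2 : ℂ)‖ = 1 / 2 := by norm_num
    rw [h2]
    linarith
  have hfs : star hf = hf := by
    rw [hhf, star_smul, star_one]
    congr 1
    simp
  have hfc : ∀ x : H →L[ℂ] H, hf * x = x * hf := by
    intro x
    rw [hhf, smul_mul_assoc, mul_smul_comm, one_mul, mul_one]
  set a : H →L[ℂ] H := q * (hf * (y + star y)) * q with ha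
  have haL : a ∈ T.B L :=
    vn_mul (vn_mul hqL (vn_mul hfL (vn_add hyL (vn_star hyL)))) hqL
  have haM := hBM a haL
  have has : IsSelfAdjoint a := by
    show star a = a
    rw [ha, star_mul, star_mul, star_mul, star_add, star_star, hqs, hfs, add_comm (star y) y,
      ← hfc, mul_assoc]
    simp only [mul_assoc]
  have haq : a * q = a := by rw [ha, mul_assoc, hqi]
  obtain ⟨P, hPL, hP, ⟨r, hrL, hrn, hr⟩, ⟨r', hrL', hrn', hr'⟩, hPq⟩ := ug1_spec haL has
  have hPM := hBM P hPL
  have hPi : P * P = P := hP.isIdempotentElem.eq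
  refine ⟨L, le_max_right _ _, P, hPL, hP, hPq q hqp haq, ?_⟩
  set z := a - W with hz
  have hzM : z ∈ M := vn_sub haM hW
  -- the distance between `a` and `W`
  have hz2 : n2 τ z ≤ ε / 16 := by
    have h1 : z = q * (hf * ((y - W) + star (y - W))) * q := by
      have h2 : hf * (W + W) = W := by
        rw [hhf, smul_mul_assoc, one_mul, ← two_smul ℂ W, smul_smul]
        norm_num
      have h3 : q * (hf * (W + star W)) * q = W := by
        rw [hWs, h2, hqW, hWq]
      calc z = a - q * (hf * (W + star W)) * q := by rw [h3]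
        _ = _ := by rw [ha, star_sub]; noncomm_ring
    have hu : y - W ∈ M := vn_sub hyM hW
    have hus : star (y - W) ∈ M := vn_star hu
    have h4 := ug1_two hτ hqM hqM (vn_mul hfM (vn_add hu hus)) 1 1 (ug1_norm hqp) (ug1_norm hqp)
    have h5 := hτ.n2_mul_left hfM (vn_add hu hus)
    have h6 := hτ.n2_add hu hus
    have h7 := hτ.n2_star hu
    have h8 : n2 τ (y - W) = n2 τ (W - y) := by rw [← ug1_neg, neg_sub]
    have h9 : ‖hf‖ ^ 2 ≤ (1 / 2) ^ 2 := pow_le_pow_left₀ (norm_nonneg _) hfn 2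
    have h10 := hτ.n2_nonneg (vn_add hu hus)
    rw [h1]
    calc n2 τ (q * (hf * ((y - W) + star (y - W))) * q)
        ≤ 1 ^ 2 * 1 ^ 2 * n2 τ (hf * ((y - W) + star (y - W))) := h4
      _ = n2 τ (hf * ((y - W) + star (y - W))) := by ring
      _ ≤ ‖hf‖ ^ 2 * n2 τ ((y - W) + star (y - W)) := h5
      _ ≤ (1 / 2) ^ 2 * n2 τ ((y - W) + star (y - W)) := mul_le_mul_of_nonneg_right h9 h10
      _ ≤ (1 / 2) ^ 2 * (2 * n2 τ (y - W) + 2 * n2 τ (star (y - W))) := by gcongr
      _ = n2 τ (W - y) := by rw [h7, h8]; ring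
      _ ≤ ε / 16 := hyε
  have hrM := hBM r hrL
  have hrM' := hBM r' hrL'
  have hPn := ug1_norm hP
  have hP1 : IsStarProjection (1 - P) := hP.one_sub
  have hPn1 := ug1_norm hP1
  have hW1 : IsStarProjection (1 - W) := hWp.one_sub
  have b1 : n2 τ ((1 - W) * P) ≤ 4 * n2 τ z := by
    have h1 : (1 - W) * P = (1 - W) * z * (r * P) := by
      have h2 : (1 - W) * W = 0 := by rw [sub_mul, one_mul, hWi, sub_self]
      calc (1 - W) * P = (1 - W) * (a * r * P) := by rw [hr]
        _ = (1 - W) * z * (r * P) + (1 - W) * W * (r * P) := by rw [hz]; noncomm_ring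
        _ = _ := by rw [h2, zero_mul, add_zero]
    have h3 : ‖r * P‖ ≤ 2 := by
      refine (norm_mul_le _ _).trans ?_
      nlinarith [norm_nonneg r, norm_nonneg P]
    have h4 := ug1_two hτ (vn_sub (vn_one M) hW) (vn_mul hrM hPM) hzM 1 2 (ug1_norm hW1) h3
    rw [h1]
    linarith
  have b2 : n2 τ (W * (1 - P)) ≤ 4 * n2 τ z := by
    have h1 : W * (1 - P) = -(W * z * (r' * (1 - P))) := by
      calc W * (1 - P) = W * ((1 - a) * r' * (1 - P)) := by rw [hr']
        _ = (W - W * a) * (r' * (1 - P)) := by noncomm_ring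
        _ = (W * W - W * a) * (r' * (1 - P)) := by rw [hWi]
        _ = _ := by rw [hz]; noncomm_ring
    have h3 : ‖r' * (1 - P)‖ ≤ 2 := by
      refine (norm_mul_le _ _).trans ?_
      nlinarith [norm_nonneg r', norm_nonneg (1 - P)]
    have h4 := ug1_two hτ hW (vn_mul hrM' (vn_sub (vn_one M) hPM)) hzM 1 2 (ug1_norm hWp) h3
    rw [h1, ug1_neg]
    linarith
  have b3 : W - P = W * (1 - P) + -((1 - W) * P) := by noncomm_ring
  have b4 := hτ.n2_add (vn_mul hW (vn_sub (vn_one M) hPM))
    (neg_mem (vn_mul (vn_sub (vn_one M) hW) hPM))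
  rw [ug1_neg] at b4
  rw [b3]
  linarith

end Pool.Agent.H98R2.RR
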